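import Mathlib

/-!
# A basis with prescribed members (MP_5e96a2_al)
-/

set_option autoImplicit false

namespace Pool.Agent.P5e96

open Module

theorem exists_basis_of_embedding {K : Type*} [Field K] {V : Type*} [AddCommGroup V] [Module K V]
    [FiniteDimensional K V] {J ι : Type*} [Fintype J] (w : ι → V) (hw : LinearIndependent K w)
    (f : ι → J) (hf : Function.Injective f) (hcard : Fintype.card J = finrank K V) :
    ∃ b : Module.Basis J K V, ∀ i, b (f i) = w i := by
  classical
  let B : Set V := hw.linearIndepOn_id.extend (Set.subset_univ (Set.range w))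
  let b₀ : Basis B K V := Basis.extend hw.linearIndepOn_id
  have hb₀ : ∀ x : B, b₀ x = (x : V) := fun x => Basis.extend_apply_self hw.linearIndepOn_id x
  have hwB : ∀ i, w i ∈ B := fun i =>
    hw.linearIndepOn_id.subset_extend (Set.subset_univ (Set.range w)) ⟨i, rfl⟩
  have : Finite B := Module.Finite.finite_basis b₀
  have : Fintype B := Fintype.ofFinite B
  have hc : Fintype.card J = (B.toFinset).card := by
    rw [hcard, finrank_eq_card_basis b₀, Set.toFinset_card]
  have hmaps : Set.MapsTo (Function.extend f w 0) (Set.range f) (B.toFinset : Finset V) := by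
    rintro _ ⟨i, rfl⟩
    rw [hf.extend_apply]
    simpa using hwB i
  have hinj : Set.InjOn (Function.extend f w 0) (Set.range f) := by
    rintro _ ⟨i, rfl⟩ _ ⟨j, rfl⟩ hij
    rw [hf.extend_apply, hf.extend_apply] at hij
    rw [hw.injective hij]
  obtain ⟨g, hg⟩ := hmaps.exists_equiv_extend_of_card_eq hc hinj
  let e : {x // x ∈ B.toFinset} ≃ B := Equiv.subtypeEquivRight (fun x => by simp)
  refine ⟨b₀.reindex (g.trans e).symm, fun i => ?_⟩
  rw [Basis.reindex_apply, Equiv.symm_symm, hb₀]
  have h1 : (((g.trans e) (f i) : B) : V) = (g (f i) : V) := rfl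
  rw [h1, hg (f i) ⟨i, rfl⟩, hf.extend_apply]

end Pool.Agent.P5e96
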