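import Mathlib

/-!
# Cyclic staircases

`pi` is a permutation without short cycles. Variable `q` sits on a loop if `q` is odd and on an
edge of `pi` if `q` is even. A list of variables gives a walk; the monomial of the walk records at
which vertex every variable is used. The list `1, 2, ..., r` is determined by its monomial.
-/

open Finset MvPolynomial

namespace Pool.Agent.P5e96

variable {ι : Type*} [DecidableEq ι]

/-- The step of variable `q`: `0` if `q` is odd, `1` if `q` is even. -/
def eps (q : ℕ) : ℕ := if Even q then 1 else 0

/-- The total step of a list of variables. -/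
def tot (l : List ℕ) : ℕ := (l.map eps).sum

/-- The vertices at which the variables of a list are used, as a monomial. -/
noncomputable def expo (π : Equiv.Perm ι) : List ℕ → ι → (ℕ × ι →₀ ℕ)
  | [], _ => 0
  | q :: l, v => Finsupp.single (q, v) 1 + expo π l ((π ^ eps q) v)

theorem expo_mem (π : Equiv.Perm ι) (l : List ℕ) (v : ι) (q : ℕ) (u : ι)
    (h : expo π l v (q, u) ≠ 0) : q ∈ l ∧ ∃ k ≤ tot l, u = (π ^ k) v := by
  induction l generalizing v with
  | nil => simp [expo] at h
  | cons a l ih =>
    rw [expo, Finsupp.add_apply] at h
    by_cases h1 : Finsupp.single (a, v) 1 (q, u) = 0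
    · rw [h1, zero_add] at h
      obtain ⟨h2, k, hk, h3⟩ := ih _ h
      refine ⟨List.mem_cons_of_mem _ h2, k + eps a, ?_, ?_⟩
      · simp only [tot, List.map_cons, List.sum_cons]
        rw [tot] at hk
        omega
      · rw [h3, pow_add, Equiv.Perm.mul_apply]
    · rw [Finsupp.single_apply] at h1
      by_cases h2 : (a, v) = (q, u)
      · obtain ⟨rfl, rfl⟩ := Prod.mk.inj h2
        exact ⟨List.mem_cons_self, 0, Nat.zero_le _, by simp⟩
      · simp [h2] at h1

/-- The interval `s, s + 1, ..., r`. -/
def ival (s r : ℕ) : List ℕ := List.range' s (r + 1 - s)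

theorem ival_cons {s r : ℕ} (h : s ≤ r) : ival s r = s :: ival (s + 1) r := by
  rw [ival, ival, show r + 1 - s = (r + 1 - (s + 1)) + 1 by omega, List.range'_succ]

theorem ival_nil {s r : ℕ} (h : r < s) : ival s r = [] := by
  rw [ival, show r + 1 - s = 0 by omega]
  rfl

theorem tot_perm {l l' : List ℕ} (h : l.Perm l') : tot l = tot l' := by
  rw [tot, tot]
  exact (h.map _).sum_eq

/-- The list `s, ..., r` is determined by its monomial. -/
theorem ival_unique (π : Equiv.Perm ι) (N : ℕ) (hπ : ∀ v, ∀ k, 1 ≤ k → k ≤ N → (π ^ k) v ≠ v)
    (r : ℕ) (d : ℕ) : ∀ (s : ℕ), 1 ≤ s → r + 1 - s = d → ∀ (l : List ℕ), l.Perm (ival s r) →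
    tot l ≤ N → ∀ v, expo π l v = expo π (ival s r) v → l = ival s r := by
  induction d with
  | zero =>
    intro s hs hd l hl _ v _
    rw [ival_nil (by omega)] at hl ⊢
    exact List.Perm.eq_nil hl
  | succ d ih =>
    intro s hs hd l hl hN v he
    have hsr : s ≤ r := by omega
    have hc := ival_cons hsr
    match l, hl, hN, he with
    | [], hl, _, _ =>
      rw [hc] at hl
      exact absurd hl.symm (by simp)
    | q :: l', hl, hN, he =>
      have hq : q = s := by
        by_contra hqs
        -- the variable `q` is used at `v`, hence it is `s + 1` with `s` odd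
        have h1 : expo π (ival s r) v (q, v) ≠ 0 := by
          rw [← he, expo, Finsupp.add_apply]
          simp
        have h2 : expo π (q :: l') v (s, v) ≠ 0 := by
          rw [he, hc, expo, Finsupp.add_apply]
          simp
        rw [expo, Finsupp.add_apply, Finsupp.single_apply, if_neg (by simp [hqs]), zero_add] at h2
        obtain ⟨_, k, hk, hv⟩ := expo_mem π l' _ s v h2
        rw [← Equiv.Perm.mul_apply, ← pow_add] at hv
        have ht : tot (q :: l') = eps q + tot l' := by
          simp [tot]
        have hk0 : k + eps q = 0 := by
          by_contra hne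
          exact hπ v (k + eps q) (by omega) (by omega) hv.symm
        -- so `q` is odd
        have hqodd : eps q = 0 := by omega
        rw [hc, expo, Finsupp.add_apply, Finsupp.single_apply,
          if_neg (by simp [Ne.symm hqs]), zero_add] at h1
        have htot : tot (ival s r) = tot (q :: l') := (tot_perm hl).symm
        by_cases hse : Even s
        · obtain ⟨_, k', hk', hv'⟩ := expo_mem π _ _ q v h1
          rw [← Equiv.Perm.mul_apply, ← pow_add] at hv'
          have h5 : tot (ival s r) = eps s + tot (ival (s + 1) r) := by
            rw [hc]; simp [tot]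
          have h6 : eps s = 1 := by simp [eps, hse]
          exact hπ v (k' + eps s) (by omega) (by omega) hv'.symm
        · -- `s` is odd, so `s + 1` is the next one
          have h6 : eps s = 0 := by simp [eps, hse]
          rw [h6, pow_zero, Equiv.Perm.one_apply] at h1
          by_cases hsr' : s + 1 ≤ r
          · rw [ival_cons hsr', expo, Finsupp.add_apply] at h1
            have hs1 : Even (s + 1) := by
              rw [Nat.even_add_one]; exact hse
            have hqs1 : q ≠ s + 1 := by
              rintro rfl
              simp [eps, hs1] at hqodd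
            rw [Finsupp.single_apply, if_neg (by simp [Ne.symm hqs1]), zero_add] at h1
            obtain ⟨_, k', hk', hv'⟩ := expo_mem π _ _ q v h1
            rw [← Equiv.Perm.mul_apply, ← pow_add] at hv'
            have h5 : tot (ival s r) = eps s + (eps (s + 1) + tot (ival (s + 1 + 1) r)) := by
              rw [hc, ival_cons hsr']; simp [tot]
            have h7 : eps (s + 1) = 1 := by simp [eps, hs1]
            exact hπ v (k' + eps (s + 1)) (by omega) (by omega) hv'.symm
          · rw [ival_nil (by omega)] at h1
            simp [expo] at h1
      subst hq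
      rw [hc] at hl he ⊢
      have hl' : l'.Perm (ival (q + 1) r) := List.Perm.cons_inv hl
      have he' : expo π l' ((π ^ eps q) v) = expo π (ival (q + 1) r) ((π ^ eps q) v) := by
        rw [expo, expo] at he
        exact add_left_cancel he
      have ht : tot (q :: l') = eps q + tot l' := by
        simp [tot]
      rw [ih (q + 1) (by omega) (by omega) l' hl' (by omega) _ he']

end Pool.Agent.P5e96
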