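import Mathlib
import Pool.Agent.Lib.P5e96.Walk

/-!
# An invertible value of the part of the polynomial that starts with the first variable
-/

open Finset MvPolynomial Matrix

namespace Pool.Agent.P5e96

variable {K : Type*} [Field K] {ι : Type*} [DecidableEq ι] [Fintype ι]

/-- The matrix of variable `q`: weights on loops or on the edges of `π`. -/
def cmat (π : Equiv.Perm ι) (w : ℕ × ι → K) (q : ℕ) : Matrix ι ι K :=
  fun i j => if j = (π ^ eps q) i then w (q, i) else 0

theorem cmat_prod (π : Equiv.Perm ι) (w : ℕ × ι → K) (l : List ℕ) (i j : ι) :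
    (l.map (cmat π w)).prod i j =
      if j = (π ^ tot l) i then eval w (monomial (expo π l i) (1 : K)) else 0 := by
  induction l generalizing i with
  | nil =>
    simp only [List.map_nil, List.prod_nil, tot, List.sum_nil, pow_zero, Equiv.Perm.one_apply,
      expo, monomial_zero', map_one, Matrix.one_apply, eq_comm]
  | cons q l ih =>
    rw [List.map_cons, List.prod_cons, Matrix.mul_apply,
      Finset.sum_eq_single ((π ^ eps q) i)]
    · rw [ih]
      have h1 : (π ^ tot (q :: l)) i = (π ^ tot l) ((π ^ eps q) i) := by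
        rw [← Equiv.Perm.mul_apply, ← pow_add]
        simp only [tot, List.map_cons, List.sum_cons]
        rw [add_comm]
      rw [h1]
      by_cases h : j = (π ^ tot l) ((π ^ eps q) i)
      · rw [if_pos h, if_pos h, cmat, if_pos rfl, expo]
        simp [eval_monomial, Finsupp.prod_add_index', pow_add]
      · rw [if_neg h, if_neg h, mul_zero]
    · intro b _ hb
      rw [cmat, if_neg hb, zero_mul]
    · intro h
      exact absurd (mem_univ _) h

variable {r : ℕ}

/-- The variables after the first one, in the order of the monomial `σ`. -/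
def tailList (σ : Equiv.Perm (Fin (r + 1))) : List ℕ :=
  List.ofFn fun t : Fin r => ((σ t.succ : Fin (r + 1)) : ℕ)

theorem tailList_perm (σ : Equiv.Perm (Fin (r + 1))) (h : σ 0 = 0) :
    (tailList σ).Perm (ival 1 r) := by
  rw [List.perm_ext_iff_of_nodup]
  · intro a
    rw [tailList, List.mem_ofFn', Set.mem_range, ival, List.mem_range'_1]
    constructor
    · rintro ⟨t, rfl⟩
      have h1 := (σ t.succ).2
      have h2 : ((σ t.succ : Fin (r + 1)) : ℕ) ≠ 0 := by
        intro h0
        have h3 : σ t.succ = σ 0 := by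
          rw [h]
          exact Fin.ext h0
        exact absurd (σ.injective h3) (Fin.succ_ne_zero t)
      omega
    · rintro ⟨h1, h2⟩
      have h3 : a < r + 1 := by omega
      have h4 : σ.symm ⟨a, h3⟩ ≠ 0 := by
        intro h0
        have h5 : (⟨a, h3⟩ : Fin (r + 1)) = σ 0 := by rw [← h0, Equiv.apply_symm_apply]
        rw [h] at h5
        have := congrArg Fin.val h5
        simp at this
        omega
      obtain ⟨t, ht⟩ := Fin.exists_succ_eq.2 h4
      exact ⟨t, by rw [ht, Equiv.apply_symm_apply]⟩
  · rw [tailList, List.nodup_ofFn]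
    intro s t hst
    have h1 := σ.injective (Fin.ext hst)
    exact Fin.succ_injective _ h1
  · exact List.nodup_range' 

theorem tailList_one : tailList (1 : Equiv.Perm (Fin (r + 1))) = ival 1 r := by
  rw [tailList, ival]
  apply List.ext_getElem
  · simp
  · intro i h1 h2
    simp
    omega

theorem tailList_inj (σ : Equiv.Perm (Fin (r + 1))) (h : σ 0 = 0)
    (h1 : tailList σ = ival 1 r) : σ = 1 := by
  rw [← tailList_one, tailList, tailList] at h1
  have h2 := List.ofFn_injective h1
  ext i
  by_cases hi : i = 0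
  · rw [hi, h]
    rfl
  · obtain ⟨t, rfl⟩ := Fin.exists_succ_eq.2 hi
    exact congrFun h2 t

/-- The polynomial in the weights: the nonzero entry in row `v`. -/
noncomputable def gam (π : Equiv.Perm ι) (α : Equiv.Perm (Fin (r + 1)) → K) (v : ι) :
    MvPolynomial (ℕ × ι) K :=
  ∑ σ : Equiv.Perm (Fin (r + 1)), if σ 0 = 0 then monomial (expo π (tailList σ) v) (α σ) else 0

omit [Fintype ι] in
theorem gam_ne_zero (π : Equiv.Perm ι) (hπ : ∀ v, ∀ k, 1 ≤ k → k ≤ tot (ival 1 r) → (π ^ k) v ≠ v)
    (α : Equiv.Perm (Fin (r + 1)) → K) (hα : α 1 ≠ 0) (v : ι) : gam π α v ≠ 0 := by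
  intro h0
  have h1 : (gam π α v).coeff (expo π (ival 1 r) v) = 0 := by rw [h0, coeff_zero]
  apply hα
  rw [← h1, gam, coeff_sum, Finset.sum_eq_single (1 : Equiv.Perm (Fin (r + 1)))]
  · rw [if_pos (show (1 : Equiv.Perm (Fin (r + 1))) 0 = 0 from rfl), coeff_monomial,
      if_pos (by rw [tailList_one])]
  · intro σ _ hσ
    split_ifs with h2
    · rw [coeff_monomial, if_neg]
      intro h3
      apply hσ
      have hp := tailList_perm σ h2
      exact tailList_inj σ h2 (ival_unique π (tot (ival 1 r)) hπ r _ 1 le_rfl rfl _ hp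
        (le_of_eq (tot_perm hp)) v h3)
    · exact coeff_zero _
  · intro h
    exact absurd (mem_univ _) h

/-- Weights for which no entry vanishes. -/
theorem exists_weights [Infinite K] (π : Equiv.Perm ι)
    (hπ : ∀ v, ∀ k, 1 ≤ k → k ≤ tot (ival 1 r) → (π ^ k) v ≠ v)
    (α : Equiv.Perm (Fin (r + 1)) → K) (hα : α 1 ≠ 0) :
    ∃ w : ℕ × ι → K, ∀ v, eval w (gam π α v) ≠ 0 := by
  have h1 : (∏ v, gam π α v) ≠ 0 := Finset.prod_ne_zero_iff.2 fun v _ => gam_ne_zero π hπ α hα v
  by_contra hcon
  push Not at hcon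
  apply h1
  apply MvPolynomial.funext
  intro w
  obtain ⟨v, hv⟩ := hcon w
  rw [map_prod, map_zero]
  exact Finset.prod_eq_zero (mem_univ v) hv

/-- The value of the part of the polynomial that starts with the first variable. -/
noncomputable def gmat (α : Equiv.Perm (Fin (r + 1)) → K) (C : ℕ → Matrix ι ι K) : Matrix ι ι K :=
  ∑ σ : Equiv.Perm (Fin (r + 1)), if σ 0 = 0 then α σ • ((tailList σ).map C).prod else 0

theorem gmat_cmat (π : Equiv.Perm ι) (α : Equiv.Perm (Fin (r + 1)) → K) (w : ℕ × ι → K)
    (i j : ι) : gmat α (cmat π w) i j =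
      if j = (π ^ tot (ival 1 r)) i then eval w (gam π α i) else 0 := by
  rw [gmat, Matrix.sum_apply, gam, map_sum]
  by_cases h : j = (π ^ tot (ival 1 r)) i
  · rw [if_pos h]
    refine Finset.sum_congr rfl fun σ _ => ?_
    split_ifs with h1
    · rw [Matrix.smul_apply, cmat_prod, tot_perm (tailList_perm σ h1), if_pos h, eval_monomial,
        eval_monomial, one_mul, smul_eq_mul]
    · rw [map_zero]
      rfl
  · rw [if_neg h]
    refine Finset.sum_eq_zero fun σ _ => ?_
    split_ifs with h1
    · rw [Matrix.smul_apply, cmat_prod, tot_perm (tailList_perm σ h1), if_neg h, smul_zero]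
    · rfl

theorem mul_gmat_injective (π : Equiv.Perm ι) (α : Equiv.Perm (Fin (r + 1)) → K)
    (w : ℕ × ι → K) (hw : ∀ v, eval w (gam π α v) ≠ 0) (X : Matrix ι ι K)
    (hX : X * gmat α (cmat π w) = 0) : X = 0 := by
  ext i k
  have h1 := congrFun (congrFun hX i) ((π ^ tot (ival 1 r)) k)
  rw [Matrix.mul_apply, Finset.sum_eq_single k] at h1
  · rw [gmat_cmat, if_pos rfl, Matrix.zero_apply] at h1
    exact (mul_eq_zero.1 h1).resolve_right (hw k)
  · intro b _ hb
    rw [gmat_cmat, if_neg, mul_zero]
    intro h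
    exact hb (((π ^ tot (ival 1 r)).injective h).symm)
  · intro h
    exact absurd (mem_univ _) h

end Pool.Agent.P5e96
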