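import Mathlib
import Pool.Agent.Lib.P5e96.Stair

/-!
# Matrices with vanishing diagonal blocks are values of multilinear polynomials
-/

open Finset Matrix

namespace Pool.Agent.P5e96

variable {K : Type*} [Field K] {ι : Type*} [DecidableEq ι] [Fintype ι]

/-- The value at the matrices `A 0, ..., A (m - 1)` of the multilinear polynomial
`∑ σ, α σ * x (σ 0) * x (σ 1) * ... * x (σ (m - 1))` in noncommuting variables. -/
def mval {m : ℕ} (α : Equiv.Perm (Fin m) → K) (A : Fin m → Matrix ι ι K) : Matrix ι ι K :=
  ∑ σ : Equiv.Perm (Fin m), α σ • (List.ofFn fun i => A (σ i)).prod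

/-! ### A pencil of endomorphisms -/

theorem finite_bad {V : Type*} [AddCommGroup V] [Module K V] [FiniteDimensional K V]
    {κ : Type*} [Fintype κ] (E : κ → V →ₗ[K] V) (e : κ → ℕ)
    (h0 : Function.Injective (∑ i, (0 : K) ^ e i • E i : V →ₗ[K] V)) :
    {z : K | ¬ Function.Injective (∑ i, z ^ e i • E i : V →ₗ[K] V)}.Finite := by
  classical
  set b := Module.finBasis K V with hb
  set P : Matrix (Fin (Module.finrank K V)) (Fin (Module.finrank K V)) (Polynomial K) :=
    ∑ i, (Polynomial.X ^ e i : Polynomial K) • (LinearMap.toMatrix b b (E i)).map Polynomial.C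
    with hP
  have hev : ∀ z : K, Polynomial.eval z P.det =
      LinearMap.det (∑ i, z ^ e i • E i : V →ₗ[K] V) := by
    intro z
    rw [← LinearMap.det_toMatrix b, ← Polynomial.coe_evalRingHom, RingHom.map_det]
    congr 1
    ext i j
    rw [hP]
    simp only [map_sum, map_smul, Matrix.sum_apply, RingHom.mapMatrix_apply, Matrix.map_apply,
      Matrix.smul_apply, smul_eq_mul, Polynomial.coe_evalRingHom, Polynomial.eval_mul,
      Polynomial.eval_pow, Polynomial.eval_X, Polynomial.eval_C]
  have hne : P.det ≠ 0 := by
    intro h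
    have h1 := hev 0
    rw [h, Polynomial.eval_zero] at h1
    have h2 : IsUnit (LinearMap.det (∑ i, (0 : K) ^ e i • E i : V →ₗ[K] V)) := by
      rw [← LinearMap.isUnit_iff_isUnit_det, LinearMap.isUnit_iff_ker_eq_bot]
      exact LinearMap.ker_eq_bot.2 h0
    exact h2.ne_zero h1.symm
  refine (Polynomial.finite_setOfPred_isRoot hne).subset ?_
  intro z hz
  rw [Set.mem_ofPred_eq] at hz
  rw [Set.mem_ofPred_eq, Polynomial.IsRoot.def, hev z]
  by_contra hcon
  apply hz
  have h2 : IsUnit (LinearMap.det (∑ i, z ^ e i • E i : V →ₗ[K] V)) := isUnit_iff_ne_zero.2 hcon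
  rw [← LinearMap.isUnit_iff_isUnit_det, LinearMap.isUnit_iff_ker_eq_bot] at h2
  exact LinearMap.ker_eq_bot.1 h2

/-! ### Scales whose ratios avoid a finite set -/

theorem exists_scales [Infinite K] {κ : Type*} (F : Finset κ) (Z : Set K) (hZ : Z.Finite) :
    ∃ s : κ → K, (∀ a, s a ≠ 0) ∧
      ∀ a ∈ F, ∀ b ∈ F, a ≠ b → s a / s b ∉ Z := by
  classical
  induction F using Finset.induction_on with
  | empty => exact ⟨fun _ => 1, fun _ => one_ne_zero, by simp⟩
  | insert c F hc ih =>
    obtain ⟨s, hs0, hs⟩ := ih
    set bad : Set K := {0} ∪ (⋃ b ∈ F, (fun z => z * s b) '' Z) ∪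
      (⋃ b ∈ F, (fun z => s b / z) '' Z) with hbad
    have hfin : bad.Finite := by
      refine ((Set.finite_singleton _).union ?_).union ?_
      · exact F.finite_toSet.biUnion fun b _ => hZ.image _
      · exact F.finite_toSet.biUnion fun b _ => hZ.image _
    obtain ⟨x, hx⟩ := hfin.exists_notMem
    rw [hbad] at hx
    simp only [Set.mem_union, Set.mem_singleton_iff, Set.mem_iUnion, Set.mem_image, not_or,
      not_exists, not_and] at hx
    obtain ⟨⟨hx0, hx1⟩, hx2⟩ := hx
    refine ⟨Function.update s c x, ?_, ?_⟩
    · intro a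
      by_cases ha : a = c
      · subst ha
        rw [Function.update_self]
        exact hx0
      · rw [Function.update_of_ne ha]
        exact hs0 a
    · intro a ha b hb hab hmem
      rw [Finset.mem_insert] at ha hb
      by_cases hac : a = c
      · subst hac
        have hbc : b ≠ a := Ne.symm hab
        rw [Function.update_self, Function.update_of_ne hbc] at hmem
        have hbF := hb.resolve_left hbc
        refine hx1 b hbF _ hmem ?_
        rw [div_mul_cancel₀ _ (hs0 b)]
      · have haF := ha.resolve_left hac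
        by_cases hbc : b = c
        · subst hbc
          rw [Function.update_self, Function.update_of_ne hac] at hmem
          refine hx2 a haF _ hmem ?_
          have : s a ≠ 0 := hs0 a
          field_simp
        · have hbF := hb.resolve_left hbc
          rw [Function.update_of_ne hac, Function.update_of_ne hbc] at hmem
          exact hs a haF b hbF hab hmem

/-! ### Splitting a monomial at the first variable -/

variable {r : ℕ}

/-- The list of the variables of the monomial `σ`. -/
def fullList (σ : Equiv.Perm (Fin (r + 1))) : List ℕ := List.ofFn fun t => ((σ t : Fin (r + 1)) : ℕ)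

/-- The variables before the variable `0`. -/
def preL (σ : Equiv.Perm (Fin (r + 1))) : List ℕ := (fullList σ).take (σ.symm 0)

/-- The variables after the variable `0`. -/
def postL (σ : Equiv.Perm (Fin (r + 1))) : List ℕ := (fullList σ).drop ((σ.symm 0 : Fin (r + 1)) + 1)

theorem length_preL (σ : Equiv.Perm (Fin (r + 1))) : (preL σ).length = (σ.symm 0 : Fin (r + 1)) := by
  rw [preL, List.length_take, fullList, List.length_ofFn]
  have := (σ.symm 0).2
  omega

theorem length_postL (σ : Equiv.Perm (Fin (r + 1))) :
    (postL σ).length = r - (σ.symm 0 : Fin (r + 1)) := by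
  rw [postL, List.length_drop, fullList, List.length_ofFn]
  omega

theorem ofFn_split {β : Type*} (σ : Equiv.Perm (Fin (r + 1))) (X : β) (B : ℕ → β)
    (A : Fin (r + 1) → β) (h0 : A 0 = X) (hB : ∀ q, q ≠ 0 → A q = B q) :
    (List.ofFn fun i => A (σ i)) = (preL σ).map B ++ X :: (postL σ).map B := by
  have hk := (σ.symm 0).2
  apply List.ext_getElem
  · simp only [List.length_ofFn, List.length_append, List.length_map, List.length_cons,
      length_preL, length_postL]
    omega
  · intro i h1 h2
    rw [List.length_ofFn] at h1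
    rw [List.getElem_ofFn, List.getElem_append]
    split_ifs with h3
    · rw [List.length_map, length_preL] at h3
      rw [List.getElem_map]
      have h4 : σ ⟨i, h1⟩ ≠ 0 := by
        intro h5
        have h6 : (⟨i, h1⟩ : Fin (r + 1)) = σ.symm 0 := by
          rw [← h5, Equiv.symm_apply_apply]
        rw [← h6] at h3
        simp at h3
      rw [hB _ h4]
      simp only [preL, fullList, List.getElem_take, List.getElem_ofFn]
    · rw [List.length_map, length_preL] at h3
      rw [List.getElem_cons]
      simp only [List.length_map, length_preL]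
      split_ifs with h5
      · have h6 : (⟨i, h1⟩ : Fin (r + 1)) = σ.symm 0 := Fin.ext (by simp only; omega)
        rw [h6, Equiv.apply_symm_apply, h0]
      · rw [List.getElem_map]
        have h4 : σ ⟨i, h1⟩ ≠ 0 := by
          intro h5'
          have h6 : (⟨i, h1⟩ : Fin (r + 1)) = σ.symm 0 := by
            rw [← h5', Equiv.symm_apply_apply]
          rw [← h6] at h5
          simp at h5
        rw [hB _ h4]
        simp only [postL, fullList, List.getElem_drop, List.getElem_ofFn]
        congr 3
        apply Fin.ext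
        simp only
        omega

/-- The bilinear action of the monomial `σ` when the variable `0` is `X`. -/
noncomputable def act (C : ℕ → Matrix ι ι K) (σ : Equiv.Perm (Fin (r + 1))) :
    Matrix ι ι K →ₗ[K] Matrix ι ι K :=
  LinearMap.mulLeft K ((preL σ).map C).prod ∘ₗ LinearMap.mulRight K ((postL σ).map C).prod

theorem act_apply (C : ℕ → Matrix ι ι K) (σ : Equiv.Perm (Fin (r + 1))) (X : Matrix ι ι K) :
    act C σ X = ((preL σ).map C).prod * (X * ((postL σ).map C).prod) := rfl

theorem prod_map_mul (D : Matrix ι ι K) (C : ℕ → Matrix ι ι K) (hD : ∀ q, Commute D (C q))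
    (l : List ℕ) : (l.map fun q => D * C q).prod = D ^ l.length * (l.map C).prod ∧
      Commute D (l.map C).prod := by
  induction l with
  | nil => simp
  | cons q l ih =>
    obtain ⟨h1, h2⟩ := ih
    refine ⟨?_, ?_⟩
    · rw [List.map_cons, List.prod_cons, h1, List.map_cons, List.prod_cons, List.length_cons,
        pow_succ', mul_assoc, mul_assoc, ← mul_assoc (C q), ← ((hD q).pow_left l.length).eq,
        mul_assoc]
    · rw [List.map_cons, List.prod_cons]
      exact (hD q).mul_right h2

theorem mval_scaled (α : Equiv.Perm (Fin (r + 1)) → K) (D X : Matrix ι ι K)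
    (C : ℕ → Matrix ι ι K) (hD : ∀ q, Commute D (C q)) :
    mval α (fun q => if q = 0 then X else D * C q) =
      ∑ σ : Equiv.Perm (Fin (r + 1)), α σ •
        (D ^ ((σ.symm 0 : Fin (r + 1)) : ℕ) * act C σ X *
          D ^ (r - ((σ.symm 0 : Fin (r + 1)) : ℕ))) := by
  refine Finset.sum_congr rfl fun σ _ => ?_
  rw [ofFn_split σ X (fun q => D * C q) _ (if_pos rfl) (fun q hq => if_neg hq), List.prod_append,
    List.prod_cons, (prod_map_mul D C hD _).1, (prod_map_mul D C hD _).1, length_preL,
    length_postL, act_apply]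
  congr 1
  simp only [mul_assoc]
  rw [((prod_map_mul D C hD (postL σ)).2.pow_left _).eq]

/-- At `z = 0` the pencil is the multiplication by `gmat`. -/
theorem pencil_zero (α : Equiv.Perm (Fin (r + 1)) → K) (C : ℕ → Matrix ι ι K)
    (X : Matrix ι ι K) :
    (∑ σ : Equiv.Perm (Fin (r + 1)), (0 : K) ^ ((σ.symm 0 : Fin (r + 1)) : ℕ) •
      (α σ • act C σ)) X = X * gmat α C := by
  rw [LinearMap.sum_apply, gmat, Finset.mul_sum]
  refine Finset.sum_congr rfl fun σ _ => ?_
  by_cases h : σ 0 = 0
  · have h1 : σ.symm 0 = 0 := by rw [Equiv.symm_apply_eq]; exact h.symm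
    have h2 : preL σ = [] := by rw [preL, h1]; rfl
    have h3 : postL σ = tailList σ := by
      rw [postL, h1, fullList, tailList, List.ofFn_succ]
      rfl
    rw [if_pos h, h1, LinearMap.smul_apply, LinearMap.smul_apply, act_apply, h2, h3]
    simp
  · have h1 : ((σ.symm 0 : Fin (r + 1)) : ℕ) ≠ 0 := by
      intro h2
      apply h
      have h3 : σ.symm 0 = 0 := Fin.ext h2
      rw [Equiv.symm_apply_eq] at h3
      exact h3.symm
    rw [if_neg h, zero_pow h1, zero_smul, LinearMap.zero_apply, mul_zero]

/-! ### The theorem -/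

/-- The projection to a class of the partition. -/
def proj {κ : Type*} [DecidableEq κ] (col : ι → κ) (a : κ) : Matrix ι ι K :=
  Matrix.diagonal fun i => if col i = a then 1 else 0

theorem proj_mul_mul_proj {κ : Type*} [DecidableEq κ] (col : ι → κ) (a b : κ)
    (X : Matrix ι ι K) (i j : ι) : (proj col a * X * proj col b : Matrix ι ι K) i j =
      if col i = a ∧ col j = b then X i j else 0 := by
  rw [proj, proj, Matrix.mul_diagonal, Matrix.diagonal_mul]
  by_cases h1 : col i = a <;> by_cases h2 : col j = b <;> simp [h1, h2]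

theorem cmat_commute {κ : Type*} (col : ι → κ) (π : Equiv.Perm ι)
    (hcol : ∀ v, col (π v) = col v) (w : ℕ × ι → K) (q : ℕ) (s : κ → K) :
    Commute (Matrix.diagonal fun i => s (col i)) (cmat π w q) := by
  have h1 : ∀ (k : ℕ) (v : ι), col ((π ^ k) v) = col v := by
    intro k
    induction k with
    | zero => intro v; simp
    | succ k ih => intro v; rw [pow_succ', Equiv.Perm.mul_apply, hcol, ih]
  ext i j
  rw [Matrix.diagonal_mul, Matrix.mul_diagonal, cmat]
  by_cases h : j = (π ^ eps q) i
  · rw [if_pos h, h, h1, mul_comm]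
  · rw [if_neg h, mul_zero, zero_mul]

/-- A permutation that preserves the classes and has no short cycles. -/
theorem exists_perm {κ : Type*} [DecidableEq κ] (col : ι → κ) (N : ℕ)
    (hN : ∀ i, N < (univ.filter fun j => col j = col i).card) :
    ∃ π : Equiv.Perm ι, (∀ v, col (π v) = col v) ∧
      ∀ v, ∀ k, 1 ≤ k → k ≤ N → (π ^ k) v ≠ v := by
  choose f hf1 hf2 using fun a : κ => Finset.exists_cycleOn (univ.filter fun j => col j = a)
  have hmem : ∀ v, v ∈ univ.filter fun j => col j = col v := fun v =>
    Finset.mem_filter.2 ⟨mem_univ _, rfl⟩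
  have hcol : ∀ v, col (f (col v) v) = col v := by
    intro v
    have h1 := (hf1 (col v)).1.mapsTo (Finset.mem_coe.2 (hmem v))
    exact (Finset.mem_filter.1 (Finset.mem_coe.1 h1)).2
  have hinj : Function.Injective fun v => f (col v) v := by
    intro v v' h
    simp only at h
    have h1 : col v = col v' := by rw [← hcol v, h, hcol v']
    rw [h1] at h
    exact (f (col v')).injective h
  refine ⟨Equiv.ofBijective _ (Finite.injective_iff_bijective.1 hinj), hcol, ?_⟩
  intro v k hk1 hk2 hk
  have h2 : ∀ k : ℕ, ((Equiv.ofBijective _ (Finite.injective_iff_bijective.1 hinj) :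
      Equiv.Perm ι) ^ k) v = (f (col v) ^ k) v ∧
      col ((f (col v) ^ k) v) = col v := by
    intro k
    induction k with
    | zero => simp
    | succ k ih =>
      obtain ⟨ih1, ih2⟩ := ih
      have h3 : (f (col v) ^ (k + 1)) v = f (col v) ((f (col v) ^ k) v) := by
        rw [pow_succ', Equiv.Perm.mul_apply]
      refine ⟨?_, ?_⟩
      · rw [pow_succ', Equiv.Perm.mul_apply, ih1, h3, Equiv.ofBijective_apply, ih2]
      · have h4 := hcol ((f (col v) ^ k) v)
        rw [ih2] at h4
        rw [h3, h4]
  rw [(h2 k).1, (hf1 (col v)).pow_apply_eq (hmem v)] at hk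
  have h5 := Nat.le_of_dvd (by omega) hk
  have h6 := hN v
  omega

theorem tot_ival (r : ℕ) : tot (ival 1 r) = r / 2 := by
  induction r with
  | zero => simp [ival, tot]
  | succ r ih =>
    have h1 : ival 1 (r + 1) = ival 1 r ++ [r + 1] := by
      rw [ival, ival, show r + 1 + 1 - 1 = r + 1 by omega, show r + 1 - 1 = r by omega,
        List.range'_concat]
      simp [add_comm]
    have h2 : tot (ival 1 (r + 1)) = tot (ival 1 r) + eps (r + 1) := by
      rw [h1]; simp [tot]
    rw [h2, ih, eps]
    split_ifs with h
    · obtain ⟨k, hk⟩ := h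
      omega
    · rw [Nat.not_even_iff] at h
      omega

/-- Every matrix whose diagonal blocks vanish is a value, if the first variable starts the
first monomial. -/
theorem zero_block_aux [Infinite K] {κ : Type*} (col : ι → κ)
    (hcol : ∀ i, r / 2 < Set.ncard {j | col j = col i})
    (α : Equiv.Perm (Fin (r + 1)) → K) (hα : α 1 ≠ 0) (T : Matrix ι ι K)
    (hT : ∀ i j, col i = col j → T i j = 0) :
    ∃ A : Fin (r + 1) → Matrix ι ι K, mval α A = T := by
  classical
  have hcol' : ∀ i, r / 2 < (univ.filter fun j => col j = col i).card := by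
    intro i
    have h1 := hcol i
    rw [Set.ncard_eq_toFinset_card'] at h1
    convert h1 using 2
    ext j
    simp
  obtain ⟨π, hπ1, hπ2⟩ := exists_perm col (r / 2) hcol'
  obtain ⟨w, hw⟩ := exists_weights (r := r) π
    (fun v k hk1 hk2 => hπ2 v k hk1 (by rw [tot_ival] at hk2; exact hk2)) α hα
  set C : ℕ → Matrix ι ι K := cmat π w with hC
  set E : Equiv.Perm (Fin (r + 1)) → Matrix ι ι K →ₗ[K] Matrix ι ι K :=
    fun σ => α σ • act C σ with hE
  set e : Equiv.Perm (Fin (r + 1)) → ℕ := fun σ => ((σ.symm 0 : Fin (r + 1)) : ℕ) with he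
  have hfin := finite_bad E e (by
    rw [injective_iff_map_eq_zero]
    intro X hX
    rw [hE, he] at hX
    have h1 := pencil_zero α C X
    rw [h1] at hX
    exact mul_gmat_injective π α w hw X hX)
  obtain ⟨s, hs0, hs⟩ := exists_scales (univ.image col)
    {z : K | ¬ Function.Injective (∑ i, z ^ e i • E i : Matrix ι ι K →ₗ[K] Matrix ι ι K)} hfin
  set D : Matrix ι ι K := Matrix.diagonal fun i => s (col i) with hD
  have hDC : ∀ q, Commute D (C q) := fun q => cmat_commute col π hπ1 w q s
  -- the linear map
  set L : Matrix ι ι K →ₗ[K] Matrix ι ι K := ∑ σ : Equiv.Perm (Fin (r + 1)),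
    (LinearMap.mulLeft K (D ^ e σ) ∘ₗ LinearMap.mulRight K (D ^ (r - e σ))) ∘ₗ E σ with hL
  have hLX : ∀ X, L X = mval α (fun q => if q = 0 then X else D * C q) := by
    intro X
    rw [mval_scaled α D X C hDC, hL, LinearMap.sum_apply]
    refine Finset.sum_congr rfl fun σ _ => ?_
    simp only [hE, LinearMap.comp_apply, LinearMap.smul_apply, LinearMap.mulRight_apply,
      LinearMap.mulLeft_apply, smul_mul_assoc, mul_smul_comm, mul_assoc, he]
  have hPC : ∀ a q, Commute (proj col a) (C q) := fun a q =>
    cmat_commute col π hπ1 w q (fun b => if b = a then 1 else 0)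
  have hPl : ∀ a (l : List ℕ), Commute (proj col a) (l.map C).prod := by
    intro a l
    exact (prod_map_mul _ C (fun q => hPC a q) l).2
  have hPD : ∀ a k, proj col a * D ^ k = s a ^ k • proj col a := by
    intro a k
    rw [hD, Matrix.diagonal_pow, proj, Matrix.diagonal_mul_diagonal]
    ext i j
    rw [Matrix.smul_apply, Matrix.diagonal_apply, Matrix.diagonal_apply]
    by_cases hij : i = j
    · rw [if_pos hij, if_pos hij]
      by_cases hi : col i = a
      · simp [hi]
      · simp [hi]
    · rw [if_neg hij, if_neg hij, smul_zero]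
  have hDP : ∀ a k, D ^ k * proj col a = s a ^ k • proj col a := by
    intro a k
    rw [← hPD a k, hD, Matrix.diagonal_pow, proj, Matrix.diagonal_mul_diagonal,
      Matrix.diagonal_mul_diagonal]
    congr 1
    ext i
    rw [mul_comm]
  have hPE : ∀ a b σ X, proj col a * E σ X * proj col b = E σ (proj col a * X * proj col b) := by
    intro a b σ X
    simp only [hE, LinearMap.smul_apply, act_apply, mul_smul_comm, smul_mul_assoc]
    congr 1
    have h1 := (hPl a (preL σ)).eq
    have h2 := (hPl b (postL σ)).eq
    calc proj col a * (((preL σ).map C).prod * (X * ((postL σ).map C).prod)) * proj col b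
        = (proj col a * ((preL σ).map C).prod) * X *
          (((postL σ).map C).prod * proj col b) := by noncomm_ring
      _ = (((preL σ).map C).prod * proj col a) * X *
          (proj col b * ((postL σ).map C).prod) := by rw [h1, h2]
      _ = _ := by noncomm_ring
  have hPL : ∀ a b X, proj col a * L X * proj col b =
      s b ^ r • (∑ i, (s a / s b) ^ e i • E i : Matrix ι ι K →ₗ[K] Matrix ι ι K)
        (proj col a * X * proj col b) := by
    intro a b X
    rw [hL, LinearMap.sum_apply, Finset.mul_sum, Finset.sum_mul, LinearMap.sum_apply,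
      Finset.smul_sum]
    refine Finset.sum_congr rfl fun σ _ => ?_
    have h1 : e σ ≤ r := by
      rw [he]
      have := (σ.symm 0).2
      simp only
      omega
    calc proj col a * ((LinearMap.mulLeft K (D ^ e σ) ∘ₗ
            LinearMap.mulRight K (D ^ (r - e σ))) ∘ₗ E σ) X * proj col b
        = (proj col a * D ^ e σ) * E σ X * (D ^ (r - e σ) * proj col b) := by
          simp only [LinearMap.comp_apply, LinearMap.mulRight_apply, LinearMap.mulLeft_apply]
          noncomm_ring
      _ = (s a ^ e σ * s b ^ (r - e σ)) • (proj col a * E σ X * proj col b) := by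
          rw [hPD, hDP]
          simp only [smul_mul_assoc, mul_smul_comm, smul_smul, mul_comm]
      _ = s b ^ r • ((s a / s b) ^ e σ • E σ (proj col a * X * proj col b)) := by
          rw [hPE, smul_smul]
          congr 1
          have h2 : s b ^ r = s b ^ (r - e σ) * s b ^ e σ := by
            rw [← pow_add, show r - e σ + e σ = r by omega]
          have h3 := hs0 b
          rw [div_pow, h2]
          field_simp
      _ = _ := rfl
  -- the invariant subspace
  set O : Submodule K (Matrix ι ι K) :=
    { carrier := {X | ∀ a, proj col a * X * proj col a = 0}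
      add_mem' := by
        intro X Y hX hY a
        rw [mul_add, add_mul, hX a, hY a, add_zero]
      zero_mem' := by intro a; simp
      smul_mem' := by
        intro c X hX a
        rw [mul_smul_comm, smul_mul_assoc, hX a, smul_zero] } with hO
  have hmemO : ∀ X, X ∈ O ↔ ∀ a, proj col a * X * proj col a = 0 := fun X => Iff.rfl
  have hLO : ∀ X ∈ O, L X ∈ O := by
    intro X hX a
    rw [hPL, (hmemO X).1 hX a, map_zero, smul_zero]
  have hinj : ∀ X ∈ O, L X = 0 → X = 0 := by
    intro X hX hLX0
    ext i j
    by_cases hij : col i = col j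
    · have h1 := congrFun (congrFun ((hmemO X).1 hX (col i)) i) j
      rw [proj_mul_mul_proj, if_pos ⟨rfl, hij.symm⟩] at h1
      exact h1
    · have h1 := hPL (col i) (col j) X
      rw [hLX0, mul_zero, zero_mul] at h1
      have h2 : (∑ k, (s (col i) / s (col j)) ^ e k • E k : Matrix ι ι K →ₗ[K] Matrix ι ι K)
          (proj col (col i) * X * proj col (col j)) = 0 := by
        rcases smul_eq_zero.1 h1.symm with h3 | h3
        · exact absurd h3 (pow_ne_zero _ (hs0 _))
        · exact h3
      have h4 := hs (col i) (Finset.mem_image_of_mem _ (mem_univ _)) (col j)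
        (Finset.mem_image_of_mem _ (mem_univ _)) hij
      rw [Set.mem_ofPred_eq, not_not] at h4
      have h5 := (injective_iff_map_eq_zero _).1 h4 _ h2
      have h6 := congrFun (congrFun h5 i) j
      rw [proj_mul_mul_proj, if_pos ⟨rfl, rfl⟩] at h6
      exact h6
  have hTO : T ∈ O := by
    intro a
    ext i j
    rw [proj_mul_mul_proj]
    split_ifs with h
    · exact hT i j (h.1.trans h.2.symm)
    · rfl
  have hsurj : Function.Surjective (L.restrict hLO) := by
    rw [← LinearMap.injective_iff_surjective]
    rw [injective_iff_map_eq_zero]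
    rintro ⟨X, hX⟩ h
    have h1 : L X = 0 := congrArg Subtype.val h
    exact Subtype.ext (hinj X hX h1)
  obtain ⟨⟨X, hX⟩, hXT⟩ := hsurj ⟨T, hTO⟩
  refine ⟨fun q => if q = 0 then X else D * C q, ?_⟩
  rw [← hLX]
  exact congrArg Subtype.val hXT

/-- Every matrix whose diagonal blocks vanish is a value. -/
theorem zero_block [Infinite K] {m : ℕ} (hm : 1 ≤ m) {κ : Type*} (col : ι → κ)
    (hcol : ∀ i, (m + 1) / 2 ≤ Set.ncard {j | col j = col i})
    (α : Equiv.Perm (Fin m) → K) (hα : α ≠ 0) (T : Matrix ι ι K)
    (hT : ∀ i j, col i = col j → T i j = 0) :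
    ∃ A : Fin m → Matrix ι ι K, mval α A = T := by
  obtain ⟨r, rfl⟩ : ∃ r, m = r + 1 := ⟨m - 1, by omega⟩
  obtain ⟨σ₀, hσ₀⟩ := Function.ne_iff.1 hα
  obtain ⟨A, hA⟩ := zero_block_aux col (fun i => by have := hcol i; omega)
    (fun τ => α (σ₀ * τ)) (by simpa using hσ₀) T hT
  refine ⟨fun q => A (σ₀.symm q), ?_⟩
  rw [← hA, mval, mval, ← Equiv.sum_comp (Equiv.mulLeft σ₀)]
  refine Finset.sum_congr rfl fun τ _ => ?_
  simp [Equiv.Perm.mul_apply]

end Pool.Agent.P5e96
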