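import Mathlib
import Pool.Agent.Lib.P5e96.Block

/-!
# Trace zero matrices with a cyclic vector are values
-/

open Finset Matrix

namespace Pool.Agent.P5e96

variable {K : Type*} [Field K]

/-- Values are transported by algebra isomorphisms of matrix algebras. -/
theorem mval_algHom {ι ι' : Type*} [Fintype ι] [DecidableEq ι] [Fintype ι'] [DecidableEq ι']
    {m : ℕ} (α : Equiv.Perm (Fin m) → K) (Ψ : Matrix ι ι K →ₐ[K] Matrix ι' ι' K)
    (A : Fin m → Matrix ι ι K) : mval α (fun q => Ψ (A q)) = Ψ (mval α A) := by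
  rw [mval, mval, map_sum]
  refine Finset.sum_congr rfl fun σ _ => ?_
  rw [map_smul, map_list_prod, List.map_ofFn]
  rfl

/-- A matrix is a value as soon as it has vanishing diagonal blocks in some basis. -/
theorem value_of_basis [Infinite K] {m : ℕ} (hm : 1 ≤ m) (α : Equiv.Perm (Fin m) → K)
    (hα : α ≠ 0) {n : ℕ} (T : Matrix (Fin n) (Fin n) K) {ι : Type*} [Fintype ι] [DecidableEq ι]
    (b : Module.Basis ι K (Fin n → K)) {κ : Type*} (col : ι → κ)
    (hcol : ∀ i, (m + 1) / 2 ≤ Set.ncard {j | col j = col i})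
    (hT : ∀ i j, col i = col j → b.repr (T *ᵥ b j) i = 0) :
    ∃ A : Fin m → Matrix (Fin n) (Fin n) K, mval α A = T := by
  obtain ⟨A, hA⟩ := zero_block hm col hcol α hα (LinearMap.toMatrix b b (Matrix.toLin' T))
    (fun i j hij => by
      rw [LinearMap.toMatrix_apply, Matrix.toLin'_apply]
      exact hT i j hij)
  set Ψ : Matrix ι ι K →ₐ[K] Matrix (Fin n) (Fin n) K :=
    ((Matrix.toLinAlgEquiv b).trans LinearMap.toMatrixAlgEquiv').toAlgHom with hΨ
  refine ⟨fun q => Ψ (A q), ?_⟩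
  rw [mval_algHom, hA, hΨ]
  change LinearMap.toMatrix' (Matrix.toLin b b (LinearMap.toMatrix b b (Matrix.toLin' T))) = T
  rw [Matrix.toLin_toMatrix, LinearMap.toMatrix'_toLin']

/-! ### The colouring -/

/-- The colours of the vectors of the basis. -/
def hcol (n i : ℕ) : ℕ :=
  if n - 1 - i = 0 then 2 else if i = 0 ∧ (n - 1 - i) % 3 = 2 then 0 else (n - 1 - i) % 3

theorem hcol_succ {n i : ℕ} (hn : 3 ≤ n) (hi : i + 1 < n) : hcol n i ≠ hcol n (i + 1) := by
  obtain ⟨r, hr⟩ : ∃ r, n - 1 - i = r + 1 := ⟨n - 1 - i - 1, by omega⟩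
  have hr' : n - 1 - (i + 1) = r := by omega
  unfold hcol
  rw [hr, hr']
  by_cases h0 : r = 0
  · subst h0
    by_cases hi0 : i = 0
    · omega
    · simp
  · by_cases hi0 : i = 0
    · subst hi0
      by_cases h2 : (r + 1) % 3 = 2
      · simp [h0, h2]
        omega
      · simp [h0, h2]
        omega
    · simp [h0, hi0]
      omega

theorem hcol_pred {n k : ℕ} (hk : 1 ≤ k) (hk2 : k + 1 < n) (h : hcol n k = 2) :
    hcol n (k - 1) ≠ 1 := by
  unfold hcol at *
  split_ifs at * <;> omega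

theorem hcol_zero {n : ℕ} (hn : 3 ≤ n) : hcol n 0 ≠ 2 := by
  unfold hcol
  split_ifs <;> omega

theorem hcol_last {n : ℕ} : hcol n (n - 1) = 2 := by
  unfold hcol
  rw [if_pos (by omega)]

theorem hcol_last' {n : ℕ} (hn : 3 ≤ n) : hcol n (n - 2) = 1 := by
  unfold hcol
  split_ifs <;> omega

theorem hcol_lt (n i : ℕ) : hcol n i < 3 := by
  unfold hcol
  split_ifs <;> omega

/-- The `j`-th vector of a given colour. -/
def hpos (n a j : ℕ) : ℕ :=
  if a = 1 then n - 2 - 3 * j
  else if a = 2 then (if j = 0 then n - 1 else n - 3 * j)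
  else (if 3 * j + 4 ≤ n then n - 4 - 3 * j else 0)

theorem hpos_spec {n a j : ℕ} (ha : a < 3) (hj : j < n / 3) :
    hpos n a j < n ∧ hcol n (hpos n a j) = a := by
  unfold hpos hcol
  split_ifs <;> omega

theorem hpos_inj {n a j j' : ℕ} (hj : j < n / 3) (hj' : j' < n / 3)
    (h : hpos n a j = hpos n a j') : j = j' := by
  unfold hpos at h
  split_ifs at h <;> omega

theorem hcol_card {n : ℕ} (i : Fin n) :
    n / 3 ≤ Set.ncard {j : Fin n | hcol n j = hcol n i} := by
  classical
  rw [Set.ncard_eq_toFinset_card']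
  rcases Nat.eq_zero_or_pos n with h0 | hn
  · subst h0
    exact i.elim0
  apply Finset.le_card_of_inj_on_range
    (fun j => if h : hpos n (hcol n i) j < n then (⟨hpos n (hcol n i) j, h⟩ : Fin n) else ⟨0, hn⟩)
  · intro j hj
    have h1 := hpos_spec (hcol_lt n i) hj
    rw [dif_pos h1.1]
    simp only [Set.mem_toFinset, Set.mem_ofPred_eq]
    exact h1.2
  · intro j hj j' hj' h
    have h1 := hpos_spec (hcol_lt n i) hj
    have h2 := hpos_spec (hcol_lt n i) hj'
    simp only [dif_pos h1.1, dif_pos h2.1, Fin.mk.injEq] at h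
    exact hpos_inj hj hj' h

end Pool.Agent.P5e96
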