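import Mathlib
import Pool.Agent.Lib.P5e96.Cyc

/-!
# Trace zero matrices with a cyclic vector are values
-/

open Finset Matrix

namespace Pool.Agent.P5e96

variable {K : Type*} [Field K]

/-- The basis attached to a cyclic vector. -/
theorem exists_basis {n : ℕ} (T : Matrix (Fin n) (Fin n) K) (v : Fin n → K)
    (hv : LinearIndependent K fun i : Fin n => (T ^ (i : ℕ)) *ᵥ v) :
    ∃ b : Module.Basis (Fin n) K (Fin n → K), ∀ i, b i = (T ^ (i : ℕ)) *ᵥ v := by
  rcases Nat.eq_zero_or_pos n with h0 | hn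
  · subst h0
    exact ⟨Module.Basis.empty _, fun i => i.elim0⟩
  · have : Nonempty (Fin n) := ⟨⟨0, hn⟩⟩
    refine ⟨basisOfLinearIndependentOfCardEqFinrank hv (by simp), fun i => ?_⟩
    rw [coe_basisOfLinearIndependentOfCardEqFinrank]

theorem pow_succ_mulVec {n : ℕ} (T : Matrix (Fin n) (Fin n) K) (v : Fin n → K) (k : ℕ) :
    T *ᵥ ((T ^ k) *ᵥ v) = (T ^ (k + 1)) *ᵥ v := by
  rw [Matrix.mulVec_mulVec, pow_succ']

/-- The last coefficient of the relation satisfied by a cyclic vector is the trace. -/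
theorem last_coeff {n : ℕ} (T : Matrix (Fin (n + 1)) (Fin (n + 1)) K) (v : Fin (n + 1) → K)
    (b : Module.Basis (Fin (n + 1)) K (Fin (n + 1) → K)) (hb : ∀ i, b i = (T ^ (i : ℕ)) *ᵥ v) :
    b.repr ((T ^ (n + 1)) *ᵥ v) (Fin.last n) = T.trace := by
  have h1 : T.trace = (LinearMap.toMatrix b b (Matrix.toLin' T)).trace := by
    rw [← LinearMap.trace_eq_matrix_trace K b, Matrix.trace_toLin'_eq]
  rw [h1, Matrix.trace, Fin.sum_univ_castSucc, Finset.sum_eq_zero, zero_add]
  · rw [Matrix.diag_apply, LinearMap.toMatrix_apply, Matrix.toLin'_apply, hb, pow_succ_mulVec]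
    rfl
  · intro i _
    rw [Matrix.diag_apply, LinearMap.toMatrix_apply, Matrix.toLin'_apply, hb, pow_succ_mulVec]
    have h2 : (T ^ ((i.castSucc : ℕ) + 1)) *ᵥ v = b i.succ := by
      rw [hb]
      rfl
    rw [h2, Module.Basis.repr_self, Finsupp.single_apply, if_neg]
    intro h
    have := congrArg Fin.val h
    simp at this

/-- The coefficients moved from the last column to the last but one column. -/
noncomputable def hco {n : ℕ} (a : Fin n → K) (k : Fin n) : K :=
  if hcol n k = 2 ∧ 1 ≤ (k : ℕ) ∧ (k : ℕ) + 1 < n then a k else 0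

/-- The modified basis. -/
noncomputable def vec {n : ℕ} (T : Matrix (Fin n) (Fin n) K) (v : Fin n → K) (a : Fin n → K)
    (i : Fin n) : Fin n → K :=
  if (i : ℕ) + 1 < n then (T ^ (i : ℕ)) *ᵥ v
  else (T ^ (n - 1)) *ᵥ v - ∑ k : Fin n, hco a k • ((T ^ ((k : ℕ) - 1)) *ᵥ v)

theorem vec_lt {n : ℕ} (T : Matrix (Fin n) (Fin n) K) (v : Fin n → K) (a : Fin n → K)
    (i : Fin n) (hi : (i : ℕ) + 1 < n) : vec T v a i = (T ^ (i : ℕ)) *ᵥ v := by
  rw [vec, if_pos hi]

theorem sum_hco {n : ℕ} (T : Matrix (Fin n) (Fin n) K) (v : Fin n → K) (a : Fin n → K) :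
    (∑ k : Fin n, hco a k • ((T ^ ((k : ℕ) - 1)) *ᵥ v)) =
      ∑ k : Fin n, hco a k • vec T v a ⟨(k : ℕ) - 1, by omega⟩ := by
  refine Finset.sum_congr rfl fun k _ => ?_
  by_cases hk : hcol n k = 2 ∧ 1 ≤ (k : ℕ) ∧ (k : ℕ) + 1 < n
  · rw [vec_lt _ _ _ _ (by simp only; omega)]
  · rw [hco, if_neg hk, zero_smul, zero_smul]

theorem last_eq {n : ℕ} (T : Matrix (Fin n) (Fin n) K) (v : Fin n → K) (a : Fin n → K)
    (hn : 0 < n) :
    (T ^ (n - 1)) *ᵥ v = vec T v a ⟨n - 1, by omega⟩ +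
      ∑ k : Fin n, hco a k • vec T v a ⟨(k : ℕ) - 1, by omega⟩ := by
  rw [← sum_hco T v a]
  conv_rhs =>
    rw [vec, if_neg (by simp only; omega)]
  rw [sub_add_cancel]

theorem exists_basis' {n : ℕ} (T : Matrix (Fin n) (Fin n) K) (v : Fin n → K)
    (hv : LinearIndependent K fun i : Fin n => (T ^ (i : ℕ)) *ᵥ v) (a : Fin n → K) (hn : 0 < n) :
    ∃ b : Module.Basis (Fin n) K (Fin n → K), ∀ i, b i = vec T v a i := by
  obtain ⟨b0, hb0⟩ := exists_basis T v hv
  have hspan : ⊤ ≤ Submodule.span K (Set.range (vec T v a)) := by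
    rw [← b0.span_eq, Submodule.span_le]
    rintro _ ⟨i, rfl⟩
    rw [hb0]
    by_cases hi : (i : ℕ) + 1 < n
    · rw [← vec_lt T v a i hi]
      exact Submodule.subset_span ⟨i, rfl⟩
    · have h1 : (i : ℕ) = n - 1 := by omega
      rw [h1, last_eq T v a hn]
      refine Submodule.add_mem _ (Submodule.subset_span ⟨_, rfl⟩) (Submodule.sum_mem _ ?_)
      intro k _
      exact Submodule.smul_mem _ _ (Submodule.subset_span ⟨_, rfl⟩)
  have hli : LinearIndependent K (vec T v a) :=
    linearIndependent_of_top_le_span_of_card_eq_finrank hspan (by simp)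
  exact ⟨Module.Basis.mk hli hspan, fun i => Module.Basis.mk_apply hli hspan i⟩

/-- A trace zero matrix with a cyclic vector is a value of every nonzero multilinear polynomial
of degree `m`, as soon as `3 * ⌈m / 2⌉ ≤ n`. -/
theorem value_of_cyclic [Infinite K] {m : ℕ} (hm : 1 ≤ m) (α : Equiv.Perm (Fin m) → K)
    (hα : α ≠ 0) {n : ℕ} (hn : 3 * ((m + 1) / 2) ≤ n) (T : Matrix (Fin n) (Fin n) K)
    (hT : T.trace = 0) (v : Fin n → K)
    (hv : LinearIndependent K fun i : Fin n => (T ^ (i : ℕ)) *ᵥ v) :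
    ∃ A : Fin m → Matrix (Fin n) (Fin n) K, mval α A = T := by
  have hn3 : 3 ≤ n := by omega
  obtain ⟨N, rfl⟩ : ∃ N, n = N + 1 := ⟨n - 1, by omega⟩
  obtain ⟨b0, hb0⟩ := exists_basis T v hv
  set a : Fin (N + 1) → K := fun k => b0.repr ((T ^ (N + 1)) *ᵥ v) k with ha
  have halast : a (Fin.last N) = 0 := by
    rw [ha]
    exact (last_coeff T v b0 hb0).trans hT
  have hrel : (T ^ (N + 1)) *ᵥ v = ∑ k : Fin (N + 1), a k • ((T ^ (k : ℕ)) *ᵥ v) := by
    conv_lhs => rw [← b0.sum_repr ((T ^ (N + 1)) *ᵥ v)]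
    exact Finset.sum_congr rfl fun k _ => by rw [hb0]
  obtain ⟨b, hb⟩ := exists_basis' T v hv a (by omega)
  refine value_of_basis hm α hα T b (fun i => hcol (N + 1) i) (fun i => ?_) ?_
  · exact le_trans (by omega) (hcol_card i)
  · intro i j hij
    rw [hb j]
    by_cases hj : (j : ℕ) + 1 < N + 1
    · rw [vec_lt _ _ _ _ hj, pow_succ_mulVec]
      by_cases hj2 : (j : ℕ) + 2 < N + 1
      · have h1 : (T ^ ((j : ℕ) + 1)) *ᵥ v = b ⟨(j : ℕ) + 1, by omega⟩ := by
          rw [hb, vec_lt _ _ _ _ (by simp only; omega)]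
        rw [h1, Module.Basis.repr_self, Finsupp.single_apply, if_neg]
        rintro rfl
        exact hcol_succ hn3 (by omega : (j : ℕ) + 1 < N + 1) hij.symm
      · have hjN : (j : ℕ) + 1 = N + 1 - 1 := by omega
        have h1 := last_eq T v a (Nat.succ_pos N)
        have hcj : hcol (N + 1) j = 1 := by
          have : (j : ℕ) = N + 1 - 2 := by omega
          rw [this]
          exact hcol_last' hn3
        rw [hcj] at hij
        rw [hjN, h1, ← hb, map_add, map_sum, Finsupp.add_apply, Finsupp.finsetSum_apply,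
          Module.Basis.repr_self, Finsupp.single_apply, if_neg, zero_add]
        · refine Finset.sum_eq_zero fun k _ => ?_
          rw [← hb, map_smul, Module.Basis.repr_self, Finsupp.smul_apply, Finsupp.single_apply]
          by_cases hk : hcol (N + 1) k = 2 ∧ 1 ≤ (k : ℕ) ∧ (k : ℕ) + 1 < N + 1
          · rw [if_neg, smul_zero]
            rintro rfl
            exact hcol_pred hk.2.1 hk.2.2 hk.1 hij
          · rw [hco, if_neg hk, zero_smul]
        · rintro rfl
          have := hcol_last (n := N + 1)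
          simp only at hij
          omega
    · have hjN : (j : ℕ) = N + 1 - 1 := by omega
      have hcj : hcol (N + 1) j = 2 := by
        rw [hjN]
        exact hcol_last
      rw [hcj] at hij
      have h2 : T *ᵥ vec T v a j = ∑ k : Fin (N + 1), (a k - hco a k) • vec T v a k := by
        have h3 : vec T v a j = (T ^ (N + 1 - 1)) *ᵥ v -
            ∑ k : Fin (N + 1), hco a k • ((T ^ ((k : ℕ) - 1)) *ᵥ v) := by
          rw [vec, if_neg hj]
        rw [h3, Matrix.mulVec_sub, pow_succ_mulVec, Nat.add_sub_cancel, hrel, Matrix.mulVec_sum,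
          ← Finset.sum_sub_distrib]
        refine Finset.sum_congr rfl fun k _ => ?_
        rw [Matrix.mulVec_smul, pow_succ_mulVec, sub_smul]
        by_cases hk1 : (k : ℕ) + 1 < N + 1
        · rw [vec_lt _ _ _ _ hk1]
          by_cases hk : hcol (N + 1) k = 2 ∧ 1 ≤ (k : ℕ) ∧ (k : ℕ) + 1 < N + 1
          · rw [Nat.sub_add_cancel hk.2.1]
          · rw [hco, if_neg hk, zero_smul, zero_smul]
        · have hk2 : k = Fin.last N := by
            apply Fin.ext
            rw [Fin.val_last]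
            omega
          have hk3 : ¬ (hcol (N + 1) k = 2 ∧ 1 ≤ (k : ℕ) ∧ (k : ℕ) + 1 < N + 1) :=
            fun h => hk1 h.2.2
          rw [hco, if_neg hk3, hk2, halast, zero_smul, zero_smul, zero_smul]
      rw [h2, map_sum, Finsupp.finsetSum_apply]
      refine Finset.sum_eq_zero fun k _ => ?_
      rw [← hb, map_smul, Module.Basis.repr_self, Finsupp.smul_apply, Finsupp.single_apply]
      by_cases hki : k = i
      · subst hki
        rw [if_pos rfl, smul_eq_mul, mul_one]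
        by_cases hk1 : (k : ℕ) + 1 < N + 1
        · have hk0 : 1 ≤ (k : ℕ) := by
            by_contra h0
            have h00 : (k : ℕ) = 0 := by omega
            rw [h00] at hij
            exact hcol_zero hn3 hij
          rw [hco, if_pos ⟨hij, hk0, hk1⟩, sub_self]
        · have hk2 : k = Fin.last N := by
            apply Fin.ext
            rw [Fin.val_last]
            omega
          rw [hco, if_neg (fun h => hk1 h.2.2), sub_zero, hk2, halast]
      · rw [if_neg hki, smul_zero]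

/-! ### Hessenberg matrices -/

theorem hess_pow {n : ℕ} (M : Matrix (Fin n) (Fin n) K) (h0 : 0 < n)
    (h1 : ∀ i j : Fin n, (j : ℕ) + 1 < i → M i j = 0)
    (h2 : ∀ i j : Fin n, (j : ℕ) + 1 = i → M i j = 1) (k : ℕ) :
    (∀ i : Fin n, k < i → ((M ^ k) *ᵥ Pi.single ⟨0, h0⟩ 1) i = 0) ∧
    (∀ i : Fin n, k = i → ((M ^ k) *ᵥ Pi.single ⟨0, h0⟩ 1) i = 1) := by
  induction k with
  | zero =>
    refine ⟨fun i hi => ?_, fun i hi => ?_⟩
    · rw [pow_zero, Matrix.one_mulVec, Pi.single_apply, if_neg]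
      rintro rfl
      simp at hi
    · rw [pow_zero, Matrix.one_mulVec, Pi.single_apply, if_pos]
      exact Fin.ext hi.symm
  | succ k ih =>
    obtain ⟨ih1, ih2⟩ := ih
    refine ⟨fun i hi => ?_, fun i hi => ?_⟩
    · rw [← pow_succ_mulVec, Matrix.mulVec, dotProduct]
      refine Finset.sum_eq_zero fun j _ => ?_
      by_cases hj : k < (j : ℕ)
      · rw [ih1 j hj, mul_zero]
      · rw [h1 i j (by omega), zero_mul]
    · rw [← pow_succ_mulVec, Matrix.mulVec, dotProduct,
        Finset.sum_eq_single (⟨k, by omega⟩ : Fin n)]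
      · rw [h2 i _ (by simpa using hi), ih2 _ rfl, mul_one]
      · intro j _ hj
        by_cases hj1 : k < (j : ℕ)
        · rw [ih1 j hj1, mul_zero]
        · have hj2 : (j : ℕ) ≠ k := fun h => hj (Fin.ext h)
          rw [h1 i j (by omega), zero_mul]
      · intro h
        exact absurd (Finset.mem_univ _) h

theorem hess_cyclic {n : ℕ} (M : Matrix (Fin n) (Fin n) K) (h0 : 0 < n)
    (h1 : ∀ i j : Fin n, (j : ℕ) + 1 < i → M i j = 0)
    (h2 : ∀ i j : Fin n, (j : ℕ) + 1 = i → M i j = 1) :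
    LinearIndependent K fun k : Fin n => (M ^ (k : ℕ)) *ᵥ Pi.single ⟨0, h0⟩ 1 := by
  set P : Matrix (Fin n) (Fin n) K := fun i k => ((M ^ (k : ℕ)) *ᵥ Pi.single ⟨0, h0⟩ 1) i with hP
  have hdet : P.det = 1 := by
    rw [Matrix.det_of_isUpperTriangular]
    · exact Finset.prod_eq_one fun i _ => (hess_pow M h0 h1 h2 i).2 i rfl
    · intro i j hij
      exact (hess_pow M h0 h1 h2 j).1 i hij
  have h3 : IsUnit P := by
    rw [Matrix.isUnit_iff_isUnit_det, hdet]
    exact isUnit_one
  exact Matrix.linearIndependent_cols_iff_isUnit.2 h3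

theorem value_of_hess [Infinite K] {m : ℕ} (hm : 1 ≤ m) (α : Equiv.Perm (Fin m) → K)
    (hα : α ≠ 0) {n : ℕ} (hn : 3 * ((m + 1) / 2) ≤ n) (M : Matrix (Fin n) (Fin n) K)
    (hM : M.trace = 0) (h1 : ∀ i j : Fin n, (j : ℕ) + 1 < i → M i j = 0)
    (h2 : ∀ i j : Fin n, (j : ℕ) + 1 = i → M i j = 1) :
    ∃ A : Fin m → Matrix (Fin n) (Fin n) K, mval α A = M :=
  value_of_cyclic hm α hα hn M hM _ (hess_cyclic M (by omega) h1 h2)

theorem value_of_hess' [Infinite K] {m : ℕ} (hm : 1 ≤ m) (α : Equiv.Perm (Fin m) → K)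
    (hα : α ≠ 0) {n : ℕ} (hn : 3 * ((m + 1) / 2) ≤ n) (M : Matrix (Fin n) (Fin n) K)
    (hM : M.trace = 0) (h1 : ∀ i j : Fin n, (i : ℕ) + 1 < j → M i j = 0)
    (h2 : ∀ i j : Fin n, (i : ℕ) + 1 = j → M i j = 1) :
    ∃ A : Fin m → Matrix (Fin n) (Fin n) K, mval α A = M := by
  set Ψ := (Matrix.reindexAlgEquiv K K (Fin.revPerm (n := n))) with hΨ
  obtain ⟨A, hA⟩ := value_of_hess hm α hα hn (Ψ M) (by
      rw [← hM, hΨ, Matrix.coe_reindexAlgEquiv, Matrix.trace, Matrix.trace]
      exact Fintype.sum_equiv Fin.revPerm _ _ fun i => by simp)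
    (fun i j hij => by
      rw [hΨ, Matrix.coe_reindexAlgEquiv, Matrix.reindex_apply, Matrix.submatrix_apply]
      refine h1 _ _ ?_
      simp only [Fin.revPerm_symm, Fin.revPerm_apply, Fin.val_rev]
      omega)
    (fun i j hij => by
      rw [hΨ, Matrix.coe_reindexAlgEquiv, Matrix.reindex_apply, Matrix.submatrix_apply]
      refine h2 _ _ ?_
      simp only [Fin.revPerm_symm, Fin.revPerm_apply, Fin.val_rev]
      omega)
  refine ⟨fun q => Ψ.symm (A q), ?_⟩
  have h3 : mval α (fun q => Ψ.symm (A q)) = Ψ.symm (mval α A) :=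
    mval_algHom α (Ψ.symm : Matrix (Fin n) (Fin n) K →ₐ[K] Matrix (Fin n) (Fin n) K) A
  rw [h3, hA]
  exact Ψ.symm_apply_apply M

/-- Every trace zero matrix is a sum of two values. -/
theorem sum_two_values [Infinite K] {m : ℕ} (hm : 1 ≤ m) (α : Equiv.Perm (Fin m) → K)
    (hα : α ≠ 0) {n : ℕ} (hn : 3 * ((m + 1) / 2) ≤ n) (T : Matrix (Fin n) (Fin n) K)
    (hT : T.trace = 0) :
    ∃ A B : Fin m → Matrix (Fin n) (Fin n) K, mval α A + mval α B = T := by
  set S : Matrix (Fin n) (Fin n) K := Matrix.of fun i j =>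
    if (i : ℕ) = j then 0 else if (j : ℕ) + 1 = i then 1
    else if (i : ℕ) + 1 = j then T i j - 1 else if (i : ℕ) + 1 < j then T i j else 0 with hS
  have hS0 : S.trace = 0 := by
    rw [Matrix.trace]
    refine Finset.sum_eq_zero fun i _ => ?_
    rw [Matrix.diag_apply, hS, Matrix.of_apply, if_pos rfl]
  obtain ⟨A, hA⟩ := value_of_hess hm α hα hn S hS0
    (fun i j hij => by
      rw [hS, Matrix.of_apply, if_neg (by omega), if_neg (by omega), if_neg (by omega),
        if_neg (by omega)])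
    (fun i j hij => by
      rw [hS, Matrix.of_apply, if_neg (by omega), if_pos hij])
  obtain ⟨B, hB⟩ := value_of_hess' hm α hα hn (T - S) (by rw [Matrix.trace_sub, hT, hS0, sub_zero])
    (fun i j hij => by
      rw [Matrix.sub_apply, hS, Matrix.of_apply, if_neg (by omega), if_neg (by omega),
        if_neg (by omega), if_pos hij, sub_self])
    (fun i j hij => by
      rw [Matrix.sub_apply, hS, Matrix.of_apply, if_neg (by omega), if_neg (by omega),
        if_pos hij, sub_sub_cancel])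
  exact ⟨A, B, by rw [hA, hB, add_sub_cancel]⟩

end Pool.Agent.P5e96
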