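import Mathlib
import Pool.Agent.Lib.P5e96.Value

/-!
# Cyclic matrices: feedback and colours
-/

open Finset Matrix

namespace Pool.Agent.P5e96

variable {K : Type*} [Field K]

/-- `e₀` is a cyclic vector. -/
def Cyc0 {N : ℕ} (h0 : 0 < N) (B : Matrix (Fin N) (Fin N) K) : Prop :=
  LinearIndependent K fun i : Fin N => (B ^ (i : ℕ)) *ᵥ (Pi.single ⟨0, h0⟩ 1 : Fin N → K)

/-- Feedback: adding `e₀ ⊗ w` does not destroy the cyclic vector `e₀`. -/
theorem cyc0_feedback {N : ℕ} (h0 : 0 < N) (B : Matrix (Fin N) (Fin N) K) (w : Fin N → K)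
    (hB : Cyc0 h0 B) : Cyc0 h0 (B + vecMulVec (Pi.single ⟨0, h0⟩ 1) w) := by
  set e : Fin N → K := Pi.single ⟨0, h0⟩ 1 with he
  set B' := B + vecMulVec e w with hB'
  have hBB : ∀ x : Fin N → K, B *ᵥ x = B' *ᵥ x - (w ⬝ᵥ x) • e := by
    intro x
    rw [hB', Matrix.add_mulVec]
    have : vecMulVec e w *ᵥ x = (w ⬝ᵥ x) • e := by
      ext i
      simp only [vecMulVec, Matrix.mulVec, dotProduct, Matrix.of_apply, Pi.smul_apply,
        smul_eq_mul, Finset.sum_mul]
      exact Finset.sum_congr rfl fun _ _ => by ring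
    rw [this, add_sub_cancel_right]
  have key : ∀ t : ℕ, (B ^ t) *ᵥ e ∈
      Submodule.span K (Set.range fun i : Fin (t + 1) => (B' ^ (i : ℕ)) *ᵥ e) := by
    intro t
    induction t with
    | zero =>
      refine Submodule.subset_span ⟨0, ?_⟩
      simp
    | succ t ih =>
      rw [pow_succ', ← Matrix.mulVec_mulVec]
      obtain ⟨c, hc⟩ := (Submodule.mem_span_range_iff_exists_fun K).1 ih
      rw [← hc, Matrix.mulVec_sum]
      refine Submodule.sum_mem _ fun i _ => ?_
      rw [Matrix.mulVec_smul, hBB]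
      refine Submodule.smul_mem _ _ (Submodule.sub_mem _ ?_ (Submodule.smul_mem _ _ ?_))
      · refine Submodule.subset_span ⟨i.succ, ?_⟩
        simp only [Fin.val_succ]
        rw [Matrix.mulVec_mulVec, ← pow_succ']
      · refine Submodule.subset_span ⟨0, ?_⟩
        simp
  have hspan : ⊤ ≤ Submodule.span K (Set.range fun i : Fin N => (B' ^ (i : ℕ)) *ᵥ e) := by
    have : Nonempty (Fin N) := ⟨⟨0, h0⟩⟩
    rw [← (basisOfLinearIndependentOfCardEqFinrank hB (by simp)).span_eq, Submodule.span_le]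
    rintro _ ⟨i, rfl⟩
    rw [coe_basisOfLinearIndependentOfCardEqFinrank]
    refine Submodule.span_mono ?_ (key i)
    rintro _ ⟨j, rfl⟩
    exact ⟨⟨j, by omega⟩, rfl⟩
  exact linearIndependent_of_top_le_span_of_card_eq_finrank hspan (by simp)

/-- The coloured basis of a cyclic trace-zero matrix. -/
theorem cyclic_colours {n : ℕ} (hn3 : 3 ≤ n) (T : Matrix (Fin n) (Fin n) K)
    (hT : T.trace = 0) (v : Fin n → K)
    (hv : LinearIndependent K fun i : Fin n => (T ^ (i : ℕ)) *ᵥ v) :
    ∃ b : Module.Basis (Fin n) K (Fin n → K), ∀ i j : Fin n, hcol n i = hcol n j →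
      b.repr (T *ᵥ b j) i = 0 := by
  obtain ⟨N, rfl⟩ : ∃ N, n = N + 1 := ⟨n - 1, by omega⟩
  obtain ⟨b0, hb0⟩ := exists_basis T v hv
  set a : Fin (N + 1) → K := fun k => b0.repr ((T ^ (N + 1)) *ᵥ v) k with ha
  have halast : a (Fin.last N) = 0 := by
    rw [ha]
    exact (last_coeff T v b0 hb0).trans hT
  have hrel : (T ^ (N + 1)) *ᵥ v = ∑ k : Fin (N + 1), a k • ((T ^ (k : ℕ)) *ᵥ v) := by
    conv_lhs => rw [← b0.sum_repr ((T ^ (N + 1)) *ᵥ v)]
    exact Finset.sum_congr rfl fun k _ => by rw [hb0]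
  obtain ⟨b, hb⟩ := exists_basis' T v hv a (by omega)
  refine ⟨b, ?_⟩
  · intro i j hij
    rw [hb j]
    by_cases hj : (j : ℕ) + 1 < N + 1
    · rw [vec_lt _ _ _ _ hj, pow_succ_mulVec]
      by_cases hj2 : (j : ℕ) + 2 < N + 1
      · have h1 : (T ^ ((j : ℕ) + 1)) *ᵥ v = b ⟨(j : ℕ) + 1, by omega⟩ := by
          rw [hb, vec_lt _ _ _ _ (by simp only; omega)]
        rw [h1, Module.Basis.repr_self, Finsupp.single_apply, if_neg]
        rintro rfl
        exact hcol_succ hn3 (by omega : (j : ℕ) + 1 < N + 1) hij.symm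
      · have hjN : (j : ℕ) + 1 = N + 1 - 1 := by omega
        have h1 := last_eq T v a (Nat.succ_pos N)
        have hcj : hcol (N + 1) j = 1 := by
          have : (j : ℕ) = N + 1 - 2 := by omega
          rw [this]
          exact hcol_last' hn3
        rw [hcj] at hij
        rw [hjN, h1, ← hb, map_add, map_sum, Finsupp.add_apply, Finsupp.finsetSum_apply,
          Module.Basis.repr_self, Finsupp.single_apply, if_neg, zero_add]
        · refine Finset.sum_eq_zero fun k _ => ?_
          rw [← hb, map_smul, Module.Basis.repr_self, Finsupp.smul_apply, Finsupp.single_apply]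
          by_cases hk : hcol (N + 1) k = 2 ∧ 1 ≤ (k : ℕ) ∧ (k : ℕ) + 1 < N + 1
          · rw [if_neg, smul_zero]
            rintro rfl
            exact hcol_pred hk.2.1 hk.2.2 hk.1 hij
          · rw [hco, if_neg hk, zero_smul]
        · rintro rfl
          have := hcol_last (n := N + 1)
          simp only at hij
          omega
    · have hjN : (j : ℕ) = N + 1 - 1 := by omega
      have hcj : hcol (N + 1) j = 2 := by
        rw [hjN]
        exact hcol_last
      rw [hcj] at hij
      have h2 : T *ᵥ vec T v a j = ∑ k : Fin (N + 1), (a k - hco a k) • vec T v a k := by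
        have h3 : vec T v a j = (T ^ (N + 1 - 1)) *ᵥ v -
            ∑ k : Fin (N + 1), hco a k • ((T ^ ((k : ℕ) - 1)) *ᵥ v) := by
          rw [vec, if_neg hj]
        rw [h3, Matrix.mulVec_sub, pow_succ_mulVec, Nat.add_sub_cancel, hrel, Matrix.mulVec_sum,
          ← Finset.sum_sub_distrib]
        refine Finset.sum_congr rfl fun k _ => ?_
        rw [Matrix.mulVec_smul, pow_succ_mulVec, sub_smul]
        by_cases hk1 : (k : ℕ) + 1 < N + 1
        · rw [vec_lt _ _ _ _ hk1]
          by_cases hk : hcol (N + 1) k = 2 ∧ 1 ≤ (k : ℕ) ∧ (k : ℕ) + 1 < N + 1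
          · rw [Nat.sub_add_cancel hk.2.1]
          · rw [hco, if_neg hk, zero_smul, zero_smul]
        · have hk2 : k = Fin.last N := by
            apply Fin.ext
            rw [Fin.val_last]
            omega
          have hk3 : ¬ (hcol (N + 1) k = 2 ∧ 1 ≤ (k : ℕ) ∧ (k : ℕ) + 1 < N + 1) :=
            fun h => hk1 h.2.2
          rw [hco, if_neg hk3, hk2, halast, zero_smul, zero_smul, zero_smul]
      rw [h2, map_sum, Finsupp.finsetSum_apply]
      refine Finset.sum_eq_zero fun k _ => ?_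
      rw [← hb, map_smul, Module.Basis.repr_self, Finsupp.smul_apply, Finsupp.single_apply]
      by_cases hki : k = i
      · subst hki
        rw [if_pos rfl, smul_eq_mul, mul_one]
        by_cases hk1 : (k : ℕ) + 1 < N + 1
        · have hk0 : 1 ≤ (k : ℕ) := by
            by_contra h0
            have h00 : (k : ℕ) = 0 := by omega
            rw [h00] at hij
            exact hcol_zero hn3 hij
          rw [hco, if_pos ⟨hij, hk0, hk1⟩, sub_self]
        · have hk2 : k = Fin.last N := by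
            apply Fin.ext
            rw [Fin.val_last]
            omega
          rw [hco, if_neg (fun h => hk1 h.2.2), sub_zero, hk2, halast]
      · rw [if_neg hki, smul_zero]

/-- The coloured form of a cyclic trace-zero matrix, with matrices. -/
theorem cyclic_colours' {n : ℕ} (hn3 : 3 ≤ n) (T : Matrix (Fin n) (Fin n) K)
    (hT : T.trace = 0) (v : Fin n → K)
    (hv : LinearIndependent K fun i : Fin n => (T ^ (i : ℕ)) *ᵥ v) :
    ∃ h h' : Matrix (Fin n) (Fin n) K, h' * h = 1 ∧ ∀ i j : Fin n, hcol n i = hcol n j →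
      (h' * T * h) i j = 0 := by
  obtain ⟨b, hb⟩ := cyclic_colours hn3 T hT v hv
  refine ⟨(Pi.basisFun K (Fin n)).toMatrix b, b.toMatrix (Pi.basisFun K (Fin n)), ?_, ?_⟩
  · exact Module.Basis.toMatrix_mul_toMatrix_flip _ _
  · intro i j hij
    rw [← hb i j hij]
    have h1 : b.toMatrix (Pi.basisFun K (Fin n)) * T * (Pi.basisFun K (Fin n)).toMatrix b =
        LinearMap.toMatrix b b (Matrix.toLin' T) := by
      rw [← LinearMap.toMatrix'_toLin' T, ← LinearMap.toMatrix_eq_toMatrix']
      rw [basis_toMatrix_mul_linearMap_toMatrix_mul_basis_toMatrix]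
      simp
    rw [h1, LinearMap.toMatrix_apply, Matrix.toLin'_apply]

/-- The same for the transposed matrix. -/
theorem cyclic_colours_transpose {n : ℕ} (hn3 : 3 ≤ n) (T : Matrix (Fin n) (Fin n) K)
    (hT : T.trace = 0) (v : Fin n → K)
    (hv : LinearIndependent K fun i : Fin n => (Tᵀ ^ (i : ℕ)) *ᵥ v) :
    ∃ h h' : Matrix (Fin n) (Fin n) K, h' * h = 1 ∧ ∀ i j : Fin n, hcol n i = hcol n j →
      (h' * T * h) i j = 0 := by
  obtain ⟨h, h', h1, h2⟩ := cyclic_colours' hn3 Tᵀ (by rw [Matrix.trace_transpose, hT]) v hv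
  refine ⟨h'ᵀ, hᵀ, ?_, ?_⟩
  · rw [← Matrix.transpose_mul, h1, Matrix.transpose_one]
  · intro i j hij
    have h3 := h2 j i hij.symm
    have h4 : hᵀ * T * h'ᵀ = (h' * Tᵀ * h)ᵀ := by
      rw [Matrix.transpose_mul, Matrix.transpose_mul, Matrix.transpose_transpose, Matrix.mul_assoc]
    rw [h4, Matrix.transpose_apply, h3]

end Pool.Agent.P5e96
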