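import Mathlib
import Pool.Agent.Lib.P5e96.Far1

/-!
# Simultaneous choice of a basis
-/

open Finset Matrix

namespace Pool.Agent.P5e96

/-- The Krylov determinant. -/
noncomputable def kry {R : Type*} [CommRing R] {N : ℕ} (h0 : 0 < N)
    (M : Matrix (Fin N) (Fin N) R) : R :=
  Matrix.det (Matrix.of fun i j : Fin N => (M ^ (j : ℕ)) i ⟨0, h0⟩)

theorem kry_map {R S : Type*} [CommRing R] [CommRing S] (φ : R →+* S) {N : ℕ} (h0 : 0 < N)
    (M : Matrix (Fin N) (Fin N) R) : φ (kry h0 M) = kry h0 (M.map φ) := by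
  rw [kry, kry, RingHom.map_det]
  congr 1
  ext i j
  rw [RingHom.mapMatrix_apply, Matrix.map_apply, Matrix.of_apply, Matrix.of_apply,
    ← RingHom.mapMatrix_apply, ← map_pow, RingHom.mapMatrix_apply, Matrix.map_apply]

theorem kry_smul {K : Type*} [Field K] {N : ℕ} (h0 : 0 < N)
    (M : Matrix (Fin N) (Fin N) K) {d : K} (hd : d ≠ 0) :
    kry h0 (d • M) ≠ 0 ↔ kry h0 M ≠ 0 := by
  have h1 : kry h0 (d • M) = (∏ j : Fin N, d ^ (j : ℕ)) * kry h0 M := by
    rw [kry, kry, ← Matrix.det_mul_row]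
    congr 1
    ext i j
    rw [Matrix.of_apply, Matrix.of_apply, Matrix.of_apply, smul_pow, Matrix.smul_apply, smul_eq_mul]
  rw [h1, mul_ne_zero_iff, and_iff_right]
  exact Finset.prod_ne_zero_iff.2 fun j _ => pow_ne_zero _ hd

theorem kry_ne_zero_iff {K : Type*} [Field K] {N : ℕ} (h0 : 0 < N)
    (M : Matrix (Fin N) (Fin N) K) : kry h0 M ≠ 0 ↔ Cyc0 h0 M := by
  rw [kry, Cyc0, ← isUnit_iff_ne_zero, ← Matrix.isUnit_iff_isUnit_det,
    ← Matrix.linearIndependent_cols_iff_isUnit]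
  have h1 : (Matrix.of fun i j : Fin N => (M ^ (j : ℕ)) i ⟨0, h0⟩).col =
      fun i : Fin N => (M ^ (i : ℕ)) *ᵥ (Pi.single ⟨0, h0⟩ 1 : Fin N → K) := by
    ext j i
    simp [Matrix.col_apply]
  rw [h1]

section

variable {κ : Type} [Fintype κ] [DecidableEq κ] (sz : κ → ℕ) (hsz : ∀ k, 0 < sz k) (k₀ : κ)

/-- The index set. -/
abbrev Idx (sz : κ → ℕ) := Σ k : κ, Fin (sz k)

/-- The first index of a block. -/
def fst' (k : κ) : Idx sz := ⟨k, ⟨0, hsz k⟩⟩

/-- The diagonal block. -/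
def blk {R : Type*} (k : κ) (M : Matrix (Idx sz) (Idx sz) R) : Matrix (Fin (sz k)) (Fin (sz k)) R :=
  M.submatrix (fun j => ⟨k, j⟩) (fun j => ⟨k, j⟩)

/-- The conditions. -/
noncomputable def cond {R : Type*} [CommRing R] (M : Matrix (Idx sz) (Idx sz) R) : κ ⊕ κ → R
  | Sum.inl k => if k = k₀ then kry (hsz k) (blk sz k M) else kry (hsz k) (blk sz k M)ᵀ
  | Sum.inr k => if k = k₀ then 1 else M (fst' sz hsz k) (fst' sz hsz k₀)

theorem cond_map {R S : Type*} [CommRing R] [CommRing S] (φ : R →+* S)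
    (M : Matrix (Idx sz) (Idx sz) R) (c : κ ⊕ κ) :
    φ (cond sz hsz k₀ M c) = cond sz hsz k₀ (M.map φ) c := by
  rcases c with k | k
  · by_cases h : k = k₀
    · simp only [cond, h, if_true]
      rw [kry_map]
      rfl
    · simp only [cond, h, if_false]
      rw [kry_map]
      rfl
  · by_cases h : k = k₀
    · simp only [cond, h, if_true, map_one]
    · simp only [cond, h, if_false]
      rfl

theorem cond_smul {K : Type*} [Field K] (M : Matrix (Idx sz) (Idx sz) K) {d : K} (hd : d ≠ 0)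
    (c : κ ⊕ κ) : cond sz hsz k₀ (d • M) c ≠ 0 ↔ cond sz hsz k₀ M c ≠ 0 := by
  rcases c with k | k
  · by_cases h : k = k₀
    · simp only [cond, h, if_true]
      exact kry_smul _ _ hd
    · simp only [cond, h, if_false]
      exact kry_smul _ _ hd
  · by_cases h : k = k₀
    · simp only [cond, h, if_true]
    · simp only [cond, h, if_false, Matrix.smul_apply, smul_eq_mul, mul_ne_zero_iff]
      exact and_iff_right hd

/-- `adj(g) T g`. -/
noncomputable def adjc {R : Type*} [CommRing R] {I : Type*} [Fintype I] [DecidableEq I]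
    (T g : Matrix I I R) : Matrix I I R :=
  g.adjugate * T * g

theorem adjc_map {R S : Type*} [CommRing R] [CommRing S] (φ : R →+* S) {I : Type*} [Fintype I]
    [DecidableEq I] (T g : Matrix I I R) : (adjc T g).map φ = adjc (T.map φ) (g.map φ) := by
  rw [adjc, adjc, ← RingHom.mapMatrix_apply, map_mul, map_mul, RingHom.map_adjugate]
  rfl

theorem adjc_eq {K : Type*} [Field K] {I : Type*} [Fintype I] [DecidableEq I]
    (T g : Matrix I I K) (hg : g.det ≠ 0) : adjc T g = g.det • (g⁻¹ * T * g) := by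
  rw [adjc, Matrix.inv_def, Matrix.smul_mul, Matrix.smul_mul, smul_smul,
    Ring.inverse_eq_inv', mul_inv_cancel₀ hg, one_smul]

/-- Simultaneous choice. -/
theorem exists_generic {K : Type*} [Field K] [Infinite K] (T : Matrix (Idx sz) (Idx sz) K)
    (hex : ∀ c : κ ⊕ κ, ∃ g : Matrix (Idx sz) (Idx sz) K, g.det ≠ 0 ∧
      cond sz hsz k₀ (g⁻¹ * T * g) c ≠ 0) :
    ∃ g : Matrix (Idx sz) (Idx sz) K, g.det ≠ 0 ∧
      ∀ c : κ ⊕ κ, cond sz hsz k₀ (g⁻¹ * T * g) c ≠ 0 := by
  classical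
  set X : Matrix (Idx sz) (Idx sz) (MvPolynomial (Idx sz × Idx sz) K) :=
    Matrix.of fun i j => MvPolynomial.X (i, j) with hX
  set p : κ ⊕ κ → MvPolynomial (Idx sz × Idx sz) K := fun c =>
    cond sz hsz k₀ (adjc (T.map MvPolynomial.C) X) c with hp
  have hev : ∀ g : Matrix (Idx sz) (Idx sz) K,
      X.map (MvPolynomial.eval fun ij : Idx sz × Idx sz => g ij.1 ij.2) = g := by
    intro g
    ext i j
    simp [hX]
  have hevT : ∀ g : Matrix (Idx sz) (Idx sz) K,
      (T.map MvPolynomial.C).map (MvPolynomial.eval fun ij : Idx sz × Idx sz => g ij.1 ij.2) =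
        T := by
    intro g
    ext i j
    simp
  have h1 : ∀ g : Matrix (Idx sz) (Idx sz) K, ∀ c,
      MvPolynomial.eval (fun ij : Idx sz × Idx sz => g ij.1 ij.2) (p c) =
        cond sz hsz k₀ (adjc T g) c := by
    intro g c
    rw [hp]
    simp only
    rw [cond_map, adjc_map, hev, hevT]
  have h2 : ∀ g : Matrix (Idx sz) (Idx sz) K,
      MvPolynomial.eval (fun ij : Idx sz × Idx sz => g ij.1 ij.2) X.det = g.det := by
    intro g
    rw [RingHom.map_det, RingHom.mapMatrix_apply, hev]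
  have h3 : X.det ≠ 0 := by
    intro h
    have := h2 1
    rw [h, map_zero, Matrix.det_one] at this
    exact zero_ne_one this
  have h4 : ∀ c, p c ≠ 0 := by
    intro c h
    obtain ⟨g, hg, hc⟩ := hex c
    have h5 := h1 g c
    rw [h, map_zero, adjc_eq T g hg] at h5
    exact (cond_smul sz hsz k₀ _ hg c).2 hc h5.symm
  have h5 : X.det * ∏ c, p c ≠ 0 := mul_ne_zero h3 (Finset.prod_ne_zero_iff.2 fun c _ => h4 c)
  obtain ⟨x, hx⟩ : ∃ x : Idx sz × Idx sz → K, MvPolynomial.eval x (X.det * ∏ c, p c) ≠ 0 := by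
    by_contra hcon
    push Not at hcon
    exact h5 (MvPolynomial.funext fun x => by rw [hcon x, map_zero])
  set g : Matrix (Idx sz) (Idx sz) K := Matrix.of fun i j => x (i, j) with hg
  have hx' : (fun ij : Idx sz × Idx sz => g ij.1 ij.2) = x := by
    ext ⟨i, j⟩
    rfl
  rw [map_mul, map_prod, mul_ne_zero_iff, Finset.prod_ne_zero_iff, ← hx', h2] at hx
  refine ⟨g, hx.1, fun c => ?_⟩
  have h6 := hx.2 c (Finset.mem_univ c)
  rw [h1, adjc_eq T g hx.1] at h6
  exact (cond_smul sz hsz k₀ _ hx.1 c).1 h6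

end

end Pool.Agent.P5e96
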