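import Mathlib
import Pool.Agent.Lib.P5e96.Far2

/-!
# Trace-zero blocks and colours
-/

open Finset Matrix

namespace Pool.Agent.P5e96

variable {K : Type*} [Field K] {κ : Type} [Fintype κ] [DecidableEq κ] (sz : κ → ℕ)
  (hsz : ∀ k, 0 < sz k) (k₀ : κ)

theorem trace_blocks (M : Matrix (Idx sz) (Idx sz) K) :
    M.trace = ∑ k, (blk sz k M).trace := by
  rw [Matrix.trace, Fintype.sum_sigma]
  rfl

/-- Conjugate so that all diagonal blocks have trace zero. -/
theorem trace_fix (M : Matrix (Idx sz) (Idx sz) K) (hM : M.trace = 0)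
    (hc : ∀ c : κ ⊕ κ, cond sz hsz k₀ M c ≠ 0) :
    ∃ P P' : Matrix (Idx sz) (Idx sz) K, P' * P = 1 ∧
      (∀ k, (blk sz k (P' * M * P)).trace = 0) ∧
      Cyc0 (hsz k₀) (blk sz k₀ (P' * M * P)) ∧
      ∀ k, k ≠ k₀ → Cyc0 (hsz k) (blk sz k (P' * M * P))ᵀ := by
  classical
  set y : κ → K := fun k => (blk sz k M).trace / M (fst' sz hsz k) (fst' sz hsz k₀) with hy
  set u : Idx sz → K := fun x => if x.1 ≠ k₀ ∧ (x.2 : ℕ) = 0 then y x.1 else 0 with hu
  set e0 : Idx sz → K := Pi.single (fst' sz hsz k₀) 1 with he0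
  set Y : Matrix (Idx sz) (Idx sz) K := vecMulVec e0 u with hY
  have hue : u ⬝ᵥ e0 = 0 := by
    rw [he0, dotProduct_single, mul_one, hu]
    simp [fst']
  have hYY : Y * Y = 0 := by
    rw [hY, Matrix.vecMulVec_mul_vecMulVec, hue]
    ext i j
    simp [vecMulVec]
  have hPP : (1 + Y) * (1 - Y) = 1 := by
    have : (1 + Y) * (1 - Y) = 1 - Y * Y := by noncomm_ring
    rw [this, hYY, sub_zero]
  have hM' : (1 + Y) * M * (1 - Y) = M + Y * M - M * Y - Y * M * Y := by noncomm_ring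
  have hYM : Y * M = vecMulVec e0 (u ᵥ* M) := by rw [hY, Matrix.vecMulVec_mul]
  have hMY : M * Y = vecMulVec (M *ᵥ e0) u := by rw [hY, Matrix.mul_vecMulVec]
  have hYMY : Y * M * Y = vecMulVec e0 ((u ᵥ* M ⬝ᵥ e0) • u) := by
    rw [hYM, hY, Matrix.vecMulVec_mul_vecMulVec]
  have hent : ∀ i j, ((1 + Y) * M * (1 - Y)) i j = M i j + e0 i * (u ᵥ* M) j -
      (M *ᵥ e0) i * u j - e0 i * ((u ᵥ* M ⬝ᵥ e0) * u j) := by
    intro i j
    rw [hM', hYMY, hYM, hMY]
    simp only [Matrix.sub_apply, Matrix.add_apply, Matrix.vecMulVec_apply, Pi.smul_apply,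
      smul_eq_mul]
  have he0k : ∀ k, k ≠ k₀ → ∀ a : Fin (sz k), e0 ⟨k, a⟩ = 0 := by
    intro k hk a
    rw [he0, Pi.single_apply, if_neg]
    intro h
    exact hk (congrArg Sigma.fst h)
  have hMe : ∀ i, (M *ᵥ e0) i = M i (fst' sz hsz k₀) := by
    intro i
    rw [he0, Matrix.mulVec_single_one]
    rfl
  -- the blocks
  have hblk : ∀ k, k ≠ k₀ → (blk sz k ((1 + Y) * M * (1 - Y)))ᵀ = (blk sz k M)ᵀ +
      vecMulVec (Pi.single ⟨0, hsz k⟩ 1) (fun a => - (y k * M ⟨k, a⟩ (fst' sz hsz k₀))) := by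
    intro k hk
    ext b a
    rw [Matrix.transpose_apply, blk, Matrix.submatrix_apply, hent, he0k k hk, hMe,
      Matrix.add_apply, Matrix.transpose_apply, Matrix.vecMulVec_apply, Pi.single_apply, blk,
      Matrix.submatrix_apply, hu]
    by_cases hb : (b : ℕ) = 0
    · have hb' : b = ⟨0, hsz k⟩ := Fin.ext hb
      simp only [hk, hb', if_true, ne_eq, not_false_eq_true, and_self]
      ring
    · have hb' : b ≠ ⟨0, hsz k⟩ := fun h => hb (congrArg Fin.val h)
      simp only [hk, hb, hb', if_false, ne_eq, not_false_eq_true, and_false]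
      ring
  have hblk0 : blk sz k₀ ((1 + Y) * M * (1 - Y)) = blk sz k₀ M +
      vecMulVec (Pi.single ⟨0, hsz k₀⟩ 1) (fun b => (u ᵥ* M) ⟨k₀, b⟩) := by
    ext a b
    have hu0 : u ⟨k₀, b⟩ = 0 := by
      rw [hu]
      simp
    have h1 : e0 ⟨k₀, a⟩ = (Pi.single ⟨0, hsz k₀⟩ 1 : Fin (sz k₀) → K) a := by
      rw [he0, Pi.single_apply, Pi.single_apply]
      by_cases ha : a = ⟨0, hsz k₀⟩
      · rw [if_pos ha, if_pos (by rw [ha]; rfl)]
      · rw [if_neg ha, if_neg]
        intro h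
        apply ha
        have := Sigma.mk.inj_iff.1 h
        exact eq_of_heq this.2
    rw [blk, Matrix.submatrix_apply, hent, hu0, Matrix.add_apply, Matrix.vecMulVec_apply, blk,
      Matrix.submatrix_apply, h1]
    ring
  have htr : ∀ k, k ≠ k₀ → (blk sz k ((1 + Y) * M * (1 - Y))).trace = 0 := by
    intro k hk
    have h1 := hc (Sum.inr k)
    simp only [cond, hk, if_false] at h1
    rw [← Matrix.trace_transpose, hblk k hk, Matrix.trace_add, Matrix.trace_transpose,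
      Matrix.trace_vecMulVec, single_dotProduct, one_mul, hy]
    simp only
    have h2 : M ⟨k, ⟨0, hsz k⟩⟩ (fst' sz hsz k₀) = M (fst' sz hsz k) (fst' sz hsz k₀) := rfl
    rw [h2, div_mul_cancel₀ _ h1, add_neg_cancel]
  refine ⟨1 - Y, 1 + Y, hPP, ?_, ?_, ?_⟩
  · intro k
    by_cases hk : k = k₀
    · have h1 : ((1 + Y) * M * (1 - Y)).trace = 0 := by
        rw [Matrix.trace_mul_comm, ← Matrix.mul_assoc]
        have : (1 - Y) * (1 + Y) = 1 := by
          have : (1 - Y) * (1 + Y) = 1 - Y * Y := by noncomm_ring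
          rw [this, hYY, sub_zero]
        rw [this, Matrix.one_mul, hM]
      rw [trace_blocks, Finset.sum_eq_single k₀ (fun k _ hk => htr k hk)
        (fun h => absurd (Finset.mem_univ _) h)] at h1
      rw [hk, h1]
    · exact htr k hk
  · have h1 := hc (Sum.inl k₀)
    simp only [cond, if_true] at h1
    rw [hblk0]
    exact cyc0_feedback _ _ _ ((kry_ne_zero_iff _ _).1 h1)
  · intro k hk
    have h1 := hc (Sum.inl k)
    simp only [cond, hk, if_false] at h1
    rw [hblk k hk]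
    exact cyc0_feedback _ _ _ ((kry_ne_zero_iff _ _).1 h1)

theorem blockDiag_entry (h h' : ∀ k : κ, Matrix (Fin (sz k)) (Fin (sz k)) K)
    (M : Matrix (Idx sz) (Idx sz) K) (k : κ) (i j : Fin (sz k)) :
    (blockDiagonal' h' * M * blockDiagonal' h) ⟨k, i⟩ ⟨k, j⟩ = (h' k * blk sz k M * h k) i j := by
  rw [Matrix.mul_apply, Fintype.sum_sigma, Finset.sum_eq_single k]
  · rw [Matrix.mul_apply]
    refine Finset.sum_congr rfl fun b _ => ?_
    rw [blockDiagonal'_apply_eq]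
    congr 1
    rw [Matrix.mul_apply, Fintype.sum_sigma, Finset.sum_eq_single k]
    · rw [Matrix.mul_apply]
      refine Finset.sum_congr rfl fun a _ => ?_
      rw [blockDiagonal'_apply_eq]
      rfl
    · intro l _ hl
      refine Finset.sum_eq_zero fun a _ => ?_
      rw [blockDiagonal'_apply_ne _ _ _ (Ne.symm hl), zero_mul]
    · intro h
      exact absurd (Finset.mem_univ _) h
  · intro l _ hl
    refine Finset.sum_eq_zero fun b _ => ?_
    rw [blockDiagonal'_apply_ne _ _ _ hl, mul_zero]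
  · intro h
    exact absurd (Finset.mem_univ _) h

/-- The coloured form. -/
theorem colour_blocks (h3 : ∀ k, 3 ≤ sz k) (M : Matrix (Idx sz) (Idx sz) K)
    (htr : ∀ k, (blk sz k M).trace = 0) (hc0 : Cyc0 (hsz k₀) (blk sz k₀ M))
    (hck : ∀ k, k ≠ k₀ → Cyc0 (hsz k) (blk sz k M)ᵀ) :
    ∃ H H' : Matrix (Idx sz) (Idx sz) K, H' * H = 1 ∧
      ∀ (k : κ) (i j : Fin (sz k)), hcol (sz k) i = hcol (sz k) j →
        (H' * M * H) ⟨k, i⟩ ⟨k, j⟩ = 0 := by
  have h1 : ∀ k, ∃ h h' : Matrix (Fin (sz k)) (Fin (sz k)) K, h' * h = 1 ∧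
      ∀ i j : Fin (sz k), hcol (sz k) i = hcol (sz k) j → (h' * blk sz k M * h) i j = 0 := by
    intro k
    by_cases hk : k = k₀
    · subst hk
      exact cyclic_colours' (h3 k) _ (htr k) _ hc0
    · exact cyclic_colours_transpose (h3 k) _ (htr k) _ (hck k hk)
  choose h h' h1 h2 using h1
  refine ⟨blockDiagonal' h, blockDiagonal' h', ?_, ?_⟩
  · rw [← blockDiagonal'_mul]
    have : (fun k => h' k * h k) = 1 := funext fun k => h1 k
    rw [this, blockDiagonal'_one]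
  · intro k i j hij
    rw [blockDiag_entry]
    exact h2 k i j hij

/-- The coloured form of a matrix satisfying the conditions in some basis. -/
theorem hollow_form [Infinite K] (h3 : ∀ k, 3 ≤ sz k) (T : Matrix (Idx sz) (Idx sz) K)
    (hT : T.trace = 0)
    (hex : ∀ c : κ ⊕ κ, ∃ g : Matrix (Idx sz) (Idx sz) K, g.det ≠ 0 ∧
      cond sz hsz k₀ (g⁻¹ * T * g) c ≠ 0) :
    ∃ G G' : Matrix (Idx sz) (Idx sz) K, G' * G = 1 ∧
      ∀ (k : κ) (i j : Fin (sz k)), hcol (sz k) i = hcol (sz k) j →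
        (G' * T * G) ⟨k, i⟩ ⟨k, j⟩ = 0 := by
  obtain ⟨g, hg, hc⟩ := exists_generic sz hsz k₀ T hex
  have hgu : IsUnit g.det := isUnit_iff_ne_zero.2 hg
  have htr : (g⁻¹ * T * g).trace = 0 := by
    rw [Matrix.trace_mul_comm, ← Matrix.mul_assoc, Matrix.mul_nonsing_inv _ hgu, Matrix.one_mul, hT]
  obtain ⟨P, P', hP, ht, hc0, hck⟩ := trace_fix sz hsz k₀ _ htr hc
  obtain ⟨H, H', hH, hz⟩ := colour_blocks sz hsz k₀ h3 _ ht hc0 hck
  refine ⟨g * P * H, H' * P' * g⁻¹, ?_, ?_⟩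
  · have h5 : H' * P' * g⁻¹ * (g * P * H) = H' * (P' * (g⁻¹ * g) * P) * H := by
      simp only [Matrix.mul_assoc]
    rw [h5, Matrix.nonsing_inv_mul _ hgu, Matrix.mul_one, hP, Matrix.mul_one, hH]
  · intro k i j hij
    rw [← hz k i j hij]
    congr 1
    simp only [Matrix.mul_assoc]

end Pool.Agent.P5e96
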