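import Mathlib
import Pool.Agent.Lib.P5e96.Far3
import Pool.Agent.Lib.P5e96.BasisEmb

/-!
# Each condition is satisfied in some basis
-/

open Finset Matrix

namespace Pool.Agent.P5e96

section

variable {K : Type*} [Field K]

/-- The modified family `v_0, …, v_h, T v_j - v_(j+1)`. -/
theorem linearIndependent_shift {V : Type*} [AddCommGroup V] [Module K V]
    [FiniteDimensional K V] (T : V →ₗ[K] V) (h : ℕ) (v : Fin h → V)
    (hv : LinearIndependent K (Sum.elim v (fun i => T (v i))))
    (hn : 2 * h < Module.finrank K V) :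
    ∃ u : Fin (h + 1) → V, LinearIndependent K
      (Sum.elim u (fun i : Fin h => T (u i.castSucc) - u i.succ)) := by
  classical
  obtain ⟨x, hx⟩ : ∃ x, x ∉ Submodule.span K (Set.range (Sum.elim v (fun i => T (v i)))) := by
    by_contra hcon
    push Not at hcon
    have h1 : Submodule.span K (Set.range (Sum.elim v (fun i => T (v i)))) = ⊤ := by
      rw [eq_top_iff]
      intro x _
      exact hcon x
    have h2 := finrank_span_eq_card hv
    rw [h1, finrank_top, Fintype.card_sum, Fintype.card_fin] at h2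
    omega
  set u : Fin (h + 1) → V := Fin.snoc v x with hu
  have hus : ∀ i : Fin h, u i.castSucc = v i := fun i => by rw [hu, Fin.snoc_castSucc]
  have hul : u (Fin.last h) = x := by rw [hu, Fin.snoc_last]
  refine ⟨u, ?_⟩
  -- a coefficient argument
  have hopt : LinearIndependent K (fun o : Option (Fin h ⊕ Fin h) =>
      Option.elim o x (Sum.elim v (fun i => T (v i)))) := by
    rw [linearIndependent_option]
    exact ⟨hv, hx⟩
  rw [Fintype.linearIndependent_iff] at hopt ⊢
  intro g hg
  rw [Fintype.sum_sum_type] at hg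
  simp only [Sum.elim_inl, Sum.elim_inr, smul_sub, Finset.sum_sub_distrib] at hg
  -- coefficients on the family `x, v, T v`
  set G : Option (Fin h ⊕ Fin h) → K := fun o => match o with
    | none => g (Sum.inl (Fin.last h)) - (if hh : 0 < h then g (Sum.inr ⟨h - 1, by omega⟩) else 0)
    | some (Sum.inl i) => g (Sum.inl i.castSucc) -
        (if hi : 0 < (i : ℕ) then g (Sum.inr ⟨i - 1, by omega⟩) else 0)
    | some (Sum.inr i) => g (Sum.inr i) with hG
  have hshift : ∑ i : Fin h, g (Sum.inr i) • u i.succ =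
      ∑ i : Fin (h + 1), (if hi : 0 < (i : ℕ) then g (Sum.inr ⟨i - 1, by omega⟩) else 0) • u i := by
    rw [Fin.sum_univ_succ]
    simp
  have h1 : ∑ o, G o • (Option.elim o x (Sum.elim v (fun i => T (v i)))) = 0 := by
    rw [← hg, hshift, Fintype.sum_option, Fintype.sum_sum_type, Fin.sum_univ_castSucc,
      Fin.sum_univ_castSucc]
    simp only [hG, hus, hul, Option.elim_none, Option.elim_some, Sum.elim_inl, Sum.elim_inr,
      Fin.val_castSucc, Fin.val_last, sub_smul, Finset.sum_sub_distrib]
    abel
  have h2 := hopt G h1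
  have h3 : ∀ i : Fin h, g (Sum.inr i) = 0 := fun i => h2 (some (Sum.inr i))
  rintro (i | i)
  · refine Fin.lastCases ?_ (fun i => ?_) i
    · have := h2 none
      simp only [hG] at this
      by_cases hh : 0 < h
      · rw [dif_pos hh, h3, sub_zero] at this
        exact this
      · rw [dif_neg hh, sub_zero] at this
        exact this
    · have := h2 (some (Sum.inl i))
      simp only [hG] at this
      by_cases hh : 0 < (i : ℕ)
      · rw [dif_pos hh, h3, sub_zero] at this
        exact this
      · rw [dif_neg hh, sub_zero] at this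
        exact this
  · exact h3 i

end


section

variable {K : Type*} [Field K] {κ : Type} [Fintype κ] [DecidableEq κ] (sz : κ → ℕ)
  (hsz : ∀ k, 0 < sz k) (k₀ : κ)

theorem exists_g {I : Type*} [Fintype I] [DecidableEq I] (T : Matrix I I K)
    (b : Module.Basis I K (I → K)) :
    ∃ g : Matrix I I K, g.det ≠ 0 ∧ ∀ i j, (g⁻¹ * T * g) i j = b.repr (T *ᵥ b j) i := by
  have h1 : b.toMatrix (Pi.basisFun K I) * (Pi.basisFun K I).toMatrix b = 1 :=
    Module.Basis.toMatrix_mul_toMatrix_flip _ _
  refine ⟨(Pi.basisFun K I).toMatrix b, ?_, fun i j => ?_⟩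
  · exact (Matrix.isUnit_det_of_left_inverse h1).ne_zero
  · rw [Matrix.inv_eq_left_inv h1]
    have h2 : b.toMatrix (Pi.basisFun K I) * T * (Pi.basisFun K I).toMatrix b =
        LinearMap.toMatrix b b (Matrix.toLin' T) := by
      rw [← LinearMap.toMatrix'_toLin' T, ← LinearMap.toMatrix_eq_toMatrix']
      rw [basis_toMatrix_mul_linearMap_toMatrix_mul_basis_toMatrix]
      simp
    rw [h2, LinearMap.toMatrix_apply, Matrix.toLin'_apply]

theorem card_compl_block (k : κ) :
    Fintype.card {x : Idx sz // x.1 ≠ k} + sz k = Fintype.card (Idx sz) := by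
  have h1 := Fintype.card_congr (Equiv.sumCompl (fun x : Idx sz => x.1 = k))
  have h2 : Fintype.card {x : Idx sz // x.1 = k} = sz k := by
    rw [Fintype.card_congr (Equiv.sigmaSubtype (β := fun k => Fin (sz k)) k), Fintype.card_fin]
  rw [Fintype.card_sum, h2] at h1
  rw [← h1, add_comm]

/-- A block made Hessenberg. -/
theorem exists_hess (hsz : ∀ k, 0 < sz k) (T : Matrix (Idx sz) (Idx sz) K) (k : κ)
    (hN : 2 * sz k ≤ Fintype.card (Idx sz) + 1) (v : Fin (sz k - 1) → (Idx sz → K))
    (hv : LinearIndependent K (Sum.elim v (fun i => T *ᵥ (v i))))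
    (ρ : Fin (sz k) ≃ Fin (sz k)) :
    ∃ b : Module.Basis (Idx sz) K (Idx sz → K), ∀ i j : Fin (sz k), (j : ℕ) + 1 < sz k →
      b.repr (T *ᵥ b ⟨k, ρ j⟩) ⟨k, ρ i⟩ = if (i : ℕ) = (j : ℕ) + 1 then 1 else 0 := by
  classical
  obtain ⟨h, hk⟩ : ∃ h, sz k = h + 1 := ⟨sz k - 1, by have := hsz k; omega⟩
  have hh : sz k - 1 = h := by omega
  obtain ⟨u, hu⟩ : ∃ u : Fin (h + 1) → (Idx sz → K), LinearIndependent K
      (Sum.elim u (fun i : Fin h => T *ᵥ (u i.castSucc) - u i.succ)) := by
    have hv' : LinearIndependent K (Sum.elim (fun i : Fin h => v (Fin.cast hh.symm i))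
        (fun i : Fin h => Matrix.toLin' T (v (Fin.cast hh.symm i)))) := by
      have h1 := hv.comp (Sum.map (Fin.cast hh.symm) (Fin.cast hh.symm))
        (Function.Injective.sumMap (Fin.cast_injective _) (Fin.cast_injective _))
      have h2 : (Sum.elim v (fun i => T *ᵥ (v i))) ∘ (Sum.map (Fin.cast hh.symm)
          (Fin.cast hh.symm)) = Sum.elim (fun i : Fin h => v (Fin.cast hh.symm i))
        (fun i : Fin h => Matrix.toLin' T (v (Fin.cast hh.symm i))) := by
        ext x
        rcases x with x | x <;> simp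
      rw [h2] at h1
      exact h1
    obtain ⟨u, hu⟩ := linearIndependent_shift (Matrix.toLin' T) h _ hv' (by
      rw [Module.finrank_fintype_fun_eq_card]
      omega)
    refine ⟨u, ?_⟩
    simpa only [Matrix.toLin'_apply] using hu
  have hcard := card_compl_block sz k
  obtain ⟨emb⟩ : Nonempty (Fin h ↪ {x : Idx sz // x.1 ≠ k}) :=
    Function.Embedding.nonempty_of_card_le (by rw [Fintype.card_fin]; omega)
  set f : Fin (h + 1) ⊕ Fin h → Idx sz := Sum.elim (fun i => ⟨k, ρ (Fin.cast hk.symm i)⟩)
    (fun i => (emb i : Idx sz)) with hf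
  have hfinj : Function.Injective f := by
    rintro (i | i) (j | j) hij
    · simp only [hf, Sum.elim_inl] at hij
      have h1 := eq_of_heq (Sigma.mk.inj_iff.1 hij).2
      rw [Fin.cast_injective _ (ρ.injective h1)]
    · simp only [hf, Sum.elim_inl, Sum.elim_inr] at hij
      exact absurd (congrArg Sigma.fst hij).symm (emb j).2
    · simp only [hf, Sum.elim_inl, Sum.elim_inr] at hij
      exact absurd (congrArg Sigma.fst hij) (emb i).2
    · simp only [hf, Sum.elim_inr] at hij
      rw [emb.injective (Subtype.ext hij)]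
  obtain ⟨b, hb⟩ := exists_basis_of_embedding _ hu f hfinj (by
    rw [Module.finrank_fintype_fun_eq_card])
  refine ⟨b, fun i j hj => ?_⟩
  have hbl : ∀ i : Fin (h + 1), b ⟨k, ρ (Fin.cast hk.symm i)⟩ = u i := fun i => hb (Sum.inl i)
  have hbr : ∀ i : Fin h, b (emb i : Idx sz) = T *ᵥ (u i.castSucc) - u i.succ :=
    fun i => hb (Sum.inr i)
  have hj1 : b ⟨k, ρ j⟩ = u (Fin.castSucc ⟨j, by omega⟩) := by
    rw [← hbl]
    congr 2
  have hTj : T *ᵥ b ⟨k, ρ j⟩ = b ⟨k, ρ (Fin.cast hk.symm (Fin.succ ⟨j, by omega⟩))⟩ +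
      b (emb ⟨j, by omega⟩ : Idx sz) := by
    rw [hj1, hbr, hbl]
    abel
  rw [hTj, map_add, Finsupp.add_apply, Module.Basis.repr_self, Module.Basis.repr_self,
    Finsupp.single_apply, Finsupp.single_apply, if_neg (c := (emb _ : Idx sz) = _), add_zero]
  · by_cases hij : (i : ℕ) = (j : ℕ) + 1
    · rw [if_pos hij, if_pos]
      have : i = Fin.cast hk.symm (Fin.succ ⟨j, by omega⟩) := by
        apply Fin.ext
        simpa using hij
      rw [this]
    · rw [if_neg hij, if_neg]
      intro hcon
      apply hij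
      have h1 := ρ.injective (eq_of_heq (Sigma.mk.inj_iff.1 hcon).2)
      rw [← h1]
      simp
  · intro hcon
    exact (emb _).2 (congrArg Sigma.fst hcon)

/-- Existence for each condition. -/
theorem exists_cond (T : Matrix (Idx sz) (Idx sz) K)
    (hN : ∀ k, 2 * sz k ≤ Fintype.card (Idx sz) + 1)
    (hv : ∀ k, ∃ v : Fin (sz k - 1) → (Idx sz → K),
      LinearIndependent K (Sum.elim v (fun i => T *ᵥ (v i))))
    (hx : ∃ x : Idx sz → K, LinearIndependent K ![x, T *ᵥ x]) (c : κ ⊕ κ) :
    ∃ g : Matrix (Idx sz) (Idx sz) K, g.det ≠ 0 ∧ cond sz hsz k₀ (g⁻¹ * T * g) c ≠ 0 := by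
  classical
  rcases c with k | k
  · obtain ⟨v, hv⟩ := hv k
    by_cases hk : k = k₀
    · obtain ⟨b, hb⟩ := exists_hess sz hsz T k (hN k) v hv (Equiv.refl _)
      obtain ⟨g, hg, hgb⟩ := exists_g T b
      refine ⟨g, hg, ?_⟩
      simp only [cond, hk, if_true]
      subst hk
      rw [kry_ne_zero_iff]
      refine hess_cyclic _ (hsz k) (fun i j hij => ?_) (fun i j hij => ?_)
      · rw [blk, Matrix.submatrix_apply, hgb]
        have := hb i j (by omega)
        simp only [Equiv.refl_apply] at this
        rw [this, if_neg (by omega)]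
      · rw [blk, Matrix.submatrix_apply, hgb]
        have := hb i j (by omega)
        simp only [Equiv.refl_apply] at this
        rw [this, if_pos (by omega)]
    · obtain ⟨b, hb⟩ := exists_hess sz hsz T k (hN k) v hv Fin.revPerm
      obtain ⟨g, hg, hgb⟩ := exists_g T b
      refine ⟨g, hg, ?_⟩
      simp only [cond, hk, if_false]
      rw [kry_ne_zero_iff]
      have key : ∀ i j : Fin (sz k), (j : ℕ) < i →
          (blk sz k (g⁻¹ * T * g))ᵀ i j = if (j : ℕ) + 1 = i then 1 else 0 := by
        intro i j hij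
        have h1 := hb (Fin.rev j) (Fin.rev i) (by rw [Fin.val_rev]; omega)
        simp only [Fin.revPerm_apply, Fin.rev_rev] at h1
        rw [Matrix.transpose_apply, blk, Matrix.submatrix_apply, hgb, h1]
        by_cases h2 : (j : ℕ) + 1 = i
        · rw [if_pos h2, if_pos]
          rw [Fin.val_rev, Fin.val_rev]
          omega
        · rw [if_neg h2, if_neg]
          rw [Fin.val_rev, Fin.val_rev]
          omega
      refine hess_cyclic _ (hsz k) (fun i j hij => ?_) (fun i j hij => ?_)
      · rw [key i j (by omega), if_neg (by omega)]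
      · rw [key i j (by omega), if_pos hij]
  · by_cases hk : k = k₀
    · refine ⟨1, by simp, ?_⟩
      simp only [cond, hk, if_true]
      exact one_ne_zero
    · obtain ⟨x, hx⟩ := hx
      obtain ⟨b, hb⟩ := exists_basis_of_embedding _ hx
        ![fst' sz hsz k₀, fst' sz hsz k] (by
          intro i j hij
          have hne : fst' sz hsz k₀ ≠ fst' sz hsz k := fun h => hk (congrArg Sigma.fst h).symm
          fin_cases i <;> fin_cases j
          · rfl
          · exact absurd hij hne
          · exact absurd hij hne.symm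
          · rfl) (by rw [Module.finrank_fintype_fun_eq_card])
      obtain ⟨g, hg, hgb⟩ := exists_g T b
      refine ⟨g, hg, ?_⟩
      simp only [cond, hk, if_false]
      have h0 : b (fst' sz hsz k₀) = x := hb 0
      have h1 : b (fst' sz hsz k) = T *ᵥ x := hb 1
      rw [hgb, h0, ← h1, Module.Basis.repr_self, Finsupp.single_eq_same]
      exact one_ne_zero

end

end Pool.Agent.P5e96
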