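import Pool.Agent.Lib.P5e96.Pairs

/-!
# Vectors `v_i` with all `v_i`, `T v_i` independent, sharp form (MP_5e96a2_al)
-/

set_option autoImplicit false

namespace Pool.Agent.P5e96

open Module

/-- lifts `v i` of `N (a i)` along `N`, independent together with the family `R` -/
theorem exists_lifts {K : Type*} [Field K] {V : Type*} [AddCommGroup V] [Module K V]
    [FiniteDimensional K V] (N : V →ₗ[K] V) {ρ : Type*} [Fintype ρ] (R : ρ → V)
    (hR : LinearIndependent K R) (j : ℕ) (a : Fin j → V)
    (hj : j + Fintype.card ρ ≤ finrank K (LinearMap.ker N)) :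
    ∃ v : Fin j → V, (∀ i, N (v i) = N (a i)) ∧ LinearIndependent K (Sum.elim v R) := by
  classical
  induction j with
  | zero =>
    refine ⟨fun i => i.elim0, fun i => i.elim0, ?_⟩
    have h1 := hR.comp (Equiv.emptySum (Fin 0) ρ) (Equiv.injective _)
    convert h1 using 1
    funext s
    rcases s with i | i
    · exact i.elim0
    · rfl
  | succ j ih =>
    obtain ⟨v, hv1, hv2⟩ := ih (fun i => a i.succ) (by omega)
    set S := Submodule.span K (Set.range (Sum.elim v R)) with hSdef
    have hSd : finrank K S = j + Fintype.card ρ := by
      rw [hSdef, finrank_span_eq_card hv2]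
      simp only [Fintype.card_sum, Fintype.card_fin]
    have hnle : ¬ LinearMap.ker N ≤ S := by
      intro hle
      have := Submodule.finrank_mono hle
      omega
    obtain ⟨w, hw, hwS⟩ := SetLike.not_le_iff_exists.mp hnle
    have hx : ∃ x, N x = N (a 0) ∧ x ∉ S := by
      by_cases h0 : a 0 ∈ S
      · refine ⟨a 0 + w, by rw [map_add, LinearMap.mem_ker.mp hw, add_zero], fun h => hwS ?_⟩
        have h1 : w = (a 0 + w) - a 0 := by abel
        rw [h1]
        exact S.sub_mem h h0
      · exact ⟨a 0, rfl, h0⟩
    obtain ⟨x, hx1, hx2⟩ := hx
    refine ⟨Fin.cons x v, ?_, ?_⟩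
    · intro i
      refine Fin.cases ?_ (fun k => ?_) i
      · simpa using hx1
      · simpa using hv1 k
    · have h1 : LinearIndependent K (fun o => Option.casesOn' o x
          (Sum.elim v R) : Option (Fin j ⊕ ρ) → V) :=
        linearIndependent_option'.2 ⟨hv2, hx2⟩
      let f : Fin (j + 1) ⊕ ρ → Option (Fin j ⊕ ρ) :=
        Sum.elim (fun i => Fin.cases none (fun k => some (Sum.inl k)) i)
          (fun i => some (Sum.inr i))
      have hf : Function.Injective f := by
        rintro (a | a) (b | b) hab
        · congr 1
          revert hab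
          refine Fin.cases ?_ (fun a' => ?_) a <;> refine Fin.cases ?_ (fun b' => ?_) b
          · intro _; rfl
          · intro hab; exact absurd hab (by simp [f])
          · intro hab; exact absurd hab (by simp [f])
          · intro hab
            simp only [f, Sum.elim_inl, Fin.cases_succ, Option.some.injEq, Sum.inl.injEq] at hab
            rw [hab]
        · exfalso
          revert hab
          refine Fin.cases ?_ (fun a' => ?_) a <;> intro hab <;> simp [f] at hab
        · exfalso
          revert hab
          refine Fin.cases ?_ (fun b' => ?_) b <;> intro hab <;> simp [f] at hab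
        · congr 1
          simpa [f] using hab
      have h4 := h1.comp f hf
      convert h4 using 1
      funext s
      rcases s with i | i
      · refine Fin.cases ?_ (fun k => ?_) i
        · rfl
        · rfl
      · rfl

theorem exists_pairs_sharp {K : Type*} [Field K] {V : Type*} [AddCommGroup V] [Module K V]
    [FiniteDimensional K V] (T : V →ₗ[K] V) (h : ℕ)
    (hr : ∀ c : K, h ≤ finrank K (LinearMap.range (T - c • LinearMap.id)))
    (hn : 4 * h ≤ finrank K V + 2) (hn2 : 2 * h ≤ finrank K V) :
    ∃ v : Fin h → V, LinearIndependent K (Sum.elim v (fun i => T (v i))) := by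
  classical
  by_cases hall : ∀ c : K, 2 * h ≤ finrank K (LinearMap.range (T - c • LinearMap.id)) + 1
  · exact exists_pairs T h hall hn2
  · push Not at hall
    obtain ⟨c, hc⟩ := hall
    set N := T - c • LinearMap.id with hN
    have hker : 2 * h ≤ finrank K (LinearMap.ker N) := by
      have := LinearMap.finrank_range_add_finrank_ker N
      omega
    obtain ⟨y, hy⟩ := exists_linearIndependent_of_le_finrank (hr c)
    have hya : ∀ i, ∃ a, N a = (y i : V) := fun i => (y i).2
    choose a ha using hya
    have hR : LinearIndependent K (fun i => N (a i)) := by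
      have h2 : (fun i => N (a i)) = (LinearMap.range N).subtype ∘ y := by
        funext i
        exact ha i
      rw [h2]
      exact hy.map' (LinearMap.range N).subtype (Submodule.ker_subtype _)
    obtain ⟨v, hv1, hv2⟩ := exists_lifts N (fun i => N (a i)) hR h a (by
      rw [Fintype.card_fin]; omega)
    refine ⟨v, ?_⟩
    rw [Fintype.linearIndependent_iff] at hv2 ⊢
    intro g hg
    have hT : ∀ i, T (v i) = N (a i) + c • v i := by
      intro i
      rw [← hv1 i, hN]
      simp
    have h5 := hv2 (Sum.elim (fun i => g (Sum.inl i) + c * g (Sum.inr i)) (fun i => g (Sum.inr i)))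
      (by
        rw [← hg, Fintype.sum_sum_type, Fintype.sum_sum_type]
        simp only [Sum.elim_inl, Sum.elim_inr]
        rw [← Finset.sum_add_distrib, ← Finset.sum_add_distrib]
        refine Finset.sum_congr rfl fun i _ => ?_
        rw [hT i, add_smul, smul_add, smul_smul, mul_comm c]
        abel)
    have h6 : ∀ i, g (Sum.inr i) = 0 := fun i => h5 (Sum.inr i)
    intro s
    rcases s with i | i
    · have h7 := h5 (Sum.inl i)
      simp only [Sum.elim_inl] at h7
      rw [h6 i, mul_zero, add_zero] at h7
      exact h7
    · exact h6 i

end Pool.Agent.P5e96
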