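import Mathlib
import Pool.Agent.Lib.P5e96.Value

/-!
# A completion lemma

A trace-zero matrix with a cyclic vector has, in some basis, a weighted cyclic shift with
prescribed weights as a principal block and a zero complementary principal block.
-/

open Finset Matrix Polynomial

namespace Pool.Agent.P5e96

variable {K : Type*} [Field K]

/-- Decomposition of polynomials along `(X + κ) ^ l * X ^ (2 (s - l))`. -/
theorem poly_decomp (κ : K) (hκ : κ ≠ 0) (d0 : ℕ) (hd : 2 ≤ d0) (s : ℕ) :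
    ∀ R : K[X], R.natDegree < 2 * s + d0 → ∃ β : ℕ → K[X], (∀ l, (β l).natDegree < d0) ∧
      R = ∑ l ∈ range (s + 1), (X + C κ) ^ l * X ^ (2 * (s - l)) * β l := by
  induction s with
  | zero =>
    intro R hR
    refine ⟨fun _ => R, fun _ => by simpa using hR, ?_⟩
    simp
  | succ s ih =>
    intro R hR
    set u : K[X] := (X + C κ) ^ (s + 1) with hu
    have hu0 : u.coeff 0 ≠ 0 := by
      rw [hu, Polynomial.coeff_zero_eq_eval_zero]
      simp [hκ]
    set b0 : K := R.coeff 0 / u.coeff 0 with hb0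
    set b1 : K := (R.coeff 1 - u.coeff 1 * b0) / u.coeff 0 with hb1
    set b : K[X] := C b0 + C b1 * X with hb
    have hbdeg : b.natDegree ≤ 1 := by
      rw [hb]
      compute_degree
    have hdvd : X ^ 2 ∣ R - u * b := by
      rw [Polynomial.X_pow_dvd_iff]
      intro d hd2
      have hbc0 : b.coeff 0 = b0 := by simp [hb]
      have hbc1 : b.coeff 1 = b1 := by simp [hb]
      interval_cases d
      · rw [coeff_sub, mul_coeff_zero, hbc0, hb0, mul_div_cancel₀ _ hu0, sub_self]
      · rw [coeff_sub, mul_coeff_one, hbc0, hbc1, hb1, mul_div_cancel₀ _ hu0]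
        ring
    obtain ⟨R', hR'⟩ := hdvd
    have hudeg : u.natDegree ≤ s + 1 := by
      rw [hu]
      refine (natDegree_pow_le).trans ?_
      have : (X + C κ : K[X]).natDegree ≤ 1 := by compute_degree
      nlinarith
    have hdeg : (R - u * b).natDegree < 2 * (s + 1) + d0 := by
      refine lt_of_le_of_lt (natDegree_sub_le _ _) (max_lt hR ?_)
      have := natDegree_mul_le (p := u) (q := b)
      omega
    have hR'deg : R'.natDegree < 2 * s + d0 := by
      by_cases h0 : R' = 0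
      · rw [h0, natDegree_zero]
        omega
      · rw [hR', natDegree_mul (pow_ne_zero _ X_ne_zero) h0, natDegree_pow, natDegree_X] at hdeg
        omega
    obtain ⟨β, hβ1, hβ2⟩ := ih R' hR'deg
    refine ⟨fun l => if l ≤ s then β l else b, fun l => ?_, ?_⟩
    · simp only
      split_ifs
      · exact hβ1 l
      · omega
    · have h1 : R = X ^ 2 * R' + u * b := by rw [← hR']; ring
      rw [Finset.sum_range_succ]
      beta_reduce
      rw [if_neg (show ¬ (s + 1 ≤ s) by omega), Nat.sub_self, mul_zero, pow_zero, mul_one, ← hu]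
      conv_lhs => rw [h1, hβ2, Finset.mul_sum]
      congr 1
      refine Finset.sum_congr rfl fun l hl => ?_
      rw [Finset.mem_range] at hl
      rw [if_pos (by omega), show 2 * (s + 1 - l) = 2 * (s - l) + 2 by omega, pow_add]
      ring

/-- The vectors `P(T) v`. -/
noncomputable def phi {n : ℕ} (T : Matrix (Fin n) (Fin n) K) (v : Fin n → K) (P : K[X]) :
    Fin n → K := (aeval T P) *ᵥ v

theorem phi_add {n : ℕ} (T : Matrix (Fin n) (Fin n) K) (v : Fin n → K) (P Q : K[X]) :
    phi T v (P + Q) = phi T v P + phi T v Q := by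
  rw [phi, map_add, Matrix.add_mulVec]
  rfl

theorem phi_sub {n : ℕ} (T : Matrix (Fin n) (Fin n) K) (v : Fin n → K) (P Q : K[X]) :
    phi T v (P - Q) = phi T v P - phi T v Q := by
  rw [phi, map_sub, Matrix.sub_mulVec]
  rfl

theorem phi_mul {n : ℕ} (T : Matrix (Fin n) (Fin n) K) (v : Fin n → K) (P Q : K[X]) :
    phi T v (P * Q) = (aeval T P) *ᵥ phi T v Q := by
  rw [phi, map_mul, phi, Matrix.mulVec_mulVec]

theorem phi_X_pow {n : ℕ} (T : Matrix (Fin n) (Fin n) K) (v : Fin n → K) (k : ℕ) :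
    phi T v (X ^ k) = (T ^ k) *ᵥ v := by
  rw [phi, map_pow, aeval_X]

theorem phi_sum {n : ℕ} (T : Matrix (Fin n) (Fin n) K) (v : Fin n → K) {ι : Type*} (F : Finset ι)
    (P : ι → K[X]) : phi T v (∑ i ∈ F, P i) = ∑ i ∈ F, phi T v (P i) := by
  classical
  induction F using Finset.induction_on with
  | empty => simp [phi]
  | insert a F ha ih => rw [Finset.sum_insert ha, Finset.sum_insert ha, phi_add, ih]

theorem phi_C_mul {n : ℕ} (T : Matrix (Fin n) (Fin n) K) (v : Fin n → K) (c : K) (P : K[X]) :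
    phi T v (C c * P) = c • phi T v P := by
  rw [phi_mul, aeval_C, Algebra.algebraMap_eq_smul_one, Matrix.smul_mulVec, Matrix.one_mulVec]

/-- A number `κ` such that `T + κ` is invertible. -/
theorem exists_shift [Infinite K] {n : ℕ} (T : Matrix (Fin n) (Fin n) K) :
    ∃ κ : K, κ ≠ 0 ∧ IsUnit (aeval T (X + C κ)) := by
  have hfin : ({x : K | T.charpoly.IsRoot x} ∪ {0}).Finite :=
    (Polynomial.finite_setOfPred_isRoot T.charpoly_monic.ne_zero).union (Set.finite_singleton _)
  obtain ⟨x, hx⟩ := hfin.exists_notMem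
  rw [Set.mem_union, Set.mem_singleton_iff, not_or, Set.mem_ofPred_eq, Polynomial.IsRoot.def,
    Matrix.eval_charpoly] at hx
  refine ⟨-x, neg_ne_zero.2 hx.2, ?_⟩
  have h1 : IsUnit (Matrix.scalar (Fin n) x - T) := by
    rw [Matrix.isUnit_iff_isUnit_det]
    exact isUnit_iff_ne_zero.2 hx.1
  have h2 : aeval T (X + C (-x)) = -(Matrix.scalar (Fin n) x - T) := by
    rw [map_add, aeval_X, aeval_C, Matrix.algebraMap_eq_diagonal, Matrix.scalar_apply]
    ext i j
    by_cases hij : i = j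
    · subst hij
      simp
      ring
    · simp [hij]
  rw [h2]
  exact h1.neg

/-- The vectors `y k` of the proof. -/
noncomputable def yv {n : ℕ} (T : Matrix (Fin n) (Fin n) K) (v : Fin n → K) (Si : Matrix (Fin n) (Fin n) K)
    (β : ℕ → K[X]) (a : ℕ) : ℕ → (Fin n → K)
  | 0 => (T ^ a) *ᵥ v
  | k + 1 => Si *ᵥ (T *ᵥ (T *ᵥ yv T v Si β a k) - phi T v (β k))

theorem yv_spec {n : ℕ} (T : Matrix (Fin n) (Fin n) K) (v : Fin n → K) (κ : K)
    (Si : Matrix (Fin n) (Fin n) K) (hSi : (aeval T (X + C κ)) * Si = 1) (β : ℕ → K[X]) (a k : ℕ) :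
    (aeval T (X + C κ)) *ᵥ yv T v Si β a (k + 1) =
      T *ᵥ (T *ᵥ yv T v Si β a k) - phi T v (β k) := by
  rw [yv, Matrix.mulVec_mulVec, hSi, Matrix.one_mulVec]

theorem yv_pow {n : ℕ} (T : Matrix (Fin n) (Fin n) K) (v : Fin n → K) (κ : K)
    (Si : Matrix (Fin n) (Fin n) K) (hSi : (aeval T (X + C κ)) * Si = 1) (β : ℕ → K[X]) (a k : ℕ) :
    (aeval T ((X + C κ) ^ k)) *ᵥ yv T v Si β a k =
      phi T v (X ^ (2 * k + a) - ∑ l ∈ range k, (X + C κ) ^ l * X ^ (2 * (k - 1 - l)) * β l) := by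
  induction k with
  | zero =>
    rw [pow_zero, map_one, Matrix.one_mulVec, yv, Finset.range_zero, Finset.sum_empty, sub_zero,
      phi_X_pow, mul_zero, zero_add]
  | succ k ih =>
    rw [pow_succ, map_mul, ← Matrix.mulVec_mulVec, yv_spec T v κ Si hSi, Matrix.mulVec_sub]
    have h1 : (aeval T ((X + C κ) ^ k)) *ᵥ (T *ᵥ (T *ᵥ yv T v Si β a k)) =
        T *ᵥ (T *ᵥ ((aeval T ((X + C κ) ^ k)) *ᵥ yv T v Si β a k)) := by
      simp only [Matrix.mulVec_mulVec]
      have h2 : Commute (aeval T ((X + C κ) ^ k)) T := by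
        have := (Commute.all ((X + C κ) ^ k) (X : K[X])).map (aeval T)
        rwa [aeval_X] at this
      rw [← mul_assoc, h2.eq, mul_assoc, h2.eq]
    have hTT : ∀ P : K[X], T *ᵥ (T *ᵥ phi T v P) = phi T v (X ^ 2 * P) := by
      intro P
      rw [phi_mul, map_pow, aeval_X, pow_two, ← Matrix.mulVec_mulVec]
    rw [h1, ih, hTT, ← phi_mul, ← phi_sub]
    congr 1
    rw [Finset.sum_range_succ, mul_sub, Finset.mul_sum]
    have h3 : ∀ l ∈ range k, X ^ 2 * ((X + C κ) ^ l * X ^ (2 * (k - 1 - l)) * β l) =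
        (X + C κ) ^ l * X ^ (2 * (k + 1 - 1 - l)) * β l := by
      intro l hl
      rw [Finset.mem_range] at hl
      rw [show 2 * (k + 1 - 1 - l) = 2 * (k - 1 - l) + 2 by omega, pow_add]
      ring
    rw [Finset.sum_congr rfl h3, show k + 1 - 1 - k = 0 by omega, mul_zero, pow_zero, mul_one,
      show 2 * (k + 1) + a = 2 * k + a + 2 by omega, pow_add _ _ 2]
    ring

/-- The last relation. -/
theorem yv_last {n : ℕ} (T : Matrix (Fin n) (Fin n) K) (v : Fin n → K) (κ : K)
    (Si : Matrix (Fin n) (Fin n) K) (hSi : (aeval T (X + C κ)) * Si = 1)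
    (β : ℕ → K[X]) (a s : ℕ) (c : K) (R : K[X])
    (hR : phi T v (X ^ (2 * (s + 1) + a)) = phi T v R + c • phi T v (X * (X + C κ) ^ s))
    (hβ : R = ∑ l ∈ range (s + 1), (X + C κ) ^ l * X ^ (2 * (s - l)) * β l) :
    T *ᵥ (T *ᵥ yv T v Si β a s) = c • (T *ᵥ v) + phi T v (β s) := by
  have hU : IsUnit (aeval T ((X + C κ) ^ s)) := by
    rw [map_pow]
    exact (IsUnit.of_mul_eq_one _ hSi).pow s
  have hinj : Function.Injective ((aeval T ((X + C κ) ^ s)).mulVec) :=
    Matrix.mulVec_injective_of_isUnit hU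
  apply hinj
  have h1 : (aeval T ((X + C κ) ^ s)) *ᵥ (T *ᵥ (T *ᵥ yv T v Si β a s)) =
      T *ᵥ (T *ᵥ ((aeval T ((X + C κ) ^ s)) *ᵥ yv T v Si β a s)) := by
    simp only [Matrix.mulVec_mulVec]
    have h2 : Commute (aeval T ((X + C κ) ^ s)) T := by
      have := (Commute.all ((X + C κ) ^ s) (X : K[X])).map (aeval T)
      rwa [aeval_X] at this
    rw [← mul_assoc, h2.eq, mul_assoc, h2.eq]
  have hTT : ∀ P : K[X], T *ᵥ (T *ᵥ phi T v P) = phi T v (X ^ 2 * P) := by
    intro P
    rw [phi_mul, map_pow, aeval_X, pow_two, ← Matrix.mulVec_mulVec]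
  rw [h1, yv_pow T v κ Si hSi, hTT, Matrix.mulVec_add, Matrix.mulVec_smul, ← phi_mul]
  have h3 : T *ᵥ v = phi T v X := by
    rw [← pow_one (X : K[X]), phi_X_pow, pow_one]
  rw [h3, ← phi_mul]
  have h4 : phi T v (X ^ 2 * (X ^ (2 * s + a) - ∑ l ∈ range s,
      (X + C κ) ^ l * X ^ (2 * (s - 1 - l)) * β l)) =
      phi T v (X ^ (2 * (s + 1) + a)) - phi T v R + phi T v ((X + C κ) ^ s * β s) := by
    rw [← phi_sub, ← phi_add]
    congr 1
    rw [hβ, Finset.sum_range_succ, Nat.sub_self, mul_zero, pow_zero, mul_one, mul_sub,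
      Finset.mul_sum]
    have h3 : ∀ l ∈ range s, X ^ 2 * ((X + C κ) ^ l * X ^ (2 * (s - 1 - l)) * β l) =
        (X + C κ) ^ l * X ^ (2 * (s - l)) * β l := by
      intro l hl
      rw [Finset.mem_range] at hl
      rw [show 2 * (s - l) = 2 * (s - 1 - l) + 2 by omega, pow_add]
      ring
    rw [Finset.sum_congr rfl h3, show 2 * (s + 1) + a = 2 * s + a + 2 by omega, pow_add _ _ 2]
    ring
  rw [h4, hR, mul_comm X]
  abel

theorem phi_mem {n : ℕ} (T : Matrix (Fin n) (Fin n) K) (v : Fin n → K) (P : K[X]) (a : ℕ)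
    (hP : P.natDegree < a + 1) (U : Submodule K (Fin n → K))
    (hU : ∀ t, t ≤ a → (T ^ t) *ᵥ v ∈ U) : phi T v P ∈ U := by
  rw [P.as_sum_range_C_mul_X_pow, phi_sum]
  refine Submodule.sum_mem _ fun t ht => ?_
  rw [Finset.mem_range] at ht
  rw [phi_C_mul, phi_X_pow]
  exact Submodule.smul_mem _ _ (hU t (by omega))

/-- The completion lemma. -/
theorem exists_completion [Infinite K] {n p s : ℕ} (hs : 1 ≤ s) (hps : s + 1 ≤ p)
    (hn : p + s = n) (T : Matrix (Fin n) (Fin n) K) (hT : T.trace = 0) (v : Fin n → K)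
    (hv : LinearIndependent K fun i : Fin n => (T ^ (i : ℕ)) *ᵥ v)
    (d : Fin p → K) (hd : ∀ i, d i ≠ 0) :
    ∃ b : Module.Basis (Fin p ⊕ Fin s) K (Fin n → K),
      (∀ i j : Fin p, b.repr (T *ᵥ b (Sum.inl j)) (Sum.inl i) =
        if (i : ℕ) = (j + 1) % p then d i else 0) ∧
      (∀ i j : Fin s, b.repr (T *ᵥ b (Sum.inr j)) (Sum.inr i) = 0) := by
  obtain ⟨N, rfl⟩ : ∃ N, n = N + 1 := ⟨n - 1, by omega⟩
  obtain ⟨s', rfl⟩ : ∃ s', s = s' + 1 := ⟨s - 1, by omega⟩
  obtain ⟨a, rfl⟩ : ∃ a, p = a + (s' + 1) := ⟨p - (s' + 1), by omega⟩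
  have ha : 1 ≤ a := by omega
  have hN : N = 2 * s' + a + 1 := by omega
  obtain ⟨b0, hb0⟩ := exists_basis T v hv
  have hlast : b0.repr ((T ^ (N + 1)) *ᵥ v) (Fin.last N) = 0 := (last_coeff T v b0 hb0).trans hT
  -- the scaling factors
  set d' : ℕ → K := fun j => if h : j < a + (s' + 1) then d ⟨j, h⟩ else 1 with hd'
  have hd'0 : ∀ j, d' j ≠ 0 := by
    intro j
    rw [hd']
    simp only
    split_ifs
    · exact hd _
    · exact one_ne_zero
  set ρ : ℕ → K := fun j => ∏ t ∈ range j, (d' (t + 1))⁻¹ with hρ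
  have hρ0 : ∀ j, ρ j ≠ 0 := fun j => Finset.prod_ne_zero_iff.2 fun t _ => inv_ne_zero (hd'0 _)
  have hρs : ∀ j, ρ j = d' (j + 1) * ρ (j + 1) := by
    intro j
    rw [hρ]
    simp only
    rw [Finset.prod_range_succ, mul_comm (∏ t ∈ range j, (d' (t + 1))⁻¹), ← mul_assoc,
      mul_inv_cancel₀ (hd'0 _), one_mul]
  have hρz : ρ 0 = 1 := by rw [hρ]; simp
  set c : K := d' 0 / ρ (a + s') with hc
  obtain ⟨κ, hκ, hSu⟩ := exists_shift T
  obtain ⟨Si, hSi⟩ := hSu.exists_right_inv
  set R : K[X] := (∑ k : Fin N, C (b0.repr ((T ^ (N + 1)) *ᵥ v) k.castSucc) * X ^ (k : ℕ)) -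
    C c * (X * (X + C κ) ^ s') with hR
  have hRdeg : R.natDegree < 2 * s' + (a + 1) := by
    have h1 : (∑ k : Fin N, C (b0.repr ((T ^ (N + 1)) *ᵥ v) k.castSucc) *
        (X : K[X]) ^ (k : ℕ)).natDegree ≤ 2 * s' + a := by
      refine natDegree_sum_le_of_forall_le _ _ fun k _ => ?_
      refine (natDegree_C_mul_X_pow_le _ _).trans ?_
      have := k.2
      omega
    have h2 : (C c * (X * (X + C κ) ^ s') : K[X]).natDegree ≤ 2 * s' + a := by
      refine (natDegree_C_mul_le _ _).trans ?_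
      refine (natDegree_mul_le).trans ?_
      have h3 : (X + C κ : K[X]).natDegree ≤ 1 := by compute_degree
      have h4 : ((X + C κ : K[X]) ^ s').natDegree ≤ s' * 1 :=
        natDegree_pow_le.trans (Nat.mul_le_mul_left _ h3)
      have h5 : (X : K[X]).natDegree ≤ 1 := natDegree_X_le
      omega
    have h3 := natDegree_sub_le (∑ k : Fin N, C (b0.repr ((T ^ (N + 1)) *ᵥ v) k.castSucc) *
        (X : K[X]) ^ (k : ℕ)) (C c * (X * (X + C κ) ^ s'))
    rw [← hR] at h3
    have h4 := max_le h1 h2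
    omega
  obtain ⟨β, hβ1, hβ2⟩ := poly_decomp κ hκ (a + 1) (by omega) s' R hRdeg
  have hRphi : phi T v (X ^ (2 * (s' + 1) + a)) =
      phi T v R + c • phi T v (X * (X + C κ) ^ s') := by
    rw [hR, phi_sub, phi_C_mul, sub_add_cancel, phi_X_pow, phi_sum,
      show 2 * (s' + 1) + a = N + 1 by omega]
    conv_lhs => rw [← b0.sum_repr ((T ^ (N + 1)) *ᵥ v)]
    rw [Fin.sum_univ_castSucc, hlast, zero_smul, add_zero]
    refine Finset.sum_congr rfl fun k _ => ?_
    rw [phi_C_mul, phi_X_pow, hb0]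
    rfl
  set y : ℕ → (Fin (N + 1) → K) := yv T v Si β a with hy
  have hy0 : y 0 = (T ^ a) *ᵥ v := rfl
  have hyS : ∀ k, T *ᵥ (T *ᵥ y k) - T *ᵥ y (k + 1) = κ • y (k + 1) + phi T v (β k) := by
    intro k
    have h1 := yv_spec T v κ Si hSi β a k
    rw [← hy, map_add, aeval_X, aeval_C, Matrix.add_mulVec, Algebra.algebraMap_eq_smul_one,
      Matrix.smul_mulVec, Matrix.one_mulVec] at h1
    rw [sub_eq_iff_eq_add]
    rw [eq_sub_iff_add_eq] at h1
    rw [← h1]
    abel
  have hylast : T *ᵥ (T *ᵥ y s') = c • (T *ᵥ v) + phi T v (β s') :=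
    yv_last T v κ Si hSi β a s' c R hRphi hβ2
  set z : ℕ → (Fin (N + 1) → K) := fun k => if k ≤ s' then y k else c • v with hz
  set u : ℕ → (Fin (N + 1) → K) := fun j => if j < a then (T ^ j) *ᵥ v else z (j - a) with hu
  set w : ℕ → (Fin (N + 1) → K) := fun k => T *ᵥ z k - z (k + 1) with hw
  have hu0 : u 0 = v := by
    rw [hu]
    simp only
    rw [if_pos (by omega), pow_zero, Matrix.one_mulVec]
  have hupow : ∀ t, t ≤ a → u t = (T ^ t) *ᵥ v := by
    intro t ht
    rw [hu]
    simp only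
    by_cases h : t < a
    · rw [if_pos h]
    · rw [if_neg h, show t - a = 0 by omega, hz]
      simp only
      rw [if_pos (by omega), hy0, show t = a by omega]
  have huz : ∀ k, u (a + k) = z k := by
    intro k
    rw [hu]
    simp only
    rw [if_neg (by omega), show a + k - a = k by omega]
  have hulast : u (a + (s' + 1)) = c • v := by
    rw [huz, hz]
    simp only
    rw [if_neg (by omega)]
  have F1 : ∀ j, j < a → T *ᵥ u j = u (j + 1) := by
    intro j hj
    rw [hupow j hj.le, hupow (j + 1) hj, pow_succ_mulVec]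
  have F2 : ∀ k, T *ᵥ u (a + k) = u (a + k + 1) + w k := by
    intro k
    rw [add_assoc a k 1, huz, huz, hw]
    simp only
    abel
  -- the span of the `u`
  set U : Submodule K (Fin (N + 1) → K) :=
    Submodule.span K (Set.range fun j : Fin (a + (s' + 1)) => u j) with hU
  have huU : ∀ j, j < a + (s' + 1) → u j ∈ U := fun j hj => Submodule.subset_span ⟨⟨j, hj⟩, rfl⟩
  have hphiU : ∀ k, phi T v (β k) ∈ U := by
    intro k
    refine phi_mem T v (β k) a (hβ1 k) U fun t ht => ?_
    rw [← hupow t ht]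
    exact huU t (by omega)
  have F3 : ∀ k, k ≤ s' → T *ᵥ w k ∈ U := by
    intro k hk
    rw [hw]
    simp only
    rw [Matrix.mulVec_sub]
    by_cases h : k + 1 ≤ s'
    · have h1 : z k = y k := by rw [hz]; simp only; rw [if_pos hk]
      have h2 : z (k + 1) = y (k + 1) := by rw [hz]; simp only; rw [if_pos h]
      have h3 : z (k + 1) ∈ U := by
        rw [← huz]
        exact huU _ (by omega)
      rw [h1, h2, hyS, ← h2]
      exact Submodule.add_mem _ (Submodule.smul_mem _ _ h3) (hphiU k)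
    · have hk' : k = s' := by omega
      subst hk'
      have h1 : z k = y k := by rw [hz]; simp only; rw [if_pos le_rfl]
      have h2 : z (k + 1) = c • v := by rw [hz]; simp only; rw [if_neg h]
      rw [h1, h2, hylast, Matrix.mulVec_smul, add_sub_cancel_left]
      exact hphiU k
  -- the family
  set x : Fin (a + (s' + 1)) ⊕ Fin (s' + 1) → (Fin (N + 1) → K) :=
    Sum.elim (fun j => ρ j • u j) (fun k => w k) with hx
  set M : Submodule K (Fin (N + 1) → K) := Submodule.span K (Set.range x) with hM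
  have hxl : ∀ j : Fin (a + (s' + 1)), x (Sum.inl j) = ρ j • u j := fun j => rfl
  have hxr : ∀ k : Fin (s' + 1), x (Sum.inr k) = w k := fun k => rfl
  have huM : ∀ j, j < a + (s' + 1) → u j ∈ M := by
    intro j hj
    have h1 : x (Sum.inl ⟨j, hj⟩) ∈ M := Submodule.subset_span ⟨_, rfl⟩
    rw [hxl] at h1
    exact (Submodule.smul_mem_iff _ (hρ0 j)).1 h1
  have hwM : ∀ k, k ≤ s' → w k ∈ M := by
    intro k hk
    have h1 : x (Sum.inr ⟨k, by omega⟩) ∈ M := Submodule.subset_span ⟨_, rfl⟩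
    exact h1
  have huM' : ∀ j, j ≤ a + (s' + 1) → u j ∈ M := by
    intro j hj
    by_cases h : j < a + (s' + 1)
    · exact huM j h
    · rw [show j = a + (s' + 1) by omega, hulast, ← hu0]
      exact Submodule.smul_mem _ _ (huM 0 (by omega))
  have hUM : U ≤ M := by
    rw [hU, Submodule.span_le]
    rintro _ ⟨j, rfl⟩
    exact huM j j.2
  have hTu : ∀ j, j < a + (s' + 1) → T *ᵥ u j ∈ M := by
    intro j hj
    by_cases h : j < a
    · rw [F1 j h]
      exact huM' _ (by omega)
    · obtain ⟨k, rfl⟩ : ∃ k, j = a + k := ⟨j - a, by omega⟩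
      rw [F2]
      exact Submodule.add_mem _ (huM' _ (by omega)) (hwM _ (by omega))
  have hTM : ∀ m ∈ M, T *ᵥ m ∈ M := by
    intro m hm
    rw [hM] at hm
    induction hm using Submodule.span_induction with
    | mem m hm =>
      obtain ⟨i, rfl⟩ := hm
      rcases i with j | k
      · rw [hxl, Matrix.mulVec_smul]
        exact Submodule.smul_mem _ _ (hTu j j.2)
      · rw [hxr]
        exact hUM (F3 k (by have := k.2; omega))
    | zero => rw [Matrix.mulVec_zero]; exact Submodule.zero_mem _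
    | add m m' _ _ h1 h2 => rw [Matrix.mulVec_add]; exact Submodule.add_mem _ h1 h2
    | smul t m _ h1 => rw [Matrix.mulVec_smul]; exact Submodule.smul_mem _ _ h1
  have hpow : ∀ i : ℕ, (T ^ i) *ᵥ v ∈ M := by
    intro i
    induction i with
    | zero =>
      rw [pow_zero, Matrix.one_mulVec, ← hu0]
      exact huM 0 (by omega)
    | succ i ih =>
      rw [← pow_succ_mulVec]
      exact hTM _ ih
  have htop : ⊤ ≤ Submodule.span K (Set.range x) := by
    rw [← b0.span_eq, Submodule.span_le]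
    rintro _ ⟨i, rfl⟩
    rw [hb0]
    exact hpow i
  set b : Module.Basis (Fin (a + (s' + 1)) ⊕ Fin (s' + 1)) K (Fin (N + 1) → K) :=
    basisOfTopLeSpanOfCardEqFinrank x htop (by simp; omega) with hb
  have hbx : ∀ i, b i = x i := by
    intro i
    rw [hb, coe_basisOfTopLeSpanOfCardEqFinrank]
  have hbu : ∀ j : Fin (a + (s' + 1)), u j = (ρ j)⁻¹ • b (Sum.inl j) := by
    intro j
    rw [hbx, hxl, smul_smul, inv_mul_cancel₀ (hρ0 _), one_smul]
  refine ⟨b, fun i j => ?_, fun i k => ?_⟩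
  · have hj := j.2
    have hW : ∃ W : Fin (N + 1) → K, b.repr W (Sum.inl i) = 0 ∧
        T *ᵥ u j = u (j + 1) + W := by
      by_cases h : (j : ℕ) < a
      · exact ⟨0, by rw [map_zero]; rfl, by rw [F1 j h, add_zero]⟩
      · obtain ⟨k, hk⟩ : ∃ k, (j : ℕ) = a + k := ⟨j - a, by omega⟩
        refine ⟨w k, ?_, ?_⟩
        · have h1 : w k = b (Sum.inr ⟨k, by omega⟩) := by rw [hbx]; rfl
          rw [h1, Module.Basis.repr_self, Finsupp.single_apply, if_neg (by simp)]
        · rw [hk]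
          exact F2 k
    obtain ⟨W, hW1, hW2⟩ := hW
    rw [hbx, hxl, Matrix.mulVec_smul, hW2, map_smul, map_add, Finsupp.smul_apply,
      Finsupp.add_apply, hW1, add_zero]
    by_cases hjl : (j : ℕ) + 1 < a + (s' + 1)
    · have h1 := hbu ⟨j + 1, hjl⟩
      simp only at h1
      rw [h1, map_smul, Finsupp.smul_apply, Module.Basis.repr_self, Finsupp.single_apply,
        Nat.mod_eq_of_lt hjl]
      by_cases hij : (i : ℕ) = j + 1
      · rw [if_pos (by rw [Sum.inl.injEq]; exact Fin.ext hij.symm), if_pos hij, smul_eq_mul,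
          smul_eq_mul, mul_one, hρs j, mul_assoc, mul_inv_cancel₀ (hρ0 _), mul_one, ← hij, hd']
        simp only
        rw [dif_pos i.2]
      · rw [if_neg, if_neg hij, smul_zero, smul_zero]
        rw [Sum.inl.injEq]
        rintro rfl
        exact hij rfl
    · have hj2 : (j : ℕ) + 1 = a + (s' + 1) := by omega
      have h1 := hbu ⟨0, by omega⟩
      simp only at h1
      rw [hj2, hulast, Nat.mod_self, ← hu0, h1, hρz, inv_one, one_smul, map_smul,
        Finsupp.smul_apply, Module.Basis.repr_self, Finsupp.single_apply]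
      by_cases hij : (i : ℕ) = 0
      · rw [if_pos (by rw [Sum.inl.injEq]; exact Fin.ext hij.symm), if_pos hij, smul_eq_mul,
          smul_eq_mul, mul_one, hc, show (j : ℕ) = a + s' by omega, mul_div_cancel₀ _ (hρ0 _),
          hd']
        simp only
        rw [dif_pos (by omega)]
        congr 1
        exact Fin.ext hij.symm
      · rw [if_neg, if_neg hij, smul_zero, smul_zero]
        rw [Sum.inl.injEq]
        rintro rfl
        exact hij rfl
  · have hUr : ∀ m ∈ U, b.repr m (Sum.inr i) = 0 := by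
      intro m hm
      rw [hU] at hm
      induction hm using Submodule.span_induction with
      | mem m hm =>
        obtain ⟨j, rfl⟩ := hm
        simp only
        rw [hbu, map_smul, Finsupp.smul_apply, Module.Basis.repr_self, Finsupp.single_apply,
          if_neg (by simp), smul_zero]
      | zero => rw [map_zero]; rfl
      | add m m' _ _ h1 h2 => rw [map_add, Finsupp.add_apply, h1, h2, add_zero]
      | smul t m _ h1 => rw [map_smul, Finsupp.smul_apply, h1, smul_zero]
    rw [hbx, hxr]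
    exact hUr _ (F3 k (by have := k.2; omega))

end Pool.Agent.P5e96
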