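import Mathlib
import Pool.Agent.Lib.P5e96.Block

/-!
# Block scaling with prescribed diagonal blocks
-/

open Finset Matrix

namespace Pool.Agent.P5e96

variable {K : Type*} [Field K] {ι : Type*} [DecidableEq ι] [Fintype ι]

variable {r : ℕ}

theorem block_commute {κ : Type*} (col : ι → κ) (M : Matrix ι ι K)
    (hM : ∀ i j, col i ≠ col j → M i j = 0) (s : κ → K) :
    Commute (Matrix.diagonal fun i => s (col i)) M := by
  ext i j
  rw [Matrix.diagonal_mul, Matrix.mul_diagonal]
  by_cases h : col i = col j
  · rw [h, mul_comm]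
  · rw [hM i j h, mul_zero, zero_mul]

/-- Block scaling.  `C q` (`q = 1, ..., r`) are block diagonal matrices for the partition `col`
such that the right multiplication by `gmat α C` (the words that start with the variable `0`) is
injective.  Then every matrix `T` whose diagonal blocks are the diagonal blocks of some
`f (X₀, C 1, ..., C r)` is a value of `f`. -/
theorem block_scale [Infinite K] {κ : Type*} (col : ι → κ)
    (α : Equiv.Perm (Fin (r + 1)) → K) (C : ℕ → Matrix ι ι K)
    (hC : ∀ q i j, col i ≠ col j → C q i j = 0)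
    (hg : ∀ X : Matrix ι ι K, X * gmat α C = 0 → X = 0)
    (X₀ : Matrix ι ι K) (T : Matrix ι ι K)
    (hT : ∀ i j, col i = col j → mval α (fun q => if q = 0 then X₀ else C q) i j = T i j) :
    ∃ A : Fin (r + 1) → Matrix ι ι K, mval α A = T := by
  classical
  set E : Equiv.Perm (Fin (r + 1)) → Matrix ι ι K →ₗ[K] Matrix ι ι K :=
    fun σ => α σ • act C σ with hE
  set e : Equiv.Perm (Fin (r + 1)) → ℕ := fun σ => ((σ.symm 0 : Fin (r + 1)) : ℕ) with he
  have hfin := finite_bad E e (by
    rw [injective_iff_map_eq_zero]
    intro X hX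
    rw [hE, he] at hX
    have h1 := pencil_zero α C X
    rw [h1] at hX
    exact hg X hX)
  obtain ⟨s, hs0, hs⟩ := exists_scales (univ.image col)
    {z : K | ¬ Function.Injective (∑ i, z ^ e i • E i : Matrix ι ι K →ₗ[K] Matrix ι ι K)} hfin
  set D : Matrix ι ι K := Matrix.diagonal fun i => s (col i) with hD
  have hDC : ∀ q, Commute D (C q) := fun q => block_commute col (C q) (hC q) s
  -- the linear map
  set L : Matrix ι ι K →ₗ[K] Matrix ι ι K := ∑ σ : Equiv.Perm (Fin (r + 1)),
    (LinearMap.mulLeft K (D ^ e σ) ∘ₗ LinearMap.mulRight K (D ^ (r - e σ))) ∘ₗ E σ with hL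
  have hLX : ∀ X, L X = mval α (fun q => if q = 0 then X else D * C q) := by
    intro X
    rw [mval_scaled α D X C hDC, hL, LinearMap.sum_apply]
    refine Finset.sum_congr rfl fun σ _ => ?_
    simp only [hE, LinearMap.comp_apply, LinearMap.smul_apply, LinearMap.mulRight_apply,
      LinearMap.mulLeft_apply, smul_mul_assoc, mul_smul_comm, mul_assoc, he]
  have hPC : ∀ a q, Commute (proj col a) (C q) := fun a q =>
    block_commute col (C q) (hC q) (fun b => if b = a then 1 else 0)
  have hPl : ∀ a (l : List ℕ), Commute (proj col a) (l.map C).prod := by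
    intro a l
    exact (prod_map_mul _ C (fun q => hPC a q) l).2
  have hPD : ∀ a k, proj col a * D ^ k = s a ^ k • proj col a := by
    intro a k
    rw [hD, Matrix.diagonal_pow, proj, Matrix.diagonal_mul_diagonal]
    ext i j
    rw [Matrix.smul_apply, Matrix.diagonal_apply, Matrix.diagonal_apply]
    by_cases hij : i = j
    · rw [if_pos hij, if_pos hij]
      by_cases hi : col i = a
      · simp [hi]
      · simp [hi]
    · rw [if_neg hij, if_neg hij, smul_zero]
  have hDP : ∀ a k, D ^ k * proj col a = s a ^ k • proj col a := by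
    intro a k
    rw [← hPD a k, hD, Matrix.diagonal_pow, proj, Matrix.diagonal_mul_diagonal,
      Matrix.diagonal_mul_diagonal]
    congr 1
    ext i
    rw [mul_comm]
  have hPE : ∀ a b σ X, proj col a * E σ X * proj col b = E σ (proj col a * X * proj col b) := by
    intro a b σ X
    simp only [hE, LinearMap.smul_apply, act_apply, mul_smul_comm, smul_mul_assoc]
    congr 1
    have h1 := (hPl a (preL σ)).eq
    have h2 := (hPl b (postL σ)).eq
    calc proj col a * (((preL σ).map C).prod * (X * ((postL σ).map C).prod)) * proj col b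
        = (proj col a * ((preL σ).map C).prod) * X *
          (((postL σ).map C).prod * proj col b) := by noncomm_ring
      _ = (((preL σ).map C).prod * proj col a) * X *
          (proj col b * ((postL σ).map C).prod) := by rw [h1, h2]
      _ = _ := by noncomm_ring
  have hPL : ∀ a b X, proj col a * L X * proj col b =
      s b ^ r • (∑ i, (s a / s b) ^ e i • E i : Matrix ι ι K →ₗ[K] Matrix ι ι K)
        (proj col a * X * proj col b) := by
    intro a b X
    rw [hL, LinearMap.sum_apply, Finset.mul_sum, Finset.sum_mul, LinearMap.sum_apply,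
      Finset.smul_sum]
    refine Finset.sum_congr rfl fun σ _ => ?_
    have h1 : e σ ≤ r := by
      rw [he]
      have := (σ.symm 0).2
      simp only
      omega
    calc proj col a * ((LinearMap.mulLeft K (D ^ e σ) ∘ₗ
            LinearMap.mulRight K (D ^ (r - e σ))) ∘ₗ E σ) X * proj col b
        = (proj col a * D ^ e σ) * E σ X * (D ^ (r - e σ) * proj col b) := by
          simp only [LinearMap.comp_apply, LinearMap.mulRight_apply, LinearMap.mulLeft_apply]
          noncomm_ring
      _ = (s a ^ e σ * s b ^ (r - e σ)) • (proj col a * E σ X * proj col b) := by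
          rw [hPD, hDP]
          simp only [smul_mul_assoc, mul_smul_comm, smul_smul, mul_comm]
      _ = s b ^ r • ((s a / s b) ^ e σ • E σ (proj col a * X * proj col b)) := by
          rw [hPE, smul_smul]
          congr 1
          have h2 : s b ^ r = s b ^ (r - e σ) * s b ^ e σ := by
            rw [← pow_add, show r - e σ + e σ = r by omega]
          have h3 := hs0 b
          rw [div_pow, h2]
          field_simp
      _ = _ := rfl
  -- the invariant subspace
  set O : Submodule K (Matrix ι ι K) :=
    { carrier := {X | ∀ a, proj col a * X * proj col a = 0}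
      add_mem' := by
        intro X Y hX hY a
        rw [mul_add, add_mul, hX a, hY a, add_zero]
      zero_mem' := by intro a; simp
      smul_mem' := by
        intro c X hX a
        rw [mul_smul_comm, smul_mul_assoc, hX a, smul_zero] } with hO
  have hmemO : ∀ X, X ∈ O ↔ ∀ a, proj col a * X * proj col a = 0 := fun X => Iff.rfl
  have hLO : ∀ X ∈ O, L X ∈ O := by
    intro X hX a
    rw [hPL, (hmemO X).1 hX a, map_zero, smul_zero]
  have hinj : ∀ X ∈ O, L X = 0 → X = 0 := by
    intro X hX hLX0
    ext i j
    by_cases hij : col i = col j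
    · have h1 := congrFun (congrFun ((hmemO X).1 hX (col i)) i) j
      rw [proj_mul_mul_proj, if_pos ⟨rfl, hij.symm⟩] at h1
      exact h1
    · have h1 := hPL (col i) (col j) X
      rw [hLX0, mul_zero, zero_mul] at h1
      have h2 : (∑ k, (s (col i) / s (col j)) ^ e k • E k : Matrix ι ι K →ₗ[K] Matrix ι ι K)
          (proj col (col i) * X * proj col (col j)) = 0 := by
        rcases smul_eq_zero.1 h1.symm with h3 | h3
        · exact absurd h3 (pow_ne_zero _ (hs0 _))
        · exact h3
      have h4 := hs (col i) (Finset.mem_image_of_mem _ (mem_univ _)) (col j)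
        (Finset.mem_image_of_mem _ (mem_univ _)) hij
      rw [Set.mem_ofPred_eq, not_not] at h4
      have h5 := (injective_iff_map_eq_zero _).1 h4 _ h2
      have h6 := congrFun (congrFun h5 i) j
      rw [proj_mul_mul_proj, if_pos ⟨rfl, rfl⟩] at h6
      exact h6
  have hsurj : Function.Surjective (L.restrict hLO) := by
    rw [← LinearMap.injective_iff_surjective]
    rw [injective_iff_map_eq_zero]
    rintro ⟨X, hX⟩ h
    have h1 : L X = 0 := congrArg Subtype.val h
    exact Subtype.ext (hinj X hX h1)
  -- the diagonal part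
  set X₁ : Matrix ι ι K := fun i j => (s (col j) ^ r)⁻¹ * X₀ i j with hX₁
  have hC1 : (fun q : Fin (r + 1) => if q = 0 then X₀ else C q) =
      fun q : Fin (r + 1) => if q = 0 then X₀ else (1 : Matrix ι ι K) * C q := by
    funext q
    rw [one_mul]
  have hval : ∀ X, mval α (fun q : Fin (r + 1) => if q = 0 then X else C q) =
      ∑ σ, E σ X := by
    intro X
    have h1 : (fun q : Fin (r + 1) => if q = 0 then X else C q) =
        fun q : Fin (r + 1) => if q = 0 then X else (1 : Matrix ι ι K) * C q := by
      funext q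
      rw [one_mul]
    rw [h1, mval_scaled α 1 X C (fun q => Commute.one_left _)]
    refine Finset.sum_congr rfl fun σ _ => ?_
    rw [one_pow, one_pow, one_mul, mul_one]
    rfl
  have hdiag : ∀ i j, col i = col j → L X₁ i j = T i j := by
    intro i j hij
    rw [← hT i j hij]
    have h1 := hPL (col j) (col j) X₁
    have h2 : proj col (col j) * X₁ * proj col (col j) =
        (s (col j) ^ r)⁻¹ • (proj col (col j) * X₀ * proj col (col j)) := by
      ext a b
      rw [Matrix.smul_apply, proj_mul_mul_proj, proj_mul_mul_proj]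
      by_cases h : col a = col j ∧ col b = col j
      · rw [if_pos h, if_pos h, hX₁]
        simp only [h.2, smul_eq_mul]
      · rw [if_neg h, if_neg h, smul_zero]
    have h3 := congrFun (congrFun h1 i) j
    rw [proj_mul_mul_proj, if_pos ⟨hij, rfl⟩] at h3
    rw [h3, h2, map_smul, smul_smul, mul_inv_cancel₀ (pow_ne_zero _ (hs0 _)), one_smul,
      LinearMap.sum_apply, hval]
    rw [div_self (hs0 _)]
    have h4 : ∀ σ, ((1 : K) ^ e σ • E σ) (proj col (col j) * X₀ * proj col (col j)) =
        proj col (col j) * E σ X₀ * proj col (col j) := by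
      intro σ
      rw [one_pow, one_smul, hPE]
    simp only [h4, Matrix.sum_apply]
    refine Finset.sum_congr rfl fun σ _ => ?_
    rw [proj_mul_mul_proj, if_pos ⟨hij, rfl⟩]
  have hTO : T - L X₁ ∈ O := by
    intro a
    ext i j
    rw [proj_mul_mul_proj]
    split_ifs with h
    · rw [Matrix.sub_apply, hdiag i j (h.1.trans h.2.symm), sub_self]
      rfl
    · rfl
  obtain ⟨⟨X, hX⟩, hXT⟩ := hsurj ⟨T - L X₁, hTO⟩
  refine ⟨fun q => if q = 0 then X₁ + X else D * C q, ?_⟩
  have h5 : L X = T - L X₁ := congrArg Subtype.val hXT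
  rw [← hLX, map_add, h5]
  abel

/-! ### The same for a family of blocks -/

section family

variable {κ : Type*} [Fintype κ] [DecidableEq κ] {ν : κ → Type*} [∀ a, Fintype (ν a)]
  [∀ a, DecidableEq (ν a)]

theorem blockDiagonal'_list_prod (B : (a : κ) → ℕ → Matrix (ν a) (ν a) K) (l : List ℕ) :
    (l.map fun q => Matrix.blockDiagonal' fun a => B a q).prod =
      Matrix.blockDiagonal' fun a => (l.map (B a)).prod := by
  induction l with
  | nil =>
    simp only [List.map_nil, List.prod_nil]
    exact Matrix.blockDiagonal'_one.symm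
  | cons q l ih =>
    simp only [List.map_cons, List.prod_cons]
    rw [ih, ← Matrix.blockDiagonal'_mul]

theorem gmat_blockDiagonal' (α : Equiv.Perm (Fin (r + 1)) → K)
    (B : (a : κ) → ℕ → Matrix (ν a) (ν a) K) :
    gmat α (fun q => Matrix.blockDiagonal' fun a => B a q) =
      Matrix.blockDiagonal' fun a => gmat α (B a) := by
  ext ⟨a, i⟩ ⟨b, j⟩
  rw [gmat, Matrix.sum_apply, Matrix.blockDiagonal'_apply]
  by_cases h : a = b
  · subst h
    rw [dif_pos rfl, gmat, cast_eq, Matrix.sum_apply]
    refine Finset.sum_congr rfl fun σ _ => ?_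
    split_ifs
    · rw [blockDiagonal'_list_prod, Matrix.smul_apply, Matrix.smul_apply,
        Matrix.blockDiagonal'_apply_eq]
    · rfl
  · rw [dif_neg h]
    refine Finset.sum_eq_zero fun σ _ => ?_
    split_ifs
    · rw [blockDiagonal'_list_prod, Matrix.smul_apply, Matrix.blockDiagonal'_apply_ne _ _ _ h,
        smul_zero]
    · rfl

theorem mval_blockDiagonal' {m : ℕ} (α : Equiv.Perm (Fin m) → K)
    (B : (a : κ) → Fin m → Matrix (ν a) (ν a) K) :
    mval α (fun q => Matrix.blockDiagonal' fun a => B a q) =
      Matrix.blockDiagonal' fun a => mval α (B a) := by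
  have hl : ∀ l : List (Fin m), (l.map fun q => Matrix.blockDiagonal' fun a => B a q).prod =
      Matrix.blockDiagonal' fun a => (l.map (B a)).prod := by
    intro l
    induction l with
    | nil =>
      simp only [List.map_nil, List.prod_nil]
      exact Matrix.blockDiagonal'_one.symm
    | cons q l ih =>
      simp only [List.map_cons, List.prod_cons]
      rw [ih, ← Matrix.blockDiagonal'_mul]
  have hm1 : ∀ (σ : Equiv.Perm (Fin m)),
      (List.ofFn fun i => Matrix.blockDiagonal' fun a => B a (σ i)) =
        (List.ofFn fun i => σ i).map fun q => Matrix.blockDiagonal' fun a => B a q := by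
    intro σ
    rw [List.map_ofFn]
    rfl
  have hm2 : ∀ (σ : Equiv.Perm (Fin m)) (a : κ),
      (List.ofFn fun i => B a (σ i)) = (List.ofFn fun i => σ i).map (B a) := by
    intro σ a
    rw [List.map_ofFn]
    rfl
  rw [mval]
  ext ⟨a, i⟩ ⟨b, j⟩
  rw [Matrix.sum_apply, Matrix.blockDiagonal'_apply]
  by_cases h : a = b
  · subst h
    rw [dif_pos rfl, mval, cast_eq, Matrix.sum_apply]
    refine Finset.sum_congr rfl fun σ _ => ?_
    rw [hm1 σ, hl, Matrix.smul_apply, Matrix.smul_apply, Matrix.blockDiagonal'_apply_eq, hm2 σ]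
  · rw [dif_neg h]
    refine Finset.sum_eq_zero fun σ _ => ?_
    rw [hm1 σ, hl, Matrix.smul_apply, Matrix.blockDiagonal'_apply_ne _ _ _ h, smul_zero]

/-- Block scaling for a family of square blocks of arbitrary sizes: if for every block `a` the
matrices `B a 1, ..., B a r` give an invertible `gmat` and the diagonal block `T a a` is the value
`f (X₀ a, B a 1, ..., B a r)`, then `T` is a value of `f`. -/
theorem block_scale_family [Infinite K] (α : Equiv.Perm (Fin (r + 1)) → K)
    (B : (a : κ) → ℕ → Matrix (ν a) (ν a) K) (hg : ∀ a, IsUnit (gmat α (B a)))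
    (X₀ : (a : κ) → Matrix (ν a) (ν a) K)
    (T : Matrix ((a : κ) × ν a) ((a : κ) × ν a) K)
    (hT : ∀ a i j, mval α (fun q => if q = 0 then X₀ a else B a q) i j = T ⟨a, i⟩ ⟨a, j⟩) :
    ∃ A : Fin (r + 1) → Matrix ((a : κ) × ν a) ((a : κ) × ν a) K, mval α A = T := by
  refine block_scale (fun x : (a : κ) × ν a => x.1) α
    (fun q => Matrix.blockDiagonal' fun a => B a q) ?_ ?_
    (Matrix.blockDiagonal' X₀) T ?_
  · rintro q ⟨a, i⟩ ⟨b, j⟩ h
    exact Matrix.blockDiagonal'_apply_ne _ _ _ h
  · intro X hX
    rw [gmat_blockDiagonal'] at hX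
    choose G hG using fun a => (hg a)
    have h1 : (Matrix.blockDiagonal' fun a => gmat α (B a)) *
        (Matrix.blockDiagonal' fun a => (↑(G a)⁻¹ : Matrix (ν a) (ν a) K)) = 1 := by
      rw [← Matrix.blockDiagonal'_mul, ← Matrix.blockDiagonal'_one]
      congr 1
      funext a
      rw [← hG a]
      exact (G a).mul_inv
    calc X = X * ((Matrix.blockDiagonal' fun a => gmat α (B a)) *
        (Matrix.blockDiagonal' fun a => (↑(G a)⁻¹ : Matrix (ν a) (ν a) K))) := by
          rw [h1, mul_one]
      _ = 0 := by rw [← mul_assoc, hX, zero_mul]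
  · rintro ⟨a, i⟩ ⟨b, j⟩ h
    simp only at h
    subst h
    have h2 : (fun q : Fin (r + 1) => if q = 0 then Matrix.blockDiagonal' X₀ else
        Matrix.blockDiagonal' fun a => B a q) =
        fun q : Fin (r + 1) => Matrix.blockDiagonal' fun a => if q = 0 then X₀ a else B a q := by
      funext q
      by_cases hq : q = 0
      · simp only [if_pos hq]
      · simp only [if_neg hq]
    rw [h2, mval_blockDiagonal', Matrix.blockDiagonal'_apply_eq, hT]

end family

end Pool.Agent.P5e96
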