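import Mathlib
import Pool.Agent.Lib.P5e96.BlockScale

/-!
# Block scaling, some letters scaled by the inverse
-/

open Finset Matrix

namespace Pool.Agent.P5e96

variable {K : Type*} [Field K] {ι : Type*} [DecidableEq ι] [Fintype ι] {r : ℕ}

/-- The number of letters of `l` in `S`. -/
def cin (S : Finset ℕ) (l : List ℕ) : ℕ := l.countP fun q => decide (q ∈ S)

/-- The number of letters of `l` outside `S`. -/
def cout (S : Finset ℕ) (l : List ℕ) : ℕ := l.countP fun q => decide (q ∉ S)

theorem scal_list (S : Finset ℕ) (x : K) (l : List ℕ) :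
    (l.map fun q => if q ∈ S then x⁻¹ else x).prod = x ^ cout S l * x⁻¹ ^ cin S l := by
  induction l with
  | nil => simp [cin, cout]
  | cons q l ih =>
    rw [List.map_cons, List.prod_cons, ih]
    by_cases h : q ∈ S
    · have h1 : cin S (q :: l) = cin S l + 1 := by simp [cin, h]
      have h2 : cout S (q :: l) = cout S l := by simp [cout, h]
      rw [if_pos h, h1, h2, pow_succ]
      ring
    · have h1 : cin S (q :: l) = cin S l := by simp [cin, h]
      have h2 : cout S (q :: l) = cout S l + 1 := by simp [cout, h]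
      rw [if_neg h, h1, h2, pow_succ]
      ring

theorem fullList_eq (σ : Equiv.Perm (Fin (r + 1))) :
    fullList σ = preL σ ++ 0 :: postL σ := by
  have h := ofFn_split σ (0 : ℕ) (fun q => q) (fun q : Fin (r + 1) => (q : ℕ)) rfl
    (fun q _ => rfl)
  rw [List.map_id', List.map_id'] at h
  exact h

theorem fullList_perm (σ : Equiv.Perm (Fin (r + 1))) :
    (fullList σ).Perm (fullList (1 : Equiv.Perm (Fin (r + 1)))) :=
  Equiv.Perm.ofFn_comp_perm σ fun q : Fin (r + 1) => (q : ℕ)

theorem count_split (p : ℕ → Bool) (σ : Equiv.Perm (Fin (r + 1))) :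
    (preL σ).countP p + (postL σ).countP p =
      (preL (1 : Equiv.Perm (Fin (r + 1)))).countP p +
        (postL (1 : Equiv.Perm (Fin (r + 1)))).countP p := by
  have h := (fullList_perm σ).countP_eq p
  rw [fullList_eq, fullList_eq, List.countP_append, List.countP_append, List.countP_cons,
    List.countP_cons] at h
  omega

theorem scal_algebra {x y : K} (hx : x ≠ 0) (hy : y ≠ 0) (p0 p1 u0 u1 : ℕ) :
    x ^ p0 * x⁻¹ ^ p1 * (y ^ u0 * y⁻¹ ^ u1) =
      x⁻¹ ^ (p1 + u1) * y ^ (p0 + u0) * (x / y) ^ (p0 + u1) := by
  rw [div_eq_mul_inv, mul_pow, pow_add, pow_add, pow_add, pow_add]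
  have h1 : x⁻¹ ^ u1 * x ^ u1 = 1 := by rw [← mul_pow, inv_mul_cancel₀ hx, one_pow]
  have h2 : y ^ p0 * y⁻¹ ^ p0 = 1 := by rw [← mul_pow, mul_inv_cancel₀ hy, one_pow]
  calc x ^ p0 * x⁻¹ ^ p1 * (y ^ u0 * y⁻¹ ^ u1)
      = x ^ p0 * x⁻¹ ^ p1 * (y ^ u0 * y⁻¹ ^ u1) * (x⁻¹ ^ u1 * x ^ u1) *
        (y ^ p0 * y⁻¹ ^ p0) := by rw [h1, h2, mul_one, mul_one]
    _ = _ := by ring

theorem list_scaled (D : ℕ → Matrix ι ι K) (C : ℕ → Matrix ι ι K)
    (hD : ∀ p q, Commute (D p) (C q)) (l : List ℕ) :
    (l.map fun q => D q * C q).prod = (l.map D).prod * (l.map C).prod ∧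
      ∀ p, Commute (D p) (l.map C).prod := by
  induction l with
  | nil => simp
  | cons q l ih =>
    obtain ⟨h1, h2⟩ := ih
    refine ⟨?_, ?_⟩
    · rw [List.map_cons, List.prod_cons, h1, List.map_cons, List.prod_cons, List.map_cons,
        List.prod_cons]
      have h3 : Commute ((l.map D).prod) (C q) := by
        refine Commute.list_prod_left _ _ ?_
        intro M hM
        obtain ⟨p, _, rfl⟩ := List.mem_map.1 hM
        exact hD p q
      calc D q * C q * ((l.map D).prod * (l.map C).prod)
          = D q * (C q * (l.map D).prod) * (l.map C).prod := by noncomm_ring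
        _ = D q * ((l.map D).prod * C q) * (l.map C).prod := by rw [h3.eq]
        _ = _ := by noncomm_ring
    · intro p
      rw [List.map_cons, List.prod_cons]
      exact (hD p q).mul_right (h2 p)

theorem list_diagonal {κ : Type*} (col : ι → κ) (t : ℕ → κ → K) (l : List ℕ) :
    (l.map fun q => (Matrix.diagonal fun i => t q (col i) : Matrix ι ι K)).prod =
      Matrix.diagonal fun i => (l.map fun q => t q (col i)).prod := by
  induction l with
  | nil => simp
  | cons q l ih =>
    rw [List.map_cons, List.prod_cons, ih, Matrix.diagonal_mul_diagonal]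
    simp only [List.map_cons, List.prod_cons]

theorem proj_mul_dg {κ : Type*} [DecidableEq κ] (col : ι → κ) (u : κ → K) (a : κ) :
    (proj col a * Matrix.diagonal fun i => u (col i) : Matrix ι ι K) = u a • proj col a := by
  rw [proj, Matrix.diagonal_mul_diagonal]
  ext i j
  rw [Matrix.smul_apply, Matrix.diagonal_apply, Matrix.diagonal_apply]
  by_cases hij : i = j
  · rw [if_pos hij, if_pos hij]
    by_cases hi : col i = a
    · simp [hi]
    · simp [hi]
  · rw [if_neg hij, if_neg hij, smul_zero]

theorem dg_mul_proj {κ : Type*} [DecidableEq κ] (col : ι → κ) (u : κ → K) (a : κ) :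
    ((Matrix.diagonal fun i => u (col i)) * proj col a : Matrix ι ι K) = u a • proj col a := by
  rw [← proj_mul_dg, proj, Matrix.diagonal_mul_diagonal, Matrix.diagonal_mul_diagonal]
  congr 1
  ext i
  rw [mul_comm]

/-- Block scaling with a set `S` of letters: the letters of `S` are scaled by the inverse scale.
If the sum of the words whose letters before the variable `0` are exactly the letters of `S` is
injective in the variable `0`, then every matrix with the right diagonal blocks is a value. -/
theorem block_scale_set [Infinite K] {κ : Type*} (col : ι → κ)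
    (α : Equiv.Perm (Fin (r + 1)) → K) (C : ℕ → Matrix ι ι K)
    (hC : ∀ q i j, col i ≠ col j → C q i j = 0) (S : Finset ℕ)
    (hg : ∀ X : Matrix ι ι K, (∑ σ : Equiv.Perm (Fin (r + 1)),
      if (∀ q ∈ preL σ, q ∈ S) ∧ (∀ q ∈ postL σ, q ∉ S) then α σ • act C σ X else 0) = 0 → X = 0)
    (X₀ : Matrix ι ι K) (T : Matrix ι ι K)
    (hT : ∀ i j, col i = col j → mval α (fun q => if q = 0 then X₀ else C q) i j = T i j) :
    ∃ A : Fin (r + 1) → Matrix ι ι K, mval α A = T := by
  classical
  set E : Equiv.Perm (Fin (r + 1)) → Matrix ι ι K →ₗ[K] Matrix ι ι K :=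
    fun σ => α σ • act C σ with hE
  set e : Equiv.Perm (Fin (r + 1)) → ℕ := fun σ => cout S (preL σ) + cin S (postL σ) with he
  have hfin := finite_bad E e (by
    rw [injective_iff_map_eq_zero]
    intro X hX
    apply hg X
    refine Eq.trans ?_ hX
    rw [LinearMap.sum_apply]
    refine Finset.sum_congr rfl fun σ _ => ?_
    by_cases h : (∀ q ∈ preL σ, q ∈ S) ∧ (∀ q ∈ postL σ, q ∉ S)
    · have h1 : e σ = 0 := by
        simp only [he, cout, cin, Nat.add_eq_zero_iff, List.countP_eq_zero, decide_eq_true_eq]
        exact ⟨fun q hq => not_not.2 (h.1 q hq), h.2⟩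
      rw [if_pos h, h1, pow_zero, one_smul]
      rfl
    · have h1 : e σ ≠ 0 := by
        intro h2
        apply h
        simp only [he, cout, cin, Nat.add_eq_zero_iff, List.countP_eq_zero,
          decide_eq_true_eq, not_not] at h2
        exact h2
      rw [if_neg h, zero_pow h1, zero_smul, LinearMap.zero_apply])
  obtain ⟨s, hs0, hs⟩ := exists_scales (univ.image col)
    {z : K | ¬ Function.Injective (∑ i, z ^ e i • E i : Matrix ι ι K →ₗ[K] Matrix ι ι K)} hfin
  set t : ℕ → κ → K := fun q a => if q ∈ S then (s a)⁻¹ else s a with ht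
  set D : ℕ → Matrix ι ι K := fun q => Matrix.diagonal fun i => t q (col i) with hD
  have hDC : ∀ p q, Commute (D p) (C q) := fun p q => block_commute col (C q) (hC q) (t p)
  set τ : List ℕ → κ → K := fun l a => (l.map fun q => t q a).prod with hτ
  have hDl : ∀ l : List ℕ, (l.map D).prod = Matrix.diagonal fun i => τ l (col i) := fun l =>
    list_diagonal col t l
  have hτs : ∀ l a, τ l a = s a ^ cout S l * (s a)⁻¹ ^ cin S l := fun l a =>
    scal_list S (s a) l
  -- the common factor
  set c : κ → κ → K := fun a b =>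
    (s a)⁻¹ ^ (cin S (preL (1 : Equiv.Perm (Fin (r + 1)))) +
      cin S (postL (1 : Equiv.Perm (Fin (r + 1))))) *
    s b ^ (cout S (preL (1 : Equiv.Perm (Fin (r + 1)))) +
      cout S (postL (1 : Equiv.Perm (Fin (r + 1))))) with hc
  have hc0 : ∀ a b, c a b ≠ 0 := fun a b =>
    mul_ne_zero (pow_ne_zero _ (inv_ne_zero (hs0 a))) (pow_ne_zero _ (hs0 b))
  have hfac : ∀ a b σ, τ (preL σ) a * τ (postL σ) b = c a b * (s a / s b) ^ e σ := by
    intro a b σ
    rw [hτs, hτs, scal_algebra (hs0 a) (hs0 b)]
    have h1 : cin S (preL σ) + cin S (postL σ) = _ := count_split _ σ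
    have h2 : cout S (preL σ) + cout S (postL σ) = _ := count_split _ σ
    rw [h1, h2]
    rfl
  -- the linear map
  set L : Matrix ι ι K →ₗ[K] Matrix ι ι K := ∑ σ : Equiv.Perm (Fin (r + 1)),
    (LinearMap.mulLeft K (Matrix.diagonal fun i => τ (preL σ) (col i)) ∘ₗ
      LinearMap.mulRight K (Matrix.diagonal fun i => τ (postL σ) (col i))) ∘ₗ E σ with hL
  have hLX : ∀ X, L X = mval α (fun q => if q = 0 then X else D q * C q) := by
    intro X
    rw [hL, LinearMap.sum_apply, mval]
    refine Finset.sum_congr rfl fun σ _ => ?_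
    rw [ofFn_split σ X (fun q => D q * C q) _ (if_pos rfl) (fun q hq => if_neg hq),
      List.prod_append, List.prod_cons, (list_scaled D C hDC _).1, (list_scaled D C hDC _).1,
      hDl, hDl]
    have h1 : Commute (Matrix.diagonal fun i => τ (postL σ) (col i))
        (((postL σ).map C).prod) := by
      rw [← hDl]
      refine Commute.list_prod_left _ _ ?_
      intro M hM
      obtain ⟨p, _, rfl⟩ := List.mem_map.1 hM
      exact (list_scaled D C hDC _).2 p
    rw [h1.eq]
    simp only [hE, LinearMap.comp_apply, LinearMap.smul_apply, LinearMap.mulRight_apply,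
      LinearMap.mulLeft_apply, act_apply, smul_mul_assoc, mul_smul_comm, mul_assoc]
  have hPC : ∀ a q, Commute (proj col a) (C q) := fun a q =>
    block_commute col (C q) (hC q) (fun b => if b = a then 1 else 0)
  have hPl : ∀ a (l : List ℕ), Commute (proj col a) (l.map C).prod := by
    intro a l
    exact (prod_map_mul _ C (fun q => hPC a q) l).2
  have hPE : ∀ a b σ X, proj col a * E σ X * proj col b = E σ (proj col a * X * proj col b) := by
    intro a b σ X
    simp only [hE, LinearMap.smul_apply, act_apply, mul_smul_comm, smul_mul_assoc]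
    congr 1
    have h1 := (hPl a (preL σ)).eq
    have h2 := (hPl b (postL σ)).eq
    calc proj col a * (((preL σ).map C).prod * (X * ((postL σ).map C).prod)) * proj col b
        = (proj col a * ((preL σ).map C).prod) * X *
          (((postL σ).map C).prod * proj col b) := by noncomm_ring
      _ = (((preL σ).map C).prod * proj col a) * X *
          (proj col b * ((postL σ).map C).prod) := by rw [h1, h2]
      _ = _ := by noncomm_ring
  have hPL : ∀ a b X, proj col a * L X * proj col b =
      c a b • (∑ i, (s a / s b) ^ e i • E i : Matrix ι ι K →ₗ[K] Matrix ι ι K)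
        (proj col a * X * proj col b) := by
    intro a b X
    rw [hL, LinearMap.sum_apply, Finset.mul_sum, Finset.sum_mul, LinearMap.sum_apply,
      Finset.smul_sum]
    refine Finset.sum_congr rfl fun σ _ => ?_
    calc proj col a * ((LinearMap.mulLeft K (Matrix.diagonal fun i => τ (preL σ) (col i)) ∘ₗ
            LinearMap.mulRight K (Matrix.diagonal fun i => τ (postL σ) (col i))) ∘ₗ E σ) X *
            proj col b
        = (proj col a * Matrix.diagonal fun i => τ (preL σ) (col i)) * E σ X *
          ((Matrix.diagonal fun i => τ (postL σ) (col i)) * proj col b) := by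
          simp only [LinearMap.comp_apply, LinearMap.mulRight_apply, LinearMap.mulLeft_apply]
          noncomm_ring
      _ = (τ (preL σ) a * τ (postL σ) b) • (proj col a * E σ X * proj col b) := by
          rw [proj_mul_dg, dg_mul_proj]
          simp only [smul_mul_assoc, mul_smul_comm, smul_smul, mul_comm]
      _ = c a b • ((s a / s b) ^ e σ • E σ (proj col a * X * proj col b)) := by
          rw [hPE, smul_smul, hfac]
      _ = _ := rfl
  -- the invariant subspace
  set O : Submodule K (Matrix ι ι K) :=
    { carrier := {X | ∀ a, proj col a * X * proj col a = 0}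
      add_mem' := by
        intro X Y hX hY a
        rw [mul_add, add_mul, hX a, hY a, add_zero]
      zero_mem' := by intro a; simp
      smul_mem' := by
        intro c X hX a
        rw [mul_smul_comm, smul_mul_assoc, hX a, smul_zero] } with hO
  have hmemO : ∀ X, X ∈ O ↔ ∀ a, proj col a * X * proj col a = 0 := fun X => Iff.rfl
  have hLO : ∀ X ∈ O, L X ∈ O := by
    intro X hX a
    rw [hPL, (hmemO X).1 hX a, map_zero, smul_zero]
  have hinj : ∀ X ∈ O, L X = 0 → X = 0 := by
    intro X hX hLX0
    ext i j
    by_cases hij : col i = col j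
    · have h1 := congrFun (congrFun ((hmemO X).1 hX (col i)) i) j
      rw [proj_mul_mul_proj, if_pos ⟨rfl, hij.symm⟩] at h1
      exact h1
    · have h1 := hPL (col i) (col j) X
      rw [hLX0, mul_zero, zero_mul] at h1
      have h2 : (∑ k, (s (col i) / s (col j)) ^ e k • E k : Matrix ι ι K →ₗ[K] Matrix ι ι K)
          (proj col (col i) * X * proj col (col j)) = 0 := by
        rcases smul_eq_zero.1 h1.symm with h3 | h3
        · exact absurd h3 (hc0 _ _)
        · exact h3
      have h4 := hs (col i) (Finset.mem_image_of_mem _ (mem_univ _)) (col j)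
        (Finset.mem_image_of_mem _ (mem_univ _)) hij
      rw [Set.mem_ofPred_eq, not_not] at h4
      have h5 := (injective_iff_map_eq_zero _).1 h4 _ h2
      have h6 := congrFun (congrFun h5 i) j
      rw [proj_mul_mul_proj, if_pos ⟨rfl, rfl⟩] at h6
      exact h6
  have hsurj : Function.Surjective (L.restrict hLO) := by
    rw [← LinearMap.injective_iff_surjective]
    rw [injective_iff_map_eq_zero]
    rintro ⟨X, hX⟩ h
    have h1 : L X = 0 := congrArg Subtype.val h
    exact Subtype.ext (hinj X hX h1)
  -- the diagonal part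
  set X₁ : Matrix ι ι K := fun i j => (c (col j) (col j))⁻¹ * X₀ i j with hX₁
  have hval : ∀ X, mval α (fun q : Fin (r + 1) => if q = 0 then X else C q) =
      ∑ σ, E σ X := by
    intro X
    have h1 : (fun q : Fin (r + 1) => if q = 0 then X else C q) =
        fun q : Fin (r + 1) => if q = 0 then X else (1 : Matrix ι ι K) * C q := by
      funext q
      rw [one_mul]
    rw [h1, mval_scaled α 1 X C (fun q => Commute.one_left _)]
    refine Finset.sum_congr rfl fun σ _ => ?_
    rw [one_pow, one_pow, one_mul, mul_one]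
    rfl
  have hdiag : ∀ i j, col i = col j → L X₁ i j = T i j := by
    intro i j hij
    rw [← hT i j hij]
    have h1 := hPL (col j) (col j) X₁
    have h2 : proj col (col j) * X₁ * proj col (col j) =
        (c (col j) (col j))⁻¹ • (proj col (col j) * X₀ * proj col (col j)) := by
      ext a b
      rw [Matrix.smul_apply, proj_mul_mul_proj, proj_mul_mul_proj]
      by_cases h : col a = col j ∧ col b = col j
      · rw [if_pos h, if_pos h, hX₁]
        simp only [h.2, smul_eq_mul]
      · rw [if_neg h, if_neg h, smul_zero]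
    have h3 := congrFun (congrFun h1 i) j
    rw [proj_mul_mul_proj, if_pos ⟨hij, rfl⟩] at h3
    rw [h3, h2, map_smul, smul_smul, mul_inv_cancel₀ (hc0 _ _), one_smul,
      LinearMap.sum_apply, hval]
    rw [div_self (hs0 _)]
    have h4 : ∀ σ, ((1 : K) ^ e σ • E σ) (proj col (col j) * X₀ * proj col (col j)) =
        proj col (col j) * E σ X₀ * proj col (col j) := by
      intro σ
      rw [one_pow, one_smul, hPE]
    simp only [h4, Matrix.sum_apply]
    refine Finset.sum_congr rfl fun σ _ => ?_
    rw [proj_mul_mul_proj, if_pos ⟨hij, rfl⟩]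
  have hTO : T - L X₁ ∈ O := by
    intro a
    ext i j
    rw [proj_mul_mul_proj]
    split_ifs with h
    · rw [Matrix.sub_apply, hdiag i j (h.1.trans h.2.symm), sub_self]
      rfl
    · rfl
  obtain ⟨⟨X, hX⟩, hXT⟩ := hsurj ⟨T - L X₁, hTO⟩
  refine ⟨fun q => if q = 0 then X₁ + X else D q * C q, ?_⟩
  have h5 : L X = T - L X₁ := congrArg Subtype.val hXT
  rw [← hLX, map_add, h5]
  abel

end Pool.Agent.P5e96
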