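import Mathlib
import Pool.Agent.Lib.P5e96.BlockScaleSet

/-!
# Staircases with a general step function, and a special letter in the middle of the word

The step function `e` gives the number of steps that every letter makes along the permutation `π`.
A word without two consecutive letters of step zero is determined by its monomial.
-/

open Finset MvPolynomial Matrix

namespace Pool.Agent.P5e96

section walk

variable {ι : Type*} [DecidableEq ι]

/-- The total step of a word. -/
def totG (e : ℕ → ℕ) (l : List ℕ) : ℕ := (l.map e).sum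

theorem totG_cons (e : ℕ → ℕ) (q : ℕ) (l : List ℕ) : totG e (q :: l) = e q + totG e l := by
  simp [totG]

theorem totG_append (e : ℕ → ℕ) (l l' : List ℕ) : totG e (l ++ l') = totG e l + totG e l' := by
  simp [totG]

theorem totG_perm (e : ℕ → ℕ) {l l' : List ℕ} (h : l.Perm l') : totG e l = totG e l' := by
  rw [totG, totG]
  exact (h.map _).sum_eq

/-- The vertices at which the letters of a word are used, as a monomial. -/
noncomputable def expoG (π : Equiv.Perm ι) (e : ℕ → ℕ) : List ℕ → ι → (ℕ × ι →₀ ℕ)
  | [], _ => 0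
  | q :: l, v => Finsupp.single (q, v) 1 + expoG π e l ((π ^ e q) v)

theorem expoG_mem (π : Equiv.Perm ι) (e : ℕ → ℕ) (l : List ℕ) (v : ι) (q : ℕ) (u : ι)
    (h : expoG π e l v (q, u) ≠ 0) : q ∈ l ∧ ∃ k ≤ totG e l, u = (π ^ k) v := by
  induction l generalizing v with
  | nil => simp [expoG] at h
  | cons a l ih =>
    rw [expoG, Finsupp.add_apply] at h
    by_cases h1 : Finsupp.single (a, v) 1 (q, u) = 0
    · rw [h1, zero_add] at h
      obtain ⟨h2, k, hk, h3⟩ := ih _ h
      refine ⟨List.mem_cons_of_mem _ h2, k + e a, ?_, ?_⟩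
      · rw [totG_cons]
        omega
      · rw [h3, pow_add, Equiv.Perm.mul_apply]
    · rw [Finsupp.single_apply] at h1
      by_cases h2 : (a, v) = (q, u)
      · obtain ⟨rfl, rfl⟩ := Prod.mk.inj h2
        exact ⟨List.mem_cons_self, 0, Nat.zero_le _, by simp⟩
      · simp [h2] at h1

omit [DecidableEq ι] in
theorem short_pow (π : Equiv.Perm ι) (N : ℕ) (v : ι)
    (hπ : ∀ k, 1 ≤ k → k ≤ N → (π ^ k) v ≠ v) (a : ℕ) :
    ∀ k, 1 ≤ k → k ≤ N → (π ^ k) ((π ^ a) v) ≠ (π ^ a) v := by
  intro k hk1 hk2 h
  rw [← Equiv.Perm.mul_apply, ← pow_add, add_comm, pow_add, Equiv.Perm.mul_apply] at h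
  exact hπ k hk1 hk2 ((π ^ a).injective h)

/-- A word without two consecutive letters of step `0` is determined by its monomial. -/
theorem wordG_unique (π : Equiv.Perm ι) (e : ℕ → ℕ) (N : ℕ) (l' : List ℕ) :
    List.IsChain (fun a b => e a ≠ 0 ∨ e b ≠ 0) l' → ∀ (l : List ℕ), l.Perm l' →
    totG e l' ≤ N → ∀ v, (∀ k, 1 ≤ k → k ≤ N → (π ^ k) v ≠ v) →
    expoG π e l v = expoG π e l' v → l = l' := by
  induction l' with
  | nil =>
    intro _ l hl _ v _ _
    exact List.Perm.eq_nil hl
  | cons s l' ih =>
    intro hch l hl hN v hπ he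
    match l, hl, he with
    | [], hl, he =>
      exact absurd hl.symm (by simp)
    | q :: l, hl, he =>
      have hqtot : totG e (q :: l) = totG e (s :: l') := totG_perm e hl
      rw [totG_cons, totG_cons] at hqtot
      rw [totG_cons] at hN
      have hq : q = s := by
        by_contra hqs
        have h1 : expoG π e (s :: l') v (q, v) ≠ 0 := by
          rw [← he, expoG, Finsupp.add_apply]
          simp
        have h2 : expoG π e (q :: l) v (s, v) ≠ 0 := by
          rw [he, expoG, Finsupp.add_apply]
          simp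
        rw [expoG, Finsupp.add_apply, Finsupp.single_apply, if_neg (by simp [hqs]), zero_add] at h2
        rw [expoG, Finsupp.add_apply, Finsupp.single_apply, if_neg (by simp [Ne.symm hqs]),
          zero_add] at h1
        obtain ⟨_, k, hk, hv⟩ := expoG_mem π e l _ s v h2
        obtain ⟨_, k', hk', hv'⟩ := expoG_mem π e l' _ q v h1
        rw [← Equiv.Perm.mul_apply, ← pow_add] at hv hv'
        have hk0 : k + e q = 0 := by
          by_contra hne
          exact hπ (k + e q) (by omega) (by omega) hv.symm
        have hk0' : k' + e s = 0 := by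
          by_contra hne
          exact hπ (k' + e s) (by omega) (by omega) hv'.symm
        have hs0 : e s = 0 := by omega
        have hq0 : e q = 0 := by omega
        rw [hs0, pow_zero, Equiv.Perm.one_apply] at h1
        match l', hch, h1, hN with
        | [], _, h1, _ => simp [expoG] at h1
        | s2 :: l'', hch, h1, hN =>
          have hs2 : e s2 ≠ 0 := by
            have := (List.isChain_cons_cons.1 hch).1
            rcases this with h | h
            · exact absurd hs0 h
            · exact h
          have hqs2 : q ≠ s2 := by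
            rintro rfl
            exact hs2 hq0
          rw [expoG, Finsupp.add_apply, Finsupp.single_apply, if_neg (by simp [Ne.symm hqs2]),
            zero_add] at h1
          obtain ⟨_, k2, hk2, hv2⟩ := expoG_mem π e l'' _ q v h1
          rw [← Equiv.Perm.mul_apply, ← pow_add] at hv2
          rw [totG_cons] at hN
          exact hπ (k2 + e s2) (by omega) (by omega) hv2.symm
      subst hq
      have hl2 : l.Perm l' := List.Perm.cons_inv hl
      have he2 : expoG π e l ((π ^ e q) v) = expoG π e l' ((π ^ e q) v) := by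
        rw [expoG, expoG] at he
        exact add_left_cancel he
      rw [ih (List.IsChain.tail hch) l hl2 (by omega) _ (short_pow π N v hπ (e q)) he2]

end walk

section mat

variable {K : Type*} [Field K] {ι : Type*} [DecidableEq ι] [Fintype ι]

/-- The matrix of letter `q`: weights on the edges from `i` to `π ^ e q i`. -/
def cmatG (π : Equiv.Perm ι) (e : ℕ → ℕ) (w : ℕ × ι → K) (q : ℕ) : Matrix ι ι K :=
  fun i j => if j = (π ^ e q) i then w (q, i) else 0

theorem cmatG_prod (π : Equiv.Perm ι) (e : ℕ → ℕ) (w : ℕ × ι → K) (l : List ℕ) (i j : ι) :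
    (l.map (cmatG π e w)).prod i j =
      if j = (π ^ totG e l) i then eval w (monomial (expoG π e l i) (1 : K)) else 0 := by
  induction l generalizing i with
  | nil =>
    simp only [List.map_nil, List.prod_nil, totG, List.sum_nil, pow_zero, Equiv.Perm.one_apply,
      expoG, monomial_zero', map_one, Matrix.one_apply, eq_comm]
  | cons q l ih =>
    rw [List.map_cons, List.prod_cons, Matrix.mul_apply,
      Finset.sum_eq_single ((π ^ e q) i)]
    · rw [ih]
      have h1 : (π ^ totG e (q :: l)) i = (π ^ totG e l) ((π ^ e q) i) := by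
        rw [← Equiv.Perm.mul_apply, ← pow_add, totG_cons, add_comm]
      rw [h1]
      by_cases h : j = (π ^ totG e l) ((π ^ e q) i)
      · rw [if_pos h, if_pos h, cmatG, if_pos rfl, expoG]
        simp [eval_monomial, Finsupp.prod_add_index', pow_add]
      · rw [if_neg h, if_neg h, mul_zero]
    · intro b _ hb
      rw [cmatG, if_neg hb, zero_mul]
    · intro h
      exact absurd (mem_univ _) h

variable {r : ℕ}

theorem fullList_injective : Function.Injective (fullList (r := r)) := by
  intro σ τ h
  rw [fullList, fullList] at h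
  have h2 := List.ofFn_injective h
  ext i
  exact congrFun h2 i

theorem fullList_perm' (σ τ : Equiv.Perm (Fin (r + 1))) : (fullList σ).Perm (fullList τ) := by
  have h1 := Equiv.Perm.ofFn_comp_perm σ (fun i : Fin (r + 1) => (i : ℕ))
  have h2 := Equiv.Perm.ofFn_comp_perm τ (fun i : Fin (r + 1) => (i : ℕ))
  exact h1.trans h2.symm

theorem fullList_nodup (σ : Equiv.Perm (Fin (r + 1))) : (fullList σ).Nodup := by
  rw [fullList, List.nodup_ofFn]
  intro s t hst
  exact σ.injective (Fin.ext hst)

theorem mval_act (α : Equiv.Perm (Fin (r + 1)) → K) (C : ℕ → Matrix ι ι K) (X : Matrix ι ι K) :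
    mval α (fun q => if q = 0 then X else C q) = ∑ σ, α σ • act C σ X := by
  have h1 : (fun q : Fin (r + 1) => if q = 0 then X else C q) =
      fun q : Fin (r + 1) => if q = 0 then X else (1 : Matrix ι ι K) * C q := by
    funext q
    rw [one_mul]
  rw [h1, mval_scaled α 1 X C (fun q => Commute.one_left _)]
  refine Finset.sum_congr rfl fun σ _ => ?_
  rw [one_pow, one_pow, one_mul, mul_one]

/-- The words whose letters before the letter `0` are the letters in `S`. -/
def goodW (S : Finset ℕ) (σ : Equiv.Perm (Fin (r + 1))) : Prop :=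
  (∀ q ∈ preL σ, q ∈ S) ∧ (∀ q ∈ postL σ, q ∉ S)

instance (S : Finset ℕ) (σ : Equiv.Perm (Fin (r + 1))) : Decidable (goodW S σ) := by
  unfold goodW
  infer_instance

theorem goodW_perm {σ τ : Equiv.Perm (Fin (r + 1))} {S : Finset ℕ} (hσ : goodW S σ)
    (hτ : goodW S τ) : (preL σ).Perm (preL τ) ∧ (postL σ).Perm (postL τ) := by
  have h0 := fullList_perm' σ τ
  rw [fullList_eq, fullList_eq] at h0
  have h1 : (preL σ ++ postL σ).Perm (preL τ ++ postL τ) := by
    have h2 : (0 :: (preL σ ++ postL σ)).Perm (0 :: (preL τ ++ postL τ)) :=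
      (List.perm_middle.symm.trans h0).trans List.perm_middle
    exact h2.cons_inv
  have key : ∀ ρ : Equiv.Perm (Fin (r + 1)), goodW S ρ →
      (preL ρ ++ postL ρ).filter (fun q => decide (q ∈ S)) = preL ρ ∧
      (preL ρ ++ postL ρ).filter (fun q => decide (q ∉ S)) = postL ρ := by
    intro ρ hρ
    rw [List.filter_append, List.filter_append]
    have a1 : (preL ρ).filter (fun q => decide (q ∈ S)) = preL ρ :=
      List.filter_eq_self.2 fun q hq => by simpa using hρ.1 q hq
    have a2 : (postL ρ).filter (fun q => decide (q ∈ S)) = [] :=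
      List.filter_eq_nil_iff.2 fun q hq => by simpa using hρ.2 q hq
    have a3 : (preL ρ).filter (fun q => decide (q ∉ S)) = [] :=
      List.filter_eq_nil_iff.2 fun q hq => by simpa using hρ.1 q hq
    have a4 : (postL ρ).filter (fun q => decide (q ∉ S)) = postL ρ :=
      List.filter_eq_self.2 fun q hq => by simpa using hρ.2 q hq
    rw [a1, a2, a3, a4, List.append_nil, List.nil_append]
    exact ⟨rfl, rfl⟩
  refine ⟨?_, ?_⟩
  · have := h1.filter (fun q => decide (q ∈ S))
    rw [(key σ hσ).1, (key τ hτ).1] at this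
    exact this
  · have := h1.filter (fun q => decide (q ∉ S))
    rw [(key σ hσ).2, (key τ hτ).2] at this
    exact this

/-- The coefficient polynomials of the coupling. -/
noncomputable def gamG (π : Equiv.Perm ι) (e : ℕ → ℕ) (α : Equiv.Perm (Fin (r + 1)) → K)
    (S : Finset ℕ) (i j : ι) : MvPolynomial (ℕ × ι) K :=
  ∑ σ : Equiv.Perm (Fin (r + 1)), if goodW S σ then
    monomial (expoG π e (preL σ) i + expoG π e (postL σ) j) (α σ) else 0

omit [Fintype ι] in
theorem expoG_eq_zero (π : Equiv.Perm ι) (e : ℕ → ℕ) (l : List ℕ) (v : ι) (q : ℕ) (u : ι)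
    (h : q ∉ l) : expoG π e l v (q, u) = 0 := by
  by_contra hne
  exact h (expoG_mem π e l v q u hne).1

omit [Fintype ι] in
theorem gamG_ne_zero (π : Equiv.Perm ι) (e : ℕ → ℕ) (α : Equiv.Perm (Fin (r + 1)) → K)
    (S : Finset ℕ) (σ₀ : Equiv.Perm (Fin (r + 1))) (hα : α σ₀ ≠ 0) (hσ₀ : goodW S σ₀)
    (hc : List.IsChain (fun a b => e a ≠ 0 ∨ e b ≠ 0) (fullList σ₀)) (i j : ι)
    (hi : ∀ k, 1 ≤ k → k ≤ totG e (preL σ₀) → (π ^ k) i ≠ i)
    (hj : ∀ k, 1 ≤ k → k ≤ totG e (postL σ₀) → (π ^ k) j ≠ j) :
    gamG π e α S i j ≠ 0 := by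
  intro h0
  have h1 : (gamG π e α S i j).coeff (expoG π e (preL σ₀) i + expoG π e (postL σ₀) j) = 0 := by
    rw [h0, coeff_zero]
  apply hα
  rw [← h1, gamG, coeff_sum, Finset.sum_eq_single σ₀]
  · rw [if_pos hσ₀, coeff_monomial, if_pos rfl]
  · intro σ _ hσ
    split_ifs with h2
    · rw [coeff_monomial, if_neg]
      intro h3
      apply hσ
      obtain ⟨hp1, hp2⟩ := goodW_perm h2 hσ₀
      rw [fullList_eq] at hc
      have hc1 := (List.isChain_append.1 hc).1
      have hc2 := ((List.isChain_append.1 hc).2.1).tail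
      have e1 : expoG π e (preL σ) i = expoG π e (preL σ₀) i := by
        ext ⟨q, u⟩
        by_cases hq : q ∈ S
        · have h4 := DFunLike.congr_fun h3 (q, u)
          rw [Finsupp.add_apply, Finsupp.add_apply,
            expoG_eq_zero π e (postL σ) j q u (fun h => h2.2 q h hq),
            expoG_eq_zero π e (postL σ₀) j q u (fun h => hσ₀.2 q h hq), add_zero, add_zero] at h4
          exact h4
        · rw [expoG_eq_zero π e (preL σ) i q u (fun h => hq (h2.1 q h)),
            expoG_eq_zero π e (preL σ₀) i q u (fun h => hq (hσ₀.1 q h))]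
      have e2 : expoG π e (postL σ) j = expoG π e (postL σ₀) j := by
        rw [e1] at h3
        exact add_left_cancel h3
      have l1 := wordG_unique π e _ (preL σ₀) hc1 (preL σ) hp1 le_rfl i hi e1
      have l2 := wordG_unique π e _ (postL σ₀) hc2 (postL σ) hp2 le_rfl j hj e2
      apply fullList_injective
      rw [fullList_eq, fullList_eq, l1, l2]
    · exact coeff_zero _
  · intro h
    exact absurd (mem_univ _) h

/-- The entries of the value of the whole polynomial. -/
noncomputable def delG (π : Equiv.Perm ι) (e : ℕ → ℕ) (α : Equiv.Perm (Fin (r + 1)) → K)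
    (v : ι) : MvPolynomial (ℕ × ι) K :=
  ∑ σ : Equiv.Perm (Fin (r + 1)), monomial (expoG π e (fullList σ) v) (α σ)

omit [Fintype ι] in
theorem delG_ne_zero (π : Equiv.Perm ι) (e : ℕ → ℕ) (α : Equiv.Perm (Fin (r + 1)) → K)
    (σ₀ : Equiv.Perm (Fin (r + 1))) (hα : α σ₀ ≠ 0)
    (hc : List.IsChain (fun a b => e a ≠ 0 ∨ e b ≠ 0) (fullList σ₀)) (v : ι)
    (hv : ∀ k, 1 ≤ k → k ≤ totG e (fullList σ₀) → (π ^ k) v ≠ v) :
    delG π e α v ≠ 0 := by
  intro h0
  have h1 : (delG π e α v).coeff (expoG π e (fullList σ₀) v) = 0 := by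
    rw [h0, coeff_zero]
  apply hα
  rw [← h1, delG, coeff_sum, Finset.sum_eq_single σ₀]
  · rw [coeff_monomial, if_pos rfl]
  · intro σ _ hσ
    rw [coeff_monomial, if_neg]
    intro h3
    apply hσ
    exact fullList_injective
      (wordG_unique π e _ (fullList σ₀) hc (fullList σ) (fullList_perm' σ σ₀) le_rfl v hv h3)
  · intro h
    exact absurd (mem_univ _) h

omit [DecidableEq ι] [Fintype ι] in
theorem exists_eval_ne [Infinite K] {τ : Type*} (P : MvPolynomial τ K) (hP : P ≠ 0) :
    ∃ w : τ → K, eval w P ≠ 0 := by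
  by_contra hcon
  push Not at hcon
  apply hP
  apply MvPolynomial.funext
  intro w
  rw [hcon w, map_zero]

end mat

end Pool.Agent.P5e96
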