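import Mathlib
import Pool.Agent.Lib.P5e96.WalkG
import Pool.Agent.Lib.P5e96.Complete

/-!
# Values of multilinear polynomials through staircases with a special letter in the middle
-/

open Finset MvPolynomial Matrix

namespace Pool.Agent.P5e96

variable {K : Type*} [Field K] {r : ℕ}

section

variable {ι : Type*} [DecidableEq ι] [Fintype ι]

theorem sumG_apply (π : Equiv.Perm ι) (e : ℕ → ℕ) (α : Equiv.Perm (Fin (r + 1)) → K)
    (S : Finset ℕ) (w : ℕ × ι → K) (σ₀ : Equiv.Perm (Fin (r + 1))) (hσ₀ : goodW S σ₀)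
    (X : Matrix ι ι K) (i j : ι) :
    (∑ σ : Equiv.Perm (Fin (r + 1)),
      if goodW S σ then α σ • act (cmatG π e w) σ X else 0) i ((π ^ totG e (postL σ₀)) j) =
      eval w (gamG π e α S i j) * X ((π ^ totG e (preL σ₀)) i) j := by
  rw [Matrix.sum_apply, gamG, map_sum, Finset.sum_mul]
  refine Finset.sum_congr rfl fun σ _ => ?_
  by_cases h : goodW S σ
  · rw [if_pos h, if_pos h]
    obtain ⟨hp1, hp2⟩ := goodW_perm h hσ₀
    rw [Matrix.smul_apply, act_apply, Matrix.mul_apply,
      Finset.sum_eq_single ((π ^ totG e (preL σ₀)) i)]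
    · rw [cmatG_prod, if_pos (by rw [totG_perm e hp1]), Matrix.mul_apply,
        Finset.sum_eq_single j]
      · rw [cmatG_prod, if_pos (by rw [totG_perm e hp2])]
        simp only [eval_monomial, one_mul, smul_eq_mul]
        rw [Finsupp.prod_add_index' (by simp) (by intros; rw [pow_add])]
        ring
      · intro b _ hb
        rw [cmatG_prod, if_neg, mul_zero]
        rw [totG_perm e hp2]
        intro h2
        exact hb ((π ^ totG e (postL σ₀)).injective h2.symm)
      · intro h2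
        exact absurd (mem_univ _) h2
    · intro b _ hb
      rw [cmatG_prod, if_neg, zero_mul]
      rw [totG_perm e hp1]
      exact hb
    · intro h2
      exact absurd (mem_univ _) h2
  · rw [if_neg h, if_neg h, map_zero, zero_mul]
    rfl

theorem sumG_injective (π : Equiv.Perm ι) (e : ℕ → ℕ) (α : Equiv.Perm (Fin (r + 1)) → K)
    (S : Finset ℕ) (w : ℕ × ι → K) (σ₀ : Equiv.Perm (Fin (r + 1))) (hσ₀ : goodW S σ₀)
    (hw : ∀ i j, eval w (gamG π e α S i j) ≠ 0) (X : Matrix ι ι K)
    (hX : (∑ σ : Equiv.Perm (Fin (r + 1)),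
      if goodW S σ then α σ • act (cmatG π e w) σ X else 0) = 0) : X = 0 := by
  ext a j
  obtain ⟨i, rfl⟩ := (π ^ totG e (preL σ₀)).surjective a
  have h1 := sumG_apply π e α S w σ₀ hσ₀ X i j
  rw [hX, Matrix.zero_apply] at h1
  rw [Matrix.zero_apply]
  exact (mul_eq_zero.1 h1.symm).resolve_left (hw i j)

theorem sumD_apply (π : Equiv.Perm ι) (e : ℕ → ℕ) (α : Equiv.Perm (Fin (r + 1)) → K)
    (w : ℕ × ι → K) (σ₀ : Equiv.Perm (Fin (r + 1))) (i j : ι) :
    (∑ σ : Equiv.Perm (Fin (r + 1)), α σ • act (cmatG π e w) σ (cmatG π e w 0)) i j =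
      if j = (π ^ totG e (fullList σ₀)) i then eval w (delG π e α i) else 0 := by
  have h1 : ∀ σ : Equiv.Perm (Fin (r + 1)), act (cmatG π e w) σ (cmatG π e w 0) =
      ((fullList σ).map (cmatG π e w)).prod := by
    intro σ
    rw [fullList_eq, List.map_append, List.map_cons, List.prod_append, List.prod_cons, act_apply]
  rw [Matrix.sum_apply, delG, map_sum]
  by_cases h : j = (π ^ totG e (fullList σ₀)) i
  · rw [if_pos h]
    refine Finset.sum_congr rfl fun σ _ => ?_
    rw [Matrix.smul_apply, h1, cmatG_prod, totG_perm e (fullList_perm' σ σ₀), if_pos h,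
      eval_monomial, eval_monomial, one_mul, smul_eq_mul]
  · rw [if_neg h]
    refine Finset.sum_eq_zero fun σ _ => ?_
    rw [Matrix.smul_apply, h1, cmatG_prod, totG_perm e (fullList_perm' σ σ₀), if_neg h, smul_zero]

omit [Fintype ι] in
theorem cmatG_block {κ : Type*} (col : ι → κ) (π : Equiv.Perm ι)
    (hcol : ∀ v, col (π v) = col v) (e : ℕ → ℕ) (w : ℕ × ι → K) (q : ℕ) (i j : ι)
    (hij : col i ≠ col j) : cmatG π e w q i j = 0 := by
  have h1 : ∀ (k : ℕ) (v : ι), col ((π ^ k) v) = col v := by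
    intro k
    induction k with
    | zero => intro v; simp
    | succ k ih => intro v; rw [pow_succ', Equiv.Perm.mul_apply, hcol, ih]
  rw [cmatG, if_neg]
  rintro rfl
  exact hij (h1 _ _).symm

/-- All matrices whose diagonal blocks are a weighted power of `π` on the block `a` and zero on the
other blocks are values. -/
theorem value_blocks_aux [Infinite K] {κ : Type*} [DecidableEq κ] (col : ι → κ) (a : κ)
    (π : Equiv.Perm ι) (hcol : ∀ v, col (π v) = col v) (e : ℕ → ℕ)
    (α : Equiv.Perm (Fin (r + 1)) → K) (σ₀ : Equiv.Perm (Fin (r + 1))) (hα : α σ₀ ≠ 0)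
    (hc : List.IsChain (fun a b => e a ≠ 0 ∨ e b ≠ 0) (fullList σ₀))
    (hpre : ∀ v, ∀ k, 1 ≤ k → k ≤ totG e (preL σ₀) → (π ^ k) v ≠ v)
    (hpost : ∀ v, ∀ k, 1 ≤ k → k ≤ totG e (postL σ₀) → (π ^ k) v ≠ v)
    (hfull : ∀ v, col v = a → ∀ k, 1 ≤ k → k ≤ totG e (fullList σ₀) → (π ^ k) v ≠ v) :
    ∃ d : ι → K, (∀ i, col i = a → d i ≠ 0) ∧ ∀ T : Matrix ι ι K,
      (∀ i j, col i = a → col j = a → T i j = if j = (π ^ totG e (fullList σ₀)) i then d i else 0) →
      (∀ i j, col i = col j → col i ≠ a → T i j = 0) →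
      ∃ A : Fin (r + 1) → Matrix ι ι K, mval α A = T := by
  classical
  set S : Finset ℕ := (preL σ₀).toFinset with hS
  have hσ₀ : goodW S σ₀ := by
    refine ⟨fun q hq => by rw [hS, List.mem_toFinset]; exact hq, fun q hq hq2 => ?_⟩
    rw [hS, List.mem_toFinset] at hq2
    have h1 := fullList_nodup σ₀
    rw [fullList_eq] at h1
    exact (List.disjoint_of_nodup_append h1) hq2 (List.mem_cons_of_mem _ hq)
  have hP : (∏ i, ∏ j, gamG π e α S i j) *
      ∏ v ∈ univ.filter (fun v => col v = a), delG π e α v ≠ 0 := by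
    refine mul_ne_zero ?_ ?_
    · refine Finset.prod_ne_zero_iff.2 fun i _ => Finset.prod_ne_zero_iff.2 fun j _ => ?_
      exact gamG_ne_zero π e α S σ₀ hα hσ₀ hc i j (hpre i) (hpost j)
    · refine Finset.prod_ne_zero_iff.2 fun v hv => ?_
      exact delG_ne_zero π e α σ₀ hα hc v (hfull v (Finset.mem_filter.1 hv).2)
  obtain ⟨w, hw⟩ := exists_eval_ne _ hP
  rw [map_mul] at hw
  have hw1 : ∀ i j, eval w (gamG π e α S i j) ≠ 0 := by
    intro i j
    have h1 := left_ne_zero_of_mul hw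
    rw [map_prod] at h1
    have h2 := Finset.prod_ne_zero_iff.1 h1 i (mem_univ _)
    rw [map_prod] at h2
    exact Finset.prod_ne_zero_iff.1 h2 j (mem_univ _)
  have hw2 : ∀ v, col v = a → eval w (delG π e α v) ≠ 0 := by
    intro v hv
    have h1 := right_ne_zero_of_mul hw
    rw [map_prod] at h1
    exact Finset.prod_ne_zero_iff.1 h1 v (Finset.mem_filter.2 ⟨mem_univ _, hv⟩)
  refine ⟨fun v => eval w (delG π e α v), hw2, fun T hT1 hT2 => ?_⟩
  set C : ℕ → Matrix ι ι K := cmatG π e w with hC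
  have hCb : ∀ q i j, col i ≠ col j → C q i j = 0 := fun q i j hij =>
    cmatG_block col π hcol e w q i j hij
  have hcomm : ∀ l : List ℕ, Commute (proj col a) (l.map C).prod := by
    intro l
    exact (prod_map_mul _ C (fun q => block_commute col (C q) (hCb q)
      (fun b => if b = a then 1 else 0)) l).2
  refine block_scale_set col α C hCb S (fun X hX => ?_) (proj col a * C 0) T ?_
  · exact sumG_injective π e α S w σ₀ hσ₀ hw1 X hX
  · intro i j hij
    rw [mval_act]
    have h1 : ∀ σ : Equiv.Perm (Fin (r + 1)),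
        act C σ (proj col a * C 0) = proj col a * act C σ (C 0) := by
      intro σ
      rw [act_apply, act_apply, mul_assoc, ← mul_assoc _ (proj col a), ← (hcomm (preL σ)).eq,
        mul_assoc]
    have h2 : (∑ σ : Equiv.Perm (Fin (r + 1)), α σ • act C σ (proj col a * C 0)) =
        proj col a * ∑ σ : Equiv.Perm (Fin (r + 1)), α σ • act C σ (C 0) := by
      rw [Finset.mul_sum]
      refine Finset.sum_congr rfl fun σ _ => ?_
      rw [h1, mul_smul_comm]
    rw [h2, proj, Matrix.diagonal_mul]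
    have h3 := sumD_apply π e α w σ₀ i j
    rw [← hC] at h3
    rw [h3]
    by_cases hi : col i = a
    · rw [if_pos hi, one_mul, hT1 i j hi (hij.symm.trans hi)]
    · rw [if_neg hi, zero_mul, hT2 i j hij hi]

/-- Hollow matrices, the word `σ₀` given. -/
theorem value_hollow_aux [Infinite K] {κ : Type*} [DecidableEq κ] (col : ι → κ)
    (π : Equiv.Perm ι) (hcol : ∀ v, col (π v) = col v) (e : ℕ → ℕ)
    (α : Equiv.Perm (Fin (r + 1)) → K) (σ₀ : Equiv.Perm (Fin (r + 1))) (hα : α σ₀ ≠ 0)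
    (hc : List.IsChain (fun a b => e a ≠ 0 ∨ e b ≠ 0) (fullList σ₀))
    (hpre : ∀ v, ∀ k, 1 ≤ k → k ≤ totG e (preL σ₀) → (π ^ k) v ≠ v)
    (hpost : ∀ v, ∀ k, 1 ≤ k → k ≤ totG e (postL σ₀) → (π ^ k) v ≠ v)
    (T : Matrix ι ι K) (hT : ∀ i j, col i = col j → T i j = 0) :
    ∃ A : Fin (r + 1) → Matrix ι ι K, mval α A = T := by
  classical
  set S : Finset ℕ := (preL σ₀).toFinset with hS
  have hσ₀ : goodW S σ₀ := by
    refine ⟨fun q hq => by rw [hS, List.mem_toFinset]; exact hq, fun q hq hq2 => ?_⟩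
    rw [hS, List.mem_toFinset] at hq2
    have h1 := fullList_nodup σ₀
    rw [fullList_eq] at h1
    exact (List.disjoint_of_nodup_append h1) hq2 (List.mem_cons_of_mem _ hq)
  have hP : (∏ i, ∏ j, gamG π e α S i j) ≠ 0 := by
    refine Finset.prod_ne_zero_iff.2 fun i _ => Finset.prod_ne_zero_iff.2 fun j _ => ?_
    exact gamG_ne_zero π e α S σ₀ hα hσ₀ hc i j (hpre i) (hpost j)
  obtain ⟨w, hw⟩ := exists_eval_ne _ hP
  have hw1 : ∀ i j, eval w (gamG π e α S i j) ≠ 0 := by
    intro i j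
    rw [map_prod] at hw
    have h2 := Finset.prod_ne_zero_iff.1 hw i (mem_univ _)
    rw [map_prod] at h2
    exact Finset.prod_ne_zero_iff.1 h2 j (mem_univ _)
  refine block_scale_set col α (cmatG π e w) (fun q i j hij => cmatG_block col π hcol e w q i j hij)
    S (fun X hX => sumG_injective π e α S w σ₀ hσ₀ hw1 X hX) 0 T (fun i j hij => ?_)
  rw [mval_act]
  simp only [map_zero, smul_zero, Finset.sum_const_zero, Matrix.zero_apply]
  exact (hT i j hij).symm

end

/-! ### The word and the steps -/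

/-- The steps of the letters: `k` for the letter `0`, alternating on both sides of it. -/
def est (μ k q : ℕ) : ℕ :=
  if q = 0 then k else if q ≤ μ then (if Even q then 1 else 0)
  else (if Even (q - μ) then 1 else 0)

theorem cyc_val (μ i : Fin (r + 1)) :
    ((Fin.cycleRange μ i : Fin (r + 1)) : ℕ) =
      if (i : ℕ) < μ then (i : ℕ) + 1 else if (i : ℕ) = μ then 0 else i := by
  by_cases h1 : i < μ
  · rw [Fin.coe_cycleRange_of_lt h1, if_pos (Fin.lt_def.1 h1)]
  · by_cases h2 : i = μ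
    · rw [Fin.cycleRange_of_eq h2, if_neg (fun h => h1 (Fin.lt_def.2 h)), if_pos (by rw [h2])]
      rfl
    · have h3 : μ < i := lt_of_le_of_ne (not_lt.1 h1) (Ne.symm h2)
      rw [Fin.cycleRange_of_gt h3, if_neg (fun h => h1 (Fin.lt_def.2 h)),
        if_neg (fun h => h2 (Fin.ext h))]

theorem cyc_symm_zero (μ : Fin (r + 1)) : (Fin.cycleRange μ).symm 0 = μ := by
  rw [Equiv.symm_apply_eq, Fin.cycleRange_self]

theorem est_of_lt {μ k i : ℕ} (h : i < μ) :
    est μ k (if i < μ then i + 1 else if i = μ then 0 else i) = if Even (i + 1) then 1 else 0 := by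
  rw [if_pos h, est, if_neg (by omega), if_pos (by omega)]

theorem est_of_eq {μ k i : ℕ} (h : i = μ) :
    est μ k (if i < μ then i + 1 else if i = μ then 0 else i) = k := by
  rw [if_neg (by omega), if_pos h, est, if_pos rfl]

theorem est_of_gt {μ k i : ℕ} (h : μ < i) :
    est μ k (if i < μ then i + 1 else if i = μ then 0 else i) = if Even (i - μ) then 1 else 0 := by
  rw [if_neg (by omega), if_neg (by omega), est, if_neg (by omega), if_neg (by omega)]

theorem alt_ne (i : ℕ) : (if Even i then 1 else 0) ≠ 0 ∨ (if Even (i + 1) then 1 else 0) ≠ 0 := by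
  by_cases h : Even i
  · left
    rw [if_pos h]
    exact one_ne_zero
  · right
    rw [if_pos (by rw [Nat.even_add_one]; exact h)]
    exact one_ne_zero

theorem cyc_chain (μ : Fin (r + 1)) (k : ℕ) (hk : k ≠ 0) :
    List.IsChain (fun a b => est μ k a ≠ 0 ∨ est μ k b ≠ 0)
      (fullList (Fin.cycleRange μ)) := by
  rw [List.isChain_iff_getElem]
  intro i hi
  rw [fullList, List.length_ofFn] at hi
  simp only [fullList, List.getElem_ofFn, cyc_val]
  rcases lt_trichotomy i (μ : ℕ) with h1 | h1 | h1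
  · rcases lt_or_eq_of_le (show i + 1 ≤ (μ : ℕ) by omega) with h2 | h2
    · rw [est_of_lt h1, est_of_lt h2]
      exact alt_ne (i + 1)
    · right
      rw [est_of_eq h2]
      exact hk
  · left
    rw [est_of_eq h1]
    exact hk
  · rw [est_of_gt h1, est_of_gt (show (μ : ℕ) < i + 1 by omega),
      show i + 1 - (μ : ℕ) = i - μ + 1 by omega]
    exact alt_ne (i - μ)

theorem tot_alt (e : ℕ → ℕ) (l : List ℕ)
    (h : ∀ (i : ℕ) (hi : i < l.length), e l[i] = if Even (i + 1) then 1 else 0) :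
    totG e l = l.length / 2 := by
  have h1 : l.map e = (List.range l.length).map fun i => if Even (i + 1) then 1 else 0 := by
    apply List.ext_getElem
    · simp
    · intro i h1 h2
      rw [List.getElem_map, List.getElem_map, List.getElem_range]
      exact h i (by simpa using h1)
  rw [totG, h1]
  generalize l.length = N
  induction N with
  | zero => simp
  | succ N ih =>
    rw [List.range_succ, List.map_append, List.sum_append, ih]
    simp only [List.map_cons, List.map_nil, List.sum_cons, List.sum_nil, add_zero]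
    split_ifs with h2
    · obtain ⟨t, ht⟩ := h2
      omega
    · rw [Nat.not_even_iff] at h2
      omega

theorem cyc_pre (μ : Fin (r + 1)) (k : ℕ) :
    totG (est μ k) (preL (Fin.cycleRange μ)) = (μ : ℕ) / 2 := by
  have hlen : (preL (Fin.cycleRange μ)).length = μ := by rw [length_preL, cyc_symm_zero]
  rw [tot_alt, hlen]
  intro i hi
  rw [hlen] at hi
  have hμ := μ.2
  simp only [preL, fullList, List.getElem_take, List.getElem_ofFn, cyc_val]
  rw [if_pos hi, est, if_neg (by omega), if_pos (by omega)]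

theorem cyc_post (μ : Fin (r + 1)) (k : ℕ) :
    totG (est μ k) (postL (Fin.cycleRange μ)) = (r - μ) / 2 := by
  have hlen : (postL (Fin.cycleRange μ)).length = r - μ := by rw [length_postL, cyc_symm_zero]
  rw [tot_alt, hlen]
  intro i hi
  rw [hlen] at hi
  simp only [postL, fullList, List.getElem_drop, List.getElem_ofFn, cyc_val, cyc_symm_zero]
  rw [if_neg (by omega), if_neg (by omega), est, if_neg (by omega), if_neg (by omega),
    show (μ : ℕ) + 1 + i - μ = i + 1 by omega]

theorem cyc_full (μ : Fin (r + 1)) (k : ℕ) :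
    totG (est μ k) (fullList (Fin.cycleRange μ)) = (μ : ℕ) / 2 + k + (r - μ) / 2 := by
  rw [fullList_eq, totG_append, totG_cons, cyc_pre, cyc_post, est, if_pos rfl]
  ring

/-! ### Rotations -/

theorem rot_pow (p k : ℕ) (v : Fin p) : (((finRotate p) ^ k) v : ℕ) = (v + k) % p := by
  obtain ⟨p', rfl⟩ : ∃ p', p = p' + 1 := ⟨p - 1, by have := v.2; omega⟩
  induction k with
  | zero =>
    rw [pow_zero, Equiv.Perm.one_apply, add_zero, Nat.mod_eq_of_lt v.2]
  | succ k ih =>
    rw [pow_succ', Equiv.Perm.mul_apply, finRotate_apply, Fin.val_add, ih, Fin.val_one']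
    rw [← Nat.add_mod, add_assoc]

theorem rot_ne (p k : ℕ) (v : Fin p) (h1 : 1 ≤ k) (h2 : k < p) : ((finRotate p) ^ k) v ≠ v := by
  intro h
  have h3 := rot_pow p k v
  rw [h] at h3
  have hv := v.2
  by_cases h4 : (v : ℕ) + k < p
  · rw [Nat.mod_eq_of_lt h4] at h3
    omega
  · rw [Nat.mod_eq_sub_mod (by omega), Nat.mod_eq_of_lt (by omega)] at h3
    omega

theorem sumCongr_pow {p s : ℕ} (f : Equiv.Perm (Fin p)) (g : Equiv.Perm (Fin s)) (k : ℕ) :
    (∀ v, ((Equiv.sumCongr f g : Equiv.Perm (Fin p ⊕ Fin s)) ^ k) (Sum.inl v) =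
      Sum.inl ((f ^ k) v)) ∧
    (∀ v, ((Equiv.sumCongr f g : Equiv.Perm (Fin p ⊕ Fin s)) ^ k) (Sum.inr v) =
      Sum.inr ((g ^ k) v)) := by
  induction k with
  | zero => exact ⟨fun v => by simp, fun v => by simp⟩
  | succ k ih =>
    refine ⟨fun v => ?_, fun v => ?_⟩
    · rw [pow_succ', Equiv.Perm.mul_apply, ih.1, Equiv.sumCongr_apply, Sum.map_inl, pow_succ',
        Equiv.Perm.mul_apply]
    · rw [pow_succ', Equiv.Perm.mul_apply, ih.2, Equiv.sumCongr_apply, Sum.map_inr, pow_succ',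
        Equiv.Perm.mul_apply]

/-- All matrices with a suitable weighted cyclic shift as first diagonal block and zero as second
diagonal block are values. -/
theorem value_two_blocks [Infinite K] {p s : ℕ} (μ : Fin (r + 1))
    (α : Equiv.Perm (Fin (r + 1)) → K) (hα : α (Fin.cycleRange μ) ≠ 0)
    (h1 : (μ : ℕ) / 2 < s) (h2 : (r - μ) / 2 < s) (h3 : (μ : ℕ) / 2 + (r - μ) / 2 + 2 ≤ p) :
    ∃ d : Fin p → K, (∀ i, d i ≠ 0) ∧ ∀ T : Matrix (Fin p ⊕ Fin s) (Fin p ⊕ Fin s) K,
      (∀ i j : Fin p, T (Sum.inl i) (Sum.inl j) = if (i : ℕ) = (j + 1) % p then d i else 0) →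
      (∀ i j : Fin s, T (Sum.inr i) (Sum.inr j) = 0) →
      ∃ A : Fin (r + 1) → Matrix (Fin p ⊕ Fin s) (Fin p ⊕ Fin s) K, mval α A = T := by
  set k : ℕ := p - 1 - ((μ : ℕ) / 2 + (r - μ) / 2) with hk
  set π : Equiv.Perm (Fin p ⊕ Fin s) := Equiv.sumCongr (finRotate p) (finRotate s) with hπ
  have hshort : ∀ v, ∀ k, 1 ≤ k → k < p → k < s → (π ^ k) v ≠ v := by
    intro v k hk1 hk2 hk3
    rcases v with v | v
    · rw [hπ, (sumCongr_pow _ _ k).1]
      intro h
      exact rot_ne p k v hk1 hk2 (Sum.inl_injective h)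
    · rw [hπ, (sumCongr_pow _ _ k).2]
      intro h
      exact rot_ne s k v hk1 hk3 (Sum.inr_injective h)
  have htot : totG (est μ k) (fullList (Fin.cycleRange μ)) = p - 1 := by
    rw [cyc_full, hk]
    omega
  obtain ⟨d, hd, hT⟩ := value_blocks_aux (fun x : Fin p ⊕ Fin s => x.isLeft) true π
    (by rintro (v | v) <;> simp [hπ]) (est μ k) α (Fin.cycleRange μ) hα
    (cyc_chain μ k (by omega))
    (fun v k' hk1 hk2 => hshort v k' hk1 (by rw [cyc_pre] at hk2; omega)
      (by rw [cyc_pre] at hk2; omega))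
    (fun v k' hk1 hk2 => hshort v k' hk1 (by rw [cyc_post] at hk2; omega)
      (by rw [cyc_post] at hk2; omega))
    (fun v hv k' hk1 hk2 => by
      rw [htot] at hk2
      rcases v with v | v
      · rw [hπ, (sumCongr_pow _ _ k').1]
        intro h
        exact rot_ne p k' v hk1 (by omega) (Sum.inl_injective h)
      · simp at hv)
  refine ⟨fun i => d (Sum.inl i), fun i => hd _ rfl, fun T hT1 hT2 => hT T ?_ ?_⟩
  · rintro (i | i) (j | j) hi hj
    · rw [hT1, htot, hπ, (sumCongr_pow _ _ _).1]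
      have h4 : ((i : ℕ) = (j + 1) % p) ↔
          (Sum.inl j : Fin p ⊕ Fin s) = Sum.inl ((finRotate p ^ (p - 1)) i) := by
        rw [Sum.inl.injEq, Fin.ext_iff, rot_pow]
        have hi2 := i.2
        have hj2 := j.2
        by_cases h5 : (j : ℕ) + 1 < p
        · rw [Nat.mod_eq_of_lt h5]
          by_cases h6 : (i : ℕ) = 0
          · rw [h6, zero_add, Nat.mod_eq_of_lt (by omega)]
            omega
          · rw [Nat.mod_eq_sub_mod (by omega), Nat.mod_eq_of_lt (by omega)]
            omega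
        · rw [show (j : ℕ) + 1 = p by omega, Nat.mod_self]
          by_cases h6 : (i : ℕ) = 0
          · rw [h6, zero_add, Nat.mod_eq_of_lt (by omega)]
            omega
          · rw [Nat.mod_eq_sub_mod (by omega), Nat.mod_eq_of_lt (by omega)]
            omega
      by_cases h5 : (i : ℕ) = (j + 1) % p
      · rw [if_pos h5, if_pos (h4.1 h5)]
      · rw [if_neg h5, if_neg (fun h => h5 (h4.2 h))]
    · simp at hj
    · simp at hi
    · simp at hi
  · rintro (i | i) (j | j) hij hi
    · simp at hi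
    · simp at hij
    · simp at hij
    · exact hT2 i j

/-- Values do not depend on the basis. -/
theorem value_of_toMatrix {m n : ℕ} (α : Equiv.Perm (Fin m) → K)
    (T : Matrix (Fin n) (Fin n) K) {ι : Type*} [Fintype ι] [DecidableEq ι]
    (b : Module.Basis ι K (Fin n → K))
    (h : ∃ A : Fin m → Matrix ι ι K,
      mval α A = LinearMap.toMatrix b b (Matrix.toLin' T)) :
    ∃ A : Fin m → Matrix (Fin n) (Fin n) K, mval α A = T := by
  obtain ⟨A, hA⟩ := h
  set Ψ : Matrix ι ι K →ₐ[K] Matrix (Fin n) (Fin n) K :=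
    ((Matrix.toLinAlgEquiv b).trans LinearMap.toMatrixAlgEquiv').toAlgHom with hΨ
  refine ⟨fun q => Ψ (A q), ?_⟩
  rw [mval_algHom, hA, hΨ]
  change LinearMap.toMatrix' (Matrix.toLin b b (LinearMap.toMatrix b b (Matrix.toLin' T))) = T
  rw [Matrix.toLin_toMatrix, LinearMap.toMatrix'_toLin']

/-- Every trace-zero matrix with a cyclic vector is a value if `3 * (m / 4) + 3 ≤ n`, or if `4`
divides `m` and `3 * (m / 4) + 2 ≤ n`. -/
theorem value_of_cyclic' [Infinite K] {m : ℕ} (hm : 1 ≤ m) (α : Equiv.Perm (Fin m) → K)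
    (hα : α ≠ 0) {n : ℕ} (hn : 3 * (m / 4) + 3 ≤ n ∨ (4 ∣ m ∧ 3 * (m / 4) + 2 ≤ n)) (T : Matrix (Fin n) (Fin n) K)
    (hT : T.trace = 0) (v : Fin n → K)
    (hv : LinearIndependent K fun i : Fin n => (T ^ (i : ℕ)) *ᵥ v) :
    ∃ A : Fin m → Matrix (Fin n) (Fin n) K, mval α A = T := by
  obtain ⟨r, rfl⟩ : ∃ r, m = r + 1 := ⟨m - 1, by omega⟩
  obtain ⟨σ₁, hσ₁⟩ := Function.ne_iff.1 hα
  set μ : Fin (r + 1) := ⟨r / 2, by omega⟩ with hμ
  set ρ : Equiv.Perm (Fin (r + 1)) := σ₁ * (Fin.cycleRange μ)⁻¹ with hρ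
  obtain ⟨d, hd, hval⟩ := value_two_blocks (K := K) (p := n - ((r + 1) / 4 + 1))
    (s := (r + 1) / 4 + 1) μ (fun τ => α (ρ * τ)) (by simpa [hρ] using hσ₁)
    (by rw [hμ]; simp only; omega) (by rw [hμ]; simp only; omega)
    (by rw [hμ]; simp only; omega)
  obtain ⟨b, hb1, hb2⟩ := exists_completion (p := n - ((r + 1) / 4 + 1))
    (s := (r + 1) / 4 + 1) (by omega) (by omega) (by omega) T hT v hv d hd
  have key : ∃ A : Fin (r + 1) → Matrix (Fin n) (Fin n) K, mval (fun τ => α (ρ * τ)) A = T := by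
    refine value_of_toMatrix _ T b (hval _ (fun i j => ?_) (fun i j => ?_))
    · rw [LinearMap.toMatrix_apply, Matrix.toLin'_apply]
      exact hb1 i j
    · rw [LinearMap.toMatrix_apply, Matrix.toLin'_apply]
      exact hb2 i j
  obtain ⟨A, hA⟩ := key
  refine ⟨fun q => A (ρ.symm q), ?_⟩
  rw [← hA, mval, mval, ← Equiv.sum_comp (Equiv.mulLeft ρ)]
  refine Finset.sum_congr rfl fun τ _ => ?_
  simp [Equiv.Perm.mul_apply]


/-- Every matrix whose diagonal blocks vanish is a value, if the classes have at least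
`m / 4 + 1` elements. -/
theorem value_hollow [Infinite K] {ι : Type*} [DecidableEq ι] [Fintype ι] {m : ℕ} (hm : 1 ≤ m)
    {κ : Type*} (col : ι → κ) (hcol : ∀ i, m / 4 + 1 ≤ Set.ncard {j | col j = col i})
    (α : Equiv.Perm (Fin m) → K) (hα : α ≠ 0) (T : Matrix ι ι K)
    (hT : ∀ i j, col i = col j → T i j = 0) :
    ∃ A : Fin m → Matrix ι ι K, mval α A = T := by
  classical
  obtain ⟨r, rfl⟩ : ∃ r, m = r + 1 := ⟨m - 1, by omega⟩
  obtain ⟨σ₁, hσ₁⟩ := Function.ne_iff.1 hα
  set μ : Fin (r + 1) := ⟨r / 2, by omega⟩ with hμ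
  set ρ : Equiv.Perm (Fin (r + 1)) := σ₁ * (Fin.cycleRange μ)⁻¹ with hρ
  have hcol' : ∀ i, (r + 1) / 4 < (univ.filter fun j => col j = col i).card := by
    intro i
    have h1 := hcol i
    rw [Set.ncard_eq_toFinset_card'] at h1
    have h2 : (Set.toFinset {j | col j = col i}) = univ.filter fun j => col j = col i := by
      ext j
      simp
    rw [h2] at h1
    exact h1
  obtain ⟨π, hπ1, hπ2⟩ := exists_perm col ((r + 1) / 4) hcol'
  obtain ⟨A, hA⟩ := value_hollow_aux col π hπ1 (est μ 1) (fun τ => α (ρ * τ)) (Fin.cycleRange μ)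
    (by simpa [hρ] using hσ₁) (cyc_chain μ 1 one_ne_zero)
    (fun v k hk1 hk2 => hπ2 v k hk1 (by rw [cyc_pre, hμ] at hk2; simp only at hk2; omega))
    (fun v k hk1 hk2 => hπ2 v k hk1 (by rw [cyc_post, hμ] at hk2; simp only at hk2; omega))
    T hT
  refine ⟨fun q => A (ρ.symm q), ?_⟩
  rw [← hA, mval, mval, ← Equiv.sum_comp (Equiv.mulLeft ρ)]
  refine Finset.sum_congr rfl fun τ _ => ?_
  simp [Equiv.Perm.mul_apply]

/-- A matrix is a value as soon as it has vanishing diagonal blocks in some basis. -/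
theorem value_of_basis_hollow [Infinite K] {m : ℕ} (hm : 1 ≤ m) (α : Equiv.Perm (Fin m) → K)
    (hα : α ≠ 0) {n : ℕ} (T : Matrix (Fin n) (Fin n) K) {ι : Type*} [Fintype ι] [DecidableEq ι]
    (b : Module.Basis ι K (Fin n → K)) {κ : Type*} (col : ι → κ)
    (hcol : ∀ i, m / 4 + 1 ≤ Set.ncard {j | col j = col i})
    (hT : ∀ i j, col i = col j → b.repr (T *ᵥ b j) i = 0) :
    ∃ A : Fin m → Matrix (Fin n) (Fin n) K, mval α A = T := by
  refine value_of_toMatrix α T b (value_hollow hm col hcol α hα _ fun i j hij => ?_)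
  rw [LinearMap.toMatrix_apply, Matrix.toLin'_apply]
  exact hT i j hij


end Pool.Agent.P5e96
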