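import Mathlib
import Pool.Agent.Lib.P5e96.Far4
import Pool.Agent.Lib.P5e96.PairsSharp
import Pool.Agent.Lib.P5e96.ValuesG

/-!
# Trace-zero matrices that are far from the scalar matrices are values
-/

open Finset Matrix

namespace Pool.Agent.P5e96

variable {K : Type*} [Field K]

theorem basis_of_conj {n : ℕ} {I : Type*} [Fintype I] [DecidableEq I] (e : Fin n ≃ I)
    (T : Matrix (Fin n) (Fin n) K) (G G' : Matrix I I K) (h : G' * G = 1) :
    ∃ b : Module.Basis I K (Fin n → K), ∀ i j,
      b.repr (T *ᵥ b j) i = (G' * T.submatrix e.symm e.symm * G) i j := by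
  have h' : G * G' = 1 := mul_eq_one_comm.1 h
  set L : (Fin n → K) ≃ₗ[K] (I → K) := LinearEquiv.funCongrLeft K K e.symm with hL
  set E : (Fin n → K) ≃ₗ[K] (I → K) := L.trans (Matrix.toLin'OfInv h' h) with hE
  refine ⟨Module.Basis.ofEquivFun E, fun i j => ?_⟩
  have hEx : ∀ x, E x = G' *ᵥ (L x) := by
    intro x
    rw [hE]
    simp [Matrix.toLin'OfInv]
  have hEs : ∀ y, E.symm y = L.symm (G *ᵥ y) := by
    intro y
    apply E.injective
    rw [LinearEquiv.apply_symm_apply, hEx, LinearEquiv.apply_symm_apply, Matrix.mulVec_mulVec, h,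
      Matrix.one_mulVec]
  have hT : ∀ y, L (T *ᵥ (L.symm y)) = T.submatrix e.symm e.symm *ᵥ y := by
    intro y
    rw [Matrix.submatrix_mulVec_equiv]
    rfl
  have h1 : (Module.Basis.ofEquivFun E).repr (T *ᵥ (Module.Basis.ofEquivFun E) j) i =
      E (T *ᵥ (Module.Basis.ofEquivFun E) j) i := by
    rw [← Module.Basis.equivFun_apply, Module.Basis.equivFun_ofEquivFun]
  have h2 : (Module.Basis.ofEquivFun E) j = L.symm (G *ᵥ Pi.single j 1) := by
    rw [Module.Basis.coe_ofEquivFun, ← hEs]
  rw [h1, h2, hEx, hT, Matrix.mulVec_mulVec, Matrix.mulVec_mulVec, Matrix.mulVec_single_one,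
    Matrix.mul_assoc]
  rfl

theorem finrank_range_sub {I : Type*} [Fintype I] [DecidableEq I] (T : Matrix I I K) (c : K) :
    Module.finrank K (LinearMap.range (Matrix.toLin' T - c • LinearMap.id)) =
      (T - c • (1 : Matrix I I K)).rank := by
  have h : Matrix.toLin' T - c • LinearMap.id = Matrix.toLin' (T - c • (1 : Matrix I I K)) := by
    rw [map_sub, map_smul, Matrix.toLin'_one]
  rw [h, Matrix.rank, ← Matrix.toLin'_apply']

theorem rank_submatrix_sub {n : ℕ} {I : Type*} [Fintype I] [DecidableEq I] (e : Fin n ≃ I)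
    (T : Matrix (Fin n) (Fin n) K) (c : K) :
    (T.submatrix e.symm e.symm - c • (1 : Matrix I I K)).rank =
      (T - c • (1 : Matrix (Fin n) (Fin n) K)).rank := by
  rw [← Matrix.rank_submatrix (T - c • (1 : Matrix (Fin n) (Fin n) K)) e.symm e.symm]
  congr 1
  ext i j
  simp [Matrix.one_apply]

/-- The sizes of the blocks. -/
def szf (n r : ℕ) (k : Fin r) : ℕ := n / r + if (k : ℕ) < n % r then 1 else 0

theorem sum_szf (n r : ℕ) (hr : 0 < r) : ∑ k : Fin r, szf n r k = n := by
  unfold szf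
  rw [Finset.sum_add_distrib, Finset.sum_const, Finset.card_univ, Fintype.card_fin, smul_eq_mul]
  have h1 : ∑ k : Fin r, (if (k : ℕ) < n % r then 1 else 0) = n % r := by
    rw [Fin.sum_univ_eq_sum_range (fun k => if k < n % r then 1 else 0) r, Finset.sum_ite,
      Finset.sum_const_zero, add_zero, Finset.sum_const, smul_eq_mul, mul_one]
    have h2 : (Finset.range r).filter (fun k => k < n % r) = Finset.range (n % r) := by
      ext k
      rw [Finset.mem_filter, Finset.mem_range, Finset.mem_range]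
      have := Nat.mod_lt n hr
      omega
    rw [h2, Finset.card_range]
  rw [h1]
  exact Nat.div_add_mod n r

/-- **Far from the scalar matrices.** Every trace-zero matrix `T` with
`rank (T - c) ≥ 4 (⌊m / 4⌋ + 1) - 1` for all `c` is a value, if `n ≥ 12 (⌊m / 4⌋ + 1)`. -/
theorem value_of_far [Infinite K] {m : ℕ} (hm : 1 ≤ m) (α : Equiv.Perm (Fin m) → K)
    (hα : α ≠ 0) {n : ℕ} (hn : 12 * (m / 4 + 1) ≤ n) (T : Matrix (Fin n) (Fin n) K)
    (hT : T.trace = 0)
    (hr : ∀ c : K, 4 * (m / 4 + 1) ≤ (T - c • (1 : Matrix (Fin n) (Fin n) K)).rank + 1) :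
    ∃ A : Fin m → Matrix (Fin n) (Fin n) K, mval α A = T := by
  classical
  set s := m / 4 + 1 with hs
  have hs1 : 1 ≤ s := by omega
  set r := n / (3 * s) with hrdef
  have hr1 : 3 * s * r ≤ n := Nat.mul_div_le n (3 * s)
  have hr2 : n < 3 * s * (r + 1) := by
    rw [hrdef]
    exact Nat.lt_mul_div_succ n (by omega)
  have hr4 : 4 ≤ r := by
    rw [hrdef, Nat.le_div_iff_mul_le (by omega)]
    omega
  have hr0 : 0 < r := by omega
  set q := n / r with hq
  have hq1 : r * q ≤ n := Nat.mul_div_le n r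
  have hq3 : 3 * s ≤ q := by
    rw [hq, Nat.le_div_iff_mul_le hr0]
    exact hr1
  have hq4 : q < 4 * s := by
    rw [hq, Nat.div_lt_iff_lt_mul hr0]
    nlinarith
  have h4q : 4 * q ≤ n := le_trans (Nat.mul_le_mul_right q hr4) hq1
  have hszge : ∀ k : Fin r, 3 * s ≤ szf n r k := fun k => le_trans hq3 (Nat.le_add_right _ _)
  have hszle : ∀ k : Fin r, szf n r k ≤ q + 1 := by
    intro k
    unfold szf
    split_ifs <;> omega
  have hsz : ∀ k : Fin r, 0 < szf n r k := fun k => by have := hszge k; omega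
  have hcard : Fintype.card (Idx (szf n r)) = n := by
    rw [Fintype.card_sigma]
    simp only [Fintype.card_fin]
    exact sum_szf n r hr0
  obtain ⟨e⟩ : Nonempty (Fin n ≃ Idx (szf n r)) :=
    ⟨(Fintype.equivFinOfCardEq hcard).symm⟩
  set T₁ := T.submatrix e.symm e.symm with hT₁
  have hT₁tr : T₁.trace = 0 := by
    rw [hT₁, ← hT, Matrix.trace, Matrix.trace]
    exact Fintype.sum_equiv e.symm _ _ fun i => rfl
  have hrank : ∀ c : K, 4 * s ≤ Module.finrank K
      (LinearMap.range (Matrix.toLin' T₁ - c • LinearMap.id)) + 1 := by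
    intro c
    rw [finrank_range_sub, hT₁, rank_submatrix_sub]
    exact hr c
  have hfin : Module.finrank K (Idx (szf n r) → K) = n := by
    rw [Module.finrank_fintype_fun_eq_card, hcard]
  obtain ⟨G, G', hG, hz⟩ := hollow_form (szf n r) hsz ⟨0, hr0⟩
    (fun k => by have := hszge k; omega) T₁ hT₁tr
    (exists_cond (szf n r) hsz ⟨0, hr0⟩ T₁ (fun k => by
      rw [hcard]
      have := hszle k
      omega) (fun k => by
      have h1 := hszle k
      obtain ⟨v, hv⟩ := exists_pairs_sharp (Matrix.toLin' T₁) (szf n r k - 1)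
        (fun c => by have := hrank c; omega) (by rw [hfin]; omega) (by rw [hfin]; omega)
      exact ⟨v, by simpa only [Matrix.toLin'_apply] using hv⟩) (by
      obtain ⟨v, hv⟩ := exists_pairs_sharp (Matrix.toLin' T₁) 1
        (fun c => by have := hrank c; omega) (by rw [hfin]; omega) (by rw [hfin]; omega)
      refine ⟨v 0, ?_⟩
      have h1 := hv.comp ![Sum.inl 0, Sum.inr 0] (by
        intro i j hij
        fin_cases i <;> fin_cases j <;> simp_all)
      have h2 : (Sum.elim v (fun i => Matrix.toLin' T₁ (v i))) ∘ ![Sum.inl 0, Sum.inr 0] =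
          ![v 0, T₁ *ᵥ v 0] := by
        ext i
        fin_cases i <;> simp
      rw [h2] at h1
      exact h1))
  obtain ⟨b, hb⟩ := basis_of_conj e T G G' hG
  refine value_of_basis_hollow hm α hα T b
    (fun x : Idx (szf n r) => (x.1, hcol (szf n r x.1) x.2)) ?_ ?_
  · rintro ⟨k, a⟩
    have h1 := hcol_card a
    have h2 : s ≤ szf n r k / 3 := by
      rw [Nat.le_div_iff_mul_le (by norm_num)]
      have := hszge k
      omega
    refine le_trans h2 (le_trans h1 ?_)
    have hinj : Function.Injective (fun j : Fin (szf n r k) => (⟨k, j⟩ : Idx (szf n r))) :=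
      fun i j hij => eq_of_heq (Sigma.mk.inj_iff.1 hij).2
    rw [← Set.ncard_image_of_injective _ hinj]
    apply Set.ncard_le_ncard _ (Set.toFinite _)
    rintro _ ⟨j, hj, rfl⟩
    simp only [Set.mem_ofPred_eq] at hj ⊢
    rw [hj]
  · rintro ⟨k, i⟩ ⟨l, j⟩ hij
    rw [hb]
    simp only [Prod.mk.injEq] at hij
    obtain ⟨hkl, hij⟩ := hij
    subst hkl
    exact hz k i j hij

end Pool.Agent.P5e96
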