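import Mathlib
import Pool.Agent.Lib.P5e96.Value

/-!
# The three-coloured basis of a trace-zero matrix with a cyclic vector
-/

open Finset Matrix

namespace Pool.Agent.P5e96

variable {K : Type*} [Field K]

/-- A trace-zero matrix of size `n ≥ 3` with a cyclic vector has zero entries between vectors of
the same colour in a suitable basis; the three colours are `hcol n`, each class has at least
`n / 3` elements (`hcol_card`). -/
theorem cyclic_hollow {n : ℕ} (hn3 : 3 ≤ n) (T : Matrix (Fin n) (Fin n) K)
    (hT : T.trace = 0) (v : Fin n → K)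
    (hv : LinearIndependent K fun i : Fin n => (T ^ (i : ℕ)) *ᵥ v) :
    ∃ b : Module.Basis (Fin n) K (Fin n → K), ∀ i j : Fin n, hcol n i = hcol n j →
      b.repr (T *ᵥ b j) i = 0 := by
  obtain ⟨N, rfl⟩ : ∃ N, n = N + 1 := ⟨n - 1, by omega⟩
  obtain ⟨b0, hb0⟩ := exists_basis T v hv
  set a : Fin (N + 1) → K := fun k => b0.repr ((T ^ (N + 1)) *ᵥ v) k with ha
  have halast : a (Fin.last N) = 0 := by
    rw [ha]
    exact (last_coeff T v b0 hb0).trans hT
  have hrel : (T ^ (N + 1)) *ᵥ v = ∑ k : Fin (N + 1), a k • ((T ^ (k : ℕ)) *ᵥ v) := by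
    conv_lhs => rw [← b0.sum_repr ((T ^ (N + 1)) *ᵥ v)]
    exact Finset.sum_congr rfl fun k _ => by rw [hb0]
  obtain ⟨b, hb⟩ := exists_basis' T v hv a (by omega)
  refine ⟨b, ?_⟩
  · intro i j hij
    rw [hb j]
    by_cases hj : (j : ℕ) + 1 < N + 1
    · rw [vec_lt _ _ _ _ hj, pow_succ_mulVec]
      by_cases hj2 : (j : ℕ) + 2 < N + 1
      · have h1 : (T ^ ((j : ℕ) + 1)) *ᵥ v = b ⟨(j : ℕ) + 1, by omega⟩ := by
          rw [hb, vec_lt _ _ _ _ (by simp only; omega)]
        rw [h1, Module.Basis.repr_self, Finsupp.single_apply, if_neg]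
        rintro rfl
        exact hcol_succ hn3 (by omega : (j : ℕ) + 1 < N + 1) hij.symm
      · have hjN : (j : ℕ) + 1 = N + 1 - 1 := by omega
        have h1 := last_eq T v a (Nat.succ_pos N)
        have hcj : hcol (N + 1) j = 1 := by
          have : (j : ℕ) = N + 1 - 2 := by omega
          rw [this]
          exact hcol_last' hn3
        rw [hcj] at hij
        rw [hjN, h1, ← hb, map_add, map_sum, Finsupp.add_apply, Finsupp.finsetSum_apply,
          Module.Basis.repr_self, Finsupp.single_apply, if_neg, zero_add]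
        · refine Finset.sum_eq_zero fun k _ => ?_
          rw [← hb, map_smul, Module.Basis.repr_self, Finsupp.smul_apply, Finsupp.single_apply]
          by_cases hk : hcol (N + 1) k = 2 ∧ 1 ≤ (k : ℕ) ∧ (k : ℕ) + 1 < N + 1
          · rw [if_neg, smul_zero]
            rintro rfl
            exact hcol_pred hk.2.1 hk.2.2 hk.1 hij
          · rw [hco, if_neg hk, zero_smul]
        · rintro rfl
          have := hcol_last (n := N + 1)
          simp only at hij
          omega
    · have hjN : (j : ℕ) = N + 1 - 1 := by omega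
      have hcj : hcol (N + 1) j = 2 := by
        rw [hjN]
        exact hcol_last
      rw [hcj] at hij
      have h2 : T *ᵥ vec T v a j = ∑ k : Fin (N + 1), (a k - hco a k) • vec T v a k := by
        have h3 : vec T v a j = (T ^ (N + 1 - 1)) *ᵥ v -
            ∑ k : Fin (N + 1), hco a k • ((T ^ ((k : ℕ) - 1)) *ᵥ v) := by
          rw [vec, if_neg hj]
        rw [h3, Matrix.mulVec_sub, pow_succ_mulVec, Nat.add_sub_cancel, hrel, Matrix.mulVec_sum,
          ← Finset.sum_sub_distrib]
        refine Finset.sum_congr rfl fun k _ => ?_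
        rw [Matrix.mulVec_smul, pow_succ_mulVec, sub_smul]
        by_cases hk1 : (k : ℕ) + 1 < N + 1
        · rw [vec_lt _ _ _ _ hk1]
          by_cases hk : hcol (N + 1) k = 2 ∧ 1 ≤ (k : ℕ) ∧ (k : ℕ) + 1 < N + 1
          · rw [Nat.sub_add_cancel hk.2.1]
          · rw [hco, if_neg hk, zero_smul, zero_smul]
        · have hk2 : k = Fin.last N := by
            apply Fin.ext
            rw [Fin.val_last]
            omega
          have hk3 : ¬ (hcol (N + 1) k = 2 ∧ 1 ≤ (k : ℕ) ∧ (k : ℕ) + 1 < N + 1) :=
            fun h => hk1 h.2.2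
          rw [hco, if_neg hk3, hk2, halast, zero_smul, zero_smul, zero_smul]
      rw [h2, map_sum, Finsupp.finsetSum_apply]
      refine Finset.sum_eq_zero fun k _ => ?_
      rw [← hb, map_smul, Module.Basis.repr_self, Finsupp.smul_apply, Finsupp.single_apply]
      by_cases hki : k = i
      · subst hki
        rw [if_pos rfl, smul_eq_mul, mul_one]
        by_cases hk1 : (k : ℕ) + 1 < N + 1
        · have hk0 : 1 ≤ (k : ℕ) := by
            by_contra h0
            have h00 : (k : ℕ) = 0 := by omega
            rw [h00] at hij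
            exact hcol_zero hn3 hij
          rw [hco, if_pos ⟨hij, hk0, hk1⟩, sub_self]
        · have hk2 : k = Fin.last N := by
            apply Fin.ext
            rw [Fin.val_last]
            omega
          rw [hco, if_neg (fun h => hk1 h.2.2), sub_zero, hk2, halast]
      · rw [if_neg hki, smul_zero]

end Pool.Agent.P5e96
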