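import Mathlib
import Pool.Agent.Lib.P5e96.ValuesG
import Pool.Agent.Lib.P5e96.CycHollow

/-!
# Trace-zero matrices of low rank are values
-/

open Finset Matrix

namespace Pool.Agent.P5e96

variable {K : Type*} [Field K] {V : Type*} [AddCommGroup V] [Module K V] [FiniteDimensional K V]

omit [FiniteDimensional K V] in
/-- A vector space is not the union of two proper subspaces. -/
theorem exists_notMem_two (A B : Submodule K V) (hA : A ≠ ⊤) (hB : B ≠ ⊤) :
    ∃ x, x ∉ A ∧ x ∉ B := by
  obtain ⟨a, ha⟩ : ∃ a, a ∉ A := by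
    by_contra h
    push Not at h
    exact hA (eq_top_iff.2 fun x _ => h x)
  obtain ⟨b, hb⟩ : ∃ b, b ∉ B := by
    by_contra h
    push Not at h
    exact hB (eq_top_iff.2 fun x _ => h x)
  by_cases haB : a ∈ B
  · by_cases hbA : b ∈ A
    · refine ⟨a + b, fun h => ha ?_, fun h => hb ?_⟩
      · have := A.sub_mem h hbA
        rwa [add_sub_cancel_right] at this
      · have := B.sub_mem h haB
        rwa [add_sub_cancel_left] at this
    · exact ⟨b, hbA, hb⟩
  · exact ⟨a, ha, haB⟩

/-- Vectors independent modulo `A` and modulo `B`. -/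
theorem exists_indep_two (A B : Submodule K V) (k : ℕ)
    (hA : Module.finrank K A + k ≤ Module.finrank K V)
    (hB : Module.finrank K B + k ≤ Module.finrank K V) :
    ∃ u : Fin k → V, LinearIndependent K (A.mkQ ∘ u) ∧ LinearIndependent K (B.mkQ ∘ u) := by
  induction k with
  | zero => exact ⟨fun i => i.elim0, linearIndependent_empty_type, linearIndependent_empty_type⟩
  | succ k ih =>
    obtain ⟨u, hu1, hu2⟩ := ih (by omega) (by omega)
    have key : ∀ C : Submodule K V, Module.finrank K C + (k + 1) ≤ Module.finrank K V →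
        C ⊔ Submodule.span K (Set.range u) ≠ ⊤ := by
      intro C hC h
      have h1 := Submodule.finrank_add_le_finrank_add_finrank C (Submodule.span K (Set.range u))
      rw [h, finrank_top] at h1
      have h2 := finrank_range_le_card (R := K) u
      rw [Set.finrank, Fintype.card_fin] at h2
      omega
    obtain ⟨x, hx1, hx2⟩ := exists_notMem_two _ _ (key A hA) (key B hB)
    have key2 : ∀ C : Submodule K V, x ∉ C ⊔ Submodule.span K (Set.range u) →
        LinearIndependent K (C.mkQ ∘ u) →
        LinearIndependent K (C.mkQ ∘ (Fin.snoc u x : Fin (k + 1) → V)) := by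
      intro C hC hu
      have h1 : (C.mkQ ∘ (Fin.snoc u x : Fin (k + 1) → V)) =
          Fin.snoc (C.mkQ ∘ u) (C.mkQ x) := by
        rw [Fin.comp_snoc]
      rw [h1, linearIndependent_finSnoc]
      refine ⟨hu, fun h => hC ?_⟩
      rw [Set.range_comp, ← Submodule.map_span] at h
      obtain ⟨y, hy, hyx⟩ := h
      have h2 : x - y ∈ C := by
        rw [← Submodule.Quotient.mk_eq_zero, Submodule.Quotient.mk_sub, sub_eq_zero]
        exact hyx.symm
      have h3 : x = (x - y) + y := by abel
      rw [h3]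
      exact Submodule.add_mem_sup h2 hy
    exact ⟨Fin.snoc u x, key2 A hx1 hu1, key2 B hx2 hu2⟩

/-- A basis adapted to a linear map of small rank. -/
theorem exists_uw_basis (T : V →ₗ[K] V) (ρ : ℕ) (hρ : Module.finrank K (LinearMap.range T) = ρ)
    (hn : 2 * ρ ≤ Module.finrank K V) :
    ∃ (N : ℕ) (b : Module.Basis ((Fin ρ ⊕ Fin ρ) ⊕ Fin N) K V),
      2 * ρ + N = Module.finrank K V ∧
      (∀ i, T (b (Sum.inl (Sum.inl i))) = b (Sum.inl (Sum.inr i))) ∧
      (∀ i, T (b (Sum.inl (Sum.inr i))) ∈
        Submodule.span K (Set.range fun j => b (Sum.inl (Sum.inr j)))) ∧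
      ∀ x, T (b (Sum.inr x)) = 0 := by
  have hrn := LinearMap.finrank_range_add_finrank_ker T
  obtain ⟨u, hu1, hu2⟩ := exists_indep_two (LinearMap.ker T) (LinearMap.range T) ρ
    (by omega) (by omega)
  have hTu : LinearIndependent K (T ∘ u) := by
    have h1 := hu1.map' ((LinearMap.ker T).liftQ T le_rfl) (Submodule.ker_liftQ_eq_bot _ _ _ le_rfl)
    exact h1
  set e : Fin ρ ⊕ Fin ρ → V := Sum.elim u (T ∘ u) with he
  have heli : LinearIndependent K e := by
    rw [Fintype.linearIndependent_iff]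
    intro g hg
    rw [Fintype.sum_sum_type] at hg
    simp only [he, Sum.elim_inl, Sum.elim_inr, Function.comp_apply] at hg
    have h1 : ∀ i, g (Sum.inl i) = 0 := by
      refine Fintype.linearIndependent_iff.1 hu2 (fun i => g (Sum.inl i)) ?_
      have h2 := congrArg (LinearMap.range T).mkQ hg
      rw [map_add, map_zero, map_sum, map_sum] at h2
      have h3 : (∑ x, (LinearMap.range T).mkQ (g (Sum.inr x) • T (u x))) = 0 := by
        refine Finset.sum_eq_zero fun i _ => ?_
        rw [map_smul, Submodule.mkQ_apply, (Submodule.Quotient.mk_eq_zero _).2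
          (LinearMap.mem_range_self T (u i)), smul_zero]
      rw [h3, add_zero] at h2
      rw [← h2]
      refine Finset.sum_congr rfl fun i _ => ?_
      rw [map_smul]
      rfl
    have h4 : ∀ i, g (Sum.inr i) = 0 := by
      refine Fintype.linearIndependent_iff.1 hTu (fun i => g (Sum.inr i)) ?_
      rw [← hg]
      simp [h1]
    rintro (i | i)
    · exact h1 i
    · exact h4 i
  have hspanT : Submodule.span K (Set.range (T ∘ u)) = LinearMap.range T := by
    refine Submodule.eq_of_le_of_finrank_eq ?_ ?_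
    · rw [Submodule.span_le]
      rintro _ ⟨i, rfl⟩
      exact LinearMap.mem_range_self T (u i)
    · rw [finrank_span_eq_card hTu, Fintype.card_fin, hρ]
  obtain ⟨C, hC⟩ := Submodule.exists_isCompl (Submodule.span K (Set.range e))
  have hdim := Submodule.finrank_add_eq_of_isCompl hC
  rw [finrank_span_eq_card heli, Fintype.card_sum, Fintype.card_fin] at hdim
  set N := Module.finrank K C with hN
  have hcoef : ∀ x : V, ∃ c : Fin ρ → K, ∑ i, c i • T (u i) = T x := by
    intro x
    have h1 : T x ∈ Submodule.span K (Set.range (T ∘ u)) := by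
      rw [hspanT]
      exact LinearMap.mem_range_self T x
    exact (Submodule.mem_span_range_iff_exists_fun K).1 h1
  choose c hc using hcoef
  set xb := Module.finBasis K C with hxb
  set F : (Fin ρ ⊕ Fin ρ) ⊕ Fin N → V :=
    Sum.elim e (fun j => (xb j : V) - ∑ i, c (xb j) i • u i) with hF
  have htop : ⊤ ≤ Submodule.span K (Set.range F) := by
    have h1 : Submodule.span K (Set.range e) ≤ Submodule.span K (Set.range F) := by
      refine Submodule.span_mono ?_
      rintro _ ⟨i, rfl⟩
      exact ⟨Sum.inl i, rfl⟩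
    have h2 : C ≤ Submodule.span K (Set.range F) := by
      intro x hx
      have h3 : ∀ j, (xb j : V) ∈ Submodule.span K (Set.range F) := by
        intro j
        have h4 : (xb j : V) = F (Sum.inr j) + ∑ i, c (xb j) i • u i := by
          rw [hF]
          simp only [Sum.elim_inr, sub_add_cancel]
        rw [h4]
        refine Submodule.add_mem _ (Submodule.subset_span ⟨_, rfl⟩) (Submodule.sum_mem _ fun i _ =>
          Submodule.smul_mem _ _ (h1 (Submodule.subset_span ⟨Sum.inl i, rfl⟩)))
      have h5 := xb.sum_repr ⟨x, hx⟩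
      have h6 : x = ∑ j, xb.repr ⟨x, hx⟩ j • (xb j : V) := by
        have h7 := congrArg (fun y : C => (y : V)) h5
        simp only [Submodule.coe_sum, Submodule.coe_smul] at h7
        exact h7.symm
      rw [h6]
      exact Submodule.sum_mem _ fun j _ => Submodule.smul_mem _ _ (h3 j)
    rw [← hC.sup_eq_top]
    exact sup_le h1 h2
  have hcard : Fintype.card ((Fin ρ ⊕ Fin ρ) ⊕ Fin N) = Module.finrank K V := by
    rw [Fintype.card_sum, Fintype.card_sum, Fintype.card_fin, Fintype.card_fin]
    omega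
  refine ⟨N, basisOfTopLeSpanOfCardEqFinrank F htop hcard, by omega, ?_, ?_, ?_⟩
  · intro i
    rw [coe_basisOfTopLeSpanOfCardEqFinrank]
    rfl
  · intro i
    rw [coe_basisOfTopLeSpanOfCardEqFinrank]
    have h1 : T (F (Sum.inl (Sum.inr i))) ∈ LinearMap.range T := LinearMap.mem_range_self T _
    rw [← hspanT] at h1
    exact h1
  · intro x
    rw [coe_basisOfTopLeSpanOfCardEqFinrank, hF]
    simp only [Sum.elim_inr]
    rw [map_sub, map_sum, sub_eq_zero, ← hc (xb x)]
    refine Finset.sum_congr rfl fun i _ => ?_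
    rw [map_smul]

section mats

/-- A matrix that is similar to a matrix with zero entries between indices of the same colour, for
three colours. -/
def Good3 {ρ : ℕ} (M : Matrix (Fin ρ) (Fin ρ) K) : Prop :=
  ∃ (P Q : Matrix (Fin ρ) (Fin ρ) K) (col : Fin ρ → ℕ), P * Q = 1 ∧ Q * P = 1 ∧
    (∀ i, col i < 3) ∧ ∀ i j, col i = col j → (Q * M * P) i j = 0

theorem good3_of_basis {ρ : ℕ} (M : Matrix (Fin ρ) (Fin ρ) K)
    (b : Module.Basis (Fin ρ) K (Fin ρ → K)) (col : Fin ρ → ℕ) (hcol : ∀ i, col i < 3)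
    (hb : ∀ i j, col i = col j → b.repr (M *ᵥ b j) i = 0) : Good3 M := by
  refine ⟨(Pi.basisFun K (Fin ρ)).toMatrix b, b.toMatrix (Pi.basisFun K (Fin ρ)), col,
    Module.Basis.toMatrix_mul_toMatrix_flip _ _, Module.Basis.toMatrix_mul_toMatrix_flip _ _,
    hcol, fun i j hij => ?_⟩
  have h1 := basis_toMatrix_mul_linearMap_toMatrix_mul_basis_toMatrix b
    (Pi.basisFun K (Fin ρ)) b (Pi.basisFun K (Fin ρ)) (Matrix.toLin' M)
  rw [LinearMap.toMatrix_eq_toMatrix', LinearMap.toMatrix'_toLin'] at h1
  rw [h1, LinearMap.toMatrix_apply, Matrix.toLin'_apply]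
  exact hb i j hij

theorem good3_of_cyclic {ρ : ℕ} (M : Matrix (Fin ρ) (Fin ρ) K) (hM : M.trace = 0)
    (v : Fin ρ → K) (hv : LinearIndependent K fun i : Fin ρ => (M ^ (i : ℕ)) *ᵥ v) : Good3 M := by
  by_cases h3 : 3 ≤ ρ
  · obtain ⟨b, hb⟩ := cyclic_hollow h3 M hM v hv
    exact good3_of_basis M b (fun i => hcol ρ i) (fun i => hcol_lt ρ i) hb
  · rcases Nat.eq_zero_or_pos ρ with h0 | h0
    · subst h0
      exact ⟨1, 1, fun _ => 0, by simp, by simp, fun i => i.elim0, fun i => i.elim0⟩
    · obtain ⟨N, rfl⟩ : ∃ N, ρ = N + 1 := ⟨ρ - 1, by omega⟩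
      obtain ⟨b, hb⟩ := exists_basis M v hv
      refine good3_of_basis M b (fun i => (i : ℕ)) (fun i => by have := i.2; omega)
        (fun i j hij => ?_)
      have hij' : i = j := Fin.ext hij
      subst hij'
      rw [hb, pow_succ_mulVec]
      by_cases hi : (i : ℕ) + 1 < N + 1
      · have h1 : (M ^ ((i : ℕ) + 1)) *ᵥ v = b ⟨(i : ℕ) + 1, hi⟩ := by rw [hb]
        rw [h1, Module.Basis.repr_self, Finsupp.single_apply, if_neg]
        intro h
        have := congrArg Fin.val h
        simp at this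
      · have hi2 : i = Fin.last N := by
          apply Fin.ext
          rw [Fin.val_last]
          omega
        subst hi2
        exact (last_coeff M v b hb).trans hM

theorem good3_hess {ρ : ℕ} (M : Matrix (Fin ρ) (Fin ρ) K) (hM : M.trace = 0)
    (h1 : ∀ i j : Fin ρ, (j : ℕ) + 1 < i → M i j = 0)
    (h2 : ∀ i j : Fin ρ, (j : ℕ) + 1 = i → M i j = 1) : Good3 M := by
  rcases Nat.eq_zero_or_pos ρ with h0 | h0
  · subst h0
    exact ⟨1, 1, fun _ => 0, by simp, by simp, fun i => i.elim0, fun i => i.elim0⟩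
  · exact good3_of_cyclic M hM _ (hess_cyclic M h0 h1 h2)

theorem good3_hess' {ρ : ℕ} (M : Matrix (Fin ρ) (Fin ρ) K) (hM : M.trace = 0)
    (h1 : ∀ i j : Fin ρ, (i : ℕ) + 1 < j → M i j = 0)
    (h2 : ∀ i j : Fin ρ, (i : ℕ) + 1 = j → M i j = 1) : Good3 M := by
  rcases Nat.eq_zero_or_pos ρ with h0 | h0
  · subst h0
    exact ⟨1, 1, fun _ => 0, by simp, by simp, fun i => i.elim0, fun i => i.elim0⟩
  · set M' : Matrix (Fin ρ) (Fin ρ) K := M.submatrix Fin.revPerm Fin.revPerm with hM'
    have hc := hess_cyclic M' h0 (fun i j hij => by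
        rw [hM', Matrix.submatrix_apply]
        refine h1 _ _ ?_
        simp only [Fin.revPerm_apply, Fin.val_rev]
        omega)
      (fun i j hij => by
        rw [hM', Matrix.submatrix_apply]
        refine h2 _ _ ?_
        simp only [Fin.revPerm_apply, Fin.val_rev]
        omega)
    have hpow : ∀ k : ℕ, M' ^ k = (M ^ k).submatrix Fin.revPerm Fin.revPerm := by
      intro k
      induction k with
      | zero => rw [pow_zero, pow_zero, Matrix.submatrix_one_equiv]
      | succ k ih => rw [pow_succ, ih, pow_succ, hM', Matrix.submatrix_mul_equiv]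
    refine good3_of_cyclic M hM (Pi.single (Fin.revPerm ⟨0, h0⟩) 1) ?_
    refine LinearIndependent.of_comp
      (LinearMap.funLeft K K (Fin.revPerm (n := ρ))) ?_
    convert hc using 1
    funext k
    ext i
    rw [Function.comp_apply, LinearMap.funLeft_apply, hpow, Matrix.mulVec_single_one,
      Matrix.mulVec_single_one]
    rfl

theorem list_conj {ι : Type*} [Fintype ι] [DecidableEq ι] (R Ri : Matrix ι ι K) (h : R * Ri = 1)
    (h' : Ri * R = 1) (l : List (Matrix ι ι K)) :
    (l.map fun M => R * M * Ri).prod = R * l.prod * Ri := by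
  induction l with
  | nil => simp [h]
  | cons a l ih =>
    rw [List.map_cons, List.prod_cons, ih, List.prod_cons]
    calc R * a * Ri * (R * l.prod * Ri) = R * a * (Ri * R) * l.prod * Ri := by noncomm_ring
      _ = R * (a * l.prod) * Ri := by rw [h']; noncomm_ring

theorem mval_conj {ι : Type*} [Fintype ι] [DecidableEq ι] {m : ℕ}
    (α : Equiv.Perm (Fin m) → K) (R Ri : Matrix ι ι K) (h : R * Ri = 1) (h' : Ri * R = 1)
    (A : Fin m → Matrix ι ι K) : mval α (fun q => R * A q * Ri) = R * mval α A * Ri := by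
  rw [mval, mval, Finset.mul_sum, Finset.sum_mul]
  refine Finset.sum_congr rfl fun σ _ => ?_
  have h1 : (List.ofFn fun i => R * A (σ i) * Ri) =
      (List.ofFn fun i => A (σ i)).map fun M => R * M * Ri := by
    rw [List.map_ofFn]
    rfl
  rw [h1, list_conj R Ri h h', mul_smul_comm, smul_mul_assoc]

end mats


section final

/-- The matrix of a map of small rank in an adapted basis. -/
def lowM {ρ : ℕ} (N : ℕ) (t : Matrix (Fin ρ) (Fin ρ) K) :
    Matrix ((Fin ρ ⊕ Fin ρ) ⊕ Fin N) ((Fin ρ ⊕ Fin ρ) ⊕ Fin N) K :=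
  Matrix.fromBlocks (Matrix.fromBlocks 0 0 1 t) 0 0 0

theorem lowM_value [Infinite K] {m : ℕ} (hm : 1 ≤ m) (α : Equiv.Perm (Fin m) → K) (hα : α ≠ 0)
    {ρ N : ℕ} (hN : 6 * (m / 4 + 1) ≤ N) (t : Matrix (Fin ρ) (Fin ρ) K) (ht : t.trace = 0) :
    ∃ A : Fin m → Matrix ((Fin ρ ⊕ Fin ρ) ⊕ Fin N) ((Fin ρ ⊕ Fin ρ) ⊕ Fin N) K,
      mval α A = lowM N t := by
  set S : Matrix (Fin ρ) (Fin ρ) K := Matrix.of fun i j =>
    if (i : ℕ) = j then 0 else if (j : ℕ) + 1 = i then 1
    else if (i : ℕ) + 1 = j then t i j - 1 else if (i : ℕ) + 1 < j then t i j else 0 with hS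
  have hS0 : S.trace = 0 := by
    rw [Matrix.trace]
    refine Finset.sum_eq_zero fun i _ => ?_
    rw [Matrix.diag_apply, hS, Matrix.of_apply, if_pos rfl]
  obtain ⟨P2, Q2, col2, hPQ2, hQP2, hc2, hz2⟩ := good3_hess S hS0
    (fun i j hij => by
      rw [hS, Matrix.of_apply, if_neg (by omega), if_neg (by omega), if_neg (by omega),
        if_neg (by omega)])
    (fun i j hij => by
      rw [hS, Matrix.of_apply, if_neg (by omega), if_pos hij])
  obtain ⟨P1, Q1, col1, hPQ1, hQP1, hc1, hz1⟩ := good3_hess' (t - S)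
    (by rw [Matrix.trace_sub, ht, hS0, sub_zero])
    (fun i j hij => by
      rw [Matrix.sub_apply, hS, Matrix.of_apply, if_neg (by omega), if_neg (by omega),
        if_neg (by omega), if_pos hij, sub_self])
    (fun i j hij => by
      rw [Matrix.sub_apply, hS, Matrix.of_apply, if_neg (by omega), if_neg (by omega),
        if_pos hij, sub_sub_cancel])
  set L : Matrix (Fin ρ) (Fin ρ) K := S - t with hL
  set R : Matrix ((Fin ρ ⊕ Fin ρ) ⊕ Fin N) ((Fin ρ ⊕ Fin ρ) ⊕ Fin N) K :=
    Matrix.fromBlocks (Matrix.fromBlocks P1 (L * P2) 0 P2) 0 0 1 with hR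
  set Ri : Matrix ((Fin ρ ⊕ Fin ρ) ⊕ Fin N) ((Fin ρ ⊕ Fin ρ) ⊕ Fin N) K :=
    Matrix.fromBlocks (Matrix.fromBlocks Q1 (-(Q1 * L)) 0 Q2) 0 0 1 with hRi
  have hRRi : R * Ri = 1 := by
    rw [hR, hRi, Matrix.fromBlocks_multiply, Matrix.fromBlocks_multiply]
    simp only [Matrix.mul_zero, Matrix.zero_mul, add_zero, zero_add, Matrix.mul_one, hPQ1, hPQ2]
    have h1 : P1 * -(Q1 * L) + L * P2 * Q2 = 0 := by
      rw [Matrix.mul_neg, ← Matrix.mul_assoc, hPQ1, Matrix.one_mul, Matrix.mul_assoc, hPQ2,
        Matrix.mul_one, neg_add_cancel]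
    rw [h1, Matrix.fromBlocks_one, Matrix.fromBlocks_one]
  have hRiR : Ri * R = 1 := by
    rw [hR, hRi, Matrix.fromBlocks_multiply, Matrix.fromBlocks_multiply]
    simp only [Matrix.mul_zero, Matrix.zero_mul, add_zero, zero_add, Matrix.mul_one, hQP1, hQP2]
    have h1 : Q1 * (L * P2) + -(Q1 * L) * P2 = 0 := by
      rw [Matrix.neg_mul, Matrix.mul_assoc, add_neg_cancel]
    rw [h1, Matrix.fromBlocks_one, Matrix.fromBlocks_one]
  have hM2 : Ri * lowM N t * R = Matrix.fromBlocks (Matrix.fromBlocks (Q1 * (t - S) * P1)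
      (-(Q1 * L) * (L * P2 + t * P2)) (Q2 * P1) (Q2 * S * P2)) 0 0 0 := by
    rw [hR, hRi, lowM, Matrix.mul_assoc, Matrix.fromBlocks_multiply, Matrix.fromBlocks_multiply,
      Matrix.fromBlocks_multiply]
    simp only [Matrix.mul_zero, Matrix.zero_mul, add_zero, zero_add, Matrix.one_mul]
    rw [Matrix.fromBlocks_multiply]
    simp only [Matrix.mul_zero, Matrix.zero_mul, add_zero, zero_add, Matrix.one_mul]
    have h1 : -(Q1 * L) * P1 = Q1 * (t - S) * P1 := by
      rw [hL, ← Matrix.mul_neg, neg_sub]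
    have h2 : Q2 * (L * P2 + t * P2) = Q2 * S * P2 := by
      rw [← Matrix.add_mul, hL, sub_add_cancel, Matrix.mul_assoc]
    rw [h1, h2]
  set col : (Fin ρ ⊕ Fin ρ) ⊕ Fin N → ℕ :=
    Sum.elim (Sum.elim col1 (fun i => 3 + col2 i)) (fun x => (x : ℕ) % 6) with hcol
  have hlt : ∀ i, col i < 6 := by
    rintro ((i | i) | i)
    · have := hc1 i
      simp only [hcol, Sum.elim_inl]
      omega
    · have := hc2 i
      simp only [hcol, Sum.elim_inl, Sum.elim_inr]
      omega
    · simp only [hcol, Sum.elim_inr]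
      omega
  obtain ⟨A, hA⟩ := value_hollow hm col (fun i => by
      have hci := hlt i
      set f : Fin (m / 4 + 1) → (Fin ρ ⊕ Fin ρ) ⊕ Fin N :=
        fun y => Sum.inr ⟨6 * (y : ℕ) + col i, by have := y.2; omega⟩ with hf
      have hinj : Function.Injective f := by
        intro y y' h
        rw [hf] at h
        simp only [Sum.inr.injEq, Fin.mk.injEq] at h
        apply Fin.ext
        omega
      have h1 : m / 4 + 1 = (Set.range f).ncard := by
        rw [← Set.image_univ, Set.ncard_image_of_injective _ hinj, Set.ncard_univ,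
          Nat.card_eq_fintype_card, Fintype.card_fin]
      rw [h1]
      refine Set.ncard_le_ncard ?_ (Set.toFinite _)
      rintro _ ⟨y, rfl⟩
      rw [Set.mem_ofPred_eq, hf]
      simp only [hcol, Sum.elim_inr] at hci ⊢
      omega) α hα (Ri * lowM N t * R) (fun i j hij => by
    rw [hM2]
    rcases i with ((i | i) | i) <;> rcases j with ((j | j) | j)
    · exact hz1 i j (by simpa [hcol] using hij)
    · exfalso
      have h1 := hc1 i
      have h2 := hc2 j
      simp only [hcol, Sum.elim_inl, Sum.elim_inr] at hij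
      omega
    · rfl
    · exfalso
      have h1 := hc1 j
      have h2 := hc2 i
      simp only [hcol, Sum.elim_inl, Sum.elim_inr] at hij
      omega
    · exact hz2 i j (by simpa [hcol] using hij)
    · rfl
    · rfl
    · rfl
    · rfl)
  refine ⟨fun q => R * A q * Ri, ?_⟩
  rw [mval_conj α R Ri hRRi hRiR, hA]
  calc R * (Ri * lowM N t * R) * Ri = (R * Ri) * lowM N t * (R * Ri) := by
        simp only [Matrix.mul_assoc]
    _ = lowM N t := by rw [hRRi, Matrix.one_mul, Matrix.mul_one]

/-- Every trace-zero matrix of rank `ρ` with `2 * ρ + 6 * (m / 4 + 1) ≤ n` is a value of every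
nonzero multilinear polynomial of degree `m`. -/
theorem value_low_rank [Infinite K] {m : ℕ} (hm : 1 ≤ m) (α : Equiv.Perm (Fin m) → K) (hα : α ≠ 0)
    {n : ℕ} (T : Matrix (Fin n) (Fin n) K) (hT : T.trace = 0)
    (hn : 2 * T.rank + 6 * (m / 4 + 1) ≤ n) :
    ∃ A : Fin m → Matrix (Fin n) (Fin n) K, mval α A = T := by
  have hrank : Module.finrank K (LinearMap.range (Matrix.toLin' T)) = T.rank := by
    rw [Matrix.rank, Matrix.toLin'_apply']
  have hV : Module.finrank K (Fin n → K) = n := Module.finrank_fin_fun K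
  obtain ⟨N, b, hN, h1, h2, h3⟩ := exists_uw_basis (Matrix.toLin' T) T.rank hrank
    (by rw [hV]; omega)
  rw [hV] at hN
  set t : Matrix (Fin T.rank) (Fin T.rank) K := Matrix.of fun i j =>
    b.repr (Matrix.toLin' T (b (Sum.inl (Sum.inr j)))) (Sum.inl (Sum.inr i)) with ht
  have h2' : ∀ j i, (∀ k, i ≠ Sum.inl (Sum.inr k)) →
      b.repr (Matrix.toLin' T (b (Sum.inl (Sum.inr j)))) i = 0 := by
    intro j i hi
    have h4 := h2 j
    generalize Matrix.toLin' T (b (Sum.inl (Sum.inr j))) = w at h4
    induction h4 using Submodule.span_induction with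
    | mem x hx =>
      obtain ⟨k, rfl⟩ := hx
      simp only
      rw [Module.Basis.repr_self, Finsupp.single_apply, if_neg (fun h => hi k h.symm)]
    | zero => simp
    | add x y _ _ hx hy => rw [map_add, Finsupp.add_apply, hx, hy, add_zero]
    | smul c x _ hx => rw [map_smul, Finsupp.smul_apply, hx, smul_zero]
  have hM : LinearMap.toMatrix b b (Matrix.toLin' T) = lowM N t := by
    ext i j
    rw [LinearMap.toMatrix_apply, lowM]
    rcases j with ((j | j) | j)
    · rw [h1, Module.Basis.repr_self, Finsupp.single_apply]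
      rcases i with ((i | i) | i)
      · rw [if_neg (by simp)]
        rfl
      · rw [Matrix.fromBlocks_apply₁₁, Matrix.fromBlocks_apply₂₁, Matrix.one_apply]
        simp only [Sum.inl.injEq, Sum.inr.injEq, eq_comm]
      · rw [if_neg (by simp)]
        rfl
    · rcases i with ((i | i) | i)
      · rw [h2' j _ (fun k => by simp)]
        rfl
      · rfl
      · rw [h2' j _ (fun k => by simp)]
        rfl
    · rw [h3, map_zero]
      rcases i with ((i | i) | i) <;> rfl
  have htr : t.trace = 0 := by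
    have h5 : (LinearMap.toMatrix b b (Matrix.toLin' T)).trace = T.trace := by
      rw [← LinearMap.trace_eq_matrix_trace K b, Matrix.trace_toLin'_eq]
    rw [hM, hT, lowM, Matrix.trace, Fintype.sum_sum_type, Fintype.sum_sum_type] at h5
    simpa [Matrix.trace] using h5
  refine value_of_toMatrix α T b ?_
  rw [hM]
  exact lowM_value hm α hα (by omega) t htr

end final


end Pool.Agent.P5e96
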