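import Mathlib
import Pool.Agent.Lib.P5e96.PairsSharp
import Pool.Agent.Lib.P5e96.LowRank

/-!
# Vectors `v_i` with all `v_i`, `T v_i` independent, best form (MP_5e96a2_al)
-/

set_option autoImplicit false

open Module

namespace Pool.Agent.P5e96

universe u v

/-- independence of `(v, N v)` for `N = T - c` gives independence of `(v, T v)` -/
theorem pairs_shift {K : Type u} [Field K] {V : Type v} [AddCommGroup V] [Module K V]
    (T : V →ₗ[K] V) (c : K) {h : ℕ} (v : Fin h → V)
    (hv : LinearIndependent K
      (Sum.elim v (fun i => (T - c • (LinearMap.id : V →ₗ[K] V) : V →ₗ[K] V) (v i)))) :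
    LinearIndependent K (Sum.elim v (fun i => T (v i))) := by
  rw [Fintype.linearIndependent_iff] at hv ⊢
  intro g hg
  have h5 := hv (Sum.elim (fun i => g (Sum.inl i) + c * g (Sum.inr i)) (fun i => g (Sum.inr i)))
    (by
      rw [← hg, Fintype.sum_sum_type, Fintype.sum_sum_type]
      simp only [Sum.elim_inl, Sum.elim_inr]
      rw [← Finset.sum_add_distrib, ← Finset.sum_add_distrib]
      refine Finset.sum_congr rfl fun i _ => ?_
      simp only [LinearMap.sub_apply, LinearMap.smul_apply, LinearMap.id_apply]
      rw [add_smul, smul_sub, smul_smul, mul_comm c]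
      abel)
  have h6 : ∀ i, g (Sum.inr i) = 0 := fun i => h5 (Sum.inr i)
  intro s
  rcases s with i | i
  · have h7 := h5 (Sum.inl i)
    simp only [Sum.elim_inl] at h7
    rw [h6 i, mul_zero, add_zero] at h7
    exact h7
  · exact h6 i

/-- lifting a subspace `B` of the range -/
theorem pairs_lift {K : Type u} [Field K] {V : Type v} [AddCommGroup V] [Module K V]
    [FiniteDimensional K V] (N : V →ₗ[K] V) (h : ℕ) (B : Submodule K V)
    (hB : B ≤ LinearMap.range N) (hBd : finrank K B = h)
    (hB1 : finrank K (B ⊓ B.comap N : Submodule K V) ≤ finrank K (LinearMap.ker N)) :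
    ∃ v : Fin h → V, LinearIndependent K (Sum.elim v (fun i => N (v i))) := by
  set M : Submodule K V := B.comap N with hM
  have hkM : LinearMap.ker N ≤ M := by
    intro x hx
    rw [hM, Submodule.mem_comap, LinearMap.mem_ker.mp hx]
    exact B.zero_mem
  have hMd : finrank K M = h + finrank K (LinearMap.ker N) := by
    have h1 := LinearMap.finrank_range_add_finrank_ker (N.domRestrict M)
    have h2 : finrank K (LinearMap.range (N.domRestrict M)) = h := by
      rw [LinearMap.range_domRestrict, hM, Submodule.map_comap_eq, inf_eq_right.mpr hB, hBd]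
    have h3 : finrank K (LinearMap.ker (N.domRestrict M)) = finrank K (LinearMap.ker N) := by
      rw [LinearMap.ker_domRestrict]
      exact (Submodule.comapSubtypeEquivOfLe hkM).finrank_eq
    rw [h2, h3] at h1
    exact h1.symm
  have hA : finrank K ((LinearMap.ker N).comap M.subtype) = finrank K (LinearMap.ker N) :=
    (Submodule.comapSubtypeEquivOfLe hkM).finrank_eq
  have hC : finrank K ((B ⊓ M).comap M.subtype) = finrank K (B ⊓ M : Submodule K V) :=
    (Submodule.comapSubtypeEquivOfLe inf_le_right).finrank_eq
  obtain ⟨w, hw1, hw2⟩ := exists_indep_two ((LinearMap.ker N).comap M.subtype)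
    ((B ⊓ M).comap M.subtype) h (by omega) (by omega)
  refine ⟨fun i => (w i : V), ?_⟩
  rw [Fintype.linearIndependent_iff] at hw1 hw2 ⊢
  intro g hg
  rw [Fintype.sum_sum_type] at hg
  simp only [Sum.elim_inl, Sum.elim_inr] at hg
  -- the vector `x`
  set x : M := ∑ i, g (Sum.inl i) • w i with hx
  have hxV : (x : V) = ∑ i, g (Sum.inl i) • (w i : V) := by
    rw [hx]
    simp
  have hxB : (x : V) ∈ B := by
    have h1 : (x : V) = - ∑ i, g (Sum.inr i) • N (w i : V) := by
      rw [hxV]
      exact eq_neg_of_add_eq_zero_left hg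
    rw [h1]
    refine B.neg_mem (B.sum_mem fun i _ => B.smul_mem _ ?_)
    exact (w i).2
  have h0 : ∀ i, g (Sum.inl i) = 0 := by
    apply hw2
    have h1 : ∑ i, g (Sum.inl i) • (((B ⊓ M).comap M.subtype).mkQ ∘ w) i =
        ((B ⊓ M).comap M.subtype).mkQ x := by
      rw [hx, map_sum]
      refine Finset.sum_congr rfl fun i _ => ?_
      rw [map_smul]
      rfl
    rw [h1, Submodule.mkQ_apply, Submodule.Quotient.mk_eq_zero]
    exact ⟨hxB, x.2⟩
  have h1 : ∀ i, g (Sum.inr i) = 0 := by
    apply hw1
    have h2 : ∑ i, g (Sum.inr i) • (((LinearMap.ker N).comap M.subtype).mkQ ∘ w) i =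
        ((LinearMap.ker N).comap M.subtype).mkQ (∑ i, g (Sum.inr i) • w i) := by
      rw [map_sum]
      simp
    rw [h2, Submodule.mkQ_apply, Submodule.Quotient.mk_eq_zero]
    rw [Submodule.mem_comap, LinearMap.mem_ker]
    simp only [h0, zero_smul, Finset.sum_const_zero, zero_add] at hg
    rw [← hg]
    simp
  intro s
  rcases s with i | i
  · exact h0 i
  · exact h1 i

theorem pairs_aux {K : Type u} [Field K] (d : ℕ) : ∀ {V : Type v} [AddCommGroup V] [Module K V]
    [FiniteDimensional K V], finrank K V = d → ∀ (T : V →ₗ[K] V) (h : ℕ)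
    (_ : ∀ c : K, h ≤ finrank K (LinearMap.range (T - c • LinearMap.id)))
    (_ : 2 * h ≤ finrank K V),
    ∃ v : Fin h → V, LinearIndependent K (Sum.elim v (fun i => T (v i))) := by
  induction d using Nat.strong_induction_on with
  | _ d ih =>
  intro V _ _ _ hd T h hr hn
  by_cases hall : ∀ c : K, 2 * h ≤ finrank K (LinearMap.range (T - c • LinearMap.id)) + 1
  · exact exists_pairs T h hall hn
  push Not at hall
  obtain ⟨c, hc⟩ := hall
  set N := T - c • LinearMap.id with hN
  suffices hs : ∃ v : Fin h → V, LinearIndependent K (Sum.elim v (fun i => N (v i))) by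
    obtain ⟨v, hv⟩ := hs
    exact ⟨v, pairs_shift T c v hv⟩
  have hrn := LinearMap.finrank_range_add_finrank_ker N
  have hRh := hr c
  rw [← hN] at hRh
  set W := LinearMap.range N with hW
  -- the restriction
  let N' : W →ₗ[K] W := N.restrict (fun x _ => LinearMap.mem_range_self N x)
  have hN'a : ∀ x : W, ((N' x : W) : V) = N (x : V) := fun x => rfl
  set g := h + finrank K W - finrank K V with hg
  have hr' : ∀ c' : K, g ≤ finrank K (LinearMap.range (N' - c' • LinearMap.id)) := by
    intro c'
    have h1 := hr (c + c')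
    have h2 : T - (c + c') • LinearMap.id = N - c' • LinearMap.id := by
      rw [hN, add_smul, sub_sub]
    rw [h2] at h1
    -- the image of `range (N - c')` under `N`
    set P := N - c' • LinearMap.id with hP
    have h3 : (LinearMap.range (N' - c' • LinearMap.id)).map W.subtype =
        (LinearMap.range P).map N := by
      ext y
      simp only [Submodule.mem_map, LinearMap.mem_range]
      constructor
      · rintro ⟨_, ⟨x, rfl⟩, rfl⟩
        obtain ⟨z, hz⟩ := x.2
        refine ⟨P z, ⟨z, rfl⟩, ?_⟩
        rw [hP]
        simp only [LinearMap.sub_apply, LinearMap.smul_apply, LinearMap.id_apply, map_sub,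
          map_smul, Submodule.subtype_apply, hN'a]
        rw [hz]
      · rintro ⟨_, ⟨z, rfl⟩, rfl⟩
        refine ⟨(N' - c' • (LinearMap.id : W →ₗ[K] W) : W →ₗ[K] W)
          ⟨N z, LinearMap.mem_range_self N z⟩, ⟨_, rfl⟩, ?_⟩
        rw [hP]
        simp only [LinearMap.sub_apply, LinearMap.smul_apply, LinearMap.id_apply, map_sub,
          map_smul, Submodule.subtype_apply, hN'a]
    have h4 : finrank K (LinearMap.range (N' - c' • LinearMap.id)) =
        finrank K ((LinearMap.range P).map N) := by
      rw [← h3]
      exact (LinearEquiv.finrank_eq (Submodule.equivMapOfInjective W.subtype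
        W.injective_subtype _))
    have h5 := LinearMap.finrank_range_add_finrank_ker (N.domRestrict (LinearMap.range P))
    rw [LinearMap.range_domRestrict, LinearMap.ker_domRestrict] at h5
    have h6 : finrank K ((LinearMap.ker N).comap (LinearMap.range P).subtype) ≤
        finrank K (LinearMap.ker N) := by
      have h7 : finrank K ((LinearMap.ker N).comap (LinearMap.range P).subtype) =
          finrank K (((LinearMap.ker N).comap (LinearMap.range P).subtype).map
            (LinearMap.range P).subtype) :=
        (LinearEquiv.finrank_eq (Submodule.equivMapOfInjective _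
          (LinearMap.range P).injective_subtype _))
      rw [h7]
      exact Submodule.finrank_mono (Submodule.map_comap_le _ _)
    rw [h4]
    omega
  obtain ⟨u, hu⟩ := ih (finrank K W) (by omega) (V := W) rfl N' g hr' (by omega)
  -- complete to `h` vectors
  obtain ⟨w, -, hw⟩ := exists_lifts (0 : W →ₗ[K] W) _ hu (h - g) (fun _ => 0) (by
    rw [LinearMap.ker_zero, finrank_top]
    simp only [Fintype.card_sum, Fintype.card_fin]
    omega)
  have hwV := hw.map' W.subtype (Submodule.ker_subtype _)
  have hwA := hwV.comp (Equiv.sumAssoc (Fin (h - g)) (Fin g) (Fin g)) (Equiv.injective _)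
  rw [linearIndependent_sum] at hwA
  obtain ⟨hB1, -, hdis⟩ := hwA
  set F : Fin (h - g) ⊕ Fin g → V := ((W.subtype ∘ Sum.elim w (Sum.elim u (fun i => N' (u i)))) ∘
    (Equiv.sumAssoc (Fin (h - g)) (Fin g) (Fin g))) ∘ Sum.inl with hF
  have hF1 : ∀ i, F (Sum.inl i) = (w i : V) := fun i => rfl
  have hF2 : ∀ i, F (Sum.inr i) = (u i : V) := fun i => rfl
  set B := Submodule.span K (Set.range F) with hBdef
  have hgh : g ≤ h := by omega
  have hBd : finrank K B = h := by
    rw [hBdef, finrank_span_eq_card hB1]
    simp only [Fintype.card_sum, Fintype.card_fin]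
    omega
  refine pairs_lift N h B ?_ hBd ?_
  · rw [hBdef, Submodule.span_le]
    rintro _ ⟨i | i, rfl⟩
    · exact (w i).2
    · exact (u i).2
  · -- dimension of `B ⊓ N⁻¹ B`
    set U := Submodule.span K (Set.range (fun i => (u i : V))) with hU
    have huV : LinearIndependent K (fun i => (u i : V)) := by
      have h1 := hB1.comp Sum.inr Sum.inr_injective
      exact h1
    have hUd : finrank K U = g := by
      rw [hU, finrank_span_eq_card huV, Fintype.card_fin]
    have hUB : U ≤ B := by
      rw [hU, Submodule.span_le]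
      rintro _ ⟨i, rfl⟩
      exact Submodule.subset_span ⟨Sum.inr i, rfl⟩
    have hinf : (B ⊓ B.comap N) ⊓ U = ⊥ := by
      rw [Submodule.eq_bot_iff]
      rintro x ⟨⟨-, hx1⟩, hx2⟩
      obtain ⟨a, rfl⟩ := (Submodule.mem_span_range_iff_exists_fun K).mp hx2
      have h1 : N (∑ i, a i • (u i : V)) = ∑ i, a i • N (u i : V) := by
        rw [map_sum]
        simp
      have h2 : N (∑ i, a i • (u i : V)) ∈ Submodule.span K (Set.range
          (((W.subtype ∘ Sum.elim w (Sum.elim u (fun i => N' (u i)))) ∘
            (Equiv.sumAssoc (Fin (h - g)) (Fin g) (Fin g))) ∘ Sum.inr)) := by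
        rw [h1]
        refine Submodule.sum_mem _ fun i _ => Submodule.smul_mem _ _ ?_
        exact Submodule.subset_span ⟨i, rfl⟩
      have h3 := Submodule.disjoint_def.mp hdis _ hx1 h2
      rw [h1] at h3
      have h4 : LinearIndependent K (fun i => N (u i : V)) := by
        have h5 := hwV.comp (fun i : Fin g => Sum.inr (Sum.inr i))
          (Sum.inr_injective.comp Sum.inr_injective)
        exact h5
      have h6 := Fintype.linearIndependent_iff.mp h4 a h3
      simp [h6]
    have h1 := Submodule.finrank_sup_add_finrank_inf_eq (B ⊓ B.comap N) U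
    rw [hinf, finrank_bot, add_zero] at h1
    have h2 : finrank K ((B ⊓ B.comap N) ⊔ U : Submodule K V) ≤ finrank K B :=
      Submodule.finrank_mono (sup_le inf_le_left hUB)
    omega

theorem exists_pairs_best {K : Type*} [Field K] {V : Type*} [AddCommGroup V] [Module K V]
    [FiniteDimensional K V] (T : V →ₗ[K] V) (h : ℕ)
    (hr : ∀ c : K, h ≤ finrank K (LinearMap.range (T - c • LinearMap.id)))
    (hn : 2 * h ≤ finrank K V) :
    ∃ v : Fin h → V, LinearIndependent K (Sum.elim v (fun i => T (v i))) :=
  pairs_aux _ rfl T h hr hn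

end Pool.Agent.P5e96
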