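import Mathlib
import Pool.Agent.Lib.P5e96.Far5
import Pool.Agent.Lib.P5e96.PairsBest

/-!
# Hollow form of trace-zero matrices that are far from the scalar matrices
-/

open Finset Matrix

namespace Pool.Agent.P5e96

variable {K : Type*} [Field K]

/-- Let `r ≥ 2` and `3 s r ≤ n`. Every trace-zero matrix `T` with `rank (T - c) ≥ ⌈n / r⌉ - 1` for
all `c` is hollow in some basis, with classes of at least `s` elements. -/
theorem far_form2 [Infinite K] {s : ℕ} (hs1 : 1 ≤ s) {n r : ℕ} (hr2 : 2 ≤ r)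
    (hr1 : 3 * s * r ≤ n) (T : Matrix (Fin n) (Fin n) K) (hT : T.trace = 0)
    (hr : ∀ c : K, (n + r - 1) / r ≤ (T - c • (1 : Matrix (Fin n) (Fin n) K)).rank + 1) :
    ∃ (ι : Type) (_ : Fintype ι) (_ : DecidableEq ι) (col : ι → ℕ)
      (b : Module.Basis ι K (Fin n → K)), (∀ i, s ≤ Set.ncard {j | col j = col i}) ∧
        ∀ i j, col i = col j → b.repr (T *ᵥ b j) i = 0 := by
  classical
  have hr0 : 0 < r := by omega
  have hn1 : 1 ≤ n := by
    have : 3 * 1 * 2 ≤ 3 * s * r := Nat.mul_le_mul (Nat.mul_le_mul le_rfl hs1) hr2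
    omega
  have hn6 : 6 ≤ n := by
    have : 3 * 1 * 2 ≤ 3 * s * r := Nat.mul_le_mul (Nat.mul_le_mul le_rfl hs1) hr2
    omega
  have hq3 : 3 * s ≤ n / r := by
    rw [Nat.le_div_iff_mul_le hr0]
    exact hr1
  have hszge : ∀ k : Fin r, 3 * s ≤ szf n r k := fun k => le_trans hq3 (Nat.le_add_right _ _)
  have hszmul : ∀ k : Fin r, szf n r k * r ≤ n + r - 1 := by
    intro k
    have h1 := Nat.div_add_mod n r
    unfold szf
    split_ifs with hk
    · have h2 : (n / r + 1) * r = r * (n / r) + r := by ring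
      rw [h2]
      omega
    · have h2 : (n / r + 0) * r = r * (n / r) := by ring
      rw [h2]
      omega
  have hszle : ∀ k : Fin r, szf n r k ≤ (n + r - 1) / r := by
    intro k
    rw [Nat.le_div_iff_mul_le hr0]
    exact hszmul k
  have hsz2 : ∀ k : Fin r, 2 * szf n r k ≤ n + 1 := by
    intro k
    have h1 := hszmul k
    have h2 := hszge k
    obtain ⟨z, hz⟩ : ∃ z, szf n r k = z + 1 := ⟨szf n r k - 1, by omega⟩
    rw [hz] at h1 ⊢
    have h3 : 2 * z ≤ r * z := Nat.mul_le_mul hr2 le_rfl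
    have h4 : (z + 1) * r = r * z + r := by ring
    rw [h4] at h1
    omega
  have hsz : ∀ k : Fin r, 0 < szf n r k := fun k => by have := hszge k; omega
  have hcard : Fintype.card (Idx (szf n r)) = n := by
    rw [Fintype.card_sigma]
    simp only [Fintype.card_fin]
    exact sum_szf n r hr0
  obtain ⟨e⟩ : Nonempty (Fin n ≃ Idx (szf n r)) :=
    ⟨(Fintype.equivFinOfCardEq hcard).symm⟩
  set T₁ := T.submatrix e.symm e.symm with hT₁
  have hT₁tr : T₁.trace = 0 := by
    rw [hT₁, ← hT, Matrix.trace, Matrix.trace]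
    exact Fintype.sum_equiv e.symm _ _ fun i => rfl
  have hrank : ∀ c : K, (n + r - 1) / r ≤ Module.finrank K
      (LinearMap.range (Matrix.toLin' T₁ - c • LinearMap.id)) + 1 := by
    intro c
    rw [finrank_range_sub, hT₁, rank_submatrix_sub]
    exact hr c
  have hfin : Module.finrank K (Idx (szf n r) → K) = n := by
    rw [Module.finrank_fintype_fun_eq_card, hcard]
  obtain ⟨G, G', hG, hz⟩ := hollow_form (szf n r) hsz ⟨0, hr0⟩
    (fun k => by have := hszge k; omega) T₁ hT₁tr
    (exists_cond (szf n r) hsz ⟨0, hr0⟩ T₁ (fun k => by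
      rw [hcard]
      exact hsz2 k) (fun k => by
      have h1 := hszle k
      have h2 := hsz2 k
      obtain ⟨v, hv⟩ := exists_pairs_best (Matrix.toLin' T₁) (szf n r k - 1)
        (fun c => by have := hrank c; omega) (by rw [hfin]; omega)
      exact ⟨v, by simpa only [Matrix.toLin'_apply] using hv⟩) (by
      obtain ⟨v, hv⟩ := exists_pairs_best (Matrix.toLin' T₁) 1
        (fun c => by
          have := hrank c
          have h3 := hszle ⟨0, hr0⟩
          have h4 := hszge ⟨0, hr0⟩
          omega) (by rw [hfin]; omega)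
      refine ⟨v 0, ?_⟩
      have h1 := hv.comp ![Sum.inl 0, Sum.inr 0] (by
        intro i j hij
        fin_cases i <;> fin_cases j <;> simp_all)
      have h2 : (Sum.elim v (fun i => Matrix.toLin' T₁ (v i))) ∘ ![Sum.inl 0, Sum.inr 0] =
          ![v 0, T₁ *ᵥ v 0] := by
        ext i
        fin_cases i <;> simp
      rw [h2] at h1
      exact h1))
  obtain ⟨b, hb⟩ := basis_of_conj e T G G' hG
  refine ⟨Idx (szf n r), inferInstance, inferInstance,
    fun x : Idx (szf n r) => Nat.pair x.1 (hcol (szf n r x.1) x.2), b, ?_, ?_⟩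
  · rintro ⟨k, a⟩
    have h1 := hcol_card a
    have h2 : s ≤ szf n r k / 3 := by
      rw [Nat.le_div_iff_mul_le (by norm_num)]
      have := hszge k
      omega
    refine le_trans h2 (le_trans h1 ?_)
    have hinj : Function.Injective (fun j : Fin (szf n r k) => (⟨k, j⟩ : Idx (szf n r))) :=
      fun i j hij => eq_of_heq (Sigma.mk.inj_iff.1 hij).2
    rw [← Set.ncard_image_of_injective _ hinj]
    apply Set.ncard_le_ncard _ (Set.toFinite _)
    rintro _ ⟨j, hj, rfl⟩
    simp only [Set.mem_ofPred_eq] at hj ⊢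
    rw [hj]
  · rintro ⟨k, i⟩ ⟨l, j⟩ hij
    rw [hb]
    obtain ⟨hkl, hij⟩ := Nat.pair_eq_pair.1 hij
    obtain rfl := Fin.ext hkl
    exact hz k i j hij

end Pool.Agent.P5e96
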