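import Mathlib
import Pool.Agent.Lib.P5e96.Cyc

/-!
# Nilpotent matrices are values
-/

open Finset Matrix

namespace Pool.Agent.P5e96

universe u

variable {K : Type*} [Field K]

/-- A balanced two-colouring of a basis such that `T` maps every basis vector into the span of the
vectors of the other colour. -/
def Bal {V : Type*} [AddCommGroup V] [Module K V] (T : V →ₗ[K] V) : Prop :=
  ∃ (ι : Type) (_ : Fintype ι) (b : Module.Basis ι K V) (col : ι → Bool),
    (∀ j, T (b j) ∈ Submodule.span K (b '' {i | col i ≠ col j})) ∧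
    (univ.filter fun i => col i = true).card ≤ (univ.filter fun i => col i = false).card + 1 ∧
    (univ.filter fun i => col i = false).card ≤ (univ.filter fun i => col i = true).card + 1

/-- The chain of a nilpotent map splits off. -/
theorem chain_compl {V : Type*} [AddCommGroup V] [Module K V] (T : V →ₗ[K] V) (k : ℕ)
    (hk : T ^ (k + 1) = 0) (v : V) (φ : V →ₗ[K] K) (hφ : φ ((T ^ k) v) = 1) :
    ∃ (W : Submodule K V) (c : Module.Basis (Fin (k + 1)) K
        (Submodule.span K (Set.range fun i : Fin (k + 1) => (T ^ (i : ℕ)) v))),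
      (∀ i, (c i : V) = (T ^ (i : ℕ)) v) ∧
      (∀ w ∈ W, T w ∈ W) ∧
      IsCompl (Submodule.span K (Set.range fun i : Fin (k + 1) => (T ^ (i : ℕ)) v)) W := by
  set Φ : V →ₗ[K] (Fin (k + 1) → K) := LinearMap.pi fun i => φ ∘ₗ (T ^ (i : ℕ)) with hΦ
  have hΦa : ∀ w i, Φ w i = φ ((T ^ (i : ℕ)) w) := fun w i => rfl
  have hbig : ∀ j, k < j → ∀ w, (T ^ j) w = 0 := by
    intro j hj w
    obtain ⟨d, rfl⟩ := Nat.exists_eq_add_of_lt hj
    rw [show k + d + 1 = d + (k + 1) by ring, pow_add, hk, mul_zero]
    rfl
  set M : Matrix (Fin (k + 1)) (Fin (k + 1)) K := Matrix.of fun i j =>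
    φ ((T ^ ((i : ℕ) + (k - (j : ℕ)))) v) with hM
  have hMdet : M.det = 1 := by
    have h1 : M.BlockTriangular id := by
      intro i j hij
      rw [hM, Matrix.of_apply, hbig _ _, map_zero]
      have := Fin.lt_def.1 (show j < i from hij)
      omega
    rw [Matrix.det_of_isUpperTriangular h1]
    refine Finset.prod_eq_one fun i _ => ?_
    rw [hM, Matrix.of_apply, show (i : ℕ) + (k - (i : ℕ)) = k by omega, hφ]
  have hsurj : ∀ y : Fin (k + 1) → K, ∃ x : Fin (k + 1) → K,
      Φ (∑ j, x j • (T ^ (k - (j : ℕ))) v) = y := by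
    intro y
    refine ⟨M⁻¹ *ᵥ y, ?_⟩
    ext i
    rw [map_sum, Finset.sum_apply]
    have h2 : M *ᵥ (M⁻¹ *ᵥ y) = y := by
      rw [Matrix.mulVec_mulVec, Matrix.mul_nonsing_inv _ (by rw [hMdet]; exact isUnit_one),
        Matrix.one_mulVec]
    conv_rhs => rw [← h2]
    rw [Matrix.mulVec, dotProduct]
    refine Finset.sum_congr rfl fun j _ => ?_
    rw [map_smul, Pi.smul_apply, hΦa, smul_eq_mul, mul_comm, hM, Matrix.of_apply,
      ← Module.End.mul_apply, ← pow_add]
  have hli : LinearIndependent K fun i : Fin (k + 1) => (T ^ (i : ℕ)) v := by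
    rw [Fintype.linearIndependent_iff]
    intro g hg
    have h3 : ∀ j : Fin (k + 1), M *ᵥ (fun i => g (Fin.rev i)) = 0 := by
      intro _
      ext i
      have h4 := congrArg (fun w => Φ w i) hg
      simp only [map_sum, Finset.sum_apply, map_smul, Pi.smul_apply, smul_eq_mul, map_zero,
        Pi.zero_apply] at h4
      rw [Matrix.mulVec, dotProduct, Pi.zero_apply, ← h4, ← Equiv.sum_comp Fin.revPerm]
      refine Finset.sum_congr rfl fun j _ => ?_
      rw [hΦa, hM, Matrix.of_apply, mul_comm, ← Module.End.mul_apply, ← pow_add]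
      congr 2
      · simp
      · simp only [Fin.revPerm_apply, Fin.val_rev]
        have := j.2
        rw [show k - (k + 1 - ((j : ℕ) + 1)) = (j : ℕ) by omega]
    intro i
    have h5 := congrArg (fun z => M⁻¹ *ᵥ z) (h3 i)
    simp only [Matrix.mulVec_mulVec, Matrix.mulVec_zero] at h5
    rw [Matrix.nonsing_inv_mul _ (by rw [hMdet]; exact isUnit_one), Matrix.one_mulVec] at h5
    have h6 := congrFun h5 (Fin.rev i)
    simpa using h6
  refine ⟨LinearMap.ker Φ, Module.Basis.span hli,
    fun i => congrArg Subtype.val (Module.Basis.span_apply hli i), ?_, ?_⟩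
  · intro w hw
    rw [LinearMap.mem_ker] at hw ⊢
    ext i
    rw [hΦa, ← Module.End.mul_apply, ← pow_succ]
    by_cases hi : (i : ℕ) + 1 < k + 1
    · have := congrFun hw ⟨(i : ℕ) + 1, hi⟩
      exact this
    · rw [hbig _ (by omega), map_zero]
      rfl
  · rw [isCompl_iff]
    constructor
    · rw [Submodule.disjoint_def]
      intro x hx hx2
      obtain ⟨g, rfl⟩ := (Submodule.mem_span_range_iff_exists_fun K).1 hx
      rw [LinearMap.mem_ker] at hx2
      have h7 : ∀ i, g i = 0 := by
        have h8 : M *ᵥ (fun i => g (Fin.rev i)) = 0 := by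
          ext i
          have h4 := congrFun hx2 i
          simp only [map_sum, Finset.sum_apply, map_smul, Pi.smul_apply, smul_eq_mul,
            Pi.zero_apply] at h4
          rw [Matrix.mulVec, dotProduct, Pi.zero_apply, ← h4, ← Equiv.sum_comp Fin.revPerm]
          refine Finset.sum_congr rfl fun j _ => ?_
          rw [hΦa, hM, Matrix.of_apply, mul_comm, ← Module.End.mul_apply, ← pow_add]
          congr 2
          · simp
          · simp only [Fin.revPerm_apply, Fin.val_rev]
            have := j.2
            rw [show k - (k + 1 - ((j : ℕ) + 1)) = (j : ℕ) by omega]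
        intro i
        have h5 := congrArg (fun z => M⁻¹ *ᵥ z) h8
        simp only [Matrix.mulVec_mulVec, Matrix.mulVec_zero] at h5
        rw [Matrix.nonsing_inv_mul _ (by rw [hMdet]; exact isUnit_one), Matrix.one_mulVec] at h5
        have h6 := congrFun h5 (Fin.rev i)
        simpa using h6
      exact Finset.sum_eq_zero fun i _ => by rw [h7 i, zero_smul]
    · rw [codisjoint_iff, eq_top_iff]
      intro w _
      obtain ⟨x, hx⟩ := hsurj (Φ w)
      rw [Submodule.mem_sup]
      refine ⟨∑ j, x j • (T ^ (k - (j : ℕ))) v, ?_, w - ∑ j, x j • (T ^ (k - (j : ℕ))) v, ?_,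
        by abel⟩
      · refine Submodule.sum_mem _ fun j _ => Submodule.smul_mem _ _ (Submodule.subset_span ?_)
        exact ⟨⟨k - (j : ℕ), by omega⟩, rfl⟩
      · rw [LinearMap.mem_ker, map_sub, hx, sub_self]

theorem card_even (k : ℕ) :
    (univ.filter fun i : Fin k => (i : ℕ) % 2 = 0).card =
      (univ.filter fun i : Fin k => ¬ (i : ℕ) % 2 = 0).card ∨
    (univ.filter fun i : Fin k => (i : ℕ) % 2 = 0).card =
      (univ.filter fun i : Fin k => ¬ (i : ℕ) % 2 = 0).card + 1 := by
  induction k with
  | zero => simp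
  | succ k ih =>
    rw [Fin.card_filter_univ_succ, Fin.card_filter_univ_succ]
    have h1 : ∀ x : Fin k, ((x.succ : Fin (k + 1)) : ℕ) % 2 = 0 ↔ ¬ (x : ℕ) % 2 = 0 := by
      intro x
      rw [Fin.val_succ]
      omega
    simp only [h1, Fin.val_zero, Nat.zero_mod, if_true, not_true_eq_false, if_false, not_not]
    omega

/-- A chain and a balanced complement. -/
theorem bal_add {V : Type*} [AddCommGroup V] [Module K V] (T : V →ₗ[K] V) (k : ℕ)
    (v : V) (hk : (T ^ (k + 1)) v = 0) (C W : Submodule K V) (c : Module.Basis (Fin (k + 1)) K C)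
    (hc : ∀ i, (c i : V) = (T ^ (i : ℕ)) v) (hW : ∀ w ∈ W, T w ∈ W) (hCW : IsCompl C W)
    (hbal : Bal (T.restrict hW)) : Bal T := by
  classical
  obtain ⟨ι, hι, b, col, h1, h2, h3⟩ := hbal
  set e := Submodule.prodEquivOfIsCompl C W hCW with he
  set B : Module.Basis (Fin (k + 1) ⊕ ι) K V := (c.prod b).map e with hB
  have hBl : ∀ i, B (Sum.inl i) = (T ^ (i : ℕ)) v := by
    intro i
    rw [hB, Module.Basis.map_apply, he, Submodule.coe_prodEquivOfIsCompl']
    simp [hc]
  have hBr : ∀ j, B (Sum.inr j) = (b j : V) := by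
    intro j
    rw [hB, Module.Basis.map_apply, he, Submodule.coe_prodEquivOfIsCompl']
    simp
  have key : ∀ s : Bool, ∀ j, T (B j) ∈ Submodule.span K (B '' {i |
      Sum.elim (fun i : Fin (k + 1) => xor s (decide ((i : ℕ) % 2 = 0))) col i ≠
      Sum.elim (fun i : Fin (k + 1) => xor s (decide ((i : ℕ) % 2 = 0))) col j}) := by
    intro s j
    rcases j with i | j
    · rw [hBl, ← Module.End.mul_apply, ← pow_succ']
      by_cases hi : (i : ℕ) + 1 < k + 1
      · refine Submodule.subset_span ⟨Sum.inl ⟨(i : ℕ) + 1, hi⟩, ?_, hBl _⟩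
        simp only [Set.mem_ofPred_eq, Sum.elim_inl, ne_eq]
        have h4 : decide (((i : ℕ) + 1) % 2 = 0) = !decide ((i : ℕ) % 2 = 0) := by
          rcases Nat.mod_two_eq_zero_or_one (i : ℕ) with h | h
          · simp [h, show ((i : ℕ) + 1) % 2 = 1 by omega]
          · simp [h, show ((i : ℕ) + 1) % 2 = 0 by omega]
        rw [h4]
        cases s <;> cases decide ((i : ℕ) % 2 = 0) <;> simp
      · have : (i : ℕ) + 1 = k + 1 := by omega
        rw [this, hk]
        exact Submodule.zero_mem _
    · rw [hBr]
      have h5 := Submodule.mem_map_of_mem (f := W.subtype) (h1 j)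
      rw [Submodule.map_span, ← Set.image_comp] at h5
      have h6 : W.subtype ((T.restrict hW) (b j)) = T (b j) := rfl
      rw [h6] at h5
      refine Submodule.span_mono ?_ h5
      rintro _ ⟨i, hi, rfl⟩
      exact ⟨Sum.inr i, hi, hBr i⟩
  have hcount : ∀ s p : Bool, (univ.filter fun i =>
      Sum.elim (fun i : Fin (k + 1) => xor s (decide ((i : ℕ) % 2 = 0))) col i = p).card =
      (univ.filter fun i : Fin (k + 1) => xor s (decide ((i : ℕ) % 2 = 0)) = p).card +
      (univ.filter fun i => col i = p).card := by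
    intro s p
    rw [Finset.card_filter, Fintype.sum_sum_type, Finset.card_filter, Finset.card_filter]
    rfl
  have hE : ∀ s p : Bool, (univ.filter fun i : Fin (k + 1) =>
      xor s (decide ((i : ℕ) % 2 = 0)) = p).card =
      if xor s p then (univ.filter fun i : Fin (k + 1) => (i : ℕ) % 2 = 0).card
        else (univ.filter fun i : Fin (k + 1) => ¬ (i : ℕ) % 2 = 0).card := by
    intro s p
    cases s <;> cases p <;> simp
  have hce := card_even (k + 1)
  rcases le_or_gt (univ.filter fun i => col i = true).card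
    (univ.filter fun i => col i = false).card with hle | hlt
  · refine ⟨Fin (k + 1) ⊕ ι, inferInstance, B, _, key false, ?_, ?_⟩
    · rw [hcount, hcount, hE, hE]
      simp only [Bool.false_xor, if_true, Bool.false_eq_true, if_false]
      omega
    · rw [hcount, hcount, hE, hE]
      simp only [Bool.false_xor, if_true, Bool.false_eq_true, if_false]
      omega
  · refine ⟨Fin (k + 1) ⊕ ι, inferInstance, B, _, key true, ?_, ?_⟩
    · rw [hcount, hcount, hE, hE]
      simp only [Bool.true_xor, Bool.not_true, Bool.not_false, if_true, Bool.false_eq_true,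
        if_false]
      omega
    · rw [hcount, hcount, hE, hE]
      simp only [Bool.true_xor, Bool.not_true, Bool.not_false, if_true, Bool.false_eq_true,
        if_false]
      omega

/-- Nilpotent maps are balanced. -/
theorem bal_of_nilpotent {K : Type u} [Field K] (N : ℕ) : ∀ {V : Type u} [AddCommGroup V]
    [Module K V] [FiniteDimensional K V] (T : V →ₗ[K] V), Module.finrank K V = N →
    IsNilpotent T → Bal T := by
  induction N using Nat.strong_induction_on with
  | _ N ih =>
    intro V _ _ _ T hN hT
    rcases subsingleton_or_nontrivial V with hV | hV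
    · refine ⟨Fin 0, inferInstance, Module.Basis.empty V, fun i => i.elim0, fun i => i.elim0, ?_, ?_⟩
      · simp
      · simp
    · have hpos : 0 < nilpotencyClass T := by
        rw [pos_nilpotencyClass_iff]
        exact hT
      obtain ⟨k, hk⟩ : ∃ k, nilpotencyClass T = k + 1 := ⟨nilpotencyClass T - 1, by omega⟩
      have h0 : T ^ (k + 1) = 0 := by
        rw [← hk]
        exact pow_nilpotencyClass hT
      have h1 : T ^ k ≠ 0 := by
        have := pow_pred_nilpotencyClass hT
        rwa [hk, Nat.add_sub_cancel] at this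
      obtain ⟨v, hv⟩ : ∃ v, (T ^ k) v ≠ 0 := by
        by_contra h
        push Not at h
        exact h1 (LinearMap.ext h)
      obtain ⟨φ, hφ⟩ := Module.Projective.exists_dual_eq_one K hv
      obtain ⟨W, c, hc, hW, hCW⟩ := chain_compl T k h0 v φ hφ
      refine bal_add T k v (by rw [h0]; rfl) _ W c hc hW hCW ?_
      refine ih (Module.finrank K W) ?_ (T.restrict hW) rfl ?_
      · have h3 := Submodule.finrank_add_eq_of_isCompl hCW
        have h4 := Module.finrank_eq_card_basis c
        rw [Fintype.card_fin] at h4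
        omega
      · refine ⟨k + 1, ?_⟩
        ext w
        have h5 : (((T.restrict hW) ^ (k + 1)) w : V) = (T ^ (k + 1)) (w : V) := by
          rw [Module.End.pow_restrict (k + 1) hW]
          rfl
        rw [h5, h0]
        rfl

/-- Every nilpotent matrix of size at least `2 ⌈m / 2⌉` is a value. -/
theorem value_of_nilpotent {K : Type u} [Field K] [Infinite K] {m : ℕ} (hm : 1 ≤ m)
    (α : Equiv.Perm (Fin m) → K) (hα : α ≠ 0) {n : ℕ} (hn : 2 * ((m + 1) / 2) ≤ n)
    (T : Matrix (Fin n) (Fin n) K) (hT : IsNilpotent T) :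
    ∃ A : Fin m → Matrix (Fin n) (Fin n) K, mval α A = T := by
  classical
  have h0 : IsNilpotent (Matrix.toLin' T) := by
    obtain ⟨k, hk⟩ := hT
    refine ⟨k, ?_⟩
    rw [← Matrix.toLin'_pow, hk, map_zero]
  obtain ⟨ι, hι, b, col, h1, h2, h3⟩ := bal_of_nilpotent _ (Matrix.toLin' T) rfl h0
  have hcard : (univ.filter fun i => col i = true).card +
      (univ.filter fun i => col i = false).card = n := by
    have h4 : (univ.filter fun i => col i = false) = univ.filter fun i => ¬ col i = true := by
      ext i
      simp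
    rw [h4, Finset.card_filter_add_card_filter_not, Finset.card_univ,
      ← Module.finrank_eq_card_basis b, Module.finrank_fin_fun]
  refine value_of_basis hm α hα T b col ?_ ?_
  · intro i
    have h5 : Set.ncard {j | col j = col i} = (univ.filter fun j => col j = col i).card := by
      rw [Set.ncard_eq_toFinset_card']
      congr 1
      ext j
      simp
    rw [h5]
    cases col i <;> omega
  · intro i j hij
    have h6 := h1 j
    rw [Module.Basis.mem_span_image] at h6
    by_contra h7
    exact h6 (Finsupp.mem_support_iff.2 h7) hij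

end Pool.Agent.P5e96
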