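import Mathlib
import Pool.Agent.Lib.P5e96.Nil
import Pool.Agent.Lib.P5e96.ValuesG

/-!
# Balanced matrices are values

A matrix with a balanced two-colouring (in particular a nilpotent matrix) is a value of every
nonzero multilinear polynomial of degree `m` as soon as `2 * (m / 4 + 1) ≤ n`.
-/

open Finset Matrix

namespace Pool.Agent.P5e96

universe u

/-- Every balanced matrix of size at least `2 * (m / 4 + 1)` is a value. -/
theorem value_of_bal {K : Type u} [Field K] [Infinite K] {m : ℕ} (hm : 1 ≤ m)
    (α : Equiv.Perm (Fin m) → K) (hα : α ≠ 0) {n : ℕ} (hn : 2 * (m / 4 + 1) ≤ n)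
    (T : Matrix (Fin n) (Fin n) K) (hT : Bal (Matrix.toLin' T)) :
    ∃ A : Fin m → Matrix (Fin n) (Fin n) K, mval α A = T := by
  classical
  obtain ⟨ι, hι, b, col, h1, h2, h3⟩ := hT
  have hcard : (univ.filter fun i => col i = true).card +
      (univ.filter fun i => col i = false).card = n := by
    have h4 : (univ.filter fun i => col i = false) = univ.filter fun i => ¬ col i = true := by
      ext i
      simp
    rw [h4, Finset.card_filter_add_card_filter_not, Finset.card_univ,
      ← Module.finrank_eq_card_basis b, Module.finrank_fin_fun]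
  refine value_of_basis_hollow hm α hα T b col ?_ ?_
  · intro i
    have h5 : Set.ncard {j | col j = col i} = (univ.filter fun j => col j = col i).card := by
      rw [Set.ncard_eq_toFinset_card']
      congr 1
      ext j
      simp
    rw [h5]
    cases col i <;> omega
  · intro i j hij
    have h6 := h1 j
    rw [Module.Basis.mem_span_image] at h6
    by_contra h7
    exact h6 (Finsupp.mem_support_iff.2 h7) hij

/-- Every nilpotent matrix of size at least `2 * (m / 4 + 1)` is a value. -/
theorem value_of_nilpotent' {K : Type u} [Field K] [Infinite K] {m : ℕ} (hm : 1 ≤ m)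
    (α : Equiv.Perm (Fin m) → K) (hα : α ≠ 0) {n : ℕ} (hn : 2 * (m / 4 + 1) ≤ n)
    (T : Matrix (Fin n) (Fin n) K) (hT : IsNilpotent T) :
    ∃ A : Fin m → Matrix (Fin n) (Fin n) K, mval α A = T := by
  refine value_of_bal hm α hα hn T ?_
  have h0 : IsNilpotent (Matrix.toLin' T) := by
    obtain ⟨k, hk⟩ := hT
    refine ⟨k, ?_⟩
    rw [← Matrix.toLin'_pow, hk, map_zero]
  exact bal_of_nilpotent _ (Matrix.toLin' T) rfl h0

end Pool.Agent.P5e96
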