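import Mathlib

/-!
# A vector with the minimal polynomial as annihilator (MP_5e96a2_al)
-/

set_option autoImplicit false

namespace Pool.Agent.P5e96

open Polynomial

universe u v

/-- over an infinite field some vector has the same annihilator as the endomorphism -/
theorem exists_max_vector {K : Type u} {V : Type v} [Field K] [Infinite K] [AddCommGroup V]
    [Module K V] [FiniteDimensional K V] (T : V →ₗ[K] V) :
    ∃ v : V, ∀ q : K[X], aeval T q v = 0 → minpoly K T ∣ q := by
  classical
  have hμ0 : minpoly K T ≠ 0 := minpoly.ne_zero (Algebra.IsIntegral.isIntegral T)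
  -- the finite set of cofactors of the irreducible factors
  let S : Finset (Submodule K V) :=
    ((UniqueFactorizationMonoid.normalizedFactors (minpoly K T)).toFinset).image
      (fun p => LinearMap.ker (aeval T (minpoly K T / p)))
  have htop : ⊤ ∉ S := by
    intro h
    obtain ⟨p, hp, hker⟩ := Finset.mem_image.mp h
    rw [Multiset.mem_toFinset] at hp
    have hpi : Irreducible p := UniqueFactorizationMonoid.irreducible_of_normalized_factor p hp
    have hpd : p ∣ minpoly K T := UniqueFactorizationMonoid.dvd_of_mem_normalizedFactors hp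
    obtain ⟨r, hr⟩ := hpd
    have hp0 : p ≠ 0 := hpi.ne_zero
    have hdiv : minpoly K T / p = r := by
      rw [hr, mul_comm, mul_div_cancel_right₀ _ hp0]
    rw [hdiv, LinearMap.ker_eq_top] at hker
    have h1 : minpoly K T ∣ r := minpoly.dvd K T hker
    rw [hr] at h1
    have hr0 : r ≠ 0 := by
      rintro rfl
      rw [mul_zero] at hr
      exact hμ0 hr
    have h2 : IsUnit p := by
      obtain ⟨s, hs⟩ := h1
      have h3 : r * (p * s) = r * 1 := by
        rw [mul_one]
        conv_rhs => rw [hs]
        ring
      exact IsUnit.of_mul_eq_one s (mul_left_cancel₀ hr0 h3)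
    exact hpi.not_isUnit h2
  have hcov := Subspace.biUnion_ne_univ_of_top_notMem (s := S) htop
  obtain ⟨v, hv⟩ : ∃ v : V, v ∉ ⋃ p ∈ S, (p : Set V) := by
    by_contra hcon
    push Not at hcon
    exact hcov (Set.eq_univ_of_forall hcon)
  refine ⟨v, ?_⟩
  intro q hq
  by_contra hnd
  -- the gcd of `q` and the minimal polynomial also annihilates `v`
  set d := EuclideanDomain.gcd (minpoly K T) q with hd
  have hdv : aeval T d v = 0 := by
    have hb := EuclideanDomain.gcd_eq_gcd_ab (minpoly K T) q
    rw [hd, hb]
    rw [mul_comm (minpoly K T), mul_comm q]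
    simp [hq]
  have hdm : d ∣ minpoly K T := EuclideanDomain.gcd_dvd_left _ _
  have hdq : d ∣ q := EuclideanDomain.gcd_dvd_right _ _
  obtain ⟨r, hr⟩ := hdm
  have hru : ¬ IsUnit r := by
    intro hu
    apply hnd
    have : Associated d (minpoly K T) := by
      obtain ⟨w, hw⟩ := hu
      exact ⟨w, by rw [hw, ← hr]⟩
    exact (this.symm.dvd).trans hdq
  have hr0 : r ≠ 0 := by
    rintro rfl
    rw [mul_zero] at hr
    exact hμ0 hr
  obtain ⟨p, hp, hpr⟩ := WfDvdMonoid.exists_irreducible_factor hru hr0
  have hpm : p ∣ minpoly K T := hpr.trans ⟨d, by rw [mul_comm]; exact hr⟩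
  obtain ⟨p', hp', hassoc⟩ :=
    UniqueFactorizationMonoid.exists_mem_normalizedFactors_of_dvd hμ0 hp hpm
  have hp'r : p' ∣ r := (hassoc.symm.dvd).trans hpr
  have hp'i : Irreducible p' := UniqueFactorizationMonoid.irreducible_of_normalized_factor p' hp'
  apply hv
  rw [Set.mem_iUnion₂]
  refine ⟨LinearMap.ker (aeval T (minpoly K T / p')), ?_, ?_⟩
  · exact Finset.mem_image.mpr ⟨p', Multiset.mem_toFinset.mpr hp', rfl⟩
  · obtain ⟨s, hs⟩ := hp'r
    have hdiv : minpoly K T / p' = s * d := by
      rw [hr, hs]
      have : d * (p' * s) = s * d * p' := by ring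
      rw [this, mul_div_cancel_right₀ _ hp'i.ne_zero]
    rw [SetLike.mem_coe, LinearMap.mem_ker, hdiv, map_mul, Module.End.mul_apply, hdv, map_zero]

end Pool.Agent.P5e96
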