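import Mathlib

/-!
# The minimal polynomial of a map similar to its negative (MP_5e96a2_al)
-/

set_option autoImplicit false

namespace Pool.Agent.P5e96

open Polynomial

universe u v

/-- coefficients of `p(-x)` -/
theorem coeff_comp_neg_X' {R : Type u} [CommRing R] (p : R[X]) (i : ℕ) :
    (p.comp (-X)).coeff i = (-1) ^ i * p.coeff i := by
  have h1 : (-X : R[X]) = C (-1) * X := by
    rw [map_neg, map_one, neg_one_mul]
  rw [h1, comp_C_mul_X_coeff, mul_comm]

/-- if the minimal polynomial of `T` also kills `-T`, it has only terms of one parity -/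
theorem minpoly_parity {K : Type u} {V : Type v} [Field K] [AddCommGroup V] [Module K V]
    [FiniteDimensional K V] (h2 : (2 : K) ≠ 0) (T : V →ₗ[K] V)
    (h : Polynomial.aeval (-T) (minpoly K T) = 0) (i : ℕ)
    (hi : i % 2 ≠ (minpoly K T).natDegree % 2) : (minpoly K T).coeff i = 0 := by
  set μ := minpoly K T with hμ
  set d := μ.natDegree with hd
  have hmon : μ.Monic := minpoly.monic (Algebra.IsIntegral.isIntegral T)
  have h3 : aeval T (μ.comp (-X)) = 0 := by
    rw [aeval_comp, map_neg, aeval_X, h]
  have h4 : μ ∣ μ.comp (-X) := minpoly.dvd K T h3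
  have h5 : μ ∣ μ.comp (-X) - C ((-1) ^ d) * μ := dvd_sub h4 (Dvd.intro_left _ rfl)
  have h6 : μ.comp (-X) - C ((-1) ^ d) * μ = 0 := by
    by_contra hne
    have h7 : μ.degree ≤ (μ.comp (-X) - C ((-1) ^ d) * μ).degree := degree_le_of_dvd h5 hne
    have h8 : (μ.comp (-X) - C ((-1) ^ d) * μ).degree < μ.degree := by
      rw [degree_eq_natDegree hmon.ne_zero, ← hd]
      rw [Polynomial.degree_lt_iff_coeff_zero]
      intro m hm
      rw [coeff_sub, coeff_comp_neg_X', coeff_C_mul]
      rcases hm.eq_or_lt with h9 | h9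
      · rw [← h9, sub_self]
      · rw [coeff_eq_zero_of_natDegree_lt (hd ▸ h9), mul_zero, mul_zero, sub_zero]
    exact absurd h7 (not_le.mpr h8)
  have h10 := congrArg (fun p => p.coeff i) h6
  simp only [coeff_sub, coeff_comp_neg_X', coeff_C_mul, coeff_zero] at h10
  have h11 : ((-1 : K) ^ i - (-1) ^ d) * μ.coeff i = 0 := by rw [sub_mul]; exact h10
  rcases mul_eq_zero.mp h11 with h12 | h12
  · exfalso
    rcases Nat.mod_two_eq_zero_or_one i with h13 | h13 <;>
      rcases Nat.mod_two_eq_zero_or_one d with h14 | h14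
    · exact hi (h13.trans h14.symm)
    · rw [Even.neg_one_pow (Nat.even_iff.mpr h13), Odd.neg_one_pow (Nat.odd_iff.mpr h14)] at h12
      apply h2
      linear_combination h12
    · rw [Odd.neg_one_pow (Nat.odd_iff.mpr h13), Even.neg_one_pow (Nat.even_iff.mpr h14)] at h12
      apply h2
      linear_combination -h12
    · exact hi (h13.trans h14.symm)
  · exact h12

end Pool.Agent.P5e96
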