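import Mathlib
import Pool.Agent.Lib.P5e96.Nil
import Pool.Agent.Lib.P5e96.MaxVector
import Pool.Agent.Lib.P5e96.MinpolyParity

/-!
# Maps similar to their negative are balanced
-/

open Finset Matrix Polynomial

namespace Pool.Agent.P5e96

universe u v

variable {K : Type*} [Field K]

/-- The chain of a vector splits off, if it has a suitable functional. -/
theorem chain_compl' {V : Type*} [AddCommGroup V] [Module K V] (T : V →ₗ[K] V) (k : ℕ)
    (v : V) (φ : V →ₗ[K] K) (hφ0 : ∀ i < k, φ ((T ^ i) v) = 0) (hφ : φ ((T ^ k) v) = 1)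
    (hinv : ∀ w, (∀ i ≤ k, φ ((T ^ i) w) = 0) → φ ((T ^ (k + 1)) w) = 0) :
    ∃ (W : Submodule K V) (c : Module.Basis (Fin (k + 1)) K
        (Submodule.span K (Set.range fun i : Fin (k + 1) => (T ^ (i : ℕ)) v))),
      (∀ i, (c i : V) = (T ^ (i : ℕ)) v) ∧
      (∀ w ∈ W, T w ∈ W) ∧
      IsCompl (Submodule.span K (Set.range fun i : Fin (k + 1) => (T ^ (i : ℕ)) v)) W := by
  set Φ : V →ₗ[K] (Fin (k + 1) → K) := LinearMap.pi fun i => φ ∘ₗ (T ^ (i : ℕ)) with hΦ
  have hΦa : ∀ w i, Φ w i = φ ((T ^ (i : ℕ)) w) := fun w i => rfl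
  set M : Matrix (Fin (k + 1)) (Fin (k + 1)) K := Matrix.of fun i j =>
    φ ((T ^ ((i : ℕ) + (k - (j : ℕ)))) v) with hM
  have hMdet : M.det = 1 := by
    have h1 : M.IsLowerTriangular := by
      intro i j hij
      rw [hM, Matrix.of_apply]
      apply hφ0
      have : i < j := hij
      have := Fin.lt_def.1 this
      omega
    rw [Matrix.det_of_isLowerTriangular M h1]
    refine Finset.prod_eq_one fun i _ => ?_
    rw [hM, Matrix.of_apply, show (i : ℕ) + (k - (i : ℕ)) = k by omega, hφ]
  have hsurj : ∀ y : Fin (k + 1) → K, ∃ x : Fin (k + 1) → K,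
      Φ (∑ j, x j • (T ^ (k - (j : ℕ))) v) = y := by
    intro y
    refine ⟨M⁻¹ *ᵥ y, ?_⟩
    ext i
    rw [map_sum, Finset.sum_apply]
    have h2 : M *ᵥ (M⁻¹ *ᵥ y) = y := by
      rw [Matrix.mulVec_mulVec, Matrix.mul_nonsing_inv _ (by rw [hMdet]; exact isUnit_one),
        Matrix.one_mulVec]
    conv_rhs => rw [← h2]
    rw [Matrix.mulVec, dotProduct]
    refine Finset.sum_congr rfl fun j _ => ?_
    rw [map_smul, Pi.smul_apply, hΦa, smul_eq_mul, mul_comm, hM, Matrix.of_apply,
      ← Module.End.mul_apply, ← pow_add]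
  have hzero : ∀ g : Fin (k + 1) → K, (∀ i, Φ (∑ j, g j • (T ^ (j : ℕ)) v) i = 0) →
      ∀ i, g i = 0 := by
    intro g hg
    have h8 : M *ᵥ (fun i => g (Fin.rev i)) = 0 := by
      ext i
      have h4 := hg i
      simp only [map_sum, Finset.sum_apply, map_smul, Pi.smul_apply, smul_eq_mul] at h4
      rw [Matrix.mulVec, dotProduct, Pi.zero_apply, ← h4, ← Equiv.sum_comp Fin.revPerm]
      refine Finset.sum_congr rfl fun j _ => ?_
      rw [hΦa, hM, Matrix.of_apply, mul_comm, ← Module.End.mul_apply, ← pow_add]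
      congr 2
      · simp
      · simp only [Fin.revPerm_apply, Fin.val_rev]
        have := j.2
        rw [show k - (k + 1 - ((j : ℕ) + 1)) = (j : ℕ) by omega]
    intro i
    have h5 := congrArg (fun z => M⁻¹ *ᵥ z) h8
    simp only [Matrix.mulVec_mulVec, Matrix.mulVec_zero] at h5
    rw [Matrix.nonsing_inv_mul _ (by rw [hMdet]; exact isUnit_one), Matrix.one_mulVec] at h5
    have h6 := congrFun h5 (Fin.rev i)
    simpa using h6
  have hli : LinearIndependent K fun i : Fin (k + 1) => (T ^ (i : ℕ)) v := by
    rw [Fintype.linearIndependent_iff]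
    intro g hg
    refine hzero g fun i => ?_
    rw [hg, map_zero]
    rfl
  refine ⟨LinearMap.ker Φ, Module.Basis.span hli,
    fun i => congrArg Subtype.val (Module.Basis.span_apply hli i), ?_, ?_⟩
  · intro w hw
    rw [LinearMap.mem_ker] at hw ⊢
    ext i
    rw [hΦa, ← Module.End.mul_apply, ← pow_succ]
    by_cases hi : (i : ℕ) + 1 < k + 1
    · have := congrFun hw ⟨(i : ℕ) + 1, hi⟩
      exact this
    · rw [show (i : ℕ) + 1 = k + 1 by omega]
      refine hinv w fun j hj => ?_
      have := congrFun hw ⟨j, by omega⟩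
      exact this
  · rw [isCompl_iff]
    constructor
    · rw [Submodule.disjoint_def]
      intro x hx hx2
      obtain ⟨g, rfl⟩ := (Submodule.mem_span_range_iff_exists_fun K).1 hx
      rw [LinearMap.mem_ker] at hx2
      have h7 : ∀ i, g i = 0 := hzero g fun i => by rw [hx2]; rfl
      exact Finset.sum_eq_zero fun i _ => by rw [h7 i, zero_smul]
    · rw [codisjoint_iff, eq_top_iff]
      intro w _
      obtain ⟨x, hx⟩ := hsurj (Φ w)
      rw [Submodule.mem_sup]
      refine ⟨∑ j, x j • (T ^ (k - (j : ℕ))) v, ?_, w - ∑ j, x j • (T ^ (k - (j : ℕ))) v, ?_,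
        by abel⟩
      · refine Submodule.sum_mem _ fun j _ => Submodule.smul_mem _ _ (Submodule.subset_span ?_)
        exact ⟨⟨k - (j : ℕ), by omega⟩, rfl⟩
      · rw [LinearMap.mem_ker, map_sub, hx, sub_self]

/-- A chain and a balanced complement. -/
theorem bal_add' {V : Type*} [AddCommGroup V] [Module K V] (T : V →ₗ[K] V) (k : ℕ)
    (v : V) (hk : (T ^ (k + 1)) v ∈ Submodule.span K
      ((fun i : Fin (k + 1) => (T ^ (i : ℕ)) v) '' {i | (i : ℕ) % 2 ≠ k % 2}))
    (C W : Submodule K V) (c : Module.Basis (Fin (k + 1)) K C)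
    (hc : ∀ i, (c i : V) = (T ^ (i : ℕ)) v) (hW : ∀ w ∈ W, T w ∈ W) (hCW : IsCompl C W)
    (hbal : Bal (T.restrict hW)) : Bal T := by
  classical
  obtain ⟨ι, hι, b, col, h1, h2, h3⟩ := hbal
  set e := Submodule.prodEquivOfIsCompl C W hCW with he
  set B : Module.Basis (Fin (k + 1) ⊕ ι) K V := (c.prod b).map e with hB
  have hBl : ∀ i, B (Sum.inl i) = (T ^ (i : ℕ)) v := by
    intro i
    rw [hB, Module.Basis.map_apply, he, Submodule.coe_prodEquivOfIsCompl']
    simp [hc]
  have hBr : ∀ j, B (Sum.inr j) = (b j : V) := by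
    intro j
    rw [hB, Module.Basis.map_apply, he, Submodule.coe_prodEquivOfIsCompl']
    simp
  have key : ∀ s : Bool, ∀ j, T (B j) ∈ Submodule.span K (B '' {i |
      Sum.elim (fun i : Fin (k + 1) => xor s (decide ((i : ℕ) % 2 = 0))) col i ≠
      Sum.elim (fun i : Fin (k + 1) => xor s (decide ((i : ℕ) % 2 = 0))) col j}) := by
    intro s j
    rcases j with i | j
    · rw [hBl, ← Module.End.mul_apply, ← pow_succ']
      by_cases hi : (i : ℕ) + 1 < k + 1
      · refine Submodule.subset_span ⟨Sum.inl ⟨(i : ℕ) + 1, hi⟩, ?_, hBl _⟩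
        simp only [Set.mem_ofPred_eq, Sum.elim_inl, ne_eq]
        have h4 : decide (((i : ℕ) + 1) % 2 = 0) = !decide ((i : ℕ) % 2 = 0) := by
          rcases Nat.mod_two_eq_zero_or_one (i : ℕ) with h | h
          · simp [h, show ((i : ℕ) + 1) % 2 = 1 by omega]
          · simp [h, show ((i : ℕ) + 1) % 2 = 0 by omega]
        rw [h4]
        cases s <;> cases decide ((i : ℕ) % 2 = 0) <;> simp
      · have hik : (i : ℕ) = k := by omega
        rw [hik]
        refine Submodule.span_mono ?_ hk
        rintro _ ⟨l, hl, rfl⟩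
        refine ⟨Sum.inl l, ?_, hBl l⟩
        simp only [Set.mem_ofPred_eq, Sum.elim_inl, ne_eq, hik]
        have hl' : (l : ℕ) % 2 ≠ k % 2 := hl
        have h4 : decide ((l : ℕ) % 2 = 0) = !decide (k % 2 = 0) := by
          rcases Nat.mod_two_eq_zero_or_one (l : ℕ) with h | h
          · rcases Nat.mod_two_eq_zero_or_one k with h' | h'
            · omega
            · simp [h, h']
          · rcases Nat.mod_two_eq_zero_or_one k with h' | h'
            · simp [h, h']
            · omega
        rw [h4]
        cases s <;> cases decide (k % 2 = 0) <;> simp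
    · rw [hBr]
      have h5 := Submodule.mem_map_of_mem (f := W.subtype) (h1 j)
      rw [Submodule.map_span, ← Set.image_comp] at h5
      have h6 : W.subtype ((T.restrict hW) (b j)) = T (b j) := rfl
      rw [h6] at h5
      refine Submodule.span_mono ?_ h5
      rintro _ ⟨i, hi, rfl⟩
      exact ⟨Sum.inr i, hi, hBr i⟩
  have hcount : ∀ s p : Bool, (univ.filter fun i =>
      Sum.elim (fun i : Fin (k + 1) => xor s (decide ((i : ℕ) % 2 = 0))) col i = p).card =
      (univ.filter fun i : Fin (k + 1) => xor s (decide ((i : ℕ) % 2 = 0)) = p).card +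
      (univ.filter fun i => col i = p).card := by
    intro s p
    rw [Finset.card_filter, Fintype.sum_sum_type, Finset.card_filter, Finset.card_filter]
    rfl
  have hE : ∀ s p : Bool, (univ.filter fun i : Fin (k + 1) =>
      xor s (decide ((i : ℕ) % 2 = 0)) = p).card =
      if xor s p then (univ.filter fun i : Fin (k + 1) => (i : ℕ) % 2 = 0).card
        else (univ.filter fun i : Fin (k + 1) => ¬ (i : ℕ) % 2 = 0).card := by
    intro s p
    cases s <;> cases p <;> simp
  have hce := card_even (k + 1)
  rcases le_or_gt (univ.filter fun i => col i = true).card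
    (univ.filter fun i => col i = false).card with hle | hlt
  · refine ⟨Fin (k + 1) ⊕ ι, inferInstance, B, _, key false, ?_, ?_⟩
    · rw [hcount, hcount, hE, hE]
      simp only [Bool.false_xor, if_true, Bool.false_eq_true, if_false]
      omega
    · rw [hcount, hcount, hE, hE]
      simp only [Bool.false_xor, if_true, Bool.false_eq_true, if_false]
      omega
  · refine ⟨Fin (k + 1) ⊕ ι, inferInstance, B, _, key true, ?_, ?_⟩
    · rw [hcount, hcount, hE, hE]
      simp only [Bool.true_xor, Bool.not_true, Bool.not_false, if_true, Bool.false_eq_true,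
        if_false]
      omega
    · rw [hcount, hcount, hE, hE]
      simp only [Bool.true_xor, Bool.not_true, Bool.not_false, if_true, Bool.false_eq_true,
        if_false]
      omega


theorem aeval_intertwine {V W : Type*} [AddCommGroup V] [Module K V] [AddCommGroup W] [Module K W]
    (S : W →ₗ[K] W) (T : V →ₗ[K] V) (f : W →ₗ[K] V) (h : ∀ w, f (S w) = T (f w)) (p : K[X])
    (w : W) : f (aeval S p w) = aeval T p (f w) := by
  induction p using Polynomial.induction_on' generalizing w with
  | add p q hp hq =>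
    rw [map_add, map_add, LinearMap.add_apply, map_add, hp, hq, LinearMap.add_apply]
  | monomial n a =>
    have h1 : ∀ n : ℕ, ∀ w, f ((S ^ n) w) = (T ^ n) (f w) := by
      intro n
      induction n with
      | zero => intro w; rfl
      | succ n ih =>
        intro w
        rw [pow_succ, pow_succ, Module.End.mul_apply, Module.End.mul_apply, ih, h]
    rw [aeval_monomial, aeval_monomial, Module.End.mul_apply, Module.End.mul_apply, h1 n w |>.symm,
      Module.algebraMap_end_apply, Module.algebraMap_end_apply, map_smul]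

theorem finrank_ker_equiv {V W : Type*} [AddCommGroup V] [Module K V] [AddCommGroup W] [Module K W]
    (S : W →ₗ[K] W) (T : V →ₗ[K] V) (f : W ≃ₗ[K] V) (h : ∀ w, f (S w) = T (f w)) (p : K[X]) :
    Module.finrank K (LinearMap.ker (aeval S p)) = Module.finrank K (LinearMap.ker (aeval T p)) := by
  have h1 : LinearMap.ker (aeval T p) = (LinearMap.ker (aeval S p)).map f.toLinearMap := by
    ext x
    rw [Submodule.mem_map, LinearMap.mem_ker]
    constructor
    · intro hx
      refine ⟨f.symm x, ?_, by simp⟩
      rw [LinearMap.mem_ker]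
      apply f.injective
      have := aeval_intertwine S T f.toLinearMap h p (f.symm x)
      simp only [LinearEquiv.coe_coe, LinearEquiv.apply_symm_apply] at this
      rw [this, hx, map_zero]
    · rintro ⟨y, hy, rfl⟩
      rw [LinearMap.mem_ker] at hy
      have := aeval_intertwine S T f.toLinearMap h p y
      rw [← this, hy, map_zero]
  rw [h1]
  exact (LinearEquiv.finrank_map_eq f _).symm

theorem finrank_ker_add {V : Type*} [AddCommGroup V] [Module K V] [FiniteDimensional K V]
    (T : V →ₗ[K] V) (C W : Submodule K V) (hC : ∀ w ∈ C, T w ∈ C) (hW : ∀ w ∈ W, T w ∈ W)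
    (hCW : IsCompl C W) (p : K[X]) :
    Module.finrank K (LinearMap.ker (aeval T p)) =
      Module.finrank K (LinearMap.ker (aeval (T.restrict hC) p)) +
      Module.finrank K (LinearMap.ker (aeval (T.restrict hW) p)) := by
  have h1 := finrank_ker_equiv ((T.restrict hC).prodMap (T.restrict hW)) T
    (Submodule.prodEquivOfIsCompl C W hCW) (by
      rintro ⟨x, y⟩
      simp [Submodule.coe_prodEquivOfIsCompl']) p
  rw [← h1]
  have h2 : ∀ x : C × W, aeval ((T.restrict hC).prodMap (T.restrict hW)) p x =
      (aeval (T.restrict hC) p x.1, aeval (T.restrict hW) p x.2) := by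
    intro x
    refine Prod.ext ?_ ?_
    · exact aeval_intertwine ((T.restrict hC).prodMap (T.restrict hW)) (T.restrict hC)
        (LinearMap.fst K C W) (fun w => rfl) p x
    · exact aeval_intertwine ((T.restrict hC).prodMap (T.restrict hW)) (T.restrict hW)
        (LinearMap.snd K C W) (fun w => rfl) p x
  have h3 : LinearMap.ker (aeval ((T.restrict hC).prodMap (T.restrict hW)) p) =
      (LinearMap.ker (aeval (T.restrict hC) p)).prod (LinearMap.ker (aeval (T.restrict hW) p)) := by
    ext x
    rw [LinearMap.mem_ker, h2, Submodule.mem_prod, LinearMap.mem_ker, LinearMap.mem_ker,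
      Prod.mk_eq_zero]
  rw [h3]
  let e : (LinearMap.ker (aeval (T.restrict hC) p)).prod
      (LinearMap.ker (aeval (T.restrict hW) p)) ≃ₗ[K]
      LinearMap.ker (aeval (T.restrict hC) p) × LinearMap.ker (aeval (T.restrict hW) p) :=
    { toFun := fun x => (⟨x.1.1, x.2.1⟩, ⟨x.1.2, x.2.2⟩)
      invFun := fun y => ⟨(y.1.1, y.2.1), ⟨y.1.2, y.2.2⟩⟩
      map_add' := fun x y => rfl
      map_smul' := fun x y => rfl
      left_inv := fun x => rfl
      right_inv := fun x => rfl }
  rw [e.finrank_eq, Module.finrank_prod]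

theorem aeval_neg (V : Type*) [AddCommGroup V] [Module K V] (T : V →ₗ[K] V) (p : K[X]) :
    aeval (-T) p = aeval T (p.comp (-X)) := by
  rw [aeval_comp, map_neg, aeval_X]

/-- The kernel hypothesis passes to the complement of a chain. -/
theorem symm_restrict {V : Type*} [AddCommGroup V] [Module K V] [FiniteDimensional K V]
    (T : V →ₗ[K] V) (hT : ∀ p : K[X], Module.finrank K (LinearMap.ker (aeval T p)) =
      Module.finrank K (LinearMap.ker (aeval (-T) p)))
    (k : ℕ) (v : V) (a : Fin (k + 1) → K) (ha : ∀ i : Fin (k + 1), (i : ℕ) % 2 = k % 2 → a i = 0)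
    (hk : (T ^ (k + 1)) v = ∑ i : Fin (k + 1), a i • (T ^ (i : ℕ)) v)
    (C W : Submodule K V) (c : Module.Basis (Fin (k + 1)) K C)
    (hc : ∀ i, (c i : V) = (T ^ (i : ℕ)) v) (hW : ∀ w ∈ W, T w ∈ W) (hCW : IsCompl C W)
    (p : K[X]) : Module.finrank K (LinearMap.ker (aeval (T.restrict hW) p)) =
      Module.finrank K (LinearMap.ker (aeval (-(T.restrict hW)) p)) := by
  have hCi : ∀ i : Fin (k + 1), (T ^ (i : ℕ)) v ∈ C := fun i => by rw [← hc]; exact (c i).2
  have hC' : ∀ i : Fin (k + 1), T (c i : V) ∈ C := by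
    intro i
    rw [hc, ← Module.End.mul_apply, ← pow_succ']
    by_cases hi : (i : ℕ) + 1 < k + 1
    · exact hCi ⟨(i : ℕ) + 1, hi⟩
    · rw [show (i : ℕ) + 1 = k + 1 by omega, hk]
      exact Submodule.sum_mem _ fun j _ => Submodule.smul_mem _ _ (hCi j)
  have hC : ∀ w ∈ C, T w ∈ C := by
    intro w hw
    have h1 := c.sum_repr ⟨w, hw⟩
    have h2 := congrArg (fun x : C => (x : V)) h1
    simp only [Submodule.coe_sum, Submodule.coe_smul] at h2
    rw [← h2, map_sum]
    refine Submodule.sum_mem _ fun j _ => ?_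
    rw [map_smul]
    exact Submodule.smul_mem _ _ (hC' j)
  have hadd := finrank_ker_add T C W hC hW hCW
  -- the involution of the chain
  let S₀ : C →ₗ[K] C := c.constr K fun i => ((-1 : K) ^ (i : ℕ)) • c i
  have hS₀ : ∀ i, S₀ (c i) = ((-1 : K) ^ (i : ℕ)) • c i := fun i => c.constr_basis K _ i
  have hinv : Function.Involutive S₀ := by
    intro x
    have h3 : S₀ ∘ₗ S₀ = LinearMap.id := by
      refine c.ext fun i => ?_
      rw [LinearMap.comp_apply, hS₀, map_smul, hS₀, smul_smul, ← mul_pow]
      simp
    exact congrArg (fun f => f x) h3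
  let S : C ≃ₗ[K] C := LinearEquiv.ofInvolutive S₀ hinv
  have hS : ∀ x, S x = S₀ x := fun x => rfl
  have hcomm : ∀ x : C, S ((T.restrict hC) x) = (-(T.restrict hC)) (S x) := by
    intro x
    have h4 : S₀ ∘ₗ (T.restrict hC) = (-(T.restrict hC)) ∘ₗ S₀ := by
      refine c.ext fun i => ?_
      rw [LinearMap.comp_apply, LinearMap.comp_apply, hS₀, map_smul, LinearMap.neg_apply]
      by_cases hi : (i : ℕ) + 1 < k + 1
      · have h5 : (T.restrict hC) (c i) = c ⟨(i : ℕ) + 1, hi⟩ := by
          apply Subtype.ext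
          rw [hc, LinearMap.coe_restrict_apply, hc, ← Module.End.mul_apply, ← pow_succ']
        rw [h5, hS₀, pow_succ, mul_neg_one, smul_neg, neg_smul]
      · have h5 : (T.restrict hC) (c i) = ∑ j, a j • c j := by
          apply Subtype.ext
          rw [LinearMap.coe_restrict_apply, hc, ← Module.End.mul_apply, ← pow_succ',
            show (i : ℕ) + 1 = k + 1 by omega, hk]
          simp [hc]
        rw [h5, map_sum, smul_neg, Finset.smul_sum, ← Finset.sum_neg_distrib]
        refine Finset.sum_congr rfl fun j _ => ?_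
        rw [map_smul, hS₀]
        by_cases hj : (j : ℕ) % 2 = k % 2
        · rw [ha j hj, zero_smul, zero_smul, smul_zero, neg_zero]
        · have h6 : ((-1 : K) ^ (j : ℕ)) = - (-1 : K) ^ (i : ℕ) := by
            have h7 : (i : ℕ) = k := by omega
            rw [h7]
            rcases Nat.even_or_odd (j : ℕ) with h | h
            · have h8 : Odd k := by
                rw [Nat.odd_iff]
                rw [Nat.even_iff] at h
                omega
              rw [h.neg_one_pow, h8.neg_one_pow, neg_neg]
            · have h8 : Even k := by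
                rw [Nat.even_iff]
                rw [Nat.odd_iff] at h
                omega
              rw [h.neg_one_pow, h8.neg_one_pow]
          rw [h6, neg_smul, smul_neg, smul_comm]
    exact congrArg (fun f => f x) h4
  have hCs := finrank_ker_equiv (T.restrict hC) (-(T.restrict hC)) S hcomm p
  have h9 := hT p
  rw [aeval_neg, hadd, hadd, hCs, ← aeval_neg, ← aeval_neg] at h9
  omega


/-- The functional and the parity of a maximal vector. -/
theorem exists_chain_data {K : Type u} [Field K] [Infinite K] (h2 : (2 : K) ≠ 0)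
    {V : Type v} [AddCommGroup V] [Module K V] [FiniteDimensional K V] [Nontrivial V]
    (T : V →ₗ[K] V) (hT : ∀ p : K[X], Module.finrank K (LinearMap.ker (aeval T p)) =
      Module.finrank K (LinearMap.ker (aeval (-T) p))) :
    ∃ (k : ℕ) (v : V) (φ : V →ₗ[K] K) (a : Fin (k + 1) → K),
      (∀ i < k, φ ((T ^ i) v) = 0) ∧ φ ((T ^ k) v) = 1 ∧
      (∀ i : Fin (k + 1), (i : ℕ) % 2 = k % 2 → a i = 0) ∧
      (∀ w, (T ^ (k + 1)) w = ∑ i : Fin (k + 1), a i • (T ^ (i : ℕ)) w) := by
  classical
  have hint : IsIntegral K T := Algebra.IsIntegral.isIntegral T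
  set μ := minpoly K T with hμ
  have hmon : μ.Monic := minpoly.monic hint
  have hpos : 0 < μ.natDegree := minpoly.natDegree_pos hint
  obtain ⟨k, hk⟩ : ∃ k, μ.natDegree = k + 1 := ⟨μ.natDegree - 1, by omega⟩
  have hneg : aeval (-T) μ = 0 := by
    have h3 := hT μ
    rw [minpoly.aeval] at h3
    have h4 : LinearMap.ker (0 : V →ₗ[K] V) = ⊤ := LinearMap.ker_zero
    rw [h4, finrank_top] at h3
    have h5 := Submodule.eq_top_of_finrank_eq h3.symm
    exact LinearMap.ker_eq_top.1 h5
  have hpar := minpoly_parity h2 T hneg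
  obtain ⟨v, hv⟩ := exists_max_vector T
  -- independence
  have hli : LinearIndependent K fun i : Fin (k + 1) => (T ^ (i : ℕ)) v := by
    rw [Fintype.linearIndependent_iff]
    intro g hg
    set q : K[X] := ∑ i : Fin (k + 1), monomial (i : ℕ) (g i) with hq
    have h6 : aeval T q v = 0 := by
      rw [hq, map_sum, LinearMap.sum_apply, ← hg]
      refine Finset.sum_congr rfl fun i _ => ?_
      rw [aeval_monomial, Module.End.mul_apply, Module.algebraMap_end_apply]
    have h7 := hv q h6
    have h8 : q.degree < μ.degree := by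
      rw [hq]
      refine lt_of_le_of_lt (degree_sum_le _ _) ?_
      rw [Finset.sup_lt_iff]
      · intro i _
        refine lt_of_le_of_lt (degree_monomial_le _ _) ?_
        rw [degree_eq_natDegree hmon.ne_zero, hk]
        exact_mod_cast i.2
      · rw [degree_eq_natDegree hmon.ne_zero]
        exact WithBot.bot_lt_coe _
    have h9 : q = 0 := eq_zero_of_dvd_of_degree_lt h7 h8
    intro i
    have h10 := congrArg (fun r => r.coeff (i : ℕ)) h9
    simp only [hq, finsetSum_coeff, coeff_monomial, coeff_zero] at h10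
    rw [Finset.sum_eq_single i] at h10
    · simpa using h10
    · intro j _ hji
      rw [if_neg]
      intro h
      exact hji (Fin.ext h)
    · intro h
      exact absurd (Finset.mem_univ i) h
  -- the functional
  obtain ⟨φ, hφ⟩ : ∃ φ : V →ₗ[K] K, ∀ i : Fin (k + 1), φ ((T ^ (i : ℕ)) v) =
      if (i : ℕ) = k then 1 else 0 := by
    set S := Submodule.span K (Set.range fun i : Fin (k + 1) => (T ^ (i : ℕ)) v) with hS
    let c := Module.Basis.span hli
    let f : S →ₗ[K] K := c.constr K fun i : Fin (k + 1) => if (i : ℕ) = k then (1 : K) else 0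
    obtain ⟨φ, hφ⟩ := LinearMap.exists_extend f
    refine ⟨φ, fun i => ?_⟩
    have h11 : ((c i : S) : V) = (T ^ (i : ℕ)) v :=
      congrArg Subtype.val (Module.Basis.span_apply hli i)
    have h12 := congrArg (fun g => g (c i)) hφ
    simp only [LinearMap.comp_apply, Submodule.subtype_apply] at h12
    rw [← h11, h12]
    exact c.constr_basis K _ i
  refine ⟨k, v, φ, fun i => - μ.coeff i, ?_, ?_, ?_, ?_⟩
  · intro i hi
    have := hφ ⟨i, by omega⟩
    rw [this, if_neg]
    simp only
    omega
  · have := hφ ⟨k, by omega⟩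
    rw [this, if_pos rfl]
  · intro i hi
    rw [neg_eq_zero]
    apply hpar
    rw [← hμ, hk]
    omega
  · intro w
    have h13 := congrArg (fun f => f w) (minpoly.aeval K T)
    simp only [LinearMap.zero_apply] at h13
    rw [← hμ, aeval_eq_sum_range, hk, Finset.sum_range_succ, LinearMap.add_apply,
      LinearMap.sum_apply] at h13
    have h14 : μ.coeff (k + 1) = 1 := by
      rw [← hk]
      exact hmon
    rw [h14, one_smul, Finset.sum_range] at h13
    simp only [LinearMap.smul_apply] at h13
    rw [add_comm, ← sub_neg_eq_add, sub_eq_zero] at h13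
    rw [h13, ← Finset.sum_neg_distrib]
    refine Finset.sum_congr rfl fun i _ => ?_
    rw [neg_smul]

/-- A linear map similar to its negative (in the form: the kernels of `p(T)` and `p(-T)` have the
same dimension for every polynomial `p`) is balanced, if `2 ≠ 0`. -/
theorem bal_of_symm' {K : Type u} [Field K] [Infinite K] (h2 : (2 : K) ≠ 0) (N : ℕ) :
    ∀ {V : Type v} [AddCommGroup V] [Module K V] [FiniteDimensional K V] (T : V →ₗ[K] V),
      Module.finrank K V = N →
      (∀ p : K[X], Module.finrank K (LinearMap.ker (aeval T p)) =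
        Module.finrank K (LinearMap.ker (aeval (-T) p))) → Bal T := by
  induction N using Nat.strong_induction_on with
  | _ N ih =>
    intro V _ _ _ T hN hT
    rcases subsingleton_or_nontrivial V with hV | hV
    · refine ⟨Fin 0, inferInstance, Module.Basis.empty V, fun i => i.elim0, fun i => i.elim0, ?_, ?_⟩
      · simp
      · simp
    · obtain ⟨k, v, φ, a, hφ0, hφ1, ha, hrec⟩ := exists_chain_data h2 T hT
      obtain ⟨W, c, hc, hW, hCW⟩ := chain_compl' T k v φ hφ0 hφ1 (by
        intro w hw
        rw [hrec, map_sum]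
        refine Finset.sum_eq_zero fun i _ => ?_
        rw [map_smul, hw i (by omega), smul_zero])
      refine bal_add' T k v ?_ _ W c hc hW hCW ?_
      · rw [hrec v]
        refine Submodule.sum_mem _ fun i _ => ?_
        by_cases hi : (i : ℕ) % 2 = k % 2
        · rw [ha i hi, zero_smul]
          exact Submodule.zero_mem _
        · exact Submodule.smul_mem _ _ (Submodule.subset_span ⟨i, hi, rfl⟩)
      · refine ih (Module.finrank K W) ?_ (T.restrict hW) rfl ?_
        · have h3 := Submodule.finrank_add_eq_of_isCompl hCW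
          have h4 := Module.finrank_eq_card_basis c
          rw [Fintype.card_fin] at h4
          omega
        · exact symm_restrict T hT k v a ha (hrec v) _ W c hc hW hCW

/-- A linear map similar to its negative is balanced, if `2 ≠ 0`. -/
theorem bal_of_symm {K : Type u} [Field K] [Infinite K] (h2 : (2 : K) ≠ 0) {V : Type v}
    [AddCommGroup V] [Module K V] [FiniteDimensional K V] (T : V →ₗ[K] V)
    (hT : ∀ p : K[X], Module.finrank K (LinearMap.ker (aeval T p)) =
      Module.finrank K (LinearMap.ker (aeval (-T) p))) : Bal T :=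
  bal_of_symm' h2 _ T rfl hT

/-- A linear map conjugate to its negative is balanced, if `2 ≠ 0`. -/
theorem bal_of_conj_neg {K : Type u} [Field K] [Infinite K] (h2 : (2 : K) ≠ 0) {V : Type v}
    [AddCommGroup V] [Module K V] [FiniteDimensional K V] (T : V →ₗ[K] V)
    (g : V ≃ₗ[K] V) (hg : ∀ w, g (T w) = -T (g w)) : Bal T :=
  bal_of_symm h2 T fun p => finrank_ker_equiv T (-T) g hg p

end Pool.Agent.P5e96
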