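import Mathlib
import Pool.Agent.Lib.P5e96.WalkG

/-!
# Words with prescribed order of the step letters
-/

open Finset Matrix

namespace Pool.Agent.P5e96

variable {K : Type*} [Field K] {r : ℕ}

/-- The product of the weights `y q τ` of the letters `q ∉ Q` of a word, `τ` being the number of
letters of `Q` before `q` (plus the starting value). -/
def ywt (Q : List ℕ) (y : ℕ → ℕ → K) : List ℕ → ℕ → K
  | [], _ => 1
  | q :: l, τ => if q ∈ Q then ywt Q y l (τ + 1) else y q τ * ywt Q y l τ

/-- The value of the words in which the letters of `Q` occur in the order `Q`. -/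
noncomputable def PQ (α : Equiv.Perm (Fin (r + 1)) → K) (Q : List ℕ) (y : ℕ → ℕ → K) : K :=
  ∑ σ : Equiv.Perm (Fin (r + 1)),
    if (fullList σ).filter (fun q => decide (q ∈ Q)) = Q then α σ * ywt Q y (fullList σ) 0 else 0

end Pool.Agent.P5e96
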