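import Mathlib
import Pool.Agent.Lib.P5e96.UTDefs
import Pool.Agent.Lib.P5e96.ValuesG

/-!
# The coefficient polynomials for prescribed step letters
-/

open Finset MvPolynomial Matrix

namespace Pool.Agent.P5e96

section lists

variable {K : Type*} [Field K] {ι : Type*}

/-- The product of the weights along a walk. -/
def pwt (w : ℕ × ι → K) (π : Equiv.Perm ι) (e : ℕ → ℕ) : List ℕ → ι → K
  | [], _ => 1
  | q :: l, v => w (q, v) * pwt w π e l ((π ^ e q) v)

theorem eval_expoG [DecidableEq ι] (w : ℕ × ι → K) (π : Equiv.Perm ι) (e : ℕ → ℕ) (l : List ℕ)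
    (v : ι) : eval w (monomial (expoG π e l v) (1 : K)) = pwt w π e l v := by
  induction l generalizing v with
  | nil => simp [expoG, pwt]
  | cons q l ih =>
    rw [pwt, ← ih, expoG]
    simp [eval_monomial, Finsupp.prod_add_index', pow_add]

/-- The product of the weights of an abstract walk; it vanishes if the letters of `Q` do not occur
in the order `Q`. -/
def zwt (Q : List ℕ) (y : ℕ → ℕ → K) : List ℕ → ℕ → K
  | [], _ => 1
  | q :: l, τ => if q ∈ Q then (if Q[τ]? = some q then zwt Q y l (τ + 1) else 0)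
      else y q τ * zwt Q y l τ

theorem zwt_eq (Q : List ℕ) (y : ℕ → ℕ → K) (l : List ℕ) (τ : ℕ) :
    zwt Q y l τ = if (l.filter fun q => decide (q ∈ Q)) <+: Q.drop τ then ywt Q y l τ else 0 := by
  induction l generalizing τ with
  | nil => simp [zwt, ywt]
  | cons q l ih =>
    by_cases hq : q ∈ Q
    · rw [zwt, if_pos hq, ywt, if_pos hq, List.filter_cons_of_pos (by simpa using hq)]
      by_cases h : Q[τ]? = some q
      · obtain ⟨hlt, hget⟩ := List.getElem?_eq_some_iff.1 h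
        rw [if_pos h, ih, List.drop_eq_getElem_cons hlt, hget]
        by_cases hp : (l.filter fun q => decide (q ∈ Q)) <+: Q.drop (τ + 1)
        · rw [if_pos hp, if_pos (List.cons_prefix_cons.2 ⟨rfl, hp⟩)]
        · rw [if_neg hp, if_neg (fun h => hp (List.cons_prefix_cons.1 h).2)]
      · rw [if_neg h, if_neg]
        intro hp
        apply h
        by_cases hlt : τ < Q.length
        · rw [List.drop_eq_getElem_cons hlt, List.cons_prefix_cons] at hp
          rw [List.getElem?_eq_getElem hlt, hp.1]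
        · rw [List.drop_eq_nil_of_le (by omega)] at hp
          simp at hp
    · rw [zwt, if_neg hq, ywt, if_neg hq, List.filter_cons_of_neg (by simpa using hq), ih]
      split_ifs
      · rfl
      · rw [mul_zero]

theorem ywt_append (Q : List ℕ) (y : ℕ → ℕ → K) (l₁ l₂ : List ℕ) (τ : ℕ) :
    ywt Q y (l₁ ++ l₂) τ = ywt Q y l₁ τ *
      ywt Q y l₂ (τ + (l₁.filter fun q => decide (q ∈ Q)).length) := by
  induction l₁ generalizing τ with
  | nil => simp [ywt]
  | cons q l ih =>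
    rw [List.cons_append, ywt, ywt]
    by_cases hq : q ∈ Q
    · rw [if_pos hq, if_pos hq, ih, List.filter_cons_of_pos (by simpa using hq), List.length_cons,
        show τ + 1 + (l.filter fun q => decide (q ∈ Q)).length =
          τ + ((l.filter fun q => decide (q ∈ Q)).length + 1) by ring]
    · rw [if_neg hq, if_neg hq, ih, List.filter_cons_of_neg (by simpa using hq), mul_assoc]

/-- The abstract walk along the vertices `V τ`. -/
theorem pwt_eq_zwt (w : ℕ × ι → K) (π : Equiv.Perm ι) (e : ℕ → ℕ) (Q : List ℕ)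
    (y : ℕ → ℕ → K) (V : ℕ → ι) (ok : ℕ → Prop) (l : List ℕ)
    (h1 : ∀ τ, ok τ → ∀ q ∈ l, w (q, V τ) =
      if q ∈ Q then (if Q[τ]? = some q then 1 else 0) else y q τ)
    (h2 : ∀ τ, ok τ → ∀ q ∈ l, Q[τ]? = some q → ok (τ + 1) ∧ (π ^ e q) (V τ) = V (τ + 1))
    (h3 : ∀ q ∈ l, q ∉ Q → e q = 0) :
    ∀ τ, ok τ → pwt w π e l (V τ) = zwt Q y l τ := by
  induction l with
  | nil => intro τ _; rfl
  | cons q l ih =>
    intro τ hτ
    have ih' := ih (fun τ hτ q hq => h1 τ hτ q (List.mem_cons_of_mem _ hq))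
      (fun τ hτ q hq => h2 τ hτ q (List.mem_cons_of_mem _ hq))
      (fun q hq => h3 q (List.mem_cons_of_mem _ hq))
    rw [pwt, zwt, h1 τ hτ q List.mem_cons_self]
    by_cases hq : q ∈ Q
    · rw [if_pos hq, if_pos hq]
      by_cases h : Q[τ]? = some q
      · obtain ⟨h4, h5⟩ := h2 τ hτ q List.mem_cons_self h
        rw [if_pos h, if_pos h, one_mul, h5, ih' _ h4]
      · rw [if_neg h, if_neg h, zero_mul]
    · rw [if_neg hq, if_neg hq, h3 q List.mem_cons_self hq, pow_zero, Equiv.Perm.one_apply,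
        ih' _ hτ]

/-- Weights with prescribed values on the vertices `V τ`. -/
theorem exists_wt [DecidableEq ι] (V : ℕ → ι) (R : ℕ)
    (hV : ∀ τ τ', τ < R → τ' < R → V τ = V τ' → τ = τ') (W : ℕ → ℕ → K) :
    ∃ w : ℕ × ι → K, ∀ τ, τ < R → ∀ q, w (q, V τ) = W q τ := by
  refine ⟨fun x => ∑ τ ∈ range R, if V τ = x.2 then W x.1 τ else 0, fun τ hτ q => ?_⟩
  simp only
  rw [Finset.sum_eq_single τ]
  · rw [if_pos rfl]
  · intro τ' hτ' hne
    rw [if_neg]
    intro h
    exact hne (hV τ' τ (Finset.mem_range.1 hτ') hτ h)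
  · intro h
    exact absurd (Finset.mem_range.2 hτ) h

end lists

section words

variable {K : Type*} [Field K] {r : ℕ}

/-- The words with the letters of `S₁` before and the letters of `S₂` after the letter `0`. -/
def goodU (S₁ S₂ : Finset ℕ) (σ : Equiv.Perm (Fin (r + 1))) : Prop :=
  (∀ q ∈ preL σ, q ∉ S₂) ∧ (∀ q ∈ postL σ, q ∉ S₁)

instance (S₁ S₂ : Finset ℕ) (σ : Equiv.Perm (Fin (r + 1))) : Decidable (goodU S₁ S₂ σ) := by
  unfold goodU
  infer_instance

theorem mem_fullList (σ : Equiv.Perm (Fin (r + 1))) (q : ℕ) (hq : q < r + 1) :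
    q ∈ fullList σ := by
  rw [fullList, List.mem_ofFn']
  exact ⟨σ.symm ⟨q, hq⟩, by simp⟩

theorem zero_notMem (σ : Equiv.Perm (Fin (r + 1))) : 0 ∉ preL σ ∧ 0 ∉ postL σ := by
  have h1 := fullList_nodup σ
  rw [fullList_eq] at h1
  have h2 := List.nodup_middle.1 h1
  have h3 := (List.nodup_cons.1 h2).1
  rw [List.mem_append, not_or] at h3
  exact h3

theorem filter_full (Q₁ Q₂ : List ℕ) (σ : Equiv.Perm (Fin (r + 1))) :
    (fullList σ).filter (fun q => decide (q ∈ Q₁ ++ 0 :: Q₂)) =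
      (preL σ).filter (fun q => decide (q ∈ Q₁ ++ 0 :: Q₂)) ++
        0 :: (postL σ).filter (fun q => decide (q ∈ Q₁ ++ 0 :: Q₂)) := by
  rw [fullList_eq, List.filter_append, List.filter_cons_of_pos (by simp)]

theorem filter_full_perm (Q : List ℕ) (hQ : Q.Nodup) (hQr : ∀ q ∈ Q, q < r + 1)
    (σ : Equiv.Perm (Fin (r + 1))) :
    ((fullList σ).filter (fun q => decide (q ∈ Q))).Perm Q := by
  rw [List.perm_ext_iff_of_nodup ((fullList_nodup σ).filter _) hQ]
  intro q
  rw [List.mem_filter]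
  constructor
  · intro h
    simpa using h.2
  · intro h
    exact ⟨mem_fullList σ q (hQr q h), by simpa using h⟩

theorem goodU_perm (Q₁ Q₂ : List ℕ) (hQ : (Q₁ ++ 0 :: Q₂).Nodup)
    (hQr : ∀ q ∈ Q₁ ++ 0 :: Q₂, q < r + 1) (σ : Equiv.Perm (Fin (r + 1)))
    (hσ : goodU Q₁.toFinset Q₂.toFinset σ) :
    ((preL σ).filter (fun q => decide (q ∈ Q₁ ++ 0 :: Q₂))).Perm Q₁ ∧
      ((postL σ).filter (fun q => decide (q ∈ Q₁ ++ 0 :: Q₂))).Perm Q₂ := by
  obtain ⟨h01, h02⟩ := zero_notMem σ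
  have h0 := filter_full_perm _ hQ hQr σ
  rw [filter_full] at h0
  set F₁ := (preL σ).filter (fun q => decide (q ∈ Q₁ ++ 0 :: Q₂)) with hF₁
  set F₂ := (postL σ).filter (fun q => decide (q ∈ Q₁ ++ 0 :: Q₂)) with hF₂
  have h1 : (F₁ ++ F₂).Perm (Q₁ ++ Q₂) := by
    have h2 : (0 :: (F₁ ++ F₂)).Perm (0 :: (Q₁ ++ Q₂)) :=
      (List.perm_middle.symm.trans h0).trans List.perm_middle
    exact h2.cons_inv
  have hd := List.nodup_cons.1 (List.nodup_middle.1 hQ)
  have hdis : ∀ q, q ∈ Q₁ → q ∈ Q₂ → False := fun q hq1 hq2 =>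
    (List.disjoint_of_nodup_append hd.2) hq1 hq2
  have m1 : ∀ q ∈ F₁, q ∈ Q₁ := by
    intro q hq
    rw [hF₁, List.mem_filter] at hq
    have h3 := hσ.1 q hq.1
    rw [List.mem_toFinset] at h3
    have h4 : q ∈ Q₁ ++ 0 :: Q₂ := by simpa using hq.2
    rw [List.mem_append, List.mem_cons] at h4
    rcases h4 with h4 | h4 | h4
    · exact h4
    · subst h4
      exact absurd hq.1 h01
    · exact absurd h4 h3
  have m2 : ∀ q ∈ F₂, q ∈ Q₂ := by
    intro q hq
    rw [hF₂, List.mem_filter] at hq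
    have h3 := hσ.2 q hq.1
    rw [List.mem_toFinset] at h3
    have h4 : q ∈ Q₁ ++ 0 :: Q₂ := by simpa using hq.2
    rw [List.mem_append, List.mem_cons] at h4
    rcases h4 with h4 | h4 | h4
    · exact absurd h4 h3
    · subst h4
      exact absurd hq.1 h02
    · exact h4
  have key : ∀ L₁ L₂ : List ℕ, (∀ q ∈ L₁, q ∈ Q₁) → (∀ q ∈ L₂, q ∈ Q₂) →
      (L₁ ++ L₂).filter (fun q => decide (q ∈ Q₁)) = L₁ ∧
      (L₁ ++ L₂).filter (fun q => decide (q ∈ Q₂)) = L₂ := by
    intro L₁ L₂ a b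
    rw [List.filter_append, List.filter_append]
    have a1 : L₁.filter (fun q => decide (q ∈ Q₁)) = L₁ :=
      List.filter_eq_self.2 fun q hq => by simpa using a q hq
    have a2 : L₂.filter (fun q => decide (q ∈ Q₁)) = [] :=
      List.filter_eq_nil_iff.2 fun q hq => by simpa using fun h => hdis q h (b q hq)
    have a3 : L₁.filter (fun q => decide (q ∈ Q₂)) = [] :=
      List.filter_eq_nil_iff.2 fun q hq => by simpa using fun h => hdis q (a q hq) h
    have a4 : L₂.filter (fun q => decide (q ∈ Q₂)) = L₂ :=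
      List.filter_eq_self.2 fun q hq => by simpa using b q hq
    rw [a1, a2, a3, a4, List.append_nil, List.nil_append]
    exact ⟨rfl, rfl⟩
  have k1 := key F₁ F₂ m1 m2
  have k2 := key Q₁ Q₂ (fun q h => h) (fun q h => h)
  refine ⟨?_, ?_⟩
  · have := h1.filter (fun q => decide (q ∈ Q₁))
    rw [k1.1, k2.1] at this
    exact this
  · have := h1.filter (fun q => decide (q ∈ Q₂))
    rw [k1.2, k2.2] at this
    exact this

/-- The steps: `k` for the letter `0`, `1` for the other letters of `Q`, `0` else. -/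
def eU (Q : List ℕ) (k q : ℕ) : ℕ := if q = 0 then k else if q ∈ Q then 1 else 0

theorem totG_eU (Q : List ℕ) (k : ℕ) (l : List ℕ) (h0 : 0 ∉ l) :
    totG (eU Q k) l = (l.filter fun q => decide (q ∈ Q)).length := by
  induction l with
  | nil => rfl
  | cons q l ih =>
    rw [List.mem_cons, not_or] at h0
    rw [totG_cons, ih h0.2, eU, if_neg (Ne.symm h0.1)]
    by_cases hq : q ∈ Q
    · rw [if_pos hq, List.filter_cons_of_pos (by simpa using hq), List.length_cons]
      ring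
    · rw [if_neg hq, List.filter_cons_of_neg (by simpa using hq), zero_add]

theorem goodU_tot (Q₁ Q₂ : List ℕ) (hQ : (Q₁ ++ 0 :: Q₂).Nodup)
    (hQr : ∀ q ∈ Q₁ ++ 0 :: Q₂, q < r + 1) (k : ℕ) (σ : Equiv.Perm (Fin (r + 1)))
    (hσ : goodU Q₁.toFinset Q₂.toFinset σ) :
    totG (eU (Q₁ ++ 0 :: Q₂) k) (preL σ) = Q₁.length ∧
      totG (eU (Q₁ ++ 0 :: Q₂) k) (postL σ) = Q₂.length := by
  obtain ⟨h01, h02⟩ := zero_notMem σ
  obtain ⟨h1, h2⟩ := goodU_perm Q₁ Q₂ hQ hQr σ hσ
  exact ⟨(totG_eU _ k _ h01).trans h1.length_eq, (totG_eU _ k _ h02).trans h2.length_eq⟩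

theorem full_tot (Q₁ Q₂ : List ℕ) (hQ : (Q₁ ++ 0 :: Q₂).Nodup)
    (hQr : ∀ q ∈ Q₁ ++ 0 :: Q₂, q < r + 1) (k : ℕ) (σ : Equiv.Perm (Fin (r + 1))) :
    totG (eU (Q₁ ++ 0 :: Q₂) k) (fullList σ) = Q₁.length + k + Q₂.length := by
  obtain ⟨h01, h02⟩ := zero_notMem σ
  have h0 := (filter_full_perm _ hQ hQr σ).length_eq
  rw [filter_full, List.length_append, List.length_cons, List.length_append, List.length_cons] at h0
  rw [fullList_eq, totG_append, totG_cons, totG_eU _ k _ h01, totG_eU _ k _ h02, eU, if_pos rfl]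
  omega

/-- The value of the good words along an abstract walk is `PQ`. -/
theorem sum_goodU (Q₁ Q₂ : List ℕ) (hQ : (Q₁ ++ 0 :: Q₂).Nodup)
    (hQr : ∀ q ∈ Q₁ ++ 0 :: Q₂, q < r + 1) (α : Equiv.Perm (Fin (r + 1)) → K)
    (y : ℕ → ℕ → K) :
    (∑ σ : Equiv.Perm (Fin (r + 1)), if goodU Q₁.toFinset Q₂.toFinset σ then
      α σ * (zwt (Q₁ ++ 0 :: Q₂) y (preL σ) 0 *
        zwt (Q₁ ++ 0 :: Q₂) y (postL σ) (Q₁.length + 1)) else 0) =
      PQ α (Q₁ ++ 0 :: Q₂) y := by
  rw [PQ]
  refine Finset.sum_congr rfl fun σ _ => ?_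
  obtain ⟨h01, h02⟩ := zero_notMem σ
  have hd := List.nodup_cons.1 (List.nodup_middle.1 hQ)
  have hdis : ∀ q, q ∈ Q₁ → q ∈ Q₂ → False := fun q hq1 hq2 =>
    (List.disjoint_of_nodup_append hd.2) hq1 hq2
  have hdrop : (Q₁ ++ 0 :: Q₂).drop (Q₁.length + 1) = Q₂ := by
    rw [← List.drop_drop, List.drop_left]
    rfl
  rw [filter_full]
  set F₁ := (preL σ).filter (fun q => decide (q ∈ Q₁ ++ 0 :: Q₂)) with hF₁
  set F₂ := (postL σ).filter (fun q => decide (q ∈ Q₁ ++ 0 :: Q₂)) with hF₂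
  by_cases hF : F₁ = Q₁ ∧ F₂ = Q₂
  · obtain ⟨e1, e2⟩ := hF
    have hg : goodU Q₁.toFinset Q₂.toFinset σ := by
      refine ⟨fun q hq hq2 => ?_, fun q hq hq2 => ?_⟩
      · rw [List.mem_toFinset] at hq2
        have h3 : q ∈ F₁ := by
          rw [hF₁, List.mem_filter]
          exact ⟨hq, by simp [hq2]⟩
        rw [e1] at h3
        exact hdis q h3 hq2
      · rw [List.mem_toFinset] at hq2
        have h3 : q ∈ F₂ := by
          rw [hF₂, List.mem_filter]
          exact ⟨hq, by simp [hq2]⟩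
        rw [e2] at h3
        exact hdis q hq2 h3
    rw [if_pos hg, if_pos (by rw [e1, e2]), zwt_eq, zwt_eq, ← hF₁, ← hF₂, hdrop, List.drop_zero,
      if_pos (by rw [e1]; exact List.prefix_append _ _), if_pos (by rw [e2]),
      fullList_eq, ywt_append, ← hF₁, e1, ywt, if_pos (by simp), zero_add]
  · rw [if_neg (c := F₁ ++ 0 :: F₂ = Q₁ ++ 0 :: Q₂)]
    · split_ifs with hg
      · obtain ⟨p1, p2⟩ := goodU_perm Q₁ Q₂ hQ hQr σ hg
        rw [← hF₁] at p1
        rw [← hF₂] at p2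
        rw [zwt_eq, zwt_eq, ← hF₁, ← hF₂, hdrop, List.drop_zero]
        by_cases c1 : F₁ <+: Q₁ ++ 0 :: Q₂
        · by_cases c2 : F₂ <+: Q₂
          · exfalso
            apply hF
            refine ⟨?_, c2.eq_of_length p2.length_eq⟩
            have h5 := List.prefix_iff_eq_take.1 c1
            rw [p1.length_eq, List.take_left] at h5
            exact h5
          · rw [if_neg c2, mul_zero, mul_zero]
        · rw [if_neg c1, zero_mul, mul_zero]
      · rfl
    · intro h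
      apply hF
      have h6 : 0 ∉ F₁ := fun h => h01 (List.mem_of_mem_filter h)
      have h7 : 0 ∉ Q₁ := fun h => hd.1 (List.mem_append_left _ h)
      have h8 : F₁.length = Q₁.length := by
        have a1 := congrArg (List.idxOf 0) h
        rw [List.idxOf_append_of_notMem h6, List.idxOf_append_of_notMem h7, List.idxOf_cons_self,
          List.idxOf_cons_self] at a1
        omega
      obtain ⟨h9, h10⟩ := List.append_inj h h8
      exact ⟨h9, (List.cons.inj h10).2⟩

theorem sum_full (Q : List ℕ) (hQ : Q.Nodup)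
    (hQr : ∀ q ∈ Q, q < r + 1) (α : Equiv.Perm (Fin (r + 1)) → K) (y : ℕ → ℕ → K) :
    (∑ σ : Equiv.Perm (Fin (r + 1)), α σ * zwt Q y (fullList σ) 0) = PQ α Q y := by
  rw [PQ]
  refine Finset.sum_congr rfl fun σ _ => ?_
  rw [zwt_eq, List.drop_zero]
  have hp := filter_full_perm Q hQ hQr σ
  by_cases h : (fullList σ).filter (fun q => decide (q ∈ Q)) = Q
  · rw [if_pos h, if_pos (by rw [h])]
  · rw [if_neg h, if_neg (fun h2 => h (h2.eq_of_length hp.length_eq)), mul_zero]

end words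

end Pool.Agent.P5e96
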