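import Mathlib
import Pool.Agent.Lib.P5e96.UTPoly

/-!
# Words in upper triangular matrix units
-/

open Finset Matrix

namespace Pool.Agent.P5e96

variable {K : Type*} [Field K] {r : ℕ}

theorem single_mul_entry {k : ℕ} (p q : Fin k) (X : Matrix (Fin k) (Fin k) K) (u j : Fin k) :
    (Matrix.single p q (1 : K) * X) u j = if u = p then X q j else 0 := by
  by_cases h : u = p
  · subst h
    rw [if_pos rfl, Matrix.single_mul_apply_same, one_mul]
  · rw [if_neg h, Matrix.single_mul_apply_of_ne _ _ _ _ _ h]

theorem exists_walk {k : ℕ} (A B : ℕ → Fin k) (l : List ℕ) (u j : Fin k)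
    (hne : (l.map fun q => Matrix.single (A q) (B q) (1 : K)).prod u j ≠ 0) :
    ∃ V : ℕ → Fin k, V 0 = u ∧ V (l.filter fun q => decide (A q ≠ B q)).length = j ∧
      ∀ τ q, (l.filter fun q => decide (A q ≠ B q))[τ]? = some q → A q = V τ ∧ B q = V (τ + 1) := by
  induction l generalizing u with
  | nil =>
    rw [List.map_nil, List.prod_nil, Matrix.one_apply] at hne
    have h : u = j := by
      by_contra h
      rw [if_neg h] at hne
      exact hne rfl
    refine ⟨fun _ => u, rfl, h, fun τ q hq => ?_⟩
    simp at hq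
  | cons s l ih =>
    rw [List.map_cons, List.prod_cons, single_mul_entry] at hne
    have hu : u = A s := by
      by_contra h
      rw [if_neg h] at hne
      exact hne rfl
    rw [if_pos hu] at hne
    obtain ⟨V, h0, h1, h2⟩ := ih (B s) hne
    by_cases hs : A s = B s
    · rw [List.filter_cons_of_neg (by simpa using hs)]
      exact ⟨V, by rw [h0, hu, hs], h1, h2⟩
    · rw [List.filter_cons_of_pos (by simpa using hs)]
      refine ⟨fun τ => if τ = 0 then u else V (τ - 1), by simp, ?_, ?_⟩
      · simpa using h1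
      · intro τ q hq
        cases τ with
        | zero =>
          rw [List.getElem?_cons_zero, Option.some_inj] at hq
          subst hq
          simp [hu, h0]
        | succ τ =>
          rw [List.getElem?_cons_succ] at hq
          obtain ⟨h3, h4⟩ := h2 τ q hq
          simp [h3, h4]

theorem prod_single_eq_zwt {k : ℕ} (A B : ℕ → Fin k) (Q : List ℕ) (V : ℕ → Fin k)
    (h2 : ∀ τ q, Q[τ]? = some q → A q = V τ ∧ B q = V (τ + 1))
    (h3 : ∀ τ τ', τ ≤ Q.length → τ' ≤ Q.length → V τ = V τ' → τ = τ') (l : List ℕ)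
    (h1 : ∀ q ∈ l, q ∉ Q → A q = B q) : ∀ τ c, c = (l.filter fun q => decide (q ∈ Q)).length →
    τ + c ≤ Q.length →
    (l.map fun q => Matrix.single (A q) (B q) (1 : K)).prod (V τ) (V (τ + c)) =
      zwt Q (fun q τ => if A q = V τ then 1 else 0) l τ := by
  induction l with
  | nil =>
    intro τ c hc _
    rw [List.filter_nil, List.length_nil] at hc
    subst hc
    rw [List.map_nil, List.prod_nil, add_zero, Matrix.one_apply_eq, zwt]
  | cons q l ih =>
    intro τ c hc hτ
    have ih' := ih (fun q hq => h1 q (List.mem_cons_of_mem _ hq))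
    rw [List.map_cons, List.prod_cons, single_mul_entry, zwt]
    by_cases hq : q ∈ Q
    · rw [List.filter_cons_of_pos (by simpa using hq), List.length_cons] at hc
      rw [if_pos hq]
      by_cases h : Q[τ]? = some q
      · obtain ⟨h4, h5⟩ := h2 τ q h
        rw [if_pos h, if_pos h4.symm, h5, hc, ← ih' (τ + 1) _ rfl (by omega)]
        ring_nf
      · rw [if_neg h, if_neg]
        intro h4
        obtain ⟨τ', hτ', h5⟩ := List.getElem_of_mem hq
        have h6 : Q[τ']? = some q := by rw [List.getElem?_eq_getElem hτ', h5]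
        have h7 := (h2 τ' q h6).1
        have h8 := h3 τ τ' (by omega) (by omega) (h4.trans h7)
        rw [h8] at h
        exact h h6
    · rw [List.filter_cons_of_neg (by simpa using hq)] at hc
      rw [if_neg hq, ← ih' τ c hc hτ, ← h1 q List.mem_cons_self hq]
      by_cases h : A q = V τ
      · rw [if_pos h.symm, if_pos h, one_mul, h]
      · rw [if_neg (Ne.symm h), if_neg h, zero_mul]

theorem exists_PQ_of_elementary {k : ℕ} (α : Equiv.Perm (Fin (r + 1)) → K)
    (a b : Fin (r + 1) → Fin k) (hab : ∀ q, a q ≤ b q)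
    (hne : mval α (fun q => Matrix.single (a q) (b q) (1 : K)) ≠ 0) :
    ∃ (Q : List ℕ) (y : ℕ → ℕ → K), Q.Nodup ∧ (∀ q ∈ Q, q < r + 1) ∧ Q.length + 1 ≤ k ∧
      PQ α Q y ≠ 0 := by
  obtain ⟨i, j, hij⟩ : ∃ i j, mval α (fun q => Matrix.single (a q) (b q) (1 : K)) i j ≠ 0 := by
    by_contra hc
    push Not at hc
    apply hne
    ext i j
    exact hc i j
  let A : ℕ → Fin k := fun q => if h : q < r + 1 then a ⟨q, h⟩ else i
  let B : ℕ → Fin k := fun q => if h : q < r + 1 then b ⟨q, h⟩ else i
  have hA : ∀ q : Fin (r + 1), A q = a q := fun q => dif_pos q.2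
  have hB : ∀ q : Fin (r + 1), B q = b q := fun q => dif_pos q.2
  have hAB : ∀ q, A q ≤ B q := by
    intro q
    simp only [A, B]
    split_ifs with h
    · exact hab _
    · exact le_rfl
  have hword : ∀ σ : Equiv.Perm (Fin (r + 1)),
      (List.ofFn fun t => Matrix.single (a (σ t)) (b (σ t)) (1 : K)) =
        (fullList σ).map fun q => Matrix.single (A q) (B q) (1 : K) := by
    intro σ
    rw [fullList, List.map_ofFn]
    congr 1
    funext t
    simp only [Function.comp_apply]
    rw [hA, hB]
  have hsum : mval α (fun q => Matrix.single (a q) (b q) (1 : K)) i j =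
      ∑ σ : Equiv.Perm (Fin (r + 1)), α σ *
        ((fullList σ).map fun q => Matrix.single (A q) (B q) (1 : K)).prod i j := by
    rw [mval, Matrix.sum_apply]
    refine Finset.sum_congr rfl fun σ _ => ?_
    rw [Matrix.smul_apply, smul_eq_mul, hword σ]
  rw [hsum] at hij
  obtain ⟨σ₀, -, hσ₀⟩ := Finset.exists_ne_zero_of_sum_ne_zero hij
  obtain ⟨V, hV0, hVl, hV⟩ := exists_walk A B (fullList σ₀) i j (right_ne_zero_of_mul hσ₀)
  set Q := (fullList σ₀).filter fun q => decide (A q ≠ B q) with hQdef
  have hQn : Q.Nodup := (fullList_nodup σ₀).filter _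
  have hQr : ∀ q ∈ Q, q < r + 1 := by
    intro q hq
    have h1 := List.mem_of_mem_filter hq
    rw [fullList, List.mem_ofFn'] at h1
    obtain ⟨t, rfl⟩ := h1
    exact (σ₀ t).2
  have hmemQ : ∀ q ∈ Q, A q ≠ B q := by
    intro q hq
    rw [hQdef, List.mem_filter] at hq
    simpa using hq.2
  have hstep : ∀ τ, τ < Q.length → V τ < V (τ + 1) := by
    intro τ hτ
    have h1 : Q[τ]? = some Q[τ] := List.getElem?_eq_getElem hτ
    obtain ⟨h2, h3⟩ := hV τ _ h1
    rw [← h2, ← h3]
    exact lt_of_le_of_ne (hAB _) (hmemQ _ (List.getElem_mem hτ))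
  have hmono : ∀ τ', τ' ≤ Q.length → ∀ τ, τ < τ' → V τ < V τ' := by
    intro τ'
    induction τ' with
    | zero => intro _ τ h; omega
    | succ τ' ih =>
      intro h τ hτ
      rcases Nat.lt_succ_iff_lt_or_eq.1 hτ with h1 | h1
      · exact (ih (by omega) τ h1).trans (hstep τ' (by omega))
      · subst h1
        exact hstep τ (by omega)
  have hge : ∀ τ, τ ≤ Q.length → τ ≤ (V τ : ℕ) := by
    intro τ
    induction τ with
    | zero => intro _; exact Nat.zero_le _
    | succ τ ih =>
      intro h
      have h1 := ih (by omega)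
      have h2 : (V τ : ℕ) < V (τ + 1) := hstep τ (by omega)
      omega
  have hinj : ∀ τ τ', τ ≤ Q.length → τ' ≤ Q.length → V τ = V τ' → τ = τ' := by
    intro τ τ' h1 h2 h3
    rcases lt_trichotomy τ τ' with h | h | h
    · exact absurd h3 (ne_of_lt (hmono τ' h2 τ h))
    · exact h
    · exact absurd h3.symm (ne_of_lt (hmono τ h1 τ' h))
  refine ⟨Q, fun q τ => if A q = V τ then 1 else 0, hQn, hQr, ?_, ?_⟩
  · have h1 := hge Q.length le_rfl
    have h2 := (V Q.length).2
    omega
  · rw [← sum_full Q hQn hQr]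
    have key : ∀ σ : Equiv.Perm (Fin (r + 1)),
        ((fullList σ).map fun q => Matrix.single (A q) (B q) (1 : K)).prod i j =
          zwt Q (fun q τ => if A q = V τ then 1 else 0) (fullList σ) 0 := by
      intro σ
      have hc := (filter_full_perm Q hQn hQr σ).length_eq
      have h1 : ∀ q ∈ fullList σ, q ∉ Q → A q = B q := by
        intro q hq hqQ
        rw [fullList, List.mem_ofFn'] at hq
        obtain ⟨t, rfl⟩ := hq
        by_contra h
        apply hqQ
        rw [hQdef, List.mem_filter]
        exact ⟨mem_fullList σ₀ _ (σ t).2, by simpa using h⟩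
      have h2 := prod_single_eq_zwt (K := K) A B Q V hV hinj (fullList σ) h1 0 Q.length hc.symm
        (by omega)
      rw [zero_add, hV0, hVl] at h2
      exact h2
    rw [Finset.sum_congr rfl fun σ _ => by rw [key σ]] at hij
    exact hij

end Pool.Agent.P5e96
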