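import Mathlib
import Pool.Agent.Lib.P5e96.UTPoly
import Pool.Agent.Lib.P5e96.UTExpA

/-!
# Polynomials of small degree do not vanish on upper triangular matrices

The staircase: the letters of a word with nonzero coefficient are sent to the matrix units
`(0,0), (0,1), (1,1), (1,2), ...`; every other word has product zero.
-/

open Finset Matrix

namespace Pool.Agent.P5e96

variable {K : Type*} [Field K] {r : ℕ}

/-- A nonzero product of matrix units is a chain. -/
theorem chain_of_prod_single {k : ℕ} : ∀ (n : ℕ) (A B : Fin (n + 1) → Fin k),
    (List.ofFn fun t => Matrix.single (A t) (B t) (1 : K)).prod ≠ 0 →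
      ∀ t : Fin n, B t.castSucc = A t.succ := by
  intro n
  induction n with
  | zero => intro A B _ t; exact t.elim0
  | succ n ih =>
    intro A B h t
    rw [List.ofFn_succ, List.prod_cons] at h
    have h1 := right_ne_zero_of_mul h
    refine Fin.cases ?_ (fun s => ?_) t
    · by_contra hne
      apply h
      rw [Fin.castSucc_zero] at hne
      rw [List.ofFn_succ, List.prod_cons, ← Matrix.mul_assoc,
        Matrix.single_mul_single_of_ne _ _ _ _ hne, Matrix.zero_mul]
    · exact ih (fun t => A t.succ) (fun t => B t.succ) h1 s

/-- The product along a walk. -/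
theorem prod_single_walk {k : ℕ} : ∀ (n : ℕ) (V : ℕ → Fin k),
    (List.ofFn fun t : Fin n => Matrix.single (V t) (V (t + 1)) (1 : K)).prod (V 0) (V n) = 1 := by
  intro n
  induction n with
  | zero =>
    intro V
    rw [List.ofFn_zero, List.prod_nil, Matrix.one_apply_eq]
  | succ n ih =>
    intro V
    rw [List.ofFn_succ, List.prod_cons, single_mul_entry]
    have h := ih (fun t => V (t + 1))
    simp only [Fin.val_zero, Fin.val_succ, if_true] at h ⊢
    exact h

theorem exists_PQ_of_degree (α : Equiv.Perm (Fin (r + 1)) → K) (hα : α ≠ 0) (k : ℕ)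
    (hk : r + 2 ≤ 2 * k) :
    ∃ (Q : List ℕ) (y : ℕ → ℕ → K), Q.Nodup ∧ (∀ q ∈ Q, q < r + 1) ∧ Q.length + 1 ≤ k ∧
      PQ α Q y ≠ 0 := by
  classical
  obtain ⟨σ₁, hσ₁⟩ : ∃ σ₁, α σ₁ ≠ 0 := by
    by_contra hc
    push Not at hc
    exact hα (funext hc)
  let V : ℕ → Fin k := fun t => if h : t / 2 < k then ⟨t / 2, h⟩ else ⟨0, by omega⟩
  have hV : ∀ t, t ≤ r + 1 → (V t : ℕ) = t / 2 := by
    intro t ht
    have h : t / 2 < k := by omega
    simp only [V, dif_pos h]
  let a : Fin (r + 1) → Fin k := fun q => V (σ₁.symm q)
  let b : Fin (r + 1) → Fin k := fun q => V ((σ₁.symm q : ℕ) + 1)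
  refine exists_PQ_of_elementary α a b ?_ ?_
  · intro q
    rw [Fin.le_def]
    have h := (σ₁.symm q).2
    simp only [a, b]
    rw [hV _ (by omega), hV _ (by omega)]
    omega
  · intro h0
    have h1 : mval α (fun q => Matrix.single (a q) (b q) (1 : K)) (V 0) (V (r + 1)) = α σ₁ := by
      rw [mval, Matrix.sum_apply, Finset.sum_eq_single σ₁]
      · rw [Matrix.smul_apply, smul_eq_mul]
        have h2 := prod_single_walk (K := K) (r + 1) V
        have h3 : (List.ofFn fun t : Fin (r + 1) =>
            Matrix.single (a (σ₁ t)) (b (σ₁ t)) (1 : K)) =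
            List.ofFn fun t : Fin (r + 1) => Matrix.single (V t) (V (t + 1)) (1 : K) := by
          congr 1
          funext t
          simp only [a, b, Equiv.symm_apply_apply]
        rw [h3, h2, mul_one]
      · intro σ _ hσ
        have h2 : (List.ofFn fun t : Fin (r + 1) =>
            Matrix.single (a (σ t)) (b (σ t)) (1 : K)).prod = 0 := by
          by_contra hne
          apply hσ
          have hch := chain_of_prod_single r (fun t => a (σ t)) (fun t => b (σ t)) hne
          have hmono : StrictMono fun t => σ₁.symm (σ t) := by
            rw [Fin.strictMono_iff_lt_succ]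
            intro t
            have h3 := hch t
            rw [Fin.ext_iff] at h3
            simp only [a, b] at h3
            have h4 := (σ₁.symm (σ t.castSucc)).2
            have h5 := (σ₁.symm (σ t.succ)).2
            rw [hV _ (by omega), hV _ (by omega)] at h3
            have h6 : σ₁.symm (σ t.castSucc) ≠ σ₁.symm (σ t.succ) := by
              intro h
              have h7 := σ.injective (σ₁.symm.injective h)
              exact absurd h7 (ne_of_lt (Fin.castSucc_lt_succ))
            rw [Ne, Fin.ext_iff] at h6
            rw [Fin.lt_def]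
            omega
          have hid : (fun t => σ₁.symm (σ t)) = id := by
            rw [← StrictMono.range_inj hmono strictMono_id, Set.range_id, Set.range_eq_univ]
            exact σ₁.symm.surjective.comp σ.surjective
          ext t
          have h3 := congrFun hid t
          simp only [id] at h3
          rw [Equiv.symm_apply_eq] at h3
          rw [h3]
        rw [Matrix.smul_apply, h2, Matrix.zero_apply, smul_zero]
      · intro h
        exact absurd (Finset.mem_univ _) h
    rw [h0, Matrix.zero_apply] at h1
    exact hσ₁ h1.symm

end Pool.Agent.P5e96
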