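import Mathlib
import Pool.Agent.Lib.P5e96.UTElem
import Pool.Agent.Lib.P5e96.UTExpA

/-!
# Polynomials that are no identities of upper triangular matrices
-/

open Finset Matrix

namespace Pool.Agent.P5e96

variable {K : Type*} [Field K] {r : ℕ}

/-- A polynomial that is no identity of the upper triangular `k × k` matrices has a nonzero value on
the words with at most `k - 1` step letters in a fixed order. -/
theorem exists_PQ (α : Equiv.Perm (Fin (r + 1)) → K) (k : ℕ)
    (U : Fin (r + 1) → Matrix (Fin k) (Fin k) K) (hU : ∀ q i j, j < i → U q i j = 0)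
    (hne : mval α U ≠ 0) :
    ∃ (Q : List ℕ) (y : ℕ → ℕ → K), Q.Nodup ∧ (∀ q ∈ Q, q < r + 1) ∧ Q.length + 1 ≤ k ∧
      PQ α Q y ≠ 0 := by
  obtain ⟨a, b, hab, h⟩ := exists_elementary α U hU hne
  exact exists_PQ_of_elementary α a b hab h

end Pool.Agent.P5e96
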