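import Mathlib
import Pool.Agent.Lib.P5e96.UTDefs

/-!
# Relabelling: the middle step letter becomes the letter `0`
-/

open Finset Matrix

namespace Pool.Agent.P5e96

variable {K : Type*} [Field K] {r : ℕ}

theorem mem_map_symm (s : ℕ ≃ ℕ) (Q : List ℕ) (q : ℕ) : q ∈ Q.map s.symm ↔ s q ∈ Q := by
  rw [List.mem_map]
  constructor
  · rintro ⟨b, hb, rfl⟩
    rwa [s.apply_symm_apply]
  · intro h
    exact ⟨s q, h, s.symm_apply_apply q⟩

theorem ywt_relabel (s : ℕ ≃ ℕ) (Q : List ℕ) (y : ℕ → ℕ → K) (l : List ℕ) (τ : ℕ) :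
    ywt (Q.map s.symm) (fun q => y (s q)) l τ = ywt Q y (l.map s) τ := by
  induction l generalizing τ with
  | nil => rfl
  | cons q l ih =>
    rw [List.map_cons, ywt, ywt, ih, ih]
    by_cases h : s q ∈ Q
    · rw [if_pos h, if_pos ((mem_map_symm s Q q).2 h)]
    · rw [if_neg h, if_neg (fun h' => h ((mem_map_symm s Q q).1 h'))]

theorem filter_relabel (s : ℕ ≃ ℕ) (Q l : List ℕ) :
    (l.map s).filter (fun q => decide (q ∈ Q)) =
      (l.filter (fun q => decide (q ∈ Q.map s.symm))).map s := by
  induction l with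
  | nil => rfl
  | cons q l ih =>
    rw [List.map_cons, List.filter_cons, List.filter_cons, ih]
    by_cases h : s q ∈ Q
    · rw [if_pos (by simpa using h), if_pos (by
        simpa only [decide_eq_true_eq] using (mem_map_symm s Q q).2 h), List.map_cons]
    · rw [if_neg (by simpa using h), if_neg (by
        simpa only [decide_eq_true_eq] using (fun h' => h ((mem_map_symm s Q q).1 h')))]

theorem fullList_mul (ρ τ : Equiv.Perm (Fin (r + 1))) (s : ℕ ≃ ℕ)
    (hs : ∀ i : Fin (r + 1), ((ρ i : Fin (r + 1)) : ℕ) = s i) :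
    fullList (ρ * τ) = (fullList τ).map s := by
  rw [fullList, fullList, List.map_ofFn]
  congr 1
  funext t
  exact hs (τ t)

theorem PQ_relabel (α : Equiv.Perm (Fin (r + 1)) → K) (Q : List ℕ) (y : ℕ → ℕ → K)
    (ρ : Equiv.Perm (Fin (r + 1))) (s : ℕ ≃ ℕ)
    (hs : ∀ i : Fin (r + 1), ((ρ i : Fin (r + 1)) : ℕ) = s i) :
    PQ (fun τ => α (ρ * τ)) (Q.map s.symm) (fun q => y (s q)) = PQ α Q y := by
  symm
  rw [PQ, PQ, ← Equiv.sum_comp (Equiv.mulLeft ρ)]
  refine Finset.sum_congr rfl fun τ _ => ?_
  rw [Equiv.coe_mulLeft, fullList_mul ρ τ s hs, filter_relabel, ywt_relabel]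
  have h1 : (List.map s ((fullList τ).filter fun q => decide (q ∈ Q.map s.symm)) = Q) ↔
      ((fullList τ).filter (fun q => decide (q ∈ Q.map s.symm)) = Q.map s.symm) := by
    constructor
    · intro h
      have h2 := congrArg (List.map s.symm) h
      rw [List.map_map] at h2
      simpa using h2
    · intro h
      rw [h, List.map_map]
      simp
  by_cases h : (fullList τ).filter (fun q => decide (q ∈ Q.map s.symm)) = Q.map s.symm
  · rw [if_pos (h1.2 h), if_pos h]
  · rw [if_neg (fun h' => h (h1.1 h')), if_neg h]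

/-- without step letters the weight is a product -/
theorem ywt_nil (y : ℕ → ℕ → K) (l : List ℕ) (τ : ℕ) :
    ywt [] y l τ = (l.map fun q => y q τ).prod := by
  induction l with
  | nil => rfl
  | cons q l ih => rw [ywt, if_neg (by simp), ih, List.map_cons, List.prod_cons]

theorem ywt_single (y : ℕ → K) (l : List ℕ) (τ : ℕ) :
    ywt [0] (fun q _ => y q) l τ = (l.map fun q => if q = 0 then 1 else y q).prod := by
  induction l generalizing τ with
  | nil => rfl
  | cons q l ih =>
    rw [ywt, ih, ih, List.map_cons, List.prod_cons]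
    by_cases h : q = 0
    · rw [if_pos (by simpa using h), if_pos h, one_mul]
    · rw [if_neg (by simpa using h), if_neg h]

theorem filter_single {l : List ℕ} (hl : l.Nodup) (h0 : 0 ∈ l) :
    l.filter (fun q => decide (q ∈ [0])) = [0] := by
  induction l with
  | nil => simp at h0
  | cons q l ih =>
    rw [List.nodup_cons] at hl
    rw [List.filter_cons]
    by_cases h : q = 0
    · subst h
      rw [if_pos (by simp)]
      congr 1
      rw [List.filter_eq_nil_iff]
      intro a ha
      simp only [List.mem_singleton, decide_eq_true_eq]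
      rintro rfl
      exact hl.1 ha
    · rw [if_neg (by simpa using h)]
      refine ih hl.2 ?_
      rcases List.mem_cons.1 h0 with h1 | h1
      · exact absurd h1.symm h
      · exact h1

theorem PQ_nil (α : Equiv.Perm (Fin (r + 1)) → K) (y : ℕ → ℕ → K) :
    PQ α [] y = y 0 0 * PQ α [0] (fun q _ => y q 0) := by
  rw [PQ, PQ, Finset.mul_sum]
  refine Finset.sum_congr rfl fun σ _ => ?_
  have h0 : (0 : ℕ) ∈ fullList σ := by
    rw [fullList, List.mem_ofFn]
    exact ⟨σ.symm 0, by simp⟩
  have hn := fullList_nodup σ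
  rw [if_pos (by simp), if_pos (filter_single hn h0), ywt_nil, ywt_single]
  have key : ∀ l : List ℕ, l.Nodup → 0 ∈ l →
      (l.map fun q => y q 0).prod = y 0 0 * (l.map fun q => if q = 0 then 1 else y q 0).prod := by
    intro l hl h0
    induction l with
    | nil => simp at h0
    | cons q l ih =>
      rw [List.nodup_cons] at hl
      rw [List.map_cons, List.map_cons, List.prod_cons, List.prod_cons]
      by_cases h : q = 0
      · subst h
        rw [if_pos rfl, one_mul]
        congr 2
        refine List.map_congr_left fun a ha => ?_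
        rw [if_neg]
        rintro rfl
        exact hl.1 ha
      · have h1 : 0 ∈ l := by
          rcases List.mem_cons.1 h0 with h1 | h1
          · exact absurd h1.symm h
          · exact h1
        rw [if_neg h, ih hl.2 h1]
        ring
  rw [key _ hn h0]
  ring

/-- MODULE R. -/
theorem exists_PQ_mid (α : Equiv.Perm (Fin (r + 1)) → K) (Q : List ℕ) (y : ℕ → ℕ → K)
    (hQ : Q.Nodup) (hQ2 : ∀ q ∈ Q, q < r + 1) (hne : PQ α Q y ≠ 0) :
    ∃ (ρ : Equiv.Perm (Fin (r + 1))) (Q₁ Q₂ : List ℕ) (y' : ℕ → ℕ → K),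
      (Q₁ ++ 0 :: Q₂).Nodup ∧ (∀ q ∈ Q₁ ++ 0 :: Q₂, q < r + 1) ∧
      Q₁.length = (Q.length - 1) / 2 ∧ Q₂.length = Q.length / 2 ∧
      PQ (fun τ => α (ρ * τ)) (Q₁ ++ 0 :: Q₂) y' ≠ 0 := by
  by_cases hQ0 : Q = []
  · subst hQ0
    refine ⟨1, [], [], fun q _ => y q 0, by simp, by simp, by simp, by simp, ?_⟩
    simp only [one_mul, List.nil_append]
    rw [PQ_nil] at hne
    exact right_ne_zero_of_mul hne
  · have hlen : 0 < Q.length := List.length_pos_iff.2 hQ0
    set m := (Q.length - 1) / 2 with hm
    have hmQ : m < Q.length := by omega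
    set c := Q[m] with hc
    have hcr : c < r + 1 := hQ2 c (List.getElem_mem hmQ)
    let s : ℕ ≃ ℕ := Equiv.swap 0 c
    let ρ : Equiv.Perm (Fin (r + 1)) := Equiv.swap 0 ⟨c, hcr⟩
    have hs : ∀ i : Fin (r + 1), ((ρ i : Fin (r + 1)) : ℕ) = s i := by
      intro i
      simp only [ρ, s]
      by_cases h1 : i = 0
      · subst h1
        simp
      · by_cases h2 : i = ⟨c, hcr⟩
        · subst h2
          simp
        · have h3 : (i : ℕ) ≠ 0 := fun h => h1 (Fin.ext (by simpa using h))
          have h4 : (i : ℕ) ≠ c := fun h => h2 (Fin.ext h)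
          rw [Equiv.swap_apply_of_ne_of_ne h1 h2, Equiv.swap_apply_of_ne_of_ne h3 h4]
    have hsc : s.symm c = 0 := by simp [s]
    have hsplit : Q.map s.symm =
        (Q.take m).map s.symm ++ 0 :: (Q.drop (m + 1)).map s.symm := by
      conv_lhs => rw [← List.take_append_drop m Q, List.drop_eq_getElem_cons hmQ]
      rw [List.map_append, List.map_cons, ← hc, hsc]
    refine ⟨ρ, (Q.take m).map s.symm, (Q.drop (m + 1)).map s.symm, fun q => y (s q), ?_, ?_,
      ?_, ?_, ?_⟩
    · rw [← hsplit]
      exact hQ.map s.symm.injective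
    · rw [← hsplit]
      intro q hq
      have h1 := hQ2 _ ((mem_map_symm s Q q).1 hq)
      by_contra h2
      push Not at h2
      have h3 : s q = q := by
        simp only [s]
        exact Equiv.swap_apply_of_ne_of_ne (by omega) (by omega)
      omega
    · rw [List.length_map, List.length_take]; omega
    · rw [List.length_map, List.length_drop]; omega
    · rw [← hsplit, PQ_relabel α Q y ρ s hs]
      exact hne

end Pool.Agent.P5e96
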