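import Mathlib
import Pool.Agent.Lib.P5e96.BlockScaleSet

/-!
# Block scaling with three kinds of letters
-/

open Finset Matrix

namespace Pool.Agent.P5e96

variable {K : Type*} [Field K] {ι : Type*} [DecidableEq ι] [Fintype ι] {r : ℕ}

theorem scal_list_steps (S₁ S₂ : Finset ℕ) (hS : Disjoint S₁ S₂) (x : K) (l : List ℕ) :
    (l.map fun q => if q ∈ S₂ then x else if q ∈ S₁ then x⁻¹ else 1).prod =
      x ^ cin S₂ l * x⁻¹ ^ cin S₁ l := by
  induction l with
  | nil => simp [cin]
  | cons q l ih =>
    rw [List.map_cons, List.prod_cons, ih]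
    by_cases h2 : q ∈ S₂
    · have h1 : q ∉ S₁ := fun h => Finset.disjoint_left.1 hS h h2
      have e1 : cin S₁ (q :: l) = cin S₁ l := by simp [cin, h1]
      have e2 : cin S₂ (q :: l) = cin S₂ l + 1 := by simp [cin, h2]
      rw [if_pos h2, e1, e2, pow_succ]
      ring
    · by_cases h1 : q ∈ S₁
      · have e1 : cin S₁ (q :: l) = cin S₁ l + 1 := by simp [cin, h1]
        have e2 : cin S₂ (q :: l) = cin S₂ l := by simp [cin, h2]
        rw [if_neg h2, if_pos h1, e1, e2, pow_succ]
        ring
      · have e1 : cin S₁ (q :: l) = cin S₁ l := by simp [cin, h1]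
        have e2 : cin S₂ (q :: l) = cin S₂ l := by simp [cin, h2]
        rw [if_neg h2, if_neg h1, e1, e2, one_mul]

/-- Block scaling: the letters of `S₂` are scaled by the scale, those of `S₁` by the inverse scale,
the others not at all; the pencil is considered on the matrices with zero diagonal blocks. -/
theorem block_scale_steps {ι : Type*} [DecidableEq ι] [Fintype ι] [Infinite K] {κ : Type*}
    (col : ι → κ) (α : Equiv.Perm (Fin (r + 1)) → K) (C : ℕ → Matrix ι ι K)
    (hC : ∀ q i j, col i ≠ col j → C q i j = 0) (S₁ S₂ : Finset ℕ) (hS : Disjoint S₁ S₂)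
    (hg : ∀ X : Matrix ι ι K, (∀ i j, col i = col j → X i j = 0) →
      (∑ σ : Equiv.Perm (Fin (r + 1)),
        if (∀ q ∈ preL σ, q ∉ S₂) ∧ (∀ q ∈ postL σ, q ∉ S₁) then α σ • act C σ X else 0) = 0 →
      X = 0)
    (X₀ : Matrix ι ι K) (T : Matrix ι ι K)
    (hT : ∀ i j, col i = col j → mval α (fun q => if q = 0 then X₀ else C q) i j = T i j) :
    ∃ A : Fin (r + 1) → Matrix ι ι K, mval α A = T := by
  classical
  set E : Equiv.Perm (Fin (r + 1)) → Matrix ι ι K →ₗ[K] Matrix ι ι K :=
    fun σ => α σ • act C σ with hE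
  set e : Equiv.Perm (Fin (r + 1)) → ℕ := fun σ => cin S₂ (preL σ) + cin S₁ (postL σ) with he
  have hPC : ∀ a q, Commute (proj col a) (C q) := fun a q =>
    block_commute col (C q) (hC q) (fun b => if b = a then 1 else 0)
  have hPl : ∀ a (l : List ℕ), Commute (proj col a) (l.map C).prod := by
    intro a l
    exact (prod_map_mul _ C (fun q => hPC a q) l).2
  have hPE : ∀ a b σ X, proj col a * E σ X * proj col b = E σ (proj col a * X * proj col b) := by
    intro a b σ X
    simp only [hE, LinearMap.smul_apply, act_apply, mul_smul_comm, smul_mul_assoc]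
    congr 1
    have h1 := (hPl a (preL σ)).eq
    have h2 := (hPl b (postL σ)).eq
    calc proj col a * (((preL σ).map C).prod * (X * ((postL σ).map C).prod)) * proj col b
        = (proj col a * ((preL σ).map C).prod) * X *
          (((postL σ).map C).prod * proj col b) := by noncomm_ring
      _ = (((preL σ).map C).prod * proj col a) * X *
          (proj col b * ((postL σ).map C).prod) := by rw [h1, h2]
      _ = _ := by noncomm_ring
  -- the invariant subspace
  set O : Submodule K (Matrix ι ι K) :=
    { carrier := {X | ∀ a, proj col a * X * proj col a = 0}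
      add_mem' := by
        intro X Y hX hY a
        rw [mul_add, add_mul, hX a, hY a, add_zero]
      zero_mem' := by intro a; simp
      smul_mem' := by
        intro c X hX a
        rw [mul_smul_comm, smul_mul_assoc, hX a, smul_zero] } with hO
  have hmemO : ∀ X, X ∈ O ↔ ∀ a, proj col a * X * proj col a = 0 := fun X => Iff.rfl
  have hEO : ∀ σ, ∀ X ∈ O, E σ X ∈ O := by
    intro σ X hX a
    rw [hPE, (hmemO X).1 hX a, map_zero]
  have hO0 : ∀ X ∈ O, ∀ i j, col i = col j → X i j = 0 := by
    intro X hX i j hij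
    have h1 := congrFun (congrFun ((hmemO X).1 hX (col i)) i) j
    rw [proj_mul_mul_proj, if_pos ⟨rfl, hij.symm⟩] at h1
    exact h1
  set EO : Equiv.Perm (Fin (r + 1)) → O →ₗ[K] O := fun σ => (E σ).restrict (hEO σ) with hEOd
  have hEOv : ∀ (z : K) (X : O),
      (((∑ i, z ^ e i • EO i : O →ₗ[K] O) X : O) : Matrix ι ι K) = ∑ i, z ^ e i • E i (X : Matrix ι ι K) := by
    intro z X
    rw [LinearMap.sum_apply, Submodule.coe_sum]
    rfl
  have hfin := finite_bad EO e (by
    rw [injective_iff_map_eq_zero]
    intro X hX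
    apply Subtype.ext
    apply hg (X : Matrix ι ι K) (hO0 _ X.2)
    have h0 := congrArg Subtype.val hX
    refine Eq.trans ?_ ((hEOv 0 X).symm.trans h0)
    refine Finset.sum_congr rfl fun σ _ => ?_
    by_cases h : (∀ q ∈ preL σ, q ∉ S₂) ∧ (∀ q ∈ postL σ, q ∉ S₁)
    · have h1 : e σ = 0 := by
        simp only [he, cin, Nat.add_eq_zero_iff, List.countP_eq_zero, decide_eq_true_eq]
        exact h
      rw [if_pos h, h1, pow_zero, one_smul]
      rfl
    · have h1 : e σ ≠ 0 := by
        intro h2
        apply h
        simp only [he, cin, Nat.add_eq_zero_iff, List.countP_eq_zero, decide_eq_true_eq] at h2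
        exact h2
      rw [if_neg h, zero_pow h1, zero_smul])
  obtain ⟨s, hs0, hs⟩ := exists_scales (univ.image col)
    {z : K | ¬ Function.Injective (∑ i, z ^ e i • EO i : O →ₗ[K] O)} hfin
  set t : ℕ → κ → K := fun q a => if q ∈ S₂ then s a else if q ∈ S₁ then (s a)⁻¹ else 1 with ht
  set D : ℕ → Matrix ι ι K := fun q => Matrix.diagonal fun i => t q (col i) with hD
  have hDC : ∀ p q, Commute (D p) (C q) := fun p q => block_commute col (C q) (hC q) (t p)
  set τ : List ℕ → κ → K := fun l a => (l.map fun q => t q a).prod with hτ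
  have hDl : ∀ l : List ℕ, (l.map D).prod = Matrix.diagonal fun i => τ l (col i) := fun l =>
    list_diagonal col t l
  have hτs : ∀ l a, τ l a = s a ^ cin S₂ l * (s a)⁻¹ ^ cin S₁ l := fun l a =>
    scal_list_steps S₁ S₂ hS (s a) l
  -- the common factor
  set c : κ → κ → K := fun a b =>
    (s a)⁻¹ ^ (cin S₁ (preL (1 : Equiv.Perm (Fin (r + 1)))) +
      cin S₁ (postL (1 : Equiv.Perm (Fin (r + 1))))) *
    s b ^ (cin S₂ (preL (1 : Equiv.Perm (Fin (r + 1)))) +
      cin S₂ (postL (1 : Equiv.Perm (Fin (r + 1))))) with hc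
  have hc0 : ∀ a b, c a b ≠ 0 := fun a b =>
    mul_ne_zero (pow_ne_zero _ (inv_ne_zero (hs0 a))) (pow_ne_zero _ (hs0 b))
  have hfac : ∀ a b σ, τ (preL σ) a * τ (postL σ) b = c a b * (s a / s b) ^ e σ := by
    intro a b σ
    rw [hτs, hτs, scal_algebra (hs0 a) (hs0 b)]
    have h1 : cin S₁ (preL σ) + cin S₁ (postL σ) = _ := count_split _ σ
    have h2 : cin S₂ (preL σ) + cin S₂ (postL σ) = _ := count_split _ σ
    rw [h1, h2]
    rfl
  -- the linear map
  set L : Matrix ι ι K →ₗ[K] Matrix ι ι K := ∑ σ : Equiv.Perm (Fin (r + 1)),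
    (LinearMap.mulLeft K (Matrix.diagonal fun i => τ (preL σ) (col i)) ∘ₗ
      LinearMap.mulRight K (Matrix.diagonal fun i => τ (postL σ) (col i))) ∘ₗ E σ with hL
  have hLX : ∀ X, L X = mval α (fun q => if q = 0 then X else D q * C q) := by
    intro X
    rw [hL, LinearMap.sum_apply, mval]
    refine Finset.sum_congr rfl fun σ _ => ?_
    rw [ofFn_split σ X (fun q => D q * C q) _ (if_pos rfl) (fun q hq => if_neg hq),
      List.prod_append, List.prod_cons, (list_scaled D C hDC _).1, (list_scaled D C hDC _).1,
      hDl, hDl]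
    have h1 : Commute (Matrix.diagonal fun i => τ (postL σ) (col i))
        (((postL σ).map C).prod) := by
      rw [← hDl]
      refine Commute.list_prod_left _ _ ?_
      intro M hM
      obtain ⟨p, _, rfl⟩ := List.mem_map.1 hM
      exact (list_scaled D C hDC _).2 p
    rw [h1.eq]
    simp only [hE, LinearMap.comp_apply, LinearMap.smul_apply, LinearMap.mulRight_apply,
      LinearMap.mulLeft_apply, act_apply, smul_mul_assoc, mul_smul_comm, mul_assoc]
  have hPL : ∀ a b X, proj col a * L X * proj col b =
      c a b • (∑ i, (s a / s b) ^ e i • E i : Matrix ι ι K →ₗ[K] Matrix ι ι K)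
        (proj col a * X * proj col b) := by
    intro a b X
    rw [hL, LinearMap.sum_apply, Finset.mul_sum, Finset.sum_mul, LinearMap.sum_apply,
      Finset.smul_sum]
    refine Finset.sum_congr rfl fun σ _ => ?_
    calc proj col a * ((LinearMap.mulLeft K (Matrix.diagonal fun i => τ (preL σ) (col i)) ∘ₗ
            LinearMap.mulRight K (Matrix.diagonal fun i => τ (postL σ) (col i))) ∘ₗ E σ) X *
            proj col b
        = (proj col a * Matrix.diagonal fun i => τ (preL σ) (col i)) * E σ X *
          ((Matrix.diagonal fun i => τ (postL σ) (col i)) * proj col b) := by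
          simp only [LinearMap.comp_apply, LinearMap.mulRight_apply, LinearMap.mulLeft_apply]
          noncomm_ring
      _ = (τ (preL σ) a * τ (postL σ) b) • (proj col a * E σ X * proj col b) := by
          rw [proj_mul_dg, dg_mul_proj]
          simp only [smul_mul_assoc, mul_smul_comm, smul_smul, mul_comm]
      _ = c a b • ((s a / s b) ^ e σ • E σ (proj col a * X * proj col b)) := by
          rw [hPE, smul_smul, hfac]
      _ = _ := rfl
  have hLO : ∀ X ∈ O, L X ∈ O := by
    intro X hX a
    rw [hPL, (hmemO X).1 hX a, map_zero, smul_zero]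
  have hinj : ∀ X ∈ O, L X = 0 → X = 0 := by
    intro X hX hLX0
    ext i j
    by_cases hij : col i = col j
    · exact hO0 X hX i j hij
    · have h1 := hPL (col i) (col j) X
      rw [hLX0, mul_zero, zero_mul] at h1
      have h2 : (∑ k, (s (col i) / s (col j)) ^ e k • E k : Matrix ι ι K →ₗ[K] Matrix ι ι K)
          (proj col (col i) * X * proj col (col j)) = 0 := by
        rcases smul_eq_zero.1 h1.symm with h3 | h3
        · exact absurd h3 (hc0 _ _)
        · exact h3
      have hY : proj col (col i) * X * proj col (col j) ∈ O := by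
        intro a
        ext i' j'
        rw [proj_mul_mul_proj]
        split_ifs with h
        · rw [proj_mul_mul_proj]
          rw [if_neg]
          · rfl
          · rintro ⟨h6, h7⟩
            exact hij (h6.symm.trans (h.1.trans (h.2.symm.trans h7)))
        · rfl
      have h4 := hs (col i) (Finset.mem_image_of_mem _ (mem_univ _)) (col j)
        (Finset.mem_image_of_mem _ (mem_univ _)) hij
      rw [Set.mem_ofPred_eq, not_not] at h4
      have h2' : (∑ k, (s (col i) / s (col j)) ^ e k • EO k : O →ₗ[K] O)
          ⟨proj col (col i) * X * proj col (col j), hY⟩ = 0 := by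
        apply Subtype.ext
        rw [hEOv]
        refine Eq.trans ?_ h2
        rw [LinearMap.sum_apply]
        rfl
      have h5 := congrArg Subtype.val ((injective_iff_map_eq_zero _).1 h4 _ h2')
      have h6 := congrFun (congrFun h5 i) j
      change (proj col (col i) * X * proj col (col j) : Matrix ι ι K) i j = 0 at h6
      rw [proj_mul_mul_proj, if_pos ⟨rfl, rfl⟩] at h6
      exact h6
  have hsurj : Function.Surjective (L.restrict hLO) := by
    rw [← LinearMap.injective_iff_surjective]
    rw [injective_iff_map_eq_zero]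
    rintro ⟨X, hX⟩ h
    have h1 : L X = 0 := congrArg Subtype.val h
    exact Subtype.ext (hinj X hX h1)
  -- the diagonal part
  set X₁ : Matrix ι ι K := fun i j => (c (col j) (col j))⁻¹ * X₀ i j with hX₁
  have hval : ∀ X, mval α (fun q : Fin (r + 1) => if q = 0 then X else C q) =
      ∑ σ, E σ X := by
    intro X
    have h1 : (fun q : Fin (r + 1) => if q = 0 then X else C q) =
        fun q : Fin (r + 1) => if q = 0 then X else (1 : Matrix ι ι K) * C q := by
      funext q
      rw [one_mul]
    rw [h1, mval_scaled α 1 X C (fun q => Commute.one_left _)]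
    refine Finset.sum_congr rfl fun σ _ => ?_
    rw [one_pow, one_pow, one_mul, mul_one]
    rfl
  have hdiag : ∀ i j, col i = col j → L X₁ i j = T i j := by
    intro i j hij
    rw [← hT i j hij]
    have h1 := hPL (col j) (col j) X₁
    have h2 : proj col (col j) * X₁ * proj col (col j) =
        (c (col j) (col j))⁻¹ • (proj col (col j) * X₀ * proj col (col j)) := by
      ext a b
      rw [Matrix.smul_apply, proj_mul_mul_proj, proj_mul_mul_proj]
      by_cases h : col a = col j ∧ col b = col j
      · rw [if_pos h, if_pos h, hX₁]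
        simp only [h.2, smul_eq_mul]
      · rw [if_neg h, if_neg h, smul_zero]
    have h3 := congrFun (congrFun h1 i) j
    rw [proj_mul_mul_proj, if_pos ⟨hij, rfl⟩] at h3
    rw [h3, h2, map_smul, smul_smul, mul_inv_cancel₀ (hc0 _ _), one_smul,
      LinearMap.sum_apply, hval]
    rw [div_self (hs0 _)]
    have h4 : ∀ σ, ((1 : K) ^ e σ • E σ) (proj col (col j) * X₀ * proj col (col j)) =
        proj col (col j) * E σ X₀ * proj col (col j) := by
      intro σ
      rw [one_pow, one_smul, hPE]
    simp only [h4, Matrix.sum_apply]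
    refine Finset.sum_congr rfl fun σ _ => ?_
    rw [proj_mul_mul_proj, if_pos ⟨hij, rfl⟩]
  have hTO : T - L X₁ ∈ O := by
    intro a
    ext i j
    rw [proj_mul_mul_proj]
    split_ifs with h
    · rw [Matrix.sub_apply, hdiag i j (h.1.trans h.2.symm), sub_self]
      rfl
    · rfl
  obtain ⟨⟨X, hX⟩, hXT⟩ := hsurj ⟨T - L X₁, hTO⟩
  refine ⟨fun q => if q = 0 then X₁ + X else D q * C q, ?_⟩
  have h5 : L X = T - L X₁ := congrArg Subtype.val hXT
  rw [← hLX, map_add, h5]
  abel

end Pool.Agent.P5e96
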