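import Mathlib
import Pool.Agent.Lib.P5e96.UTPoly
import Pool.Agent.Lib.P5e96.Complete
import Pool.Agent.Lib.P5e96.BlockScaleSteps

/-!
# Values of multilinear polynomials that are no identities of upper triangular matrices
-/

open Finset MvPolynomial Matrix

namespace Pool.Agent.P5e96

variable {K : Type*} [Field K] {r : ℕ}

section

variable {ι : Type*} [DecidableEq ι] [Fintype ι]

/-- The coefficient polynomials of the coupling. -/
noncomputable def gamU (π : Equiv.Perm ι) (e : ℕ → ℕ) (α : Equiv.Perm (Fin (r + 1)) → K)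
    (S₁ S₂ : Finset ℕ) (i j : ι) : MvPolynomial (ℕ × ι) K :=
  ∑ σ : Equiv.Perm (Fin (r + 1)), if goodU S₁ S₂ σ then
    monomial (expoG π e (preL σ) i + expoG π e (postL σ) j) (α σ) else 0

theorem sumU_apply (π : Equiv.Perm ι) (Q₁ Q₂ : List ℕ) (hQ : (Q₁ ++ 0 :: Q₂).Nodup)
    (hQr : ∀ q ∈ Q₁ ++ 0 :: Q₂, q < r + 1) (k : ℕ) (α : Equiv.Perm (Fin (r + 1)) → K)
    (w : ℕ × ι → K) (X : Matrix ι ι K) (i j : ι) :
    (∑ σ : Equiv.Perm (Fin (r + 1)), if goodU Q₁.toFinset Q₂.toFinset σ then
      α σ • act (cmatG π (eU (Q₁ ++ 0 :: Q₂) k) w) σ X else 0) i ((π ^ Q₂.length) j) =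
      eval w (gamU π (eU (Q₁ ++ 0 :: Q₂) k) α Q₁.toFinset Q₂.toFinset i j) *
        X ((π ^ Q₁.length) i) j := by
  rw [Matrix.sum_apply, gamU, map_sum, Finset.sum_mul]
  refine Finset.sum_congr rfl fun σ _ => ?_
  by_cases h : goodU Q₁.toFinset Q₂.toFinset σ
  · rw [if_pos h, if_pos h]
    obtain ⟨hp1, hp2⟩ := goodU_tot Q₁ Q₂ hQ hQr k σ h
    rw [Matrix.smul_apply, act_apply, Matrix.mul_apply,
      Finset.sum_eq_single ((π ^ Q₁.length) i)]
    · rw [cmatG_prod, if_pos (by rw [hp1]), Matrix.mul_apply,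
        Finset.sum_eq_single j]
      · rw [cmatG_prod, if_pos (by rw [hp2])]
        simp only [eval_monomial, one_mul, smul_eq_mul]
        rw [Finsupp.prod_add_index' (by simp) (by intros; rw [pow_add])]
        ring
      · intro b _ hb
        rw [cmatG_prod, if_neg, mul_zero]
        rw [hp2]
        intro h2
        exact hb ((π ^ Q₂.length).injective h2.symm)
      · intro h2
        exact absurd (mem_univ _) h2
    · intro b _ hb
      rw [cmatG_prod, if_neg, zero_mul]
      rw [hp1]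
      exact hb
    · intro h2
      exact absurd (mem_univ _) h2
  · rw [if_neg h, if_neg h, map_zero, zero_mul]
    rfl

omit [Fintype ι] in
/-- The coefficient polynomials do not vanish if the walk has different vertices. -/
theorem gamU_ne_zero (π : Equiv.Perm ι) (Q₁ Q₂ : List ℕ) (hQ : (Q₁ ++ 0 :: Q₂).Nodup)
    (hQr : ∀ q ∈ Q₁ ++ 0 :: Q₂, q < r + 1) (k : ℕ) (α : Equiv.Perm (Fin (r + 1)) → K)
    (y : ℕ → ℕ → K) (hy : PQ α (Q₁ ++ 0 :: Q₂) y ≠ 0) (i j : ι)
    (hi : ∀ a b, a ≤ Q₁.length → b ≤ Q₁.length → (π ^ a) i = (π ^ b) i → a = b)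
    (hj : ∀ a b, a ≤ Q₂.length → b ≤ Q₂.length → (π ^ a) j = (π ^ b) j → a = b)
    (hij : ∀ a b, a ≤ Q₁.length → b ≤ Q₂.length → (π ^ a) i ≠ (π ^ b) j) :
    gamU π (eU (Q₁ ++ 0 :: Q₂) k) α Q₁.toFinset Q₂.toFinset i j ≠ 0 := by
  set Q := Q₁ ++ 0 :: Q₂ with hQdef
  set t := Q₁.length with ht
  set V : ℕ → ι := fun τ => if τ ≤ t then (π ^ τ) i else (π ^ (τ - t - 1)) j with hV
  obtain ⟨w, hw⟩ := exists_wt V (t + Q₂.length + 2) (by
    intro τ τ' h1 h2 h3
    rw [hV] at h3
    simp only at h3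
    by_cases c1 : τ ≤ t
    · by_cases c2 : τ' ≤ t
      · rw [if_pos c1, if_pos c2] at h3
        exact hi _ _ c1 c2 h3
      · rw [if_pos c1, if_neg c2] at h3
        exact absurd h3 (hij _ _ c1 (by omega))
    · by_cases c2 : τ' ≤ t
      · rw [if_neg c1, if_pos c2] at h3
        exact absurd h3.symm (hij _ _ c2 (by omega))
      · rw [if_neg c1, if_neg c2] at h3
        have := hj _ _ (by omega) (by omega) h3
        omega)
    (fun q τ => if q ∈ Q then (if Q[τ]? = some q then 1 else 0) else y q τ)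
  have hd := List.nodup_cons.1 (List.nodup_middle.1 hQ)
  -- the letters of `Q` by position
  have hget1 : ∀ τ q, τ ≤ t → q ≠ 0 → Q[τ]? = some q → τ < t ∧ q ∈ Q := by
    intro τ q h1 h2 h3
    refine ⟨?_, List.mem_of_getElem? h3⟩
    by_contra h4
    have h5 : τ = t := by omega
    rw [h5, hQdef, ht, List.getElem?_append_right le_rfl, Nat.sub_self,
      List.getElem?_cons_zero] at h3
    exact h2 (Option.some.inj h3).symm
  have hpre : ∀ σ : Equiv.Perm (Fin (r + 1)),
      pwt w π (eU Q k) (preL σ) i = zwt Q y (preL σ) 0 := by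
    intro σ
    obtain ⟨h01, h02⟩ := zero_notMem σ
    have h0 : V 0 = i := by
      rw [hV]
      simp
    conv_lhs => rw [← h0]
    refine pwt_eq_zwt w π (eU Q k) Q y V (fun τ => τ ≤ t) (preL σ)
      (fun τ hτ q _ => hw τ (by omega) q) (fun τ hτ q hq hqQ => ?_) (fun q hq hqQ => ?_) 0
      (Nat.zero_le _)
    · have hq0 : q ≠ 0 := fun h => h01 (h ▸ hq)
      obtain ⟨h1, h2⟩ := hget1 τ q hτ hq0 hqQ
      refine ⟨by omega, ?_⟩
      rw [eU, if_neg hq0, if_pos h2, hV]
      simp only
      rw [if_pos (by omega), if_pos (by omega), pow_one, pow_succ', Equiv.Perm.mul_apply]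
    · have hq0 : q ≠ 0 := fun h => h01 (h ▸ hq)
      rw [eU, if_neg hq0, if_neg hqQ]
  have hpost : ∀ σ : Equiv.Perm (Fin (r + 1)),
      pwt w π (eU Q k) (postL σ) j = zwt Q y (postL σ) (t + 1) := by
    intro σ
    obtain ⟨h01, h02⟩ := zero_notMem σ
    have h0 : V (t + 1) = j := by
      rw [hV]
      simp
    conv_lhs => rw [← h0]
    refine pwt_eq_zwt w π (eU Q k) Q y V (fun τ => t + 1 ≤ τ ∧ τ ≤ t + 1 + Q₂.length) (postL σ)
      (fun τ hτ q _ => hw τ (by omega) q) (fun τ hτ q hq hqQ => ?_) (fun q hq hqQ => ?_) (t + 1)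
      ⟨le_rfl, by omega⟩
    · have hq0 : q ≠ 0 := fun h => h02 (h ▸ hq)
      have h2 : q ∈ Q := List.mem_of_getElem? hqQ
      obtain ⟨h3, _⟩ := List.getElem?_eq_some_iff.1 hqQ
      rw [hQdef, List.length_append, List.length_cons] at h3
      refine ⟨⟨by omega, by omega⟩, ?_⟩
      rw [eU, if_neg hq0, if_pos h2, hV]
      simp only
      rw [if_neg (by omega), if_neg (by omega), pow_one, ← Equiv.Perm.mul_apply, ← pow_succ',
        show τ - t - 1 + 1 = τ + 1 - t - 1 by omega]
    · have hq0 : q ≠ 0 := fun h => h02 (h ▸ hq)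
      rw [eU, if_neg hq0, if_neg hqQ]
  intro h0
  apply hy
  rw [← sum_goodU Q₁ Q₂ hQ hQr α y]
  have h1 : eval w (gamU π (eU Q k) α Q₁.toFinset Q₂.toFinset i j) = 0 := by rw [h0, map_zero]
  refine Eq.trans ?_ h1
  rw [gamU, map_sum]
  refine Finset.sum_congr rfl fun σ _ => ?_
  split_ifs with hg
  · rw [← hpre σ, ← hpost σ, ← eval_expoG, ← eval_expoG]
    simp only [eval_monomial, one_mul]
    rw [Finsupp.prod_add_index' (by simp) (by intros; rw [pow_add])]
  · rw [map_zero]

omit [Fintype ι] in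
/-- The entries of the value of the whole polynomial do not vanish. -/
theorem delU_ne_zero (π : Equiv.Perm ι) (Q₁ Q₂ : List ℕ) (hQ : (Q₁ ++ 0 :: Q₂).Nodup)
    (hQr : ∀ q ∈ Q₁ ++ 0 :: Q₂, q < r + 1) (k : ℕ) (hk : 1 ≤ k)
    (α : Equiv.Perm (Fin (r + 1)) → K)
    (y : ℕ → ℕ → K) (hy : PQ α (Q₁ ++ 0 :: Q₂) y ≠ 0) (v : ι)
    (hv : ∀ a b, a ≤ Q₁.length + k + Q₂.length → b ≤ Q₁.length + k + Q₂.length →
      (π ^ a) v = (π ^ b) v → a = b) :
    delG π (eU (Q₁ ++ 0 :: Q₂) k) α v ≠ 0 := by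
  set Q := Q₁ ++ 0 :: Q₂ with hQdef
  set t := Q₁.length with ht
  set V : ℕ → ι := fun τ => if τ ≤ t then (π ^ τ) v else (π ^ (τ - 1 + k)) v with hV
  obtain ⟨w, hw⟩ := exists_wt V (t + Q₂.length + 2) (by
    intro τ τ' h1 h2 h3
    rw [hV] at h3
    simp only at h3
    by_cases c1 : τ ≤ t
    · by_cases c2 : τ' ≤ t
      · rw [if_pos c1, if_pos c2] at h3
        exact hv _ _ (by omega) (by omega) h3
      · rw [if_pos c1, if_neg c2] at h3
        have := hv _ _ (by omega) (by omega) h3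
        omega
    · by_cases c2 : τ' ≤ t
      · rw [if_neg c1, if_pos c2] at h3
        have := hv _ _ (by omega) (by omega) h3
        omega
      · rw [if_neg c1, if_neg c2] at h3
        have := hv _ _ (by omega) (by omega) h3
        omega)
    (fun q τ => if q ∈ Q then (if Q[τ]? = some q then 1 else 0) else y q τ)
  have hfull : ∀ σ : Equiv.Perm (Fin (r + 1)),
      pwt w π (eU Q k) (fullList σ) v = zwt Q y (fullList σ) 0 := by
    intro σ
    have h0 : V 0 = v := by
      rw [hV]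
      simp
    conv_lhs => rw [← h0]
    refine pwt_eq_zwt w π (eU Q k) Q y V (fun τ => τ ≤ t + 1 + Q₂.length) (fullList σ)
      (fun τ hτ q _ => hw τ (by omega) q) (fun τ hτ q hq hqQ => ?_) (fun q hq hqQ => ?_) 0
      (Nat.zero_le _)
    · have h2 : q ∈ Q := List.mem_of_getElem? hqQ
      obtain ⟨h3, h3'⟩ := List.getElem?_eq_some_iff.1 hqQ
      have h3'' := h3
      rw [hQdef, List.length_append, List.length_cons] at h3''
      refine ⟨by omega, ?_⟩
      rcases lt_trichotomy τ t with c | c | c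
      · have hq0 : q ≠ 0 := by
          rintro rfl
          have h6 : (0 : ℕ) ∈ Q₁ := by
            rw [hQdef, List.getElem?_append_left c] at hqQ
            exact List.mem_of_getElem? hqQ
          exact (List.nodup_cons.1 (List.nodup_middle.1 hQ)).1 (List.mem_append_left _ h6)
        rw [eU, if_neg hq0, if_pos h2, hV]
        simp only
        rw [if_pos (by omega), if_pos (by omega), pow_one, pow_succ', Equiv.Perm.mul_apply]
      · have hq0 : q = 0 := by
          rw [c, hQdef, ht, List.getElem?_append_right le_rfl, Nat.sub_self,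
            List.getElem?_cons_zero] at hqQ
          exact (Option.some.inj hqQ).symm
        rw [eU, if_pos hq0, hV]
        simp only
        rw [if_pos (by omega), if_neg (by omega), ← Equiv.Perm.mul_apply, ← pow_add,
          show k + τ = τ + 1 - 1 + k by omega]
      · have hq0 : q ≠ 0 := by
          rintro rfl
          have h6 : (0 : ℕ) ∈ Q₂ := by
            rw [hQdef, List.getElem?_append_right (by omega), ← ht,
              show τ - t = (τ - t - 1) + 1 by omega, List.getElem?_cons_succ] at hqQ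
            exact List.mem_of_getElem? hqQ
          exact (List.nodup_cons.1 (List.nodup_middle.1 hQ)).1 (List.mem_append_right _ h6)
        rw [eU, if_neg hq0, if_pos h2, hV]
        simp only
        rw [if_neg (by omega), if_neg (by omega), pow_one, ← Equiv.Perm.mul_apply, ← pow_succ',
          show τ - 1 + k + 1 = τ + 1 - 1 + k by omega]
    · have hq0 : q ≠ 0 := by
        rintro rfl
        exact hqQ (by rw [hQdef]; simp)
      rw [eU, if_neg hq0, if_neg hqQ]
  intro h0
  apply hy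
  rw [← sum_full Q hQ hQr α y]
  have h1 : eval w (delG π (eU Q k) α v) = 0 := by rw [h0, map_zero]
  refine Eq.trans ?_ h1
  rw [delG, map_sum]
  refine Finset.sum_congr rfl fun σ _ => ?_
  rw [← hfull σ, ← eval_expoG]
  simp only [eval_monomial, one_mul]

/-- All matrices whose diagonal blocks are a weighted power of `π` on the classes in `P` and zero on
the other classes are values. -/
theorem value_steps_aux [Infinite K] {κ : Type*} [DecidableEq κ] (col : ι → κ) (P : κ → Prop)
    [DecidablePred P]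
    (π : Equiv.Perm ι) (hcol : ∀ v, col (π v) = col v) (Q₁ Q₂ : List ℕ)
    (hQ : (Q₁ ++ 0 :: Q₂).Nodup) (hQr : ∀ q ∈ Q₁ ++ 0 :: Q₂, q < r + 1) (k : ℕ) (hk : 1 ≤ k)
    (α : Equiv.Perm (Fin (r + 1)) → K) (y : ℕ → ℕ → K) (hy : PQ α (Q₁ ++ 0 :: Q₂) y ≠ 0)
    (h1 : ∀ v, ∀ a b, a ≤ Q₁.length → b ≤ Q₁.length → (π ^ a) v = (π ^ b) v → a = b)
    (h2 : ∀ v, ∀ a b, a ≤ Q₂.length → b ≤ Q₂.length → (π ^ a) v = (π ^ b) v → a = b)
    (h3 : ∀ v, P (col v) → ∀ a b, a ≤ Q₁.length + k + Q₂.length →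
      b ≤ Q₁.length + k + Q₂.length → (π ^ a) v = (π ^ b) v → a = b) :
    ∃ d : ι → K, (∀ i, P (col i) → d i ≠ 0) ∧ ∀ T : Matrix ι ι K,
      (∀ i j, P (col i) → col i = col j → T i j =
        if j = (π ^ (Q₁.length + k + Q₂.length)) i then d i else 0) →
      (∀ i j, col i = col j → ¬ P (col i) → T i j = 0) →
      ∃ A : Fin (r + 1) → Matrix ι ι K, mval α A = T := by
  classical
  have hcolp : ∀ (a : ℕ) (v : ι), col ((π ^ a) v) = col v := by
    intro a
    induction a with
    | zero => intro v; simp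
    | succ a ih => intro v; rw [pow_succ', Equiv.Perm.mul_apply, hcol, ih]
  set Q := Q₁ ++ 0 :: Q₂ with hQdef
  set e := eU Q k with he
  set S₁ := Q₁.toFinset with hS₁
  set S₂ := Q₂.toFinset with hS₂
  have hdis : Disjoint S₁ S₂ := by
    rw [Finset.disjoint_left]
    intro q hq1 hq2
    rw [hS₁, List.mem_toFinset] at hq1
    rw [hS₂, List.mem_toFinset] at hq2
    exact (List.disjoint_of_nodup_append (List.nodup_cons.1 (List.nodup_middle.1 hQ)).2) hq1 hq2
  have hP : (∏ i, ∏ j ∈ univ.filter (fun j => col i ≠ col j), gamU π e α S₁ S₂ i j) *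
      ∏ v ∈ univ.filter (fun v => P (col v)), delG π e α v ≠ 0 := by
    refine mul_ne_zero ?_ ?_
    · refine Finset.prod_ne_zero_iff.2 fun i _ => Finset.prod_ne_zero_iff.2 fun j hj => ?_
      refine gamU_ne_zero π Q₁ Q₂ hQ hQr k α y hy i j (h1 i) (h2 j) ?_
      intro a b _ _ h
      have := congrArg col h
      rw [hcolp, hcolp] at this
      exact (Finset.mem_filter.1 hj).2 this
    · refine Finset.prod_ne_zero_iff.2 fun v hv => ?_
      exact delU_ne_zero π Q₁ Q₂ hQ hQr k hk α y hy v (h3 v (Finset.mem_filter.1 hv).2)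
  obtain ⟨w, hw⟩ := exists_eval_ne _ hP
  rw [map_mul] at hw
  have hw1 : ∀ i j, col i ≠ col j → eval w (gamU π e α S₁ S₂ i j) ≠ 0 := by
    intro i j hij
    have h1 := left_ne_zero_of_mul hw
    rw [map_prod] at h1
    have h2 := Finset.prod_ne_zero_iff.1 h1 i (mem_univ _)
    rw [map_prod] at h2
    exact Finset.prod_ne_zero_iff.1 h2 j (Finset.mem_filter.2 ⟨mem_univ _, hij⟩)
  have hw2 : ∀ v, P (col v) → eval w (delG π e α v) ≠ 0 := by
    intro v hv
    have h1 := right_ne_zero_of_mul hw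
    rw [map_prod] at h1
    exact Finset.prod_ne_zero_iff.1 h1 v (Finset.mem_filter.2 ⟨mem_univ _, hv⟩)
  refine ⟨fun v => eval w (delG π e α v), hw2, fun T hT1 hT2 => ?_⟩
  set C : ℕ → Matrix ι ι K := cmatG π e w with hC
  have hCb : ∀ q i j, col i ≠ col j → C q i j = 0 := fun q i j hij =>
    cmatG_block col π hcol e w q i j hij
  set pr : Matrix ι ι K := Matrix.diagonal fun i => if P (col i) then 1 else 0 with hpr
  have hcomm : ∀ l : List ℕ, Commute pr (l.map C).prod := by
    intro l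
    exact (prod_map_mul _ C (fun q => block_commute col (C q) (hCb q)
      (fun b => if P b then 1 else 0)) l).2
  refine block_scale_steps col α C hCb S₁ S₂ hdis (fun X hXh hX => ?_) (pr * C 0) T ?_
  · ext a j
    by_cases haj : col a = col j
    · exact hXh a j haj
    · obtain ⟨i, rfl⟩ := (π ^ Q₁.length).surjective a
      have h5 := sumU_apply π Q₁ Q₂ hQ hQr k α w X i j
      have h6 : (∑ σ : Equiv.Perm (Fin (r + 1)), if goodU Q₁.toFinset Q₂.toFinset σ then
        α σ • act (cmatG π (eU (Q₁ ++ 0 :: Q₂) k) w) σ X else 0) = 0 := hX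
      rw [h6, Matrix.zero_apply] at h5
      rw [Matrix.zero_apply]
      rw [hcolp] at haj
      exact (mul_eq_zero.1 h5.symm).resolve_left (hw1 i j haj)
  · intro i j hij
    rw [mval_act]
    have h1 : ∀ σ : Equiv.Perm (Fin (r + 1)),
        act C σ (pr * C 0) = pr * act C σ (C 0) := by
      intro σ
      rw [act_apply, act_apply, mul_assoc, ← mul_assoc _ pr, ← (hcomm (preL σ)).eq,
        mul_assoc]
    have h2 : (∑ σ : Equiv.Perm (Fin (r + 1)), α σ • act C σ (pr * C 0)) =
        pr * ∑ σ : Equiv.Perm (Fin (r + 1)), α σ • act C σ (C 0) := by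
      rw [Finset.mul_sum]
      refine Finset.sum_congr rfl fun σ _ => ?_
      rw [h1, mul_smul_comm]
    rw [h2, hpr, Matrix.diagonal_mul]
    have h3 := sumD_apply π e α w 1 i j
    rw [← hC, he, full_tot Q₁ Q₂ hQ hQr k 1] at h3
    rw [h3]
    by_cases hi : P (col i)
    · rw [if_pos hi, one_mul, hT1 i j hi hij, he]
    · rw [if_neg hi, zero_mul, hT2 i j hij hi]

end

/-- Hollow matrices are values. -/
theorem value_hollow_steps [Infinite K] {ι : Type*} [DecidableEq ι] [Fintype ι]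
    (Q₁ Q₂ : List ℕ)
    (hQ : (Q₁ ++ 0 :: Q₂).Nodup) (hQr : ∀ q ∈ Q₁ ++ 0 :: Q₂, q < r + 1)
    (α : Equiv.Perm (Fin (r + 1)) → K) (y : ℕ → ℕ → K) (hy : PQ α (Q₁ ++ 0 :: Q₂) y ≠ 0)
    (s : ℕ) (h1 : Q₁.length < s) (h2 : Q₂.length < s)
    {κ : Type*} (col : ι → κ) (hcol : ∀ i, s ≤ Set.ncard {j | col j = col i})
    (T : Matrix ι ι K) (hT : ∀ i j, col i = col j → T i j = 0) :
    ∃ A : Fin (r + 1) → Matrix ι ι K, mval α A = T := by
  classical
  have hcol' : ∀ i, s - 1 < (univ.filter fun j => col j = col i).card := by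
    intro i
    have h1 := hcol i
    rw [Set.ncard_eq_toFinset_card'] at h1
    have h2 : (Set.toFinset {j | col j = col i}) = univ.filter fun j => col j = col i := by
      ext j
      simp
    rw [h2] at h1
    omega
  obtain ⟨π, hπ1, hπ2⟩ := exists_perm col (s - 1) hcol'
  have key : ∀ v, ∀ a b, a ≤ s - 1 → b ≤ s - 1 → (π ^ a) v = (π ^ b) v → a = b := by
    intro v a b ha hb h
    rcases lt_trichotomy a b with c | c | c
    · exfalso
      obtain ⟨d, rfl⟩ := Nat.exists_eq_add_of_lt c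
      rw [show a + d + 1 = a + (d + 1) by ring, pow_add, Equiv.Perm.mul_apply] at h
      exact hπ2 v (d + 1) (by omega) (by omega) ((π ^ a).injective h).symm
    · exact c
    · exfalso
      obtain ⟨d, rfl⟩ := Nat.exists_eq_add_of_lt c
      rw [show b + d + 1 = b + (d + 1) by ring, pow_add, Equiv.Perm.mul_apply] at h
      exact hπ2 v (d + 1) (by omega) (by omega) ((π ^ b).injective h)
  obtain ⟨d, _, hd⟩ := value_steps_aux col (fun _ => False) π hπ1 Q₁ Q₂ hQ hQr 1 le_rfl α y hy
    (fun v a b ha hb => key v a b (by omega) (by omega))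
    (fun v a b ha hb => key v a b (by omega) (by omega))
    (fun v hv => hv.elim)
  exact hd T (fun i j h => h.elim) (fun i j hij _ => hT i j hij)

/-- All matrices with a suitable weighted cyclic shift as first diagonal block and zero as second
diagonal block are values. -/
theorem value_two_steps [Infinite K] {p s : ℕ} (Q₁ Q₂ : List ℕ)
    (hQ : (Q₁ ++ 0 :: Q₂).Nodup) (hQr : ∀ q ∈ Q₁ ++ 0 :: Q₂, q < r + 1)
    (α : Equiv.Perm (Fin (r + 1)) → K) (y : ℕ → ℕ → K) (hy : PQ α (Q₁ ++ 0 :: Q₂) y ≠ 0)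
    (h1 : Q₁.length < s) (h2 : Q₂.length < s) (h3 : Q₁.length + Q₂.length + 2 ≤ p) :
    ∃ d : Fin p → K, (∀ i, d i ≠ 0) ∧ ∀ T : Matrix (Fin p ⊕ Fin s) (Fin p ⊕ Fin s) K,
      (∀ i j : Fin p, T (Sum.inl i) (Sum.inl j) = if (i : ℕ) = (j + 1) % p then d i else 0) →
      (∀ i j : Fin s, T (Sum.inr i) (Sum.inr j) = 0) →
      ∃ A : Fin (r + 1) → Matrix (Fin p ⊕ Fin s) (Fin p ⊕ Fin s) K, mval α A = T := by
  set k : ℕ := p - 1 - (Q₁.length + Q₂.length) with hk
  set π : Equiv.Perm (Fin p ⊕ Fin s) := Equiv.sumCongr (finRotate p) (finRotate s) with hπ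
  have hinj : ∀ (N : ℕ) (v : Fin N) (a b : ℕ), a < N → b < N →
      ((finRotate N) ^ a) v = ((finRotate N) ^ b) v → a = b := by
    intro N v a b ha hb h
    rcases lt_trichotomy a b with c | c | c
    · exfalso
      obtain ⟨d, rfl⟩ := Nat.exists_eq_add_of_lt c
      rw [show a + d + 1 = a + (d + 1) by ring, pow_add, Equiv.Perm.mul_apply] at h
      exact rot_ne N (d + 1) v (by omega) (by omega) (((finRotate N) ^ a).injective h).symm
    · exact c
    · exfalso
      obtain ⟨d, rfl⟩ := Nat.exists_eq_add_of_lt c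
      rw [show b + d + 1 = b + (d + 1) by ring, pow_add, Equiv.Perm.mul_apply] at h
      exact rot_ne N (d + 1) v (by omega) (by omega) (((finRotate N) ^ b).injective h)
  have hshort : ∀ v, ∀ a b, a < p → b < p → a < s → b < s → (π ^ a) v = (π ^ b) v → a = b := by
    intro v a b ha hb ha' hb' h
    rcases v with v | v
    · rw [hπ, (sumCongr_pow _ _ a).1, (sumCongr_pow _ _ b).1] at h
      exact hinj p v a b ha hb (Sum.inl_injective h)
    · rw [hπ, (sumCongr_pow _ _ a).2, (sumCongr_pow _ _ b).2] at h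
      exact hinj s v a b ha' hb' (Sum.inr_injective h)
  obtain ⟨d, hd, hT⟩ := value_steps_aux (fun x : Fin p ⊕ Fin s => x.isLeft) (fun c => c = true) π
    (by rintro (v | v) <;> simp [hπ]) Q₁ Q₂ hQ hQr k (by omega) α y hy
    (fun v a b ha hb => hshort v a b (by omega) (by omega) (by omega) (by omega))
    (fun v a b ha hb => hshort v a b (by omega) (by omega) (by omega) (by omega))
    (fun v hv a b ha hb h => by
      rcases v with v | v
      · rw [hπ, (sumCongr_pow _ _ a).1, (sumCongr_pow _ _ b).1] at h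
        exact hinj p v a b (by omega) (by omega) (Sum.inl_injective h)
      · simp at hv)
  have htot : Q₁.length + k + Q₂.length = p - 1 := by omega
  refine ⟨fun i => d (Sum.inl i), fun i => hd _ rfl, fun T hT1 hT2 => hT T ?_ ?_⟩
  · rintro (i | i) (j | j) hi hj
    · rw [hT1, htot, hπ, (sumCongr_pow _ _ _).1]
      have h4 : ((i : ℕ) = (j + 1) % p) ↔
          (Sum.inl j : Fin p ⊕ Fin s) = Sum.inl ((finRotate p ^ (p - 1)) i) := by
        rw [Sum.inl.injEq, Fin.ext_iff, rot_pow]
        have hi2 := i.2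
        have hj2 := j.2
        by_cases h5 : (j : ℕ) + 1 < p
        · rw [Nat.mod_eq_of_lt h5]
          by_cases h6 : (i : ℕ) = 0
          · rw [h6, zero_add, Nat.mod_eq_of_lt (by omega)]
            omega
          · rw [Nat.mod_eq_sub_mod (by omega), Nat.mod_eq_of_lt (by omega)]
            omega
        · rw [show (j : ℕ) + 1 = p by omega, Nat.mod_self]
          by_cases h6 : (i : ℕ) = 0
          · rw [h6, zero_add, Nat.mod_eq_of_lt (by omega)]
            omega
          · rw [Nat.mod_eq_sub_mod (by omega), Nat.mod_eq_of_lt (by omega)]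
            omega
      by_cases h5 : (i : ℕ) = (j + 1) % p
      · rw [if_pos h5, if_pos (h4.1 h5)]
      · rw [if_neg h5, if_neg (fun h => h5 (h4.2 h))]
    · simp at hj
    · simp at hi
    · simp at hi
  · rintro (i | i) (j | j) hij hi
    · simp at hi
    · simp at hij
    · simp at hij
    · exact hT2 i j

end Pool.Agent.P5e96
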