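import Mathlib
import Pool.Agent.Lib.P5e96.UTValues
import Pool.Agent.Lib.P5e96.UTMid
import Pool.Agent.Lib.P5e96.UTExp
import Pool.Agent.Lib.P5e96.UTDeg
import Pool.Agent.Lib.P5e96.NilG
import Pool.Agent.Lib.P5e96.Symm
import Pool.Agent.Lib.P5e96.LowRank
import Pool.Agent.Lib.P5e96.FarForm

/-!
# Values of polynomials that are no identities of upper triangular matrices
-/

open Finset Matrix

namespace Pool.Agent.P5e96

section steps

variable {K : Type*} [Field K] {r : ℕ}

/-- `α` is not an identity of the upper triangular `k × k` matrices (or has small degree). -/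
def NotUT {m : ℕ} (α : Equiv.Perm (Fin m) → K) (k : ℕ) : Prop :=
  m + 1 ≤ 2 * k ∨ ∃ U : Fin m → Matrix (Fin k) (Fin k) K,
    (∀ q i j, j < i → U q i j = 0) ∧ mval α U ≠ 0

/-- The step letters around the letter `0`. -/
theorem exists_mid (α : Equiv.Perm (Fin (r + 1)) → K) (hα : α ≠ 0) (k : ℕ)
    (hk : NotUT α k) :
    ∃ (ρ : Equiv.Perm (Fin (r + 1))) (Q₁ Q₂ : List ℕ) (y : ℕ → ℕ → K),
      (Q₁ ++ 0 :: Q₂).Nodup ∧ (∀ q ∈ Q₁ ++ 0 :: Q₂, q < r + 1) ∧
      2 * Q₁.length + 1 ≤ k ∧ 2 * Q₂.length + 1 ≤ k ∧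
      (Q₁.length + Q₂.length + 2 ≤ k ∨ (Q₁.length = 0 ∧ Q₂.length = 0)) ∧
      PQ (fun τ => α (ρ * τ)) (Q₁ ++ 0 :: Q₂) y ≠ 0 := by
  obtain ⟨Q, y, hQ, hQr, hQk, hne⟩ : ∃ (Q : List ℕ) (y : ℕ → ℕ → K), Q.Nodup ∧
      (∀ q ∈ Q, q < r + 1) ∧ Q.length + 1 ≤ k ∧ PQ α Q y ≠ 0 := by
    rcases hk with hk | ⟨U, hU, hne⟩
    · exact exists_PQ_of_degree α hα k (by omega)
    · exact exists_PQ α k U hU hne
  obtain ⟨ρ, Q₁, Q₂, y', h1, h2, h3, h4, h5⟩ := exists_PQ_mid α Q y hQ hQr hne
  exact ⟨ρ, Q₁, Q₂, y', h1, h2, by omega, by omega, by omega, h5⟩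

end steps

variable {K : Type*} [Field K]

theorem value_relabel {ι : Type*} [Fintype ι] [DecidableEq ι] {r : ℕ}
    (α : Equiv.Perm (Fin (r + 1)) → K)
    (ρ : Equiv.Perm (Fin (r + 1))) (T : Matrix ι ι K)
    (h : ∃ A : Fin (r + 1) → Matrix ι ι K, mval (fun τ => α (ρ * τ)) A = T) :
    ∃ A : Fin (r + 1) → Matrix ι ι K, mval α A = T := by
  obtain ⟨A, hA⟩ := h
  refine ⟨fun q => A (ρ.symm q), ?_⟩
  rw [← hA, mval, mval, ← Equiv.sum_comp (Equiv.mulLeft ρ)]
  refine Finset.sum_congr rfl fun τ _ => ?_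
  simp [Equiv.Perm.mul_apply]

/-- Every matrix whose diagonal blocks vanish is a value, if the classes have at least
`⌈k / 2⌉` elements. -/
theorem value_hollow_ut [Infinite K] {ι : Type*} [DecidableEq ι] [Fintype ι] {m : ℕ}
    (hm : 1 ≤ m) (α : Equiv.Perm (Fin m) → K) (hα : α ≠ 0) (k : ℕ) (hk : NotUT α k)
    {κ : Type*} (col : ι → κ) (hcol : ∀ i, (k + 1) / 2 ≤ Set.ncard {j | col j = col i})
    (T : Matrix ι ι K) (hT : ∀ i j, col i = col j → T i j = 0) :
    ∃ A : Fin m → Matrix ι ι K, mval α A = T := by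
  obtain ⟨r, rfl⟩ : ∃ r, m = r + 1 := ⟨m - 1, by omega⟩
  obtain ⟨ρ, Q₁, Q₂, y, h1, h2, h3, h4, h5, h6⟩ := exists_mid α hα k hk
  exact value_relabel α ρ T (value_hollow_steps Q₁ Q₂ h1 h2 _ y h6 ((k + 1) / 2) (by omega)
    (by omega) col hcol T hT)

/-- A matrix is a value as soon as it has vanishing diagonal blocks in some basis. -/
theorem value_of_basis_hollow_ut [Infinite K] {m : ℕ} (hm : 1 ≤ m)
    (α : Equiv.Perm (Fin m) → K) (hα : α ≠ 0) (k : ℕ) (hk : NotUT α k)
    {n : ℕ} (T : Matrix (Fin n) (Fin n) K) {ι : Type*} [Fintype ι] [DecidableEq ι]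
    (b : Module.Basis ι K (Fin n → K)) {κ : Type*} (col : ι → κ)
    (hcol : ∀ i, (k + 1) / 2 ≤ Set.ncard {j | col j = col i})
    (hT : ∀ i j, col i = col j → b.repr (T *ᵥ b j) i = 0) :
    ∃ A : Fin m → Matrix (Fin n) (Fin n) K, mval α A = T := by
  refine value_of_toMatrix α T b (value_hollow_ut hm α hα k hk col hcol _ fun i j hij => ?_)
  rw [LinearMap.toMatrix_apply, Matrix.toLin'_apply]
  exact hT i j hij

/-- Every balanced matrix of size at least `2 * ⌈k / 2⌉` is a value. -/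
theorem value_of_bal_ut [Infinite K] {m : ℕ} (hm : 1 ≤ m)
    (α : Equiv.Perm (Fin m) → K) (hα : α ≠ 0) (k : ℕ) (hk : NotUT α k)
    {n : ℕ} (hn : 2 * ((k + 1) / 2) ≤ n)
    (T : Matrix (Fin n) (Fin n) K) (hT : Bal (Matrix.toLin' T)) :
    ∃ A : Fin m → Matrix (Fin n) (Fin n) K, mval α A = T := by
  classical
  obtain ⟨ι, hι, b, col, h1, h2, h3⟩ := hT
  have hcard : (univ.filter fun i => col i = true).card +
      (univ.filter fun i => col i = false).card = n := by
    have h4 : (univ.filter fun i => col i = false) = univ.filter fun i => ¬ col i = true := by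
      ext i
      simp
    rw [h4, Finset.card_filter_add_card_filter_not, Finset.card_univ,
      ← Module.finrank_eq_card_basis b, Module.finrank_fin_fun]
  refine value_of_basis_hollow_ut hm α hα k hk T b col ?_ ?_
  · intro i
    have h5 : Set.ncard {j | col j = col i} = (univ.filter fun j => col j = col i).card := by
      rw [Set.ncard_eq_toFinset_card']
      congr 1
      ext j
      simp
    rw [h5]
    cases col i <;> omega
  · intro i j hij
    have h6 := h1 j
    rw [Module.Basis.mem_span_image] at h6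
    by_contra h7
    exact h6 (Finsupp.mem_support_iff.2 h7) hij

/-- Every trace-zero matrix with a cyclic vector is a value if `2 ≤ k` and `3 * k ≤ 2 * n`. -/
theorem value_of_cyclic_ut [Infinite K] {m : ℕ} (hm : 1 ≤ m) (α : Equiv.Perm (Fin m) → K)
    (hα : α ≠ 0) (k : ℕ) (hk : NotUT α k) (hk2 : 2 ≤ k) {n : ℕ} (hn : 3 * k ≤ 2 * n)
    (T : Matrix (Fin n) (Fin n) K)
    (hT : T.trace = 0) (v : Fin n → K)
    (hv : LinearIndependent K fun i : Fin n => (T ^ (i : ℕ)) *ᵥ v) :
    ∃ A : Fin m → Matrix (Fin n) (Fin n) K, mval α A = T := by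
  obtain ⟨r, rfl⟩ : ∃ r, m = r + 1 := ⟨m - 1, by omega⟩
  obtain ⟨ρ, Q₁, Q₂, y, h1, h2, h3, h4, h5, h6⟩ := exists_mid α hα k hk
  refine value_relabel α ρ T ?_
  obtain ⟨d, hd, hval⟩ := value_two_steps (K := K) (p := n - (k + 1) / 2)
    (s := (k + 1) / 2) Q₁ Q₂ h1 h2 _ y h6 (by omega) (by omega) (by omega)
  obtain ⟨b, hb1, hb2⟩ := exists_completion (p := n - (k + 1) / 2)
    (s := (k + 1) / 2) (by omega) (by omega) (by omega) T hT v hv d hd
  refine value_of_toMatrix _ T b (hval _ (fun i j => ?_) (fun i j => ?_))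
  · rw [LinearMap.toMatrix_apply, Matrix.toLin'_apply]
    exact hb1 i j
  · rw [LinearMap.toMatrix_apply, Matrix.toLin'_apply]
    exact hb2 i j

theorem lowM_hollow (s : ℕ)
    {ρ N : ℕ} (hN : 6 * s ≤ N) (t : Matrix (Fin ρ) (Fin ρ) K) (ht : t.trace = 0) :
    ∃ (R Ri : Matrix ((Fin ρ ⊕ Fin ρ) ⊕ Fin N) ((Fin ρ ⊕ Fin ρ) ⊕ Fin N) K)
      (col : (Fin ρ ⊕ Fin ρ) ⊕ Fin N → ℕ), R * Ri = 1 ∧ Ri * R = 1 ∧
      (∀ i, s ≤ Set.ncard {j | col j = col i}) ∧
      ∀ i j, col i = col j → (Ri * lowM N t * R) i j = 0 := by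
  set S : Matrix (Fin ρ) (Fin ρ) K := Matrix.of fun i j =>
    if (i : ℕ) = j then 0 else if (j : ℕ) + 1 = i then 1
    else if (i : ℕ) + 1 = j then t i j - 1 else if (i : ℕ) + 1 < j then t i j else 0 with hS
  have hS0 : S.trace = 0 := by
    rw [Matrix.trace]
    refine Finset.sum_eq_zero fun i _ => ?_
    rw [Matrix.diag_apply, hS, Matrix.of_apply, if_pos rfl]
  obtain ⟨P2, Q2, col2, hPQ2, hQP2, hc2, hz2⟩ := good3_hess S hS0
    (fun i j hij => by
      rw [hS, Matrix.of_apply, if_neg (by omega), if_neg (by omega), if_neg (by omega),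
        if_neg (by omega)])
    (fun i j hij => by
      rw [hS, Matrix.of_apply, if_neg (by omega), if_pos hij])
  obtain ⟨P1, Q1, col1, hPQ1, hQP1, hc1, hz1⟩ := good3_hess' (t - S)
    (by rw [Matrix.trace_sub, ht, hS0, sub_zero])
    (fun i j hij => by
      rw [Matrix.sub_apply, hS, Matrix.of_apply, if_neg (by omega), if_neg (by omega),
        if_neg (by omega), if_pos hij, sub_self])
    (fun i j hij => by
      rw [Matrix.sub_apply, hS, Matrix.of_apply, if_neg (by omega), if_neg (by omega),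
        if_pos hij, sub_sub_cancel])
  set L : Matrix (Fin ρ) (Fin ρ) K := S - t with hL
  set R : Matrix ((Fin ρ ⊕ Fin ρ) ⊕ Fin N) ((Fin ρ ⊕ Fin ρ) ⊕ Fin N) K :=
    Matrix.fromBlocks (Matrix.fromBlocks P1 (L * P2) 0 P2) 0 0 1 with hR
  set Ri : Matrix ((Fin ρ ⊕ Fin ρ) ⊕ Fin N) ((Fin ρ ⊕ Fin ρ) ⊕ Fin N) K :=
    Matrix.fromBlocks (Matrix.fromBlocks Q1 (-(Q1 * L)) 0 Q2) 0 0 1 with hRi
  have hRRi : R * Ri = 1 := by
    rw [hR, hRi, Matrix.fromBlocks_multiply, Matrix.fromBlocks_multiply]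
    simp only [Matrix.mul_zero, Matrix.zero_mul, add_zero, zero_add, Matrix.mul_one, hPQ1, hPQ2]
    have h1 : P1 * -(Q1 * L) + L * P2 * Q2 = 0 := by
      rw [Matrix.mul_neg, ← Matrix.mul_assoc, hPQ1, Matrix.one_mul, Matrix.mul_assoc, hPQ2,
        Matrix.mul_one, neg_add_cancel]
    rw [h1, Matrix.fromBlocks_one, Matrix.fromBlocks_one]
  have hRiR : Ri * R = 1 := by
    rw [hR, hRi, Matrix.fromBlocks_multiply, Matrix.fromBlocks_multiply]
    simp only [Matrix.mul_zero, Matrix.zero_mul, add_zero, zero_add, Matrix.mul_one, hQP1, hQP2]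
    have h1 : Q1 * (L * P2) + -(Q1 * L) * P2 = 0 := by
      rw [Matrix.neg_mul, Matrix.mul_assoc, add_neg_cancel]
    rw [h1, Matrix.fromBlocks_one, Matrix.fromBlocks_one]
  have hM2 : Ri * lowM N t * R = Matrix.fromBlocks (Matrix.fromBlocks (Q1 * (t - S) * P1)
      (-(Q1 * L) * (L * P2 + t * P2)) (Q2 * P1) (Q2 * S * P2)) 0 0 0 := by
    rw [hR, hRi, lowM, Matrix.mul_assoc, Matrix.fromBlocks_multiply, Matrix.fromBlocks_multiply,
      Matrix.fromBlocks_multiply]
    simp only [Matrix.mul_zero, Matrix.zero_mul, add_zero, zero_add, Matrix.one_mul]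
    rw [Matrix.fromBlocks_multiply]
    simp only [Matrix.mul_zero, Matrix.zero_mul, add_zero, zero_add, Matrix.one_mul]
    have h1 : -(Q1 * L) * P1 = Q1 * (t - S) * P1 := by
      rw [hL, ← Matrix.mul_neg, neg_sub]
    have h2 : Q2 * (L * P2 + t * P2) = Q2 * S * P2 := by
      rw [← Matrix.add_mul, hL, sub_add_cancel, Matrix.mul_assoc]
    rw [h1, h2]
  set col : (Fin ρ ⊕ Fin ρ) ⊕ Fin N → ℕ :=
    Sum.elim (Sum.elim col1 (fun i => 3 + col2 i)) (fun x => (x : ℕ) % 6) with hcol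
  have hlt : ∀ i, col i < 6 := by
    rintro ((i | i) | i)
    · have := hc1 i
      simp only [hcol, Sum.elim_inl]
      omega
    · have := hc2 i
      simp only [hcol, Sum.elim_inl, Sum.elim_inr]
      omega
    · simp only [hcol, Sum.elim_inr]
      omega
  refine ⟨R, Ri, col, hRRi, hRiR, (fun i => by
      have hci := hlt i
      set f : Fin s → (Fin ρ ⊕ Fin ρ) ⊕ Fin N :=
        fun y => Sum.inr ⟨6 * (y : ℕ) + col i, by have := y.2; omega⟩ with hf
      have hinj : Function.Injective f := by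
        intro y y' h
        rw [hf] at h
        simp only [Sum.inr.injEq, Fin.mk.injEq] at h
        apply Fin.ext
        omega
      have h1 : s = (Set.range f).ncard := by
        rw [← Set.image_univ, Set.ncard_image_of_injective _ hinj, Set.ncard_univ,
          Nat.card_eq_fintype_card, Fintype.card_fin]
      rw [h1]
      refine Set.ncard_le_ncard ?_ (Set.toFinite _)
      rintro _ ⟨y, rfl⟩
      rw [Set.mem_ofPred_eq, hf]
      simp only [hcol, Sum.elim_inr] at hci ⊢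
      omega), (fun i j hij => by
    rw [hM2]
    rcases i with ((i | i) | i) <;> rcases j with ((j | j) | j)
    · exact hz1 i j (by simpa [hcol] using hij)
    · exfalso
      have h1 := hc1 i
      have h2 := hc2 j
      simp only [hcol, Sum.elim_inl, Sum.elim_inr] at hij
      omega
    · rfl
    · exfalso
      have h1 := hc1 j
      have h2 := hc2 i
      simp only [hcol, Sum.elim_inl, Sum.elim_inr] at hij
      omega
    · exact hz2 i j (by simpa [hcol] using hij)
    · rfl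
    · rfl
    · rfl
    · rfl)⟩

/-- Every trace-zero matrix of rank `ρ` with `2 * ρ + 6 * ⌈k / 2⌉ ≤ n` is a value. -/
theorem value_low_rank_ut [Infinite K] {m : ℕ} (hm : 1 ≤ m) (α : Equiv.Perm (Fin m) → K)
    (hα : α ≠ 0) (k : ℕ) (hk : NotUT α k)
    {n : ℕ} (T : Matrix (Fin n) (Fin n) K) (hT : T.trace = 0)
    (hn : 2 * T.rank + 6 * ((k + 1) / 2) ≤ n) :
    ∃ A : Fin m → Matrix (Fin n) (Fin n) K, mval α A = T := by
  have hrank : Module.finrank K (LinearMap.range (Matrix.toLin' T)) = T.rank := by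
    rw [Matrix.rank, Matrix.toLin'_apply']
  have hV : Module.finrank K (Fin n → K) = n := Module.finrank_fin_fun K
  obtain ⟨N, b, hN, h1, h2, h3⟩ := exists_uw_basis (Matrix.toLin' T) T.rank hrank
    (by rw [hV]; omega)
  rw [hV] at hN
  set t : Matrix (Fin T.rank) (Fin T.rank) K := Matrix.of fun i j =>
    b.repr (Matrix.toLin' T (b (Sum.inl (Sum.inr j)))) (Sum.inl (Sum.inr i)) with ht
  have h2' : ∀ j i, (∀ k, i ≠ Sum.inl (Sum.inr k)) →
      b.repr (Matrix.toLin' T (b (Sum.inl (Sum.inr j)))) i = 0 := by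
    intro j i hi
    have h4 := h2 j
    generalize Matrix.toLin' T (b (Sum.inl (Sum.inr j))) = w at h4
    induction h4 using Submodule.span_induction with
    | mem x hx =>
      obtain ⟨k, rfl⟩ := hx
      simp only
      rw [Module.Basis.repr_self, Finsupp.single_apply, if_neg (fun h => hi k h.symm)]
    | zero => simp
    | add x y _ _ hx hy => rw [map_add, Finsupp.add_apply, hx, hy, add_zero]
    | smul c x _ hx => rw [map_smul, Finsupp.smul_apply, hx, smul_zero]
  have hM : LinearMap.toMatrix b b (Matrix.toLin' T) = lowM N t := by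
    ext i j
    rw [LinearMap.toMatrix_apply, lowM]
    rcases j with ((j | j) | j)
    · rw [h1, Module.Basis.repr_self, Finsupp.single_apply]
      rcases i with ((i | i) | i)
      · rw [if_neg (by simp)]
        rfl
      · rw [Matrix.fromBlocks_apply₁₁, Matrix.fromBlocks_apply₂₁, Matrix.one_apply]
        simp only [Sum.inl.injEq, Sum.inr.injEq, eq_comm]
      · rw [if_neg (by simp)]
        rfl
    · rcases i with ((i | i) | i)
      · rw [h2' j _ (fun k => by simp)]
        rfl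
      · rfl
      · rw [h2' j _ (fun k => by simp)]
        rfl
    · rw [h3, map_zero]
      rcases i with ((i | i) | i) <;> rfl
  have htr : t.trace = 0 := by
    have h5 : (LinearMap.toMatrix b b (Matrix.toLin' T)).trace = T.trace := by
      rw [← LinearMap.trace_eq_matrix_trace K b, Matrix.trace_toLin'_eq]
    rw [hM, hT, lowM, Matrix.trace, Fintype.sum_sum_type, Fintype.sum_sum_type] at h5
    simpa [Matrix.trace] using h5
  obtain ⟨R, Ri, col, hRRi, hRiR, hc, hz⟩ := lowM_hollow ((k + 1) / 2) (N := N) (by omega) t htr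
  refine value_of_toMatrix α T b ?_
  rw [hM]
  obtain ⟨A, hA⟩ := value_hollow_ut hm α hα k hk col hc _ hz
  refine ⟨fun q => R * A q * Ri, ?_⟩
  rw [mval_conj α R Ri hRRi hRiR, hA]
  calc R * (Ri * lowM N t * R) * Ri = (R * Ri) * lowM N t * (R * Ri) := by
        simp only [Matrix.mul_assoc]
    _ = lowM N t := by rw [hRRi, Matrix.one_mul, Matrix.mul_one]


/-- **Away from the nonzero scalar matrices.** -/
theorem value_away_ut [Infinite K] {m : ℕ} (hm : 1 ≤ m) (α : Equiv.Perm (Fin m) → K)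
    (hα : α ≠ 0) (k : ℕ) (hk1 : 1 ≤ k) (hk : NotUT α k) {n : ℕ} (hn : 14 * ((k + 1) / 2) ≤ n)
    (T : Matrix (Fin n) (Fin n) K) (hT : T.trace = 0)
    (hr : ∀ c : K, c ≠ 0 → 4 * ((k + 1) / 2) ≤
      (T - c • (1 : Matrix (Fin n) (Fin n) K)).rank + 1) :
    ∃ A : Fin m → Matrix (Fin n) (Fin n) K, mval α A = T := by
  by_cases h0 : 4 * ((k + 1) / 2) ≤ T.rank + 1
  · obtain ⟨ι, _, _, col, b, h1, h2⟩ := far_form (s := (k + 1) / 2) (by omega) (by omega) T hT
      (fun c => by
        by_cases hc : c = 0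
        · rw [hc, zero_smul, sub_zero]
          exact h0
        · exact hr c hc)
    exact value_of_basis_hollow_ut hm α hα k hk T b col h1 h2
  · exact value_low_rank_ut hm α hα k hk T hT (by omega)

end Pool.Agent.P5e96
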