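import Mathlib
import Pool.Agent.Lib.P5e96.UTMain

/-!
# Matrices of low rank, with better constants
-/

open Finset Matrix

namespace Pool.Agent.P5e96

variable {K : Type*} [Field K]

/-- `Good3` with lower bounds for the three classes. -/
def Good3c {ρ : ℕ} (M : Matrix (Fin ρ) (Fin ρ) K) : Prop :=
  ∃ (P Q : Matrix (Fin ρ) (Fin ρ) K) (col : Fin ρ → ℕ), P * Q = 1 ∧ Q * P = 1 ∧
    (∀ i, col i < 3) ∧ (∀ c < 3, ρ / 3 ≤ Set.ncard {j | col j = c}) ∧
      ∀ i j, col i = col j → (Q * M * P) i j = 0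

theorem good3c_of_good3 {ρ : ℕ} (M : Matrix (Fin ρ) (Fin ρ) K) (h3 : ρ < 3) (h : Good3 M) :
    Good3c M := by
  obtain ⟨P, Q, col, h1, h2, h4, h5⟩ := h
  refine ⟨P, Q, col, h1, h2, h4, fun c _ => ?_, h5⟩
  have : ρ / 3 = 0 := Nat.div_eq_of_lt h3
  omega

theorem hcol_card' {n a : ℕ} (ha : a < 3) : n / 3 ≤ Set.ncard {j : Fin n | hcol n j = a} := by
  rcases Nat.eq_zero_or_pos (n / 3) with h0 | h0
  · omega
  · have h1 := hpos_spec ha h0
    have h2 := hcol_card (⟨hpos n a 0, h1.1⟩ : Fin n)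
    simp only [h1.2] at h2
    exact h2

theorem good3c_of_cyclic {ρ : ℕ} (M : Matrix (Fin ρ) (Fin ρ) K) (hM : M.trace = 0)
    (v : Fin ρ → K) (hv : LinearIndependent K fun i : Fin ρ => (M ^ (i : ℕ)) *ᵥ v) : Good3c M := by
  by_cases h3 : 3 ≤ ρ
  · obtain ⟨b, hb⟩ := cyclic_hollow h3 M hM v hv
    refine ⟨(Pi.basisFun K (Fin ρ)).toMatrix b, b.toMatrix (Pi.basisFun K (Fin ρ)),
      fun i => hcol ρ i,
      Module.Basis.toMatrix_mul_toMatrix_flip _ _, Module.Basis.toMatrix_mul_toMatrix_flip _ _,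
      fun i => hcol_lt ρ i, fun c hc => hcol_card' hc, fun i j hij => ?_⟩
    have h1 := basis_toMatrix_mul_linearMap_toMatrix_mul_basis_toMatrix b
      (Pi.basisFun K (Fin ρ)) b (Pi.basisFun K (Fin ρ)) (Matrix.toLin' M)
    rw [LinearMap.toMatrix_eq_toMatrix', LinearMap.toMatrix'_toLin'] at h1
    rw [h1, LinearMap.toMatrix_apply, Matrix.toLin'_apply]
    exact hb i j hij
  · exact good3c_of_good3 M (by omega) (good3_of_cyclic M hM v hv)

theorem good3c_hess {ρ : ℕ} (M : Matrix (Fin ρ) (Fin ρ) K) (hM : M.trace = 0)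
    (h1 : ∀ i j : Fin ρ, (j : ℕ) + 1 < i → M i j = 0)
    (h2 : ∀ i j : Fin ρ, (j : ℕ) + 1 = i → M i j = 1) : Good3c M := by
  rcases Nat.eq_zero_or_pos ρ with h0 | h0
  · exact good3c_of_good3 M (by omega) (good3_hess M hM h1 h2)
  · exact good3c_of_cyclic M hM _ (hess_cyclic M h0 h1 h2)

theorem good3c_hess' {ρ : ℕ} (M : Matrix (Fin ρ) (Fin ρ) K) (hM : M.trace = 0)
    (h1 : ∀ i j : Fin ρ, (i : ℕ) + 1 < j → M i j = 0)
    (h2 : ∀ i j : Fin ρ, (i : ℕ) + 1 = j → M i j = 1) : Good3c M := by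
  rcases Nat.eq_zero_or_pos ρ with h0 | h0
  · exact good3c_of_good3 M (by omega) (good3_hess' M hM h1 h2)
  · set M' : Matrix (Fin ρ) (Fin ρ) K := M.submatrix Fin.revPerm Fin.revPerm with hM'
    have hc := hess_cyclic M' h0 (fun i j hij => by
        rw [hM', Matrix.submatrix_apply]
        refine h1 _ _ ?_
        simp only [Fin.revPerm_apply, Fin.val_rev]
        omega)
      (fun i j hij => by
        rw [hM', Matrix.submatrix_apply]
        refine h2 _ _ ?_
        simp only [Fin.revPerm_apply, Fin.val_rev]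
        omega)
    have hpow : ∀ k : ℕ, M' ^ k = (M ^ k).submatrix Fin.revPerm Fin.revPerm := by
      intro k
      induction k with
      | zero => rw [pow_zero, pow_zero, Matrix.submatrix_one_equiv]
      | succ k ih => rw [pow_succ, ih, pow_succ, hM', Matrix.submatrix_mul_equiv]
    refine good3c_of_cyclic M hM (Pi.single (Fin.revPerm ⟨0, h0⟩) 1) ?_
    refine LinearIndependent.of_comp
      (LinearMap.funLeft K K (Fin.revPerm (n := ρ))) ?_
    convert hc using 1
    funext k
    ext i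
    rw [Function.comp_apply, LinearMap.funLeft_apply, hpow, Matrix.mulVec_single_one,
      Matrix.mulVec_single_one]
    rfl

theorem ncard_two {X : Type*} [Finite X] (C : Set X) {ρ M : ℕ} (A : Set (Fin ρ)) (e : Fin ρ → X)
    (he : Function.Injective e) (f : Fin M → X) (hf : Function.Injective f)
    (hef : ∀ i j, e i ≠ f j) (h1 : ∀ i ∈ A, e i ∈ C) (h2 : ∀ j, f j ∈ C) :
    A.ncard + M ≤ C.ncard := by
  have h3 : (e '' A).ncard = A.ncard := Set.ncard_image_of_injective _ he
  have h4 : (Set.range f).ncard = M := by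
    rw [← Set.image_univ, Set.ncard_image_of_injective _ hf, Set.ncard_univ,
      Nat.card_eq_fintype_card, Fintype.card_fin]
  have h5 : Disjoint (e '' A) (Set.range f) := by
    rw [Set.disjoint_left]
    rintro _ ⟨i, _, rfl⟩ ⟨j, hj⟩
    exact hef i j hj.symm
  have h6 : (e '' A ∪ Set.range f).ncard = A.ncard + M := by
    rw [Set.ncard_union_eq h5 (Set.toFinite _) (Set.toFinite _), h3, h4]
  rw [← h6]
  refine Set.ncard_le_ncard ?_ (Set.toFinite _)
  rintro _ (⟨i, hi, rfl⟩ | ⟨j, rfl⟩)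
  · exact h1 i hi
  · exact h2 j

theorem lowM_hollow2 (s : ℕ)
    {ρ N : ℕ} (hN : 6 * s ≤ N + 6 * (ρ / 3)) (t : Matrix (Fin ρ) (Fin ρ) K) (ht : t.trace = 0) :
    ∃ (R Ri : Matrix ((Fin ρ ⊕ Fin ρ) ⊕ Fin N) ((Fin ρ ⊕ Fin ρ) ⊕ Fin N) K)
      (col : (Fin ρ ⊕ Fin ρ) ⊕ Fin N → ℕ), R * Ri = 1 ∧ Ri * R = 1 ∧
      (∀ i, s ≤ Set.ncard {j | col j = col i}) ∧
      ∀ i j, col i = col j → (Ri * lowM N t * R) i j = 0 := by
  set S : Matrix (Fin ρ) (Fin ρ) K := Matrix.of fun i j =>
    if (i : ℕ) = j then 0 else if (j : ℕ) + 1 = i then 1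
    else if (i : ℕ) + 1 = j then t i j - 1 else if (i : ℕ) + 1 < j then t i j else 0 with hS
  have hS0 : S.trace = 0 := by
    rw [Matrix.trace]
    refine Finset.sum_eq_zero fun i _ => ?_
    rw [Matrix.diag_apply, hS, Matrix.of_apply, if_pos rfl]
  obtain ⟨P2, Q2, col2, hPQ2, hQP2, hc2, hn2, hz2⟩ := good3c_hess S hS0
    (fun i j hij => by
      rw [hS, Matrix.of_apply, if_neg (by omega), if_neg (by omega), if_neg (by omega),
        if_neg (by omega)])
    (fun i j hij => by
      rw [hS, Matrix.of_apply, if_neg (by omega), if_pos hij])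
  obtain ⟨P1, Q1, col1, hPQ1, hQP1, hc1, hn1, hz1⟩ := good3c_hess' (t - S)
    (by rw [Matrix.trace_sub, ht, hS0, sub_zero])
    (fun i j hij => by
      rw [Matrix.sub_apply, hS, Matrix.of_apply, if_neg (by omega), if_neg (by omega),
        if_neg (by omega), if_pos hij, sub_self])
    (fun i j hij => by
      rw [Matrix.sub_apply, hS, Matrix.of_apply, if_neg (by omega), if_neg (by omega),
        if_pos hij, sub_sub_cancel])
  set L : Matrix (Fin ρ) (Fin ρ) K := S - t with hL
  set R : Matrix ((Fin ρ ⊕ Fin ρ) ⊕ Fin N) ((Fin ρ ⊕ Fin ρ) ⊕ Fin N) K :=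
    Matrix.fromBlocks (Matrix.fromBlocks P1 (L * P2) 0 P2) 0 0 1 with hR
  set Ri : Matrix ((Fin ρ ⊕ Fin ρ) ⊕ Fin N) ((Fin ρ ⊕ Fin ρ) ⊕ Fin N) K :=
    Matrix.fromBlocks (Matrix.fromBlocks Q1 (-(Q1 * L)) 0 Q2) 0 0 1 with hRi
  have hRRi : R * Ri = 1 := by
    rw [hR, hRi, Matrix.fromBlocks_multiply, Matrix.fromBlocks_multiply]
    simp only [Matrix.mul_zero, Matrix.zero_mul, add_zero, zero_add, Matrix.mul_one, hPQ1, hPQ2]
    have h1 : P1 * -(Q1 * L) + L * P2 * Q2 = 0 := by
      rw [Matrix.mul_neg, ← Matrix.mul_assoc, hPQ1, Matrix.one_mul, Matrix.mul_assoc, hPQ2,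
        Matrix.mul_one, neg_add_cancel]
    rw [h1, Matrix.fromBlocks_one, Matrix.fromBlocks_one]
  have hRiR : Ri * R = 1 := by
    rw [hR, hRi, Matrix.fromBlocks_multiply, Matrix.fromBlocks_multiply]
    simp only [Matrix.mul_zero, Matrix.zero_mul, add_zero, zero_add, Matrix.mul_one, hQP1, hQP2]
    have h1 : Q1 * (L * P2) + -(Q1 * L) * P2 = 0 := by
      rw [Matrix.neg_mul, Matrix.mul_assoc, add_neg_cancel]
    rw [h1, Matrix.fromBlocks_one, Matrix.fromBlocks_one]
  have hM2 : Ri * lowM N t * R = Matrix.fromBlocks (Matrix.fromBlocks (Q1 * (t - S) * P1)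
      (-(Q1 * L) * (L * P2 + t * P2)) (Q2 * P1) (Q2 * S * P2)) 0 0 0 := by
    rw [hR, hRi, lowM, Matrix.mul_assoc, Matrix.fromBlocks_multiply, Matrix.fromBlocks_multiply,
      Matrix.fromBlocks_multiply]
    simp only [Matrix.mul_zero, Matrix.zero_mul, add_zero, zero_add, Matrix.one_mul]
    rw [Matrix.fromBlocks_multiply]
    simp only [Matrix.mul_zero, Matrix.zero_mul, add_zero, zero_add, Matrix.one_mul]
    have h1 : -(Q1 * L) * P1 = Q1 * (t - S) * P1 := by
      rw [hL, ← Matrix.mul_neg, neg_sub]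
    have h2 : Q2 * (L * P2 + t * P2) = Q2 * S * P2 := by
      rw [← Matrix.add_mul, hL, sub_add_cancel, Matrix.mul_assoc]
    rw [h1, h2]
  set col : (Fin ρ ⊕ Fin ρ) ⊕ Fin N → ℕ :=
    Sum.elim (Sum.elim col1 (fun i => 3 + col2 i)) (fun x => (x : ℕ) % 6) with hcol
  have hlt : ∀ i, col i < 6 := by
    rintro ((i | i) | i)
    · have := hc1 i
      simp only [hcol, Sum.elim_inl]
      omega
    · have := hc2 i
      simp only [hcol, Sum.elim_inl, Sum.elim_inr]
      omega
    · simp only [hcol, Sum.elim_inr]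
      omega
  have hsize : ∀ c < 6, s ≤ Set.ncard {j | col j = c} := by
    intro c hc6
    have hNs : s ≤ ρ / 3 + N / 6 := by omega
    set f : Fin (N / 6) → (Fin ρ ⊕ Fin ρ) ⊕ Fin N :=
      fun y => Sum.inr ⟨6 * (y : ℕ) + c, by have := y.2; omega⟩ with hf
    have hinj : Function.Injective f := by
      intro y y' h
      rw [hf] at h
      simp only [Sum.inr.injEq, Fin.mk.injEq] at h
      apply Fin.ext
      omega
    have hfc : ∀ y, f y ∈ {j | col j = c} := by
      intro y
      rw [Set.mem_ofPred_eq, hf]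
      simp only [hcol, Sum.elim_inr]
      omega
    by_cases hc3 : c < 3
    · have h1 := hn1 c hc3
      have h2 := ncard_two {j | col j = c} {j | col1 j = c}
        (fun i => (Sum.inl (Sum.inl i) : (Fin ρ ⊕ Fin ρ) ⊕ Fin N))
        (fun i j h => by simpa using h) f hinj (fun i j => by rw [hf]; simp)
        (fun i hi => by
          rw [Set.mem_ofPred_eq] at hi ⊢
          simp only [hcol, Sum.elim_inl]
          exact hi) hfc
      omega
    · have h1 := hn2 (c - 3) (by omega)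
      have h2 := ncard_two {j | col j = c} {j | col2 j = c - 3}
        (fun i => (Sum.inl (Sum.inr i) : (Fin ρ ⊕ Fin ρ) ⊕ Fin N))
        (fun i j h => by simpa using h) f hinj (fun i j => by rw [hf]; simp)
        (fun i hi => by
          rw [Set.mem_ofPred_eq] at hi ⊢
          simp only [hcol, Sum.elim_inl, Sum.elim_inr]
          omega) hfc
      omega
  refine ⟨R, Ri, col, hRRi, hRiR, (fun i => hsize _ (hlt i)), (fun i j hij => by
    rw [hM2]
    rcases i with ((i | i) | i) <;> rcases j with ((j | j) | j)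
    · exact hz1 i j (by simpa [hcol] using hij)
    · exfalso
      have h1 := hc1 i
      have h2 := hc2 j
      simp only [hcol, Sum.elim_inl, Sum.elim_inr] at hij
      omega
    · rfl
    · exfalso
      have h1 := hc1 j
      have h2 := hc2 i
      simp only [hcol, Sum.elim_inl, Sum.elim_inr] at hij
      omega
    · exact hz2 i j (by simpa [hcol] using hij)
    · rfl
    · rfl
    · rfl
    · rfl)⟩

/-- Every trace-zero matrix of rank at most `n / 2` is a value if `6 * ⌈k / 2⌉ + 4 ≤ n`. -/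
theorem value_low_rank_ut2 [Infinite K] {m : ℕ} (hm : 1 ≤ m) (α : Equiv.Perm (Fin m) → K)
    (hα : α ≠ 0) (k : ℕ) (hk : NotUT α k)
    {n : ℕ} (T : Matrix (Fin n) (Fin n) K) (hT : T.trace = 0)
    (hn : 2 * T.rank ≤ n) (hn2 : 6 * ((k + 1) / 2) + 4 ≤ n) :
    ∃ A : Fin m → Matrix (Fin n) (Fin n) K, mval α A = T := by
  have hrank : Module.finrank K (LinearMap.range (Matrix.toLin' T)) = T.rank := by
    rw [Matrix.rank, Matrix.toLin'_apply']
  have hV : Module.finrank K (Fin n → K) = n := Module.finrank_fin_fun K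
  obtain ⟨N, b, hN, h1, h2, h3⟩ := exists_uw_basis (Matrix.toLin' T) T.rank hrank
    (by rw [hV]; omega)
  rw [hV] at hN
  set t : Matrix (Fin T.rank) (Fin T.rank) K := Matrix.of fun i j =>
    b.repr (Matrix.toLin' T (b (Sum.inl (Sum.inr j)))) (Sum.inl (Sum.inr i)) with ht
  have h2' : ∀ j i, (∀ k, i ≠ Sum.inl (Sum.inr k)) →
      b.repr (Matrix.toLin' T (b (Sum.inl (Sum.inr j)))) i = 0 := by
    intro j i hi
    have h4 := h2 j
    generalize Matrix.toLin' T (b (Sum.inl (Sum.inr j))) = w at h4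
    induction h4 using Submodule.span_induction with
    | mem x hx =>
      obtain ⟨k, rfl⟩ := hx
      simp only
      rw [Module.Basis.repr_self, Finsupp.single_apply, if_neg (fun h => hi k h.symm)]
    | zero => simp
    | add x y _ _ hx hy => rw [map_add, Finsupp.add_apply, hx, hy, add_zero]
    | smul c x _ hx => rw [map_smul, Finsupp.smul_apply, hx, smul_zero]
  have hM : LinearMap.toMatrix b b (Matrix.toLin' T) = lowM N t := by
    ext i j
    rw [LinearMap.toMatrix_apply, lowM]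
    rcases j with ((j | j) | j)
    · rw [h1, Module.Basis.repr_self, Finsupp.single_apply]
      rcases i with ((i | i) | i)
      · rw [if_neg (by simp)]
        rfl
      · rw [Matrix.fromBlocks_apply₁₁, Matrix.fromBlocks_apply₂₁, Matrix.one_apply]
        simp only [Sum.inl.injEq, Sum.inr.injEq, eq_comm]
      · rw [if_neg (by simp)]
        rfl
    · rcases i with ((i | i) | i)
      · rw [h2' j _ (fun k => by simp)]
        rfl
      · rfl
      · rw [h2' j _ (fun k => by simp)]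
        rfl
    · rw [h3, map_zero]
      rcases i with ((i | i) | i) <;> rfl
  have htr : t.trace = 0 := by
    have h5 : (LinearMap.toMatrix b b (Matrix.toLin' T)).trace = T.trace := by
      rw [← LinearMap.trace_eq_matrix_trace K b, Matrix.trace_toLin'_eq]
    rw [hM, hT, lowM, Matrix.trace, Fintype.sum_sum_type, Fintype.sum_sum_type] at h5
    simpa [Matrix.trace] using h5
  obtain ⟨R, Ri, col, hRRi, hRiR, hc, hz⟩ := lowM_hollow2 ((k + 1) / 2) (N := N) (by omega) t htr
  refine value_of_toMatrix α T b ?_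
  rw [hM]
  obtain ⟨A, hA⟩ := value_hollow_ut hm α hα k hk col hc _ hz
  refine ⟨fun q => R * A q * Ri, ?_⟩
  rw [mval_conj α R Ri hRRi hRiR, hA]
  calc R * (Ri * lowM N t * R) * Ri = (R * Ri) * lowM N t * (R * Ri) := by
        simp only [Matrix.mul_assoc]
    _ = lowM N t := by rw [hRRi, Matrix.one_mul, Matrix.mul_one]



end Pool.Agent.P5e96
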