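import Mathlib
import Pool.Agent.Lib.P5e96.LowRank2

/-!
# Hollow form of trace-zero matrices of rank at most `n / 2`
-/

open Finset Matrix

namespace Pool.Agent.P5e96

variable {K : Type*} [Field K]

theorem basis_change {V : Type*} [AddCommGroup V] [Module K V] {I : Type*} [Fintype I]
    [DecidableEq I] (b : Module.Basis I K V) (R Ri : Matrix I I K) (h1 : R * Ri = 1)
    (h2 : Ri * R = 1) :
    ∃ b' : Module.Basis I K V, ∀ (T : V →ₗ[K] V) (i j : I),
      b'.repr (T (b' j)) i = (Ri * LinearMap.toMatrix b b T * R) i j := by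
  set E : V ≃ₗ[K] (I → K) := b.equivFun.trans (Matrix.toLin'OfInv h1 h2) with hE
  have hEx : ∀ x, E x = Ri *ᵥ (b.equivFun x) := by
    intro x
    rw [hE]
    simp [Matrix.toLin'OfInv]
  have hEs : ∀ y, E.symm y = b.equivFun.symm (R *ᵥ y) := by
    intro y
    apply E.injective
    rw [LinearEquiv.apply_symm_apply, hEx, LinearEquiv.apply_symm_apply, Matrix.mulVec_mulVec, h2,
      Matrix.one_mulVec]
  have hT : ∀ (T : V →ₗ[K] V) (y : I → K), b.equivFun (T (b.equivFun.symm y)) =
      LinearMap.toMatrix b b T *ᵥ y := by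
    intro T y
    have h3 := LinearMap.toMatrix_mulVec_repr b b T (b.equivFun.symm y)
    have h4 : (b.repr (b.equivFun.symm y) : I → K) = y := by
      rw [← Module.Basis.equivFun_apply, LinearEquiv.apply_symm_apply]
    rw [h4] at h3
    rw [h3, Module.Basis.equivFun_apply]
  refine ⟨Module.Basis.ofEquivFun E, fun T i j => ?_⟩
  have h5 : (Module.Basis.ofEquivFun E).repr (T ((Module.Basis.ofEquivFun E) j)) i =
      E (T ((Module.Basis.ofEquivFun E) j)) i := by
    rw [← Module.Basis.equivFun_apply, Module.Basis.equivFun_ofEquivFun]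
  have h6 : (Module.Basis.ofEquivFun E) j = b.equivFun.symm (R *ᵥ Pi.single j 1) := by
    rw [Module.Basis.coe_ofEquivFun, ← hEs]
  rw [h5, h6, hEx, hT, Matrix.mulVec_mulVec, Matrix.mulVec_mulVec, Matrix.mulVec_single_one,
    Matrix.mul_assoc]
  rfl

/-- Every trace-zero matrix of rank at most `n / 2` is hollow in some basis, with classes of at
least `s` elements, if `6 * s + 4 ≤ n`. -/
theorem low_rank_form {s n : ℕ} (T : Matrix (Fin n) (Fin n) K) (hT : T.trace = 0)
    (hn : 2 * T.rank ≤ n) (hn2 : 6 * s + 4 ≤ n) :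
    ∃ (ι : Type) (_ : Fintype ι) (_ : DecidableEq ι) (col : ι → ℕ)
      (b : Module.Basis ι K (Fin n → K)), (∀ i, s ≤ Set.ncard {j | col j = col i}) ∧
        ∀ i j, col i = col j → b.repr (T *ᵥ b j) i = 0 := by
  have hrank : Module.finrank K (LinearMap.range (Matrix.toLin' T)) = T.rank := by
    rw [Matrix.rank, Matrix.toLin'_apply']
  have hV : Module.finrank K (Fin n → K) = n := Module.finrank_fin_fun K
  obtain ⟨N, b, hN, h1, h2, h3⟩ := exists_uw_basis (Matrix.toLin' T) T.rank hrank
    (by rw [hV]; omega)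
  rw [hV] at hN
  set t : Matrix (Fin T.rank) (Fin T.rank) K := Matrix.of fun i j =>
    b.repr (Matrix.toLin' T (b (Sum.inl (Sum.inr j)))) (Sum.inl (Sum.inr i)) with ht
  have h2' : ∀ j i, (∀ k, i ≠ Sum.inl (Sum.inr k)) →
      b.repr (Matrix.toLin' T (b (Sum.inl (Sum.inr j)))) i = 0 := by
    intro j i hi
    have h4 := h2 j
    generalize Matrix.toLin' T (b (Sum.inl (Sum.inr j))) = w at h4
    induction h4 using Submodule.span_induction with
    | mem x hx =>
      obtain ⟨k, rfl⟩ := hx
      simp only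
      rw [Module.Basis.repr_self, Finsupp.single_apply, if_neg (fun h => hi k h.symm)]
    | zero => simp
    | add x y _ _ hx hy => rw [map_add, Finsupp.add_apply, hx, hy, add_zero]
    | smul c x _ hx => rw [map_smul, Finsupp.smul_apply, hx, smul_zero]
  have hM : LinearMap.toMatrix b b (Matrix.toLin' T) = lowM N t := by
    ext i j
    rw [LinearMap.toMatrix_apply, lowM]
    rcases j with ((j | j) | j)
    · rw [h1, Module.Basis.repr_self, Finsupp.single_apply]
      rcases i with ((i | i) | i)
      · rw [if_neg (by simp)]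
        rfl
      · rw [Matrix.fromBlocks_apply₁₁, Matrix.fromBlocks_apply₂₁, Matrix.one_apply]
        simp only [Sum.inl.injEq, Sum.inr.injEq, eq_comm]
      · rw [if_neg (by simp)]
        rfl
    · rcases i with ((i | i) | i)
      · rw [h2' j _ (fun k => by simp)]
        rfl
      · rfl
      · rw [h2' j _ (fun k => by simp)]
        rfl
    · rw [h3, map_zero]
      rcases i with ((i | i) | i) <;> rfl
  have htr : t.trace = 0 := by
    have h5 : (LinearMap.toMatrix b b (Matrix.toLin' T)).trace = T.trace := by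
      rw [← LinearMap.trace_eq_matrix_trace K b, Matrix.trace_toLin'_eq]
    rw [hM, hT, lowM, Matrix.trace, Fintype.sum_sum_type, Fintype.sum_sum_type] at h5
    simpa [Matrix.trace] using h5
  obtain ⟨R, Ri, col, hRRi, hRiR, hc, hz⟩ := lowM_hollow2 s (N := N) (by omega) t htr
  obtain ⟨b', hb'⟩ := basis_change b R Ri hRRi hRiR
  refine ⟨_, inferInstance, inferInstance, col, b', hc, fun i j hij => ?_⟩
  have h6 := hb' (Matrix.toLin' T) i j
  rw [Matrix.toLin'_apply, hM] at h6
  rw [h6]
  exact hz i j hij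

end Pool.Agent.P5e96
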