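import Mathlib
import Pool.Agent.Lib.P5e96.FarForm2
import Pool.Agent.Lib.P5e96.LowForm

/-!
# Hollow form of trace-zero matrices away from the nonzero scalar matrices
-/

open Finset Matrix

namespace Pool.Agent.P5e96

variable {K : Type*} [Field K]

/-- Let `n ≥ 6 s + 4`, `r ≥ 2` and `3 s r ≤ n`. Every trace-zero matrix `T` with
`rank (T - c) ≥ ⌈n / r⌉ - 1` for all `c ≠ 0` is hollow in some basis, with classes of at least `s`
elements. -/
theorem away_form [Infinite K] {s : ℕ} (hs1 : 1 ≤ s) {n r : ℕ} (hr2 : 2 ≤ r)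
    (hr1 : 3 * s * r ≤ n) (hn2 : 6 * s + 4 ≤ n) (T : Matrix (Fin n) (Fin n) K)
    (hT : T.trace = 0)
    (hr : ∀ c : K, c ≠ 0 →
      (n + r - 1) / r ≤ (T - c • (1 : Matrix (Fin n) (Fin n) K)).rank + 1) :
    ∃ (ι : Type) (_ : Fintype ι) (_ : DecidableEq ι) (col : ι → ℕ)
      (b : Module.Basis ι K (Fin n → K)), (∀ i, s ≤ Set.ncard {j | col j = col i}) ∧
        ∀ i j, col i = col j → b.repr (T *ᵥ b j) i = 0 := by
  by_cases h : (n + r - 1) / r ≤ T.rank + 1
  · refine far_form2 hs1 hr2 hr1 T hT fun c => ?_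
    by_cases hc : c = 0
    · rw [hc, zero_smul, sub_zero]
      exact h
    · exact hr c hc
  · refine low_rank_form T hT ?_ hn2
    push Not at h
    have h1 : (n + r - 1) / r * r ≤ n + r - 1 := Nat.div_mul_le_self _ _
    have h2 : (T.rank + 2) * r ≤ (n + r - 1) / r * r := Nat.mul_le_mul (by omega) le_rfl
    have h3 : (T.rank + 2) * r = T.rank * r + 2 * r := by ring
    have h4 : T.rank * 2 ≤ T.rank * r := Nat.mul_le_mul le_rfl hr2
    omega

end Pool.Agent.P5e96
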