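import Mathlib

/-!
# Vectors `v_i` with all `v_i`, `T v_i` independent (MP_5e96a2_al)
-/

set_option autoImplicit false

namespace Pool.Agent.P5e96

open Module

universe u v

/-- a map which is locally a scalar modulo `E` is a scalar modulo `E` -/
theorem scalar_mod {K : Type u} [Field K] {V : Type v} [AddCommGroup V] [Module K V]
    [FiniteDimensional K V] (T : V →ₗ[K] V) (E : Submodule K V)
    (hE : finrank K E + 2 ≤ finrank K V)
    (hdep : ∀ x, x ∉ E → T x ∈ E ⊔ Submodule.span K {x}) : ∃ c : K, ∀ x, T x - c • x ∈ E := by
  have hloc : ∀ x, x ∉ E → ∃ a : K, T x - a • x ∈ E := by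
    intro x hx
    obtain ⟨e, he, y, hy, hey⟩ := Submodule.mem_sup.mp (hdep x hx)
    obtain ⟨a, rfl⟩ := Submodule.mem_span_singleton.mp hy
    exact ⟨a, by rw [← hey, add_sub_cancel_right]; exact he⟩
  have hne : E ≠ ⊤ := by
    rintro rfl
    rw [finrank_top] at hE
    omega
  obtain ⟨x0, -, hx0⟩ := SetLike.exists_of_lt (lt_top_iff_ne_top.mpr hne)
  have hne2 : E ⊔ Submodule.span K {x0} ≠ ⊤ := by
    intro htop
    have h1 := Submodule.finrank_add_le_finrank_add_finrank E (Submodule.span K {x0})
    rw [htop, finrank_top] at h1
    have h2 : finrank K (Submodule.span K ({x0} : Set V)) ≤ 1 := by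
      have := finrank_span_le_card (R := K) ({x0} : Set V)
      simpa using this
    omega
  obtain ⟨w, -, hw⟩ := SetLike.exists_of_lt (lt_top_iff_ne_top.mpr hne2)
  obtain ⟨c, hc⟩ := hloc x0 hx0
  have hx0m : x0 ∈ E ⊔ Submodule.span K {x0} :=
    Submodule.mem_sup_right (Submodule.mem_span_singleton_self x0)
  have hA : ∀ y, y ∉ E ⊔ Submodule.span K {x0} → T y - c • y ∈ E := by
    intro y hy
    have hyE : y ∉ E := fun h => hy (Submodule.mem_sup_left h)
    obtain ⟨d, hd⟩ := hloc y hyE
    have hxy : x0 + y ∉ E := by
      intro h
      apply hy
      have h1 : y = (x0 + y) - x0 := by abel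
      rw [h1]
      exact Submodule.sub_mem _ (Submodule.mem_sup_left h) hx0m
    obtain ⟨d', hd'⟩ := hloc (x0 + y) hxy
    have h2 : (d' - c) • x0 + (d' - d) • y ∈ E := by
      have h3 := E.sub_mem (E.add_mem hc hd) hd'
      have h4 : (T x0 - c • x0) + (T y - d • y) - (T (x0 + y) - d' • (x0 + y)) =
          (d' - c) • x0 + (d' - d) • y := by
        rw [map_add, smul_add, sub_smul, sub_smul]
        abel
      rwa [h4] at h3
    have h5 : d' = d := by
      by_contra hne
      have hne' : d' - d ≠ 0 := sub_ne_zero.mpr hne
      apply hy
      have h6 : y = (d' - d)⁻¹ • (((d' - c) • x0 + (d' - d) • y) - (d' - c) • x0) := by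
        rw [add_sub_cancel_left, smul_smul, inv_mul_cancel₀ hne', one_smul]
      rw [h6]
      exact Submodule.smul_mem _ _ (Submodule.sub_mem _ (Submodule.mem_sup_left h2)
        (Submodule.smul_mem _ _ hx0m))
    have h7 : d' = c := by
      by_contra hne
      have hne' : d' - c ≠ 0 := sub_ne_zero.mpr hne
      apply hx0
      rw [h5, sub_self, zero_smul, add_zero] at h2
      rw [h5] at hne'
      have h8 := E.smul_mem (d - c)⁻¹ h2
      rwa [smul_smul, inv_mul_cancel₀ hne', one_smul] at h8
    rw [← h7, h5]
    exact hd
  refine ⟨c, fun y => ?_⟩
  by_cases hy : y ∈ E ⊔ Submodule.span K {x0}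
  · have h1 := hA w hw
    have h2 : w + y ∉ E ⊔ Submodule.span K {x0} := by
      intro h
      apply hw
      have h3 : w = (w + y) - y := by abel
      rw [h3]
      exact Submodule.sub_mem _ h hy
    have h4 := hA (w + y) h2
    have h5 := E.sub_mem h4 h1
    have h6 : T (w + y) - c • (w + y) - (T w - c • w) = T y - c • y := by
      rw [map_add, smul_add]
      abel
    rwa [h6] at h5
  · exact hA y hy

theorem exists_pairs {K : Type u} [Field K] {V : Type v} [AddCommGroup V] [Module K V]
    [FiniteDimensional K V] (T : V →ₗ[K] V) (h : ℕ)
    (hr : ∀ c : K, 2 * h ≤ finrank K (LinearMap.range (T - c • LinearMap.id)) + 1)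
    (hn : 2 * h ≤ finrank K V) :
    ∃ v : Fin h → V, LinearIndependent K (Sum.elim v (fun i => T (v i))) := by
  have key : ∀ j, j ≤ h → ∃ v : Fin j → V,
      LinearIndependent K (Sum.elim v (fun i => T (v i))) := by
    intro j
    induction j with
    | zero =>
      intro _
      exact ⟨fun i => i.elim0, linearIndependent_empty_type⟩
    | succ j ih =>
      intro hj
      obtain ⟨v, hv⟩ := ih (by omega)
      set E := Submodule.span K (Set.range (Sum.elim v (fun i => T (v i)))) with hEdef
      have hEd : finrank K E = 2 * j := by
        rw [hEdef, finrank_span_eq_card hv]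
        simp only [Fintype.card_sum, Fintype.card_fin]
        omega
      by_contra hno
      have hdep : ∀ x, x ∉ E → T x ∈ E ⊔ Submodule.span K {x} := by
        intro x hx
        by_contra hTx
        apply hno
        refine ⟨Fin.cons x v, ?_⟩
        have h1 : LinearIndependent K (fun o => Option.casesOn' o x
            (Sum.elim v (fun i => T (v i))) : Option (Fin j ⊕ Fin j) → V) :=
          linearIndependent_option'.2 ⟨hv, hx⟩
        have h2 : T x ∉ Submodule.span K (Set.range (fun o => Option.casesOn' o x
            (Sum.elim v (fun i => T (v i))) : Option (Fin j ⊕ Fin j) → V)) := by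
          intro h
          apply hTx
          refine Submodule.span_le.mpr ?_ h
          rintro _ ⟨o, rfl⟩
          rcases o with _ | o
          · exact Submodule.mem_sup_right (Submodule.mem_span_singleton_self x)
          · exact Submodule.mem_sup_left (Submodule.subset_span ⟨o, rfl⟩)
        have h3 := linearIndependent_option'.2 ⟨h1, h2⟩
        let f : Fin (j + 1) ⊕ Fin (j + 1) → Option (Option (Fin j ⊕ Fin j)) :=
          Sum.elim (fun i => Fin.cases (some none) (fun k => some (some (Sum.inl k))) i)
            (fun i => Fin.cases none (fun k => some (some (Sum.inr k))) i)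
        have hf : Function.Injective f := by
          rintro (a | a) (b | b) hab
          · congr 1
            revert hab
            refine Fin.cases ?_ (fun a' => ?_) a <;> refine Fin.cases ?_ (fun b' => ?_) b
            · intro _; rfl
            · intro hab; exact absurd hab (by simp [f])
            · intro hab; exact absurd hab (by simp [f])
            · intro hab
              simp only [f, Sum.elim_inl, Fin.cases_succ, Option.some.injEq, Sum.inl.injEq] at hab
              rw [hab]
          · exfalso
            revert hab
            refine Fin.cases ?_ (fun a' => ?_) a <;> refine Fin.cases ?_ (fun b' => ?_) b <;>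
              intro hab <;> simp [f] at hab
          · exfalso
            revert hab
            refine Fin.cases ?_ (fun a' => ?_) a <;> refine Fin.cases ?_ (fun b' => ?_) b <;>
              intro hab <;> simp [f] at hab
          · congr 1
            revert hab
            refine Fin.cases ?_ (fun a' => ?_) a <;> refine Fin.cases ?_ (fun b' => ?_) b
            · intro _; rfl
            · intro hab; exact absurd hab (by simp [f])
            · intro hab; exact absurd hab (by simp [f])
            · intro hab
              simp only [f, Sum.elim_inr, Fin.cases_succ, Option.some.injEq, Sum.inr.injEq] at hab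
              rw [hab]
        have h4 := h3.comp f hf
        convert h4 using 1
        funext s
        rcases s with i | i
        · refine Fin.cases ?_ (fun k => ?_) i
          · rfl
          · rfl
        · refine Fin.cases ?_ (fun k => ?_) i
          · rfl
          · rfl
      obtain ⟨c, hc⟩ := scalar_mod T E (by omega) hdep
      have hle : LinearMap.range (T - c • LinearMap.id) ≤ E := by
        rintro _ ⟨x, rfl⟩
        exact hc x
      have h5 := Submodule.finrank_mono hle
      have h6 := hr c
      omega
  exact key h le_rfl

end Pool.Agent.P5e96
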