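import Mathlib

/-!
# A basis adapted to a square-zero matrix
-/

open Finset Matrix Module

namespace Pool.Agent.P5e96

theorem exists_between_finrank {K V : Type*} [Field K] [AddCommGroup V] [Module K V]
    [FiniteDimensional K V] (W U : Submodule K V) (hWU : W ≤ U) (m : ℕ)
    (h1 : finrank K W ≤ m) (h2 : m ≤ finrank K U) :
    ∃ V₁ : Submodule K V, W ≤ V₁ ∧ V₁ ≤ U ∧ finrank K V₁ = m := by
  induction m, h1 using Nat.le_induction with
  | base => exact ⟨W, le_rfl, hWU, rfl⟩
  | succ m hm ih =>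
    obtain ⟨V₁, h3, h4, h5⟩ := ih (by omega)
    obtain ⟨x, hx, hx'⟩ : ∃ x ∈ U, x ∉ V₁ := by
      by_contra hc
      push Not at hc
      have h6 := Submodule.finrank_mono (show U ≤ V₁ from hc)
      omega
    refine ⟨V₁ ⊔ Submodule.span K {x}, h3.trans le_sup_left, sup_le h4 ?_, ?_⟩
    · rw [Submodule.span_singleton_le_iff_mem]
      exact hx
    · rw [Submodule.finrank_sup_span_singleton hx', h5]

theorem sq_zero_basis {K : Type*} [Field K] {n : ℕ} (B : Matrix (Fin n) (Fin n) K)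
    (hB : B * B = 0) :
    ∃ b : Module.Basis (Fin (n / 2) ⊕ Fin ((n + 1) / 2)) K (Fin n → K),
      (∀ i, B *ᵥ b (Sum.inl i) = 0) ∧
      ∀ j, B *ᵥ b (Sum.inr j) ∈ Submodule.span K (Set.range fun i => b (Sum.inl i)) := by
  have hle : LinearMap.range B.mulVecLin ≤ LinearMap.ker B.mulVecLin := by
    rintro _ ⟨v, rfl⟩
    rw [LinearMap.mem_ker, Matrix.mulVecLin_apply, Matrix.mulVecLin_apply, Matrix.mulVec_mulVec,
      hB, Matrix.zero_mulVec]
  have hrk := LinearMap.finrank_range_add_finrank_ker B.mulVecLin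
  rw [Module.finrank_fin_fun] at hrk
  have hmono := Submodule.finrank_mono hle
  obtain ⟨V₁, h1, h2, h3⟩ := exists_between_finrank _ _ hle (n / 2) (by omega) (by omega)
  obtain ⟨C, hC⟩ := Submodule.exists_isCompl V₁
  have h4 := Submodule.finrank_add_eq_of_isCompl hC
  rw [Module.finrank_fin_fun] at h4
  have h5 : finrank K C = (n + 1) / 2 := by omega
  let b₁ := Module.finBasisOfFinrankEq K V₁ h3
  let b₂ := Module.finBasisOfFinrankEq K C h5
  have e1 : ∀ i, ((b₁.prod b₂).map (Submodule.prodEquivOfIsCompl V₁ C hC)) (Sum.inl i) =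
      (b₁ i : Fin n → K) := by
    intro i
    simp
  refine ⟨(b₁.prod b₂).map (Submodule.prodEquivOfIsCompl V₁ C hC), fun i => ?_, fun j => ?_⟩
  · rw [e1]
    exact h2 (b₁ i).2
  · have h6 : B *ᵥ ((b₁.prod b₂).map (Submodule.prodEquivOfIsCompl V₁ C hC)) (Sum.inr j) ∈ V₁ :=
      h1 ⟨_, rfl⟩
    have h7 : (fun i => ((b₁.prod b₂).map (Submodule.prodEquivOfIsCompl V₁ C hC)) (Sum.inl i)) =
        V₁.subtype ∘ b₁ := by
      funext i
      rw [e1]
      rfl
    rw [h7, Set.range_comp, Submodule.span_image, b₁.span_eq, Submodule.map_top,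
      Submodule.range_subtype]
    exact h6

end Pool.Agent.P5e96
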