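import Mathlib
import Pool.Agent.Lib.P5e96.UTPoly

/-!
# Nonzero values at matrices with prescribed support: reduction to matrix units
-/

open Finset Matrix

namespace Pool.Agent.P5e96

variable {K : Type*} [Field K] {r : ℕ}

/-- `mval α` as a multilinear map, for any index type. -/
theorem exists_multilinear_mval_gen {ι : Type} [Fintype ι] [DecidableEq ι] {m : ℕ}
    (α : Equiv.Perm (Fin m) → K) :
    ∃ M : MultilinearMap K (fun _ : Fin m => Matrix ι ι K) (Matrix ι ι K),
      ∀ A : Fin m → Matrix ι ι K, M A = mval α A := by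
  refine ⟨∑ σ : Equiv.Perm (Fin m), α σ •
    (MultilinearMap.mkPiAlgebraFin K m (Matrix ι ι K)).domDomCongr σ, fun A => ?_⟩
  rw [_root_.sum_apply, mval]
  refine Finset.sum_congr rfl fun σ _ => ?_
  rw [_root_.smul_apply, MultilinearMap.domDomCongr_apply,
    MultilinearMap.mkPiAlgebraFin_apply]

theorem exists_elementary_gen {ι : Type} [Fintype ι] [DecidableEq ι]
    (P : Fin (r + 1) → ι → ι → Prop) (α : Equiv.Perm (Fin (r + 1)) → K)
    (U : Fin (r + 1) → Matrix ι ι K) (hU : ∀ q i j, ¬ P q i j → U q i j = 0)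
    (hne : mval α U ≠ 0) :
    ∃ a b : Fin (r + 1) → ι, (∀ q, P q (a q) (b q)) ∧
      mval α (fun q => Matrix.single (a q) (b q) (1 : K)) ≠ 0 := by
  classical
  obtain ⟨M, hM⟩ := exists_multilinear_mval_gen (ι := ι) α
  have hU1 : U = fun q => ∑ c : ι × ι, U q c.1 c.2 • Matrix.single c.1 c.2 (1 : K) := by
    funext q
    rw [Fintype.sum_prod_type]
    conv_lhs => rw [Matrix.matrix_eq_sum_single (U q)]
    refine Finset.sum_congr rfl fun i _ => Finset.sum_congr rfl fun j _ => ?_
    rw [Matrix.smul_single, smul_eq_mul, mul_one]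
  rw [← hM, hU1, MultilinearMap.map_sum] at hne
  obtain ⟨c, _, hc⟩ := Finset.exists_ne_zero_of_sum_ne_zero hne
  rw [MultilinearMap.map_smul_univ M (fun q => U q (c q).1 (c q).2)
    (fun q => Matrix.single (c q).1 (c q).2 (1 : K))] at hc
  have h1 := left_ne_zero_of_smul hc
  have h2 := right_ne_zero_of_smul hc
  refine ⟨fun q => (c q).1, fun q => (c q).2, fun q => ?_, ?_⟩
  · by_contra hlt
    exact (Finset.prod_ne_zero_iff.1 h1 q (Finset.mem_univ q)) (hU q _ _ hlt)
  · rw [← hM]
    exact h2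

end Pool.Agent.P5e96
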