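import Mathlib
import Pool.Agent.Lib.P5e96.BlockScaleSteps

/-!
# Block scaling for one block above the diagonal
-/

open Finset Matrix

namespace Pool.Agent.P5e96

variable {K : Type*} [Field K] {r : ℕ}

/-- The matrix with the block `X` above the diagonal. -/
def upJ (ι₁ ι₂ : Type*) : Matrix ι₁ ι₂ K →ₗ[K] Matrix (ι₁ ⊕ ι₂) (ι₁ ⊕ ι₂) K where
  toFun X := Matrix.fromBlocks 0 X 0 0
  map_add' X Y := by rw [Matrix.fromBlocks_add]; simp
  map_smul' c X := by rw [Matrix.fromBlocks_smul]; simp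

theorem upJ_apply {ι₁ ι₂ : Type*} (X : Matrix ι₁ ι₂ K) :
    upJ ι₁ ι₂ X = Matrix.fromBlocks 0 X 0 0 := rfl

theorem prod_blocks_diag {ι₁ ι₂ : Type*} [DecidableEq ι₁] [Fintype ι₁] [DecidableEq ι₂]
    [Fintype ι₂] (C : ℕ → Matrix (ι₁ ⊕ ι₂) (ι₁ ⊕ ι₂) K)
    (hC : ∀ q i j, C q (Sum.inl i) (Sum.inr j) = 0 ∧ C q (Sum.inr j) (Sum.inl i) = 0)
    (l : List ℕ) :
    (l.map C).prod = Matrix.fromBlocks (l.map fun q => (C q).toBlocks₁₁).prod 0 0
      (l.map fun q => (C q).toBlocks₂₂).prod := by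
  induction l with
  | nil => simp
  | cons q l ih =>
    have h1 : C q = Matrix.fromBlocks (C q).toBlocks₁₁ 0 0 (C q).toBlocks₂₂ := by
      ext i j
      rcases i with i | i <;> rcases j with j | j
      · rfl
      · exact (hC q i j).1
      · exact (hC q j i).2
      · rfl
    rw [List.map_cons, List.prod_cons, ih, List.map_cons, List.prod_cons, List.map_cons,
      List.prod_cons]
    conv_lhs => rw [h1]
    rw [Matrix.fromBlocks_multiply]
    simp

theorem act_upJ {ι₁ ι₂ : Type*} [DecidableEq ι₁] [Fintype ι₁] [DecidableEq ι₂]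
    [Fintype ι₂] (C : ℕ → Matrix (ι₁ ⊕ ι₂) (ι₁ ⊕ ι₂) K)
    (hC : ∀ q i j, C q (Sum.inl i) (Sum.inr j) = 0 ∧ C q (Sum.inr j) (Sum.inl i) = 0)
    (σ : Equiv.Perm (Fin (r + 1))) (X : Matrix ι₁ ι₂ K) :
    act C σ (upJ ι₁ ι₂ X) = upJ ι₁ ι₂ (((preL σ).map fun q => (C q).toBlocks₁₁).prod *
      (X * ((postL σ).map fun q => (C q).toBlocks₂₂).prod)) := by
  rw [act_apply, prod_blocks_diag C hC, prod_blocks_diag C hC, upJ_apply, upJ_apply,
    Matrix.fromBlocks_multiply, Matrix.fromBlocks_multiply]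
  simp

/-- The two classes. -/
def ucol (ι₁ ι₂ : Type*) : ι₁ ⊕ ι₂ → Bool := Sum.elim (fun _ => false) (fun _ => true)

theorem diag_upJ {ι₁ ι₂ : Type*} [DecidableEq ι₁] [Fintype ι₁] [DecidableEq ι₂]
    [Fintype ι₂] (u v : Bool → K) (X : Matrix ι₁ ι₂ K) :
    (Matrix.diagonal fun i => u (ucol ι₁ ι₂ i)) * upJ ι₁ ι₂ X *
      (Matrix.diagonal fun i => v (ucol ι₁ ι₂ i)) = (u false * v true) • upJ ι₁ ι₂ X := by
  ext i j
  rw [Matrix.mul_diagonal, Matrix.diagonal_mul, Matrix.smul_apply, upJ_apply, smul_eq_mul]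
  rcases i with i | i <;> rcases j with j | j
  · simp
  · simp only [Matrix.fromBlocks_apply₁₂, ucol, Sum.elim_inl, Sum.elim_inr]
    ring
  · simp
  · simp

theorem block_scale_upper {ι₁ ι₂ : Type*} [DecidableEq ι₁] [Fintype ι₁] [DecidableEq ι₂]
    [Fintype ι₂] [Infinite K]
    (α : Equiv.Perm (Fin (r + 1)) → K) (C : ℕ → Matrix (ι₁ ⊕ ι₂) (ι₁ ⊕ ι₂) K)
    (hC : ∀ q i j, C q (Sum.inl i) (Sum.inr j) = 0 ∧ C q (Sum.inr j) (Sum.inl i) = 0)
    (S₁ S₂ : Finset ℕ) (hS : Disjoint S₁ S₂)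
    (hg : ∀ X : Matrix ι₁ ι₂ K,
      (∑ σ : Equiv.Perm (Fin (r + 1)),
        if (∀ q ∈ preL σ, q ∉ S₂) ∧ (∀ q ∈ postL σ, q ∉ S₁) then
          α σ • act C σ (Matrix.fromBlocks 0 X 0 0) else 0) = 0 → X = 0)
    (T : Matrix ι₁ ι₂ K) :
    ∃ A : Fin (r + 1) → Matrix (ι₁ ⊕ ι₂) (ι₁ ⊕ ι₂) K,
      mval α A = Matrix.fromBlocks 0 T 0 0 := by
  classical
  set E : Equiv.Perm (Fin (r + 1)) → Matrix ι₁ ι₂ K →ₗ[K] Matrix ι₁ ι₂ K := fun σ =>
    { toFun := fun X => α σ • (((preL σ).map fun q => (C q).toBlocks₁₁).prod *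
        (X * ((postL σ).map fun q => (C q).toBlocks₂₂).prod))
      map_add' := by
        intro X Y
        rw [Matrix.add_mul, Matrix.mul_add, smul_add]
      map_smul' := by
        intro c X
        rw [Matrix.smul_mul, Matrix.mul_smul, smul_comm]
        rfl } with hE
  have hEJ : ∀ σ X, upJ ι₁ ι₂ (E σ X) = α σ • act C σ (upJ ι₁ ι₂ X) := by
    intro σ X
    rw [act_upJ C hC, ← map_smul]
    rfl
  set e : Equiv.Perm (Fin (r + 1)) → ℕ := fun σ => cin S₂ (preL σ) + cin S₁ (postL σ) with he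
  have hfin := finite_bad E e (by
    rw [injective_iff_map_eq_zero]
    intro X hX
    apply hg X
    rw [LinearMap.sum_apply] at hX
    have h0 := congrArg (upJ ι₁ ι₂) hX
    rw [map_zero, map_sum] at h0
    refine Eq.trans ?_ h0
    refine Finset.sum_congr rfl fun σ _ => ?_
    by_cases h : (∀ q ∈ preL σ, q ∉ S₂) ∧ (∀ q ∈ postL σ, q ∉ S₁)
    · have h1 : e σ = 0 := by
        simp only [he, cin, Nat.add_eq_zero_iff, List.countP_eq_zero, decide_eq_true_eq]
        exact h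
      rw [if_pos h, h1, pow_zero, one_smul, hEJ]
      rfl
    · have h1 : e σ ≠ 0 := by
        intro h2
        apply h
        simp only [he, cin, Nat.add_eq_zero_iff, List.countP_eq_zero, decide_eq_true_eq] at h2
        exact h2
      rw [if_neg h, zero_pow h1, zero_smul, LinearMap.zero_apply, map_zero])
  obtain ⟨z, hz⟩ := (hfin.union (Set.finite_singleton (0 : K))).infinite_compl.nonempty
  rw [Set.mem_compl_iff, Set.mem_union, not_or] at hz
  have hz0 : z ≠ 0 := fun h => hz.2 (Set.mem_singleton_iff.2 h)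
  have hzi : Function.Injective (∑ i, z ^ e i • E i : Matrix ι₁ ι₂ K →ₗ[K] Matrix ι₁ ι₂ K) := by
    by_contra h
    exact hz.1 h
  have hzs := LinearMap.injective_iff_surjective.1 hzi
  set s : Bool → K := fun a => if a then 1 else z with hs
  have hs0 : ∀ a, s a ≠ 0 := by
    intro a
    cases a
    · exact hz0
    · exact one_ne_zero
  set t : ℕ → Bool → K := fun q a => if q ∈ S₂ then s a else if q ∈ S₁ then (s a)⁻¹ else 1 with ht
  set D : ℕ → Matrix (ι₁ ⊕ ι₂) (ι₁ ⊕ ι₂) K :=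
    fun q => Matrix.diagonal fun i => t q (ucol ι₁ ι₂ i) with hD
  have hCc : ∀ q i j, ucol ι₁ ι₂ i ≠ ucol ι₁ ι₂ j → C q i j = 0 := by
    intro q i j h
    rcases i with i | i <;> rcases j with j | j
    · exact absurd rfl h
    · exact (hC q i j).1
    · exact (hC q j i).2
    · exact absurd rfl h
  have hDC : ∀ p q, Commute (D p) (C q) := fun p q =>
    block_commute (ucol ι₁ ι₂) (C q) (hCc q) (t p)
  set τ : List ℕ → Bool → K := fun l a => (l.map fun q => t q a).prod with hτ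
  have hDl : ∀ l : List ℕ, (l.map D).prod = Matrix.diagonal fun i => τ l (ucol ι₁ ι₂ i) :=
    fun l => list_diagonal (ucol ι₁ ι₂) t l
  have hτs : ∀ l a, τ l a = s a ^ cin S₂ l * (s a)⁻¹ ^ cin S₁ l := fun l a =>
    scal_list_steps S₁ S₂ hS (s a) l
  set c : K := (s false)⁻¹ ^ (cin S₁ (preL (1 : Equiv.Perm (Fin (r + 1)))) +
      cin S₁ (postL (1 : Equiv.Perm (Fin (r + 1))))) *
    s true ^ (cin S₂ (preL (1 : Equiv.Perm (Fin (r + 1)))) +
      cin S₂ (postL (1 : Equiv.Perm (Fin (r + 1))))) with hc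
  have hc0 : c ≠ 0 :=
    mul_ne_zero (pow_ne_zero _ (inv_ne_zero (hs0 _))) (pow_ne_zero _ (hs0 _))
  have hfac : ∀ σ : Equiv.Perm (Fin (r + 1)),
      τ (preL σ) false * τ (postL σ) true = c * z ^ e σ := by
    intro σ
    rw [hτs, hτs, scal_algebra (hs0 false) (hs0 true)]
    have h1 : cin S₁ (preL σ) + cin S₁ (postL σ) = _ := count_split _ σ
    have h2 : cin S₂ (preL σ) + cin S₂ (postL σ) = _ := count_split _ σ
    rw [h1, h2]
    have h3 : s false / s true = z := by simp [hs]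
    rw [h3]
    rfl
  obtain ⟨X, hX⟩ := hzs (c⁻¹ • T)
  refine ⟨fun q => if q = 0 then upJ ι₁ ι₂ X else D q * C q, ?_⟩
  have hval : mval α (fun q : Fin (r + 1) => if q = 0 then upJ ι₁ ι₂ X else D q * C q) =
      ∑ σ, (c * z ^ e σ) • upJ ι₁ ι₂ (E σ X) := by
    rw [mval]
    refine Finset.sum_congr rfl fun σ _ => ?_
    rw [ofFn_split σ (upJ ι₁ ι₂ X) (fun q => D q * C q) _ (if_pos rfl) (fun q hq => if_neg hq),
      List.prod_append, List.prod_cons, (list_scaled D C hDC _).1, (list_scaled D C hDC _).1,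
      hDl, hDl]
    have h1 : Commute (Matrix.diagonal fun i => τ (postL σ) (ucol ι₁ ι₂ i))
        (((postL σ).map C).prod) := by
      rw [← hDl]
      refine Commute.list_prod_left _ _ ?_
      intro M hM
      obtain ⟨p, _, rfl⟩ := List.mem_map.1 hM
      exact (list_scaled D C hDC _).2 p
    rw [h1.eq]
    have h2 : (Matrix.diagonal fun i => τ (preL σ) (ucol ι₁ ι₂ i)) * ((preL σ).map C).prod *
        (upJ ι₁ ι₂ X * (((postL σ).map C).prod *
          Matrix.diagonal fun i => τ (postL σ) (ucol ι₁ ι₂ i))) =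
        (Matrix.diagonal fun i => τ (preL σ) (ucol ι₁ ι₂ i)) * act C σ (upJ ι₁ ι₂ X) *
          Matrix.diagonal fun i => τ (postL σ) (ucol ι₁ ι₂ i) := by
      rw [act_apply]
      simp only [mul_assoc]
    rw [h2, act_upJ C hC, diag_upJ, hfac, smul_comm, ← map_smul]
    rfl
  rw [hval]
  have h6 : ∑ σ, (c * z ^ e σ) • upJ ι₁ ι₂ (E σ X) =
      upJ ι₁ ι₂ (c • (∑ i, z ^ e i • E i : Matrix ι₁ ι₂ K →ₗ[K] Matrix ι₁ ι₂ K) X) := by
    rw [LinearMap.sum_apply, Finset.smul_sum, map_sum]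
    refine Finset.sum_congr rfl fun σ _ => ?_
    rw [LinearMap.smul_apply, smul_smul, map_smul]
  rw [h6, hX, smul_smul, mul_inv_cancel₀ hc0, one_smul]
  rfl

end Pool.Agent.P5e96
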