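import Mathlib
import Pool.Agent.Lib.P5e96.UBElem
import Pool.Agent.Lib.P5e96.UpperScale

/-!
# Matrix units with exactly one letter which crosses
-/

open Finset Matrix

namespace Pool.Agent.P5e96

variable {K : Type*} [Field K] {r : ℕ}

namespace UBCross

/-- The product of the matrix units of the letters of a list. -/
noncomputable def wd (K : Type*) [Field K] {β : Type*} {s : ℕ} (a b : β → Fin s ⊕ Fin s)
    (l : List β) : Matrix (Fin s ⊕ Fin s) (Fin s ⊕ Fin s) K :=
  (l.map fun q => Matrix.single (a q) (b q) (1 : K)).prod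

theorem wd_cons {β : Type*} {s : ℕ} (a b : β → Fin s ⊕ Fin s) (q : β) (l : List β)
    (x y : Fin s ⊕ Fin s) (h : wd K a b (q :: l) x y ≠ 0) : a q = x ∧ wd K a b l (b q) y ≠ 0 := by
  unfold wd at h ⊢
  rw [List.map_cons, List.prod_cons] at h
  by_cases hx : x = a q
  · subst hx
    refine ⟨rfl, ?_⟩
    intro h0
    apply h
    rw [Matrix.single_mul_apply_same, one_mul, h0]
  · exact absurd (Matrix.single_mul_apply_of_ne _ _ _ _ _ hx _) h

theorem right_right {β : Type*} {s : ℕ} (a b : β → Fin s ⊕ Fin s)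
    (hP : ∀ q, ¬ ((a q).isRight = true ∧ (b q).isLeft = true)) (l : List β) :
    ∀ x y : Fin s ⊕ Fin s, wd K a b l x y ≠ 0 → x.isRight = true →
      y.isRight = true ∧ ∀ q ∈ l, (a q).isLeft = (b q).isLeft := by
  induction l with
  | nil =>
    intro x y h hx
    have hxy : x = y := by
      by_contra hne
      apply h
      simp [wd, Matrix.one_apply_ne hne]
    subst hxy
    exact ⟨hx, by simp⟩
  | cons q l ih =>
    intro x y h hx
    obtain ⟨h1, h2⟩ := wd_cons a b q l x y h
    subst h1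
    have hb : (b q).isRight = true := by
      rcases hbq : b q with z | z
      · exact absurd ⟨hx, by rw [hbq]; rfl⟩ (hP q)
      · rfl
    obtain ⟨h3, h4⟩ := ih (b q) y h2 hb
    refine ⟨h3, ?_⟩
    intro p hp
    rcases List.mem_cons.1 hp with rfl | hp
    · rcases haq : a p with z | z
      · rw [haq] at hx; exact absurd hx (by simp)
      · rcases hbq : b p with w | w
        · rw [hbq] at hb; exact absurd hb (by simp)
        · rfl
    · exact h4 p hp

theorem left_right {β : Type*} {s : ℕ} (a b : β → Fin s ⊕ Fin s)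
    (hP : ∀ q, ¬ ((a q).isRight = true ∧ (b q).isLeft = true)) (l : List β) :
    ∀ x y : Fin s ⊕ Fin s, wd K a b l x y ≠ 0 → x.isLeft = true → y.isRight = true →
      ∃ l₁ q₀ l₂, l = l₁ ++ q₀ :: l₂ ∧ (a q₀).isLeft = true ∧ (b q₀).isRight = true ∧
        (∀ q ∈ l₁, (a q).isLeft = (b q).isLeft) ∧ ∀ q ∈ l₂, (a q).isLeft = (b q).isLeft := by
  induction l with
  | nil =>
    intro x y h hx hy
    have hxy : x = y := by
      by_contra hne
      apply h
      simp [wd, Matrix.one_apply_ne hne]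
    subst hxy
    rcases x with z | z
    · exact absurd hy (by simp)
    · exact absurd hx (by simp)
  | cons q l ih =>
    intro x y h hx hy
    obtain ⟨h1, h2⟩ := wd_cons a b q l x y h
    subst h1
    rcases hbq : b q with z | z
    · have hb : (b q).isLeft = true := by rw [hbq]; rfl
      obtain ⟨l₁, q₀, l₂, h3, h4, h5, h6, h7⟩ := ih (b q) y h2 hb hy
      refine ⟨q :: l₁, q₀, l₂, by rw [h3]; rfl, h4, h5, ?_, h7⟩
      intro p hp
      rcases List.mem_cons.1 hp with rfl | hp
      · rw [hx, hb]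
      · exact h6 p hp
    · have hb : (b q).isRight = true := by rw [hbq]; rfl
      exact ⟨[], q, l, rfl, hx, hb, by simp, (right_right a b hP l (b q) y h2 hb).2⟩

theorem prod_upper {n : Type*} [Fintype n] [DecidableEq n] (l : List (Matrix (n ⊕ n) (n ⊕ n) K))
    (h : ∀ M ∈ l, M.toBlocks₂₁ = 0) :
    l.prod.toBlocks₁₁ = (l.map Matrix.toBlocks₁₁).prod ∧ l.prod.toBlocks₂₁ = 0 ∧
      l.prod.toBlocks₂₂ = (l.map Matrix.toBlocks₂₂).prod := by
  induction l with
  | nil =>
    refine ⟨?_, ?_, ?_⟩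
    · rw [List.prod_nil, List.map_nil, List.prod_nil, ← Matrix.fromBlocks_one,
        Matrix.toBlocks_fromBlocks₁₁]
    · rw [List.prod_nil, ← Matrix.fromBlocks_one, Matrix.toBlocks_fromBlocks₂₁]
    · rw [List.prod_nil, List.map_nil, List.prod_nil, ← Matrix.fromBlocks_one,
        Matrix.toBlocks_fromBlocks₂₂]
  | cons M l ih =>
    obtain ⟨h1, h2, h3⟩ := ih (fun N hN => h N (List.mem_cons_of_mem _ hN))
    have hM := h M List.mem_cons_self
    have e : M * l.prod = Matrix.fromBlocks
        (M.toBlocks₁₁ * l.prod.toBlocks₁₁ + M.toBlocks₁₂ * l.prod.toBlocks₂₁)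
        (M.toBlocks₁₁ * l.prod.toBlocks₁₂ + M.toBlocks₁₂ * l.prod.toBlocks₂₂)
        (M.toBlocks₂₁ * l.prod.toBlocks₁₁ + M.toBlocks₂₂ * l.prod.toBlocks₂₁)
        (M.toBlocks₂₁ * l.prod.toBlocks₁₂ + M.toBlocks₂₂ * l.prod.toBlocks₂₂) := by
      rw [← Matrix.fromBlocks_multiply, Matrix.fromBlocks_toBlocks, Matrix.fromBlocks_toBlocks]
    rw [List.prod_cons, List.map_cons, List.prod_cons, List.map_cons, List.prod_cons, e,
      Matrix.toBlocks_fromBlocks₁₁, Matrix.toBlocks_fromBlocks₂₁, Matrix.toBlocks_fromBlocks₂₂,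
      h1, h2, h3, hM]
    simp

theorem mval_upper {s : ℕ} (α : Equiv.Perm (Fin (r + 1)) → K)
    (U : Fin (r + 1) → Matrix (Fin s ⊕ Fin s) (Fin s ⊕ Fin s) K)
    (hU : ∀ q i j, U q (Sum.inr i) (Sum.inl j) = 0) :
    (∀ i j, mval α U (Sum.inl i) (Sum.inl j) = mval α (fun q => (U q).toBlocks₁₁) i j) ∧
      (∀ i j, mval α U (Sum.inr i) (Sum.inl j) = 0) ∧
      ∀ i j, mval α U (Sum.inr i) (Sum.inr j) = mval α (fun q => (U q).toBlocks₂₂) i j := by
  have hl : ∀ σ : Equiv.Perm (Fin (r + 1)), ∀ M ∈ (List.ofFn fun i => U (σ i)),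
      M.toBlocks₂₁ = 0 := by
    intro σ M hM
    rw [List.mem_ofFn] at hM
    obtain ⟨i, rfl⟩ := hM
    ext x y
    exact hU _ x y
  refine ⟨?_, ?_, ?_⟩
  · intro i j
    simp only [mval, Matrix.sum_apply, Matrix.smul_apply]
    refine Finset.sum_congr rfl fun σ _ => ?_
    congr 1
    have h1 := (prod_upper _ (hl σ)).1
    rw [List.map_ofFn] at h1
    exact congrFun (congrFun h1 i) j
  · intro i j
    simp only [mval, Matrix.sum_apply, Matrix.smul_apply]
    refine Finset.sum_eq_zero fun σ _ => ?_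
    have h1 := congrFun (congrFun (prod_upper _ (hl σ)).2.1 i) j
    have h2 : (List.ofFn fun i => U (σ i)).prod (Sum.inr i) (Sum.inl j) = 0 := h1
    rw [h2, smul_zero]
  · intro i j
    simp only [mval, Matrix.sum_apply, Matrix.smul_apply]
    refine Finset.sum_congr rfl fun σ _ => ?_
    congr 1
    have h1 := (prod_upper _ (hl σ)).2.2
    rw [List.map_ofFn] at h1
    exact congrFun (congrFun h1 i) j

theorem dbl_prod {s : ℕ} (V : ℕ → Matrix (Fin s) (Fin s) K) (l : List ℕ) :
    (l.map fun q => Matrix.fromBlocks (V q) 0 0 (V q)).prod =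
      Matrix.fromBlocks (l.map V).prod 0 0 (l.map V).prod := by
  induction l with
  | nil => simp
  | cons q l ih =>
    rw [List.map_cons, List.prod_cons, ih, List.map_cons, List.prod_cons,
      Matrix.fromBlocks_multiply]
    simp

theorem mval_dbl {s : ℕ} (α : Equiv.Perm (Fin (r + 1)) → K)
    (V : Fin (r + 1) → Matrix (Fin s) (Fin s) K) :
    mval α (fun q : Fin (r + 1) => if q = 0 then Matrix.fromBlocks 0 (V 0) 0 0 else
      Matrix.fromBlocks (V q) 0 0 (V q)) = upJ (Fin s) (Fin s) (mval α V) := by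
  set V' : ℕ → Matrix (Fin s) (Fin s) K := fun q => if h : q < r + 1 then V ⟨q, h⟩ else 0 with hV'
  have hVV : ∀ q : Fin (r + 1), V q = V' q := by
    intro q
    rw [hV']
    simp only [dif_pos q.2]
  rw [mval, mval, map_sum]
  refine Finset.sum_congr rfl fun σ _ => ?_
  rw [map_smul]
  congr 1
  have e1 : (List.ofFn fun i => if σ i = 0 then
      (Matrix.fromBlocks 0 (V 0) 0 0 : Matrix (Fin s ⊕ Fin s) (Fin s ⊕ Fin s) K) else
      Matrix.fromBlocks (V (σ i)) 0 0 (V (σ i))) =
      (preL σ).map (fun q => Matrix.fromBlocks (V' q) 0 0 (V' q)) ++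
        Matrix.fromBlocks 0 (V 0) 0 0 ::
          (postL σ).map (fun q => Matrix.fromBlocks (V' q) 0 0 (V' q)) :=
    ofFn_split σ (Matrix.fromBlocks 0 (V 0) 0 0)
      (fun q => Matrix.fromBlocks (V' q) 0 0 (V' q))
      (fun q : Fin (r + 1) => if q = 0 then Matrix.fromBlocks 0 (V 0) 0 0 else
        Matrix.fromBlocks (V q) 0 0 (V q)) (if_pos rfl)
      (fun q hq => by simp only [if_neg hq, hVV])
  have e2 : (List.ofFn fun i => V (σ i)) = (preL σ).map V' ++ V 0 :: (postL σ).map V' :=
    ofFn_split σ (V 0) V' V rfl (fun q _ => hVV q)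
  rw [e1, e2, List.prod_append, List.prod_cons,
    List.prod_append, List.prod_cons, dbl_prod, dbl_prod, upJ_apply, Matrix.fromBlocks_multiply,
    Matrix.fromBlocks_multiply]
  simp

theorem case_diag {s : ℕ} (α : Equiv.Perm (Fin (r + 1)) → K)
    (V : Fin (r + 1) → Matrix (Fin s) (Fin s) K) (hV : mval α V ≠ 0) :
    ∃ (a b : Fin (r + 1) → Fin s ⊕ Fin s) (q₀ : Fin (r + 1)),
      (a q₀).isLeft = true ∧ (b q₀).isRight = true ∧
      (∀ q, q ≠ q₀ → (a q).isLeft = (b q).isLeft) ∧
      mval α (fun q => Matrix.single (a q) (b q) (1 : K)) ≠ 0 := by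
  obtain ⟨a, b, hab, hne⟩ := exists_elementary_gen
    (fun q (i j : Fin s ⊕ Fin s) => if q = 0 then i.isLeft = true ∧ j.isRight = true else
      i.isLeft = j.isLeft) α
    (fun q : Fin (r + 1) => if q = 0 then Matrix.fromBlocks 0 (V 0) 0 0 else
      Matrix.fromBlocks (V q) 0 0 (V q)) (by
      intro q i j hq
      by_cases h0 : q = 0
      · rw [if_pos h0] at hq
        simp only [if_pos h0]
        rcases i with i | i <;> rcases j with j | j
        · rfl
        · exact absurd ⟨rfl, rfl⟩ hq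
        · rfl
        · rfl
      · rw [if_neg h0] at hq
        simp only [if_neg h0]
        rcases i with i | i <;> rcases j with j | j
        · exact absurd rfl hq
        · rfl
        · rfl
        · exact absurd rfl hq) (by
      rw [mval_dbl]
      intro h
      apply hV
      ext i j
      have h1 := congrFun (congrFun h (Sum.inl i)) (Sum.inr j)
      rw [upJ_apply, Matrix.fromBlocks_apply₁₂] at h1
      exact h1)
  refine ⟨a, b, 0, ?_, ?_, ?_, hne⟩
  · have := hab 0
    rw [if_pos rfl] at this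
    exact this.1
  · have := hab 0
    rw [if_pos rfl] at this
    exact this.2
  · intro q hq
    have := hab q
    rwa [if_neg hq] at this

end UBCross

open UBCross

theorem exists_cross {s : ℕ} (α : Equiv.Perm (Fin (r + 1)) → K)
    (U : Fin (r + 1) → Matrix (Fin s ⊕ Fin s) (Fin s ⊕ Fin s) K)
    (hU : ∀ q i j, U q (Sum.inr i) (Sum.inl j) = 0) (hne : mval α U ≠ 0) :
    ∃ (a b : Fin (r + 1) → Fin s ⊕ Fin s) (q₀ : Fin (r + 1)), (a q₀).isLeft ∧ (b q₀).isRight ∧
      (∀ q, q ≠ q₀ → (a q).isLeft = (b q).isLeft) ∧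
      mval α (fun q => Matrix.single (a q) (b q) (1 : K)) ≠ 0 := by
  by_cases hV : ∃ V : Fin (r + 1) → Matrix (Fin s) (Fin s) K, mval α V ≠ 0
  · obtain ⟨V, hV⟩ := hV
    exact case_diag α V hV
  · have hV0 : ∀ V : Fin (r + 1) → Matrix (Fin s) (Fin s) K, mval α V = 0 := by
      intro V
      by_contra h
      exact hV ⟨V, h⟩
    obtain ⟨a, b, hab, hne'⟩ := exists_elementary_gen
      (fun _ (i j : Fin s ⊕ Fin s) => ¬ (i.isRight = true ∧ j.isLeft = true)) α U (by
        intro q i j h
        rw [not_not] at h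
        rcases i with i | i
        · exact absurd h.1 (by simp)
        · rcases j with j | j
          · exact hU q i j
          · exact absurd h.2 (by simp)) hne
    have hU2 : ∀ q i j, Matrix.single (a q) (b q) (1 : K) (Sum.inr i) (Sum.inl j) = 0 := by
      intro q i j
      apply Matrix.single_apply_of_ne
      rintro ⟨h1, h2⟩
      exact hab q ⟨by rw [h1]; rfl, by rw [h2]; rfl⟩
    obtain ⟨m1, m2, m3⟩ := mval_upper α (fun q => Matrix.single (a q) (b q) (1 : K)) hU2
    have hex : ∃ x y, mval α (fun q => Matrix.single (a q) (b q) (1 : K)) x y ≠ 0 := by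
      by_contra h
      apply hne'
      ext x y
      by_contra h'
      exact h ⟨x, y, h'⟩
    obtain ⟨x, y, hxy⟩ := hex
    rcases x with x | x <;> rcases y with y | y
    · rw [m1, hV0] at hxy
      exact absurd rfl hxy
    · simp only [mval, Matrix.sum_apply, Matrix.smul_apply] at hxy
      obtain ⟨σ, _, hσ⟩ := Finset.exists_ne_zero_of_sum_ne_zero hxy
      have h1 : (List.ofFn fun i => Matrix.single (a (σ i)) (b (σ i)) (1 : K)).prod
          (Sum.inl x) (Sum.inr y) ≠ 0 := fun h => hσ (by rw [h, smul_zero])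
      have h2 : (List.ofFn fun i => Matrix.single (a (σ i)) (b (σ i)) (1 : K)) =
          (List.ofFn σ).map fun q => Matrix.single (a q) (b q) (1 : K) := by
        rw [List.map_ofFn]
        rfl
      rw [h2] at h1
      obtain ⟨l₁, q₀, l₂, h3, h4, h5, h6, h7⟩ := left_right a b hab (List.ofFn σ)
        (Sum.inl x) (Sum.inr y) h1 rfl rfl
      refine ⟨a, b, q₀, h4, h5, ?_, hne'⟩
      intro q hq
      have hmem : q ∈ List.ofFn σ := by
        rw [List.mem_ofFn]
        exact ⟨σ.symm q, σ.apply_symm_apply q⟩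
      rw [h3, List.mem_append, List.mem_cons] at hmem
      rcases hmem with h | h | h
      · exact h6 q h
      · exact absurd h hq
      · exact h7 q h
    · rw [m2] at hxy
      exact absurd rfl hxy
    · rw [m3, hV0] at hxy
      exact absurd rfl hxy

end Pool.Agent.P5e96
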