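import Mathlib
import Pool.Agent.Lib.P5e96.UTPoly

/-!
# Words with prescribed letters before and after the letter `0`
-/

open Finset Matrix

namespace Pool.Agent.P5e96

/-- `1` if the word `l` is a path starting at `x` (the letter `q` being the edge from `a q` to
`b q`), `0` otherwise. -/
def uwt (K : Type*) [Field K] (a b : ℕ → ℕ) : List ℕ → ℕ → K
  | [], _ => 1
  | q :: l, x => if a q = x then uwt K a b l (b q) else 0

/-- Matrix units of size `s` for which the words with the letters of `S₁` before and the letters of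
`S₂` after the letter `0` have a nonzero sum. -/
def BData {K : Type*} [Field K] {r : ℕ} (α : Equiv.Perm (Fin (r + 1)) → K) (s : ℕ) : Prop :=
  ∃ (S₁ S₂ : Finset ℕ) (a b : ℕ → ℕ) (i₀ y₀ : ℕ), Disjoint S₁ S₂ ∧ S₁ ∪ S₂ = Finset.Icc 1 r ∧
    (∀ q, a q < s ∧ b q < s) ∧ i₀ < s ∧ y₀ < s ∧
    (∑ σ : Equiv.Perm (Fin (r + 1)), if goodU S₁ S₂ σ then
      α σ * (uwt K a b (preL σ) i₀ * uwt K a b (postL σ) y₀) else 0) ≠ 0

end Pool.Agent.P5e96
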