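import Mathlib
import Pool.Agent.Lib.P5e96.UBDefs
import Pool.Agent.Lib.P5e96.UTPoly

/-!
# Words in block upper triangular matrix units with one crossing letter
-/

open Finset Matrix

namespace Pool.Agent.P5e96

variable {K : Type*} [Field K] {r : ℕ}

/-- The value of an element of `Fin s ⊕ Fin s`, the side is forgotten. -/
def bval {s : ℕ} (x : Fin s ⊕ Fin s) : ℕ :=
  Sum.elim (fun i : Fin s => (i : ℕ)) (fun i : Fin s => (i : ℕ)) x

theorem bval_lt {s : ℕ} (x : Fin s ⊕ Fin s) : bval x < s := by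
  rcases x with x | x
  · exact x.2
  · exact x.2

theorem bval_inj {s : ℕ} {x y : Fin s ⊕ Fin s} (h : x.isLeft = y.isLeft)
    (h2 : bval x = bval y) : x = y := by
  rcases x with x | x <;> rcases y with y | y
  · exact congrArg Sum.inl (Fin.ext h2)
  · simp at h
  · simp at h
  · exact congrArg Sum.inr (Fin.ext h2)

/-- The end of a path. -/
def pend (b : ℕ → ℕ) : List ℕ → ℕ → ℕ
  | [], x => x
  | q :: l, _ => pend b l (b q)

theorem single_mul_entry_gen {ι : Type*} [Fintype ι] [DecidableEq ι] (p q : ι)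
    (X : Matrix ι ι K) (u j : ι) :
    (Matrix.single p q (1 : K) * X) u j = if u = p then X q j else 0 := by
  by_cases h : u = p
  · subst h
    rw [if_pos rfl, Matrix.single_mul_apply_same, one_mul]
  · rw [if_neg h, Matrix.single_mul_apply_of_ne _ _ _ _ _ h]

/-- A path along letters which do not cross stays on its side. -/
theorem prod_side {s : ℕ} (A B : ℕ → Fin s ⊕ Fin s) (l : List ℕ) (u v : Fin s ⊕ Fin s)
    (hl : ∀ q ∈ l, (A q).isLeft = (B q).isLeft)
    (hne : (l.map fun q => Matrix.single (A q) (B q) (1 : K)).prod u v ≠ 0) :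
    u.isLeft = v.isLeft ∧ ∀ q ∈ l, (A q).isLeft = u.isLeft := by
  induction l generalizing u with
  | nil =>
    rw [List.map_nil, List.prod_nil, Matrix.one_apply] at hne
    have h : u = v := by
      by_contra h
      rw [if_neg h] at hne
      exact hne rfl
    subst h
    exact ⟨rfl, by simp⟩
  | cons q l ih =>
    rw [List.map_cons, List.prod_cons, single_mul_entry_gen] at hne
    have hu : u = A q := by
      by_contra h
      rw [if_neg h] at hne
      exact hne rfl
    rw [if_pos hu] at hne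
    obtain ⟨h1, h2⟩ := ih (B q) (fun p hp => hl p (List.mem_cons_of_mem _ hp)) hne
    have h3 := hl q List.mem_cons_self
    rw [hu]
    refine ⟨h3.trans h1, fun p hp => ?_⟩
    rcases List.mem_cons.1 hp with hp | hp
    · rw [hp]
    · rw [h2 p hp, h3]

theorem prod_uwt {s : ℕ} (A B : ℕ → Fin s ⊕ Fin s) (l : List ℕ) (u v : Fin s ⊕ Fin s)
    (hl : ∀ q ∈ l, (A q).isLeft = u.isLeft ∧ (B q).isLeft = u.isLeft)
    (hv : v.isLeft = u.isLeft) :
    (l.map fun q => Matrix.single (A q) (B q) (1 : K)).prod u v =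
      uwt K (fun q => bval (A q)) (fun q => bval (B q)) l (bval u) *
        if pend (fun q => bval (B q)) l (bval u) = bval v then 1 else 0 := by
  induction l generalizing u with
  | nil =>
    rw [List.map_nil, List.prod_nil, Matrix.one_apply, uwt, pend, one_mul]
    by_cases h : u = v
    · subst h
      rw [if_pos rfl, if_pos rfl]
    · rw [if_neg h, if_neg (fun h2 => h (bval_inj hv.symm h2))]
  | cons q l ih =>
    rw [List.map_cons, List.prod_cons, single_mul_entry_gen, uwt, pend]
    obtain ⟨h1, h2⟩ := hl q List.mem_cons_self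
    by_cases h : u = A q
    · rw [if_pos h, if_pos (by rw [h])]
      refine ih (B q) (fun p hp => ?_) (hv.trans h2.symm)
      rw [h2]
      exact hl p (List.mem_cons_of_mem _ hp)
    · rw [if_neg h, if_neg (fun h3 => h (bval_inj h1.symm h3.symm)), zero_mul]

theorem uwt_pend (a b : ℕ → ℕ) (l : List ℕ) (x : ℕ) (h : uwt K a b l x ≠ 0) :
    ((pend b l x : ℕ) : ℤ) = x + (l.map fun q => ((b q : ℤ) - a q)).sum := by
  induction l generalizing x with
  | nil => simp [pend]
  | cons q l ih =>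
    rw [uwt] at h
    have hx : a q = x := by
      by_contra hx
      rw [if_neg hx] at h
      exact h rfl
    rw [if_pos hx] at h
    rw [pend, ih _ h, List.map_cons, List.sum_cons, hx]
    ring

theorem goodU_toFinset (S₁ S₂ : Finset ℕ)
    (hu : S₁ ∪ S₂ = Finset.Icc 1 r) (σ : Equiv.Perm (Fin (r + 1))) (hσ : goodU S₁ S₂ σ) :
    (preL σ).toFinset = S₁ ∧ (postL σ).toFinset = S₂ := by
  have hmem : ∀ q, (q ∈ S₁ ∨ q ∈ S₂) ↔ 1 ≤ q ∧ q ≤ r := by
    intro q
    rw [← Finset.mem_union, hu, Finset.mem_Icc]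
  obtain ⟨h01, h02⟩ := zero_notMem σ
  have hfull : ∀ q, q < r + 1 → q ≠ 0 → q ∈ preL σ ∨ q ∈ postL σ := by
    intro q hq hq0
    have h := mem_fullList σ q hq
    rw [fullList_eq, List.mem_append, List.mem_cons] at h
    tauto
  have hlt : ∀ q, q ∈ preL σ ∨ q ∈ postL σ → q ∈ S₁ ∨ q ∈ S₂ := by
    intro q hq
    have h1 : q ∈ fullList σ := by
      rw [fullList_eq, List.mem_append, List.mem_cons]
      tauto
    have h2 : q ≠ 0 := by
      rintro rfl
      tauto
    rw [fullList, List.mem_ofFn'] at h1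
    obtain ⟨t, rfl⟩ := h1
    rw [hmem]
    exact ⟨Nat.one_le_iff_ne_zero.2 h2, Nat.lt_succ_iff.1 (σ t).2⟩
  constructor
  · ext q
    rw [List.mem_toFinset]
    constructor
    · intro h
      have h1 := hσ.1 q h
      have h2 := hlt q (Or.inl h)
      tauto
    · intro h
      have h1 := (hmem q).1 (Or.inl h)
      rcases hfull q (by omega) (by omega) with h2 | h2
      · exact h2
      · exact absurd h (hσ.2 q h2)
  · ext q
    rw [List.mem_toFinset]
    constructor
    · intro h
      have h1 := hσ.2 q h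
      have h2 := hlt q (Or.inr h)
      tauto
    · intro h
      have h1 := (hmem q).1 (Or.inr h)
      rcases hfull q (by omega) (by omega) with h2 | h2
      · exact absurd h (hσ.1 q h2)
      · exact h2

theorem preL_nodup (σ : Equiv.Perm (Fin (r + 1))) : (preL σ).Nodup ∧ (postL σ).Nodup := by
  have h1 := fullList_nodup σ
  rw [fullList_eq] at h1
  have h2 := (List.nodup_cons.1 (List.nodup_middle.1 h1)).2
  exact ⟨(List.nodup_append.1 h2).1, (List.nodup_append.1 h2).2.1⟩

/-- MODULE U3. -/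
theorem exists_BData_of_cross {s : ℕ} (α : Equiv.Perm (Fin (r + 1)) → K)
    (a b : Fin (r + 1) → Fin s ⊕ Fin s) (q₀ : Fin (r + 1))
    (h1 : (a q₀).isLeft) (h2 : (b q₀).isRight)
    (h3 : ∀ q, q ≠ q₀ → (a q).isLeft = (b q).isLeft)
    (hne : mval α (fun q => Matrix.single (a q) (b q) (1 : K)) ≠ 0) :
    ∃ ρ : Equiv.Perm (Fin (r + 1)), BData (fun τ => α (ρ * τ)) s := by
  obtain ⟨i, j, hij⟩ : ∃ i j, mval α (fun q => Matrix.single (a q) (b q) (1 : K)) i j ≠ 0 := by
    by_contra hc
    push Not at hc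
    apply hne
    ext i j
    exact hc i j
  set ρ : Equiv.Perm (Fin (r + 1)) := Equiv.swap 0 q₀ with hρ
  refine ⟨ρ, ?_⟩
  let A : ℕ → Fin s ⊕ Fin s := fun q => if h : q < r + 1 then a (ρ ⟨q, h⟩) else i
  let B : ℕ → Fin s ⊕ Fin s := fun q => if h : q < r + 1 then b (ρ ⟨q, h⟩) else i
  have hA : ∀ q : Fin (r + 1), A q = a (ρ q) := fun q => dif_pos q.2
  have hB : ∀ q : Fin (r + 1), B q = b (ρ q) := fun q => dif_pos q.2
  have hρ0 : ρ 0 = q₀ := by rw [hρ, Equiv.swap_apply_left]
  have hA0 : A 0 = a q₀ := by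
    have h := hA 0
    rw [hρ0] at h
    exact h
  have hB0 : B 0 = b q₀ := by
    have h := hB 0
    rw [hρ0] at h
    exact h
  have hb : (b q₀).isLeft = false := by
    cases h : b q₀ with
    | inl x => rw [h] at h2; simp at h2
    | inr x => rfl
  have hAB : ∀ q, q ≠ 0 → (A q).isLeft = (B q).isLeft := by
    intro q hq
    simp only [A, B]
    split_ifs with h
    · apply h3
      intro h4
      rw [← hρ0] at h4
      have h5 := congrArg Fin.val (ρ.injective h4)
      apply hq
      simpa using h5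
    · rfl
  have hword : ∀ τ : Equiv.Perm (Fin (r + 1)),
      (List.ofFn fun t => Matrix.single (a ((ρ * τ) t)) (b ((ρ * τ) t)) (1 : K)) =
        (fullList τ).map fun q => Matrix.single (A q) (B q) (1 : K) := by
    intro τ
    rw [fullList, List.map_ofFn]
    congr 1
    funext t
    simp only [Function.comp_apply]
    rw [hA, hB, Equiv.Perm.mul_apply]
  have hsum : mval α (fun q => Matrix.single (a q) (b q) (1 : K)) i j =
      ∑ τ : Equiv.Perm (Fin (r + 1)), α (ρ * τ) *
        ((fullList τ).map fun q => Matrix.single (A q) (B q) (1 : K)).prod i j := by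
    rw [mval, Matrix.sum_apply, ← Equiv.sum_comp (Equiv.mulLeft ρ)]
    refine Finset.sum_congr rfl fun τ _ => ?_
    rw [Matrix.smul_apply, smul_eq_mul, Equiv.coe_mulLeft, ← hword τ]
  rw [hsum] at hij
  have hentry : ∀ τ : Equiv.Perm (Fin (r + 1)),
      ((fullList τ).map fun q => Matrix.single (A q) (B q) (1 : K)).prod i j =
        ((preL τ).map fun q => Matrix.single (A q) (B q) (1 : K)).prod i (A 0) *
        ((postL τ).map fun q => Matrix.single (A q) (B q) (1 : K)).prod (B 0) j := by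
    intro τ
    rw [fullList_eq, List.map_append, List.prod_append, List.map_cons, List.prod_cons,
      Matrix.mul_apply, Finset.sum_eq_single (A 0)]
    · rw [single_mul_entry_gen, if_pos rfl]
    · intro w _ hw
      rw [single_mul_entry_gen, if_neg hw, mul_zero]
    · intro h
      exact absurd (Finset.mem_univ _) h
  set S₁ : Finset ℕ := (Finset.Icc 1 r).filter fun q => (A q).isLeft = true with hS₁
  set S₂ : Finset ℕ := (Finset.Icc 1 r).filter fun q => ¬ (A q).isLeft = true with hS₂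
  have hdis : Disjoint S₁ S₂ := Finset.disjoint_filter_filter_not _ _ _
  have hun : S₁ ∪ S₂ = Finset.Icc 1 r := Finset.filter_union_filter_not_eq _ _
  have hpre : ∀ τ : Equiv.Perm (Fin (r + 1)), ∀ q ∈ preL τ, (A q).isLeft = (B q).isLeft :=
    fun τ q hq => hAB q (by rintro rfl; exact (zero_notMem τ).1 hq)
  have hpost : ∀ τ : Equiv.Perm (Fin (r + 1)), ∀ q ∈ postL τ, (A q).isLeft = (B q).isLeft :=
    fun τ q hq => hAB q (by rintro rfl; exact (zero_notMem τ).2 hq)
  obtain ⟨σ₀, -, hσ₀⟩ := Finset.exists_ne_zero_of_sum_ne_zero hij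
  have e₀ := right_ne_zero_of_mul hσ₀
  rw [hentry] at e₀
  have e1 := left_ne_zero_of_mul e₀
  have e2 := right_ne_zero_of_mul e₀
  have hi : i.isLeft = true := by
    rw [(prod_side A B (preL σ₀) i (A 0) (hpre σ₀) e1).1, hA0]
    exact h1
  have hj : j.isLeft = false := by
    rw [← (prod_side A B (postL σ₀) (B 0) j (hpost σ₀) e2).1, hB0]
    exact hb
  have hgood : ∀ τ : Equiv.Perm (Fin (r + 1)),
      ((fullList τ).map fun q => Matrix.single (A q) (B q) (1 : K)).prod i j ≠ 0 →
        goodU S₁ S₂ τ := by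
    intro τ hτ
    rw [hentry] at hτ
    have f1 := (prod_side A B (preL τ) i (A 0) (hpre τ) (left_ne_zero_of_mul hτ)).2
    have f2 := (prod_side A B (postL τ) (B 0) j (hpost τ) (right_ne_zero_of_mul hτ)).2
    refine ⟨fun q hq hq2 => ?_, fun q hq hq1 => ?_⟩
    · rw [hS₂, Finset.mem_filter] at hq2
      exact hq2.2 (by rw [f1 q hq]; exact hi)
    · rw [hS₁, Finset.mem_filter] at hq1
      have h := f2 q hq
      rw [hq1.2, hB0, hb] at h
      cases h
  set A' : ℕ → ℕ := fun q => bval (A q) with hA'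
  set B' : ℕ → ℕ := fun q => bval (B q) with hB'
  have g1 : ∀ τ : Equiv.Perm (Fin (r + 1)), goodU S₁ S₂ τ →
      ((preL τ).map fun q => Matrix.single (A q) (B q) (1 : K)).prod i (A 0) =
        uwt K A' B' (preL τ) (bval i) *
          if pend B' (preL τ) (bval i) = bval (A 0) then 1 else 0 := by
    intro τ hτ
    refine prod_uwt A B (preL τ) i (A 0) (fun q hq => ?_) (by rw [hA0, hi]; exact h1)
    have h4 : q ∈ S₁ := by
      rw [← (goodU_toFinset S₁ S₂ hun τ hτ).1, List.mem_toFinset]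
      exact hq
    rw [hS₁, Finset.mem_filter] at h4
    rw [← hpre τ q hq, h4.2, hi]
    exact ⟨rfl, rfl⟩
  have g2 : ∀ τ : Equiv.Perm (Fin (r + 1)), goodU S₁ S₂ τ →
      ((postL τ).map fun q => Matrix.single (A q) (B q) (1 : K)).prod (B 0) j =
        uwt K A' B' (postL τ) (bval (B 0)) *
          if pend B' (postL τ) (bval (B 0)) = bval j then 1 else 0 := by
    intro τ hτ
    refine prod_uwt A B (postL τ) (B 0) j (fun q hq => ?_) (by rw [hB0, hj, hb])
    have h4 : q ∈ S₂ := by
      rw [← (goodU_toFinset S₁ S₂ hun τ hτ).2, List.mem_toFinset]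
      exact hq
    rw [hS₂, Finset.mem_filter, Bool.not_eq_true] at h4
    rw [← hpost τ q hq, h4.2, hB0, hb]
    exact ⟨rfl, rfl⟩
  have hend : ∀ (l : List ℕ) (S : Finset ℕ) (x : ℕ), l.Nodup → l.toFinset = S →
      uwt K A' B' l x ≠ 0 → ((pend B' l x : ℕ) : ℤ) = x + ∑ q ∈ S, ((B' q : ℤ) - A' q) := by
    intro l S x hl hS hx
    rw [uwt_pend A' B' l x hx, ← hS, List.sum_toFinset _ hl]
  have hg₀ : goodU S₁ S₂ σ₀ := hgood σ₀ (right_ne_zero_of_mul hσ₀)
  rw [g1 σ₀ hg₀] at e1
  rw [g2 σ₀ hg₀] at e2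
  have E1 : (bval (A 0) : ℤ) = bval i + ∑ q ∈ S₁, ((B' q : ℤ) - A' q) := by
    rw [← hend (preL σ₀) S₁ (bval i) (preL_nodup σ₀).1
      (goodU_toFinset S₁ S₂ hun σ₀ hg₀).1 (left_ne_zero_of_mul e1)]
    have h := right_ne_zero_of_mul e1
    by_contra h4
    rw [if_neg (fun h5 => h4 (by rw [h5]))] at h
    exact h rfl
  have E2 : (bval j : ℤ) = bval (B 0) + ∑ q ∈ S₂, ((B' q : ℤ) - A' q) := by
    rw [← hend (postL σ₀) S₂ (bval (B 0)) (preL_nodup σ₀).2
      (goodU_toFinset S₁ S₂ hun σ₀ hg₀).2 (left_ne_zero_of_mul e2)]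
    have h := right_ne_zero_of_mul e2
    by_contra h4
    rw [if_neg (fun h5 => h4 (by rw [h5]))] at h
    exact h rfl
  refine ⟨S₁, S₂, A', B', bval i, bval (B 0), hdis, hun, fun q => ⟨bval_lt _, bval_lt _⟩,
    bval_lt _, bval_lt _, ?_⟩
  convert hij using 1
  refine Finset.sum_congr rfl fun τ _ => ?_
  by_cases hτ : goodU S₁ S₂ τ
  · rw [if_pos hτ, hentry, g1 τ hτ, g2 τ hτ]
    by_cases c1 : uwt K A' B' (preL τ) (bval i) = 0
    · simp [c1]
    · by_cases c2 : uwt K A' B' (postL τ) (bval (B 0)) = 0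
      · simp [c2]
      · have p1 := hend (preL τ) S₁ (bval i) (preL_nodup τ).1
          (goodU_toFinset S₁ S₂ hun τ hτ).1 c1
        have p2 := hend (postL τ) S₂ (bval (B 0)) (preL_nodup τ).2
          (goodU_toFinset S₁ S₂ hun τ hτ).2 c2
        rw [← E1] at p1
        rw [← E2] at p2
        rw [if_pos (by exact_mod_cast p1), if_pos (by exact_mod_cast p2), mul_one, mul_one]
  · rw [if_neg hτ]
    have h : ((fullList τ).map fun q => Matrix.single (A q) (B q) (1 : K)).prod i j = 0 := by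
      by_contra h
      exact hτ (hgood τ h)
    rw [h, mul_zero]

end Pool.Agent.P5e96
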