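import Mathlib
import Pool.Agent.Lib.P5e96.UTPoly
import Pool.Agent.Lib.P5e96.UTDeg

/-!
# Nonzero values on block upper triangular matrices with two blocks of size `s`

A polynomial of degree `r + 1 < 4 * s` is not zero on the upper triangular matrices of size
`2 * s` (staircase), hence not zero on the block upper triangular matrices with blocks `s, s`.
-/

open Finset Matrix

namespace Pool.Agent.P5e96

variable {K : Type*} [Field K] {r : ℕ}

/-- A nonzero value on upper triangular matrices of size `2 * s` is a nonzero value on block upper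
triangular matrices with two blocks of size `s`. -/
theorem exists_block_of_ut (α : Equiv.Perm (Fin (r + 1)) → K) (s : ℕ)
    (U : Fin (r + 1) → Matrix (Fin (2 * s)) (Fin (2 * s)) K)
    (hU : ∀ q i j, j < i → U q i j = 0) (hne : mval α U ≠ 0) :
    ∃ U' : Fin (r + 1) → Matrix (Fin s ⊕ Fin s) (Fin s ⊕ Fin s) K,
      (∀ q i j, U' q (Sum.inr i) (Sum.inl j) = 0) ∧ mval α U' ≠ 0 := by
  classical
  let e : Fin (2 * s) ≃ Fin s ⊕ Fin s := (finCongr (two_mul s)).trans finSumFinEquiv.symm
  let φ : Matrix (Fin (2 * s)) (Fin (2 * s)) K ≃ₐ[K] Matrix (Fin s ⊕ Fin s) (Fin s ⊕ Fin s) K :=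
    Matrix.reindexAlgEquiv K K e
  refine ⟨fun q => φ (U q), ?_, ?_⟩
  · intro q i j
    change U q (e.symm (Sum.inr i)) (e.symm (Sum.inl j)) = 0
    apply hU
    rw [Fin.lt_def]
    have h1 : ((e.symm (Sum.inr i) : Fin (2 * s)) : ℕ) = i + s := by
      simp [e, finSumFinEquiv]
    have h2 : ((e.symm (Sum.inl j) : Fin (2 * s)) : ℕ) = j := by
      simp [e, finSumFinEquiv]
    rw [h1, h2]
    have := j.2
    omega
  · have h1 : mval α (fun q => φ (U q)) = φ (mval α U) := by
      rw [mval, mval, map_sum]
      refine Finset.sum_congr rfl fun σ _ => ?_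
      rw [map_smul, map_list_prod, List.map_ofFn]
      rfl
    rw [h1]
    intro h0
    exact hne ((map_eq_zero_iff φ φ.injective).1 h0)

/-- The staircase: a nonzero multilinear polynomial of degree `r + 1 < 2 * k` has a nonzero value
on upper triangular matrices of size `k`. -/
theorem exists_ut_of_degree (α : Equiv.Perm (Fin (r + 1)) → K) (hα : α ≠ 0) (k : ℕ)
    (hk : r + 2 ≤ 2 * k) :
    ∃ U : Fin (r + 1) → Matrix (Fin k) (Fin k) K, (∀ q i j, j < i → U q i j = 0) ∧
      mval α U ≠ 0 := by
  classical
  obtain ⟨σ₁, hσ₁⟩ : ∃ σ₁, α σ₁ ≠ 0 := by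
    by_contra hc
    push Not at hc
    exact hα (funext hc)
  let V : ℕ → Fin k := fun t => if h : t / 2 < k then ⟨t / 2, h⟩ else ⟨0, by omega⟩
  have hV : ∀ t, t ≤ r + 1 → (V t : ℕ) = t / 2 := by
    intro t ht
    have h : t / 2 < k := by omega
    simp only [V, dif_pos h]
  let a : Fin (r + 1) → Fin k := fun q => V (σ₁.symm q)
  let b : Fin (r + 1) → Fin k := fun q => V ((σ₁.symm q : ℕ) + 1)
  have hab : ∀ q, a q ≤ b q := by
    intro q
    rw [Fin.le_def]
    have h := (σ₁.symm q).2
    simp only [a, b]
    rw [hV _ (by omega), hV _ (by omega)]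
    omega
  refine ⟨fun q => Matrix.single (a q) (b q) (1 : K), ?_, ?_⟩
  · intro q i j hji
    apply Matrix.single_apply_of_ne
    rintro ⟨rfl, rfl⟩
    exact absurd (hab q) (not_le.2 hji)
  · intro h0
    have h1 : mval α (fun q => Matrix.single (a q) (b q) (1 : K)) (V 0) (V (r + 1)) = α σ₁ := by
      rw [mval, Matrix.sum_apply, Finset.sum_eq_single σ₁]
      · rw [Matrix.smul_apply, smul_eq_mul]
        have h2 := prod_single_walk (K := K) (r + 1) V
        have h3 : (List.ofFn fun t : Fin (r + 1) =>
            Matrix.single (a (σ₁ t)) (b (σ₁ t)) (1 : K)) =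
            List.ofFn fun t : Fin (r + 1) => Matrix.single (V t) (V (t + 1)) (1 : K) := by
          congr 1
          funext t
          simp only [a, b, Equiv.symm_apply_apply]
        rw [h3, h2, mul_one]
      · intro σ _ hσ
        have h2 : (List.ofFn fun t : Fin (r + 1) =>
            Matrix.single (a (σ t)) (b (σ t)) (1 : K)).prod = 0 := by
          by_contra hne
          apply hσ
          have hch := chain_of_prod_single r (fun t => a (σ t)) (fun t => b (σ t)) hne
          have hmono : StrictMono fun t => σ₁.symm (σ t) := by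
            rw [Fin.strictMono_iff_lt_succ]
            intro t
            have h3 := hch t
            rw [Fin.ext_iff] at h3
            simp only [a, b] at h3
            have h4 := (σ₁.symm (σ t.castSucc)).2
            have h5 := (σ₁.symm (σ t.succ)).2
            rw [hV _ (by omega), hV _ (by omega)] at h3
            have h6 : σ₁.symm (σ t.castSucc) ≠ σ₁.symm (σ t.succ) := by
              intro h
              have h7 := σ.injective (σ₁.symm.injective h)
              exact absurd h7 (ne_of_lt (Fin.castSucc_lt_succ))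
            rw [Ne, Fin.ext_iff] at h6
            rw [Fin.lt_def]
            omega
          have hid : (fun t => σ₁.symm (σ t)) = id := by
            rw [← StrictMono.range_inj hmono strictMono_id, Set.range_id, Set.range_eq_univ]
            exact σ₁.symm.surjective.comp σ.surjective
          ext t
          have h3 := congrFun hid t
          simp only [id] at h3
          rw [Equiv.symm_apply_eq] at h3
          rw [h3]
        rw [Matrix.smul_apply, h2, Matrix.zero_apply, smul_zero]
      · intro h
        exact absurd (Finset.mem_univ _) h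
    rw [h0, Matrix.zero_apply] at h1
    exact hσ₁ h1.symm

theorem exists_block_of_degree (α : Equiv.Perm (Fin (r + 1)) → K) (hα : α ≠ 0) (s : ℕ)
    (hs : r + 2 ≤ 4 * s) :
    ∃ U : Fin (r + 1) → Matrix (Fin s ⊕ Fin s) (Fin s ⊕ Fin s) K,
      (∀ q i j, U q (Sum.inr i) (Sum.inl j) = 0) ∧ mval α U ≠ 0 := by
  obtain ⟨U, hU, hne⟩ := exists_ut_of_degree α hα (2 * s) (by omega)
  exact exists_block_of_ut α s U hU hne

end Pool.Agent.P5e96
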