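import Mathlib
import Pool.Agent.Lib.P5e96.UBDefs
import Pool.Agent.Lib.P5e96.UBElem
import Pool.Agent.Lib.P5e96.UTExpA

/-!
# Matrix units with total step `-1`
-/

open Finset Matrix

namespace Pool.Agent.P5e96

variable {K : Type*} [Field K] {r : ℕ}

/-- matrix units `a q → b q` of size `s`, total step `-1`, for which the sum of all words starting
at `i₀` is not zero -/
def CData {K : Type*} [Field K] {r : ℕ} (α : Equiv.Perm (Fin (r + 1)) → K) (s : ℕ) : Prop :=
  ∃ (a b : ℕ → ℕ) (i₀ : ℕ), (∀ q, a q < s ∧ b q < s) ∧ i₀ < s ∧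
    (∑ q ∈ Finset.range (r + 1), b q) + 1 = ∑ q ∈ Finset.range (r + 1), a q ∧
    (∑ σ : Equiv.Perm (Fin (r + 1)), α σ * uwt K a b (fullList σ) i₀) ≠ 0

namespace UCDataAux

/-- `mval` commutes with algebra homomorphisms. -/
theorem mval_algHom {s m : ℕ} (α : Equiv.Perm (Fin m) → K)
    (φ : Matrix (Fin s) (Fin s) K →ₐ[K] Matrix (Fin s) (Fin s) K)
    (U : Fin m → Matrix (Fin s) (Fin s) K) :
    mval α (fun q => φ (U q)) = φ (mval α U) := by
  rw [mval, mval, map_sum]
  refine Finset.sum_congr rfl fun σ _ => ?_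
  rw [map_smul, map_list_prod, List.map_ofFn]
  rfl

/-- Conjugation. -/
def cj {s : ℕ} (T T' : Matrix (Fin s) (Fin s) K) (h : T' * T = 1) (h' : T * T' = 1) :
    Matrix (Fin s) (Fin s) K →ₐ[K] Matrix (Fin s) (Fin s) K where
  toFun A := T' * A * T
  map_one' := by rw [mul_one, h]
  map_mul' A B := by
    calc T' * (A * B) * T = T' * A * 1 * B * T := by simp only [mul_one, Matrix.mul_assoc]
      _ = T' * A * (T * T') * B * T := by rw [h']
      _ = T' * A * T * (T' * B * T) := by simp only [Matrix.mul_assoc]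
  map_zero' := by rw [mul_zero, zero_mul]
  map_add' A B := by rw [mul_add, add_mul]
  commutes' c := by
    rw [Algebra.algebraMap_eq_smul_one, Matrix.mul_smul, mul_one, Matrix.smul_mul, h]

theorem cj_apply {s : ℕ} (T T' : Matrix (Fin s) (Fin s) K) (h : T' * T = 1) (h' : T * T' = 1)
    (A : Matrix (Fin s) (Fin s) K) : cj T T' h h' A = T' * A * T := rfl

/-- A matrix which is not scalar has a conjugate with an entry off the diagonal. -/
theorem exists_offdiag {s m : ℕ} (α : Equiv.Perm (Fin m) → K)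
    (U : Fin m → Matrix (Fin s) (Fin s) K)
    (hne : ∀ c : K, mval α U ≠ c • (1 : Matrix (Fin s) (Fin s) K)) :
    ∃ (V : Fin m → Matrix (Fin s) (Fin s) K) (i j : Fin s), i ≠ j ∧ mval α V i j ≠ 0 := by
  classical
  by_cases h : ∃ i j, i ≠ j ∧ mval α U i j ≠ 0
  · obtain ⟨i, j, h1, h2⟩ := h
    exact ⟨U, i, j, h1, h2⟩
  · push Not at h
    obtain ⟨i, j, hij⟩ : ∃ i j, mval α U i i ≠ mval α U j j := by
      by_contra hc
      push Not at hc
      rcases Nat.eq_zero_or_pos s with rfl | hs
      · apply hne 0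
        ext i
        exact i.elim0
      · apply hne (mval α U ⟨0, hs⟩ ⟨0, hs⟩)
        ext i j
        rw [Matrix.smul_apply, smul_eq_mul]
        by_cases hij : i = j
        · subst hij
          rw [Matrix.one_apply_eq, mul_one]
          exact hc _ _
        · rw [Matrix.one_apply_ne hij, mul_zero]
          exact h i j hij
    have hne' : i ≠ j := by
      rintro rfl
      exact hij rfl
    have hE : (Matrix.single i j (1 : K)) * Matrix.single i j 1 = 0 :=
      Matrix.single_mul_single_of_ne _ _ _ _ hne'.symm _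
    have h1 : (1 - Matrix.single i j (1 : K)) * (1 + Matrix.single i j (1 : K)) = 1 := by
      rw [sub_mul, mul_add, mul_add, hE]
      simp
    have h2 : (1 + Matrix.single i j (1 : K)) * (1 - Matrix.single i j (1 : K)) = 1 := by
      rw [add_mul, mul_sub, mul_sub, hE]
      simp
    refine ⟨fun q => cj _ _ h1 h2 (U q), i, j, hne', ?_⟩
    rw [mval_algHom, cj_apply]
    set M := mval α U with hM
    have h3 : ((1 - Matrix.single i j (1 : K)) * M * (1 + Matrix.single i j (1 : K))) i j =
        M i i - M j j := by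
      have e0 : (1 - Matrix.single i j (1 : K)) * M * (1 + Matrix.single i j (1 : K)) =
          M + M * Matrix.single i j (1 : K) - Matrix.single i j (1 : K) * M -
            Matrix.single i j (1 : K) * M * Matrix.single i j (1 : K) := by
        noncomm_ring
      rw [e0, Matrix.sub_apply, Matrix.sub_apply, Matrix.add_apply]
      have e1 : (Matrix.single i j (1 : K) * M) i j = M j j := by
        rw [Matrix.single_mul_apply_same, one_mul]
      have e2 : (M * Matrix.single i j (1 : K)) i j = M i i := by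
        rw [Matrix.mul_single_apply_same, mul_one]
      have e3 : (Matrix.single i j (1 : K) * M * Matrix.single i j (1 : K)) i j = M j i := by
        rw [Matrix.mul_single_apply_same, mul_one, Matrix.single_mul_apply_same, one_mul]
      rw [e1, e2, e3, h i j hne', h j i hne'.symm]
      ring
    rw [h3]
    exact sub_ne_zero.2 hij

/-- Moving an entry off the diagonal to the place `(1, 0)`. -/
theorem exists_one_zero {s m : ℕ} (α : Equiv.Perm (Fin m) → K)
    (V : Fin m → Matrix (Fin s) (Fin s) K) (i j : Fin s) (hij : i ≠ j) (hV : mval α V i j ≠ 0)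
    (o z : Fin s) (hoz : o ≠ z) :
    ∃ (W : Fin m → Matrix (Fin s) (Fin s) K), mval α W o z ≠ 0 := by
  classical
  set π₁ : Equiv.Perm (Fin s) := Equiv.swap z j with hπ₁
  set i' := π₁ i with hi'
  have hz1 : π₁ z = j := Equiv.swap_apply_left z j
  have hi1 : π₁ i' = i := Equiv.swap_apply_self z j i
  have hi'z : i' ≠ z := by
    intro h
    rw [h, hz1] at hi1
    exact hij hi1.symm
  set π : Equiv.Perm (Fin s) := π₁ * Equiv.swap o i' with hπ
  have hπz : π z = j := by
    rw [hπ, Equiv.Perm.mul_apply, Equiv.swap_apply_of_ne_of_ne hoz.symm hi'z.symm, hz1]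
  have hπo : π o = i := by
    rw [hπ, Equiv.Perm.mul_apply, Equiv.swap_apply_left, hi1]
  refine ⟨fun q => (Matrix.reindexAlgEquiv K K π.symm).toAlgHom (V q), ?_⟩
  rw [mval_algHom]
  change (Matrix.reindexAlgEquiv K K π.symm (mval α V)) o z ≠ 0
  rw [Matrix.coe_reindexAlgEquiv, Matrix.reindex_apply, Matrix.submatrix_apply,
    Equiv.symm_symm, hπo, hπz]
  exact hV

/-- The version of `exists_elementary` for one entry. -/
theorem exists_elementary_entry {s : ℕ} (α : Equiv.Perm (Fin (r + 1)) → K)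
    (U : Fin (r + 1) → Matrix (Fin s) (Fin s) K) (i j : Fin s) (hne : mval α U i j ≠ 0) :
    ∃ a b : Fin (r + 1) → Fin s,
      mval α (fun q => Matrix.single (a q) (b q) (1 : K)) i j ≠ 0 := by
  classical
  obtain ⟨M, hM⟩ := exists_multilinear_mval_gen (ι := Fin s) α
  have hU1 : U = fun q => ∑ c : Fin s × Fin s, U q c.1 c.2 • Matrix.single c.1 c.2 (1 : K) := by
    funext q
    rw [Fintype.sum_prod_type]
    conv_lhs => rw [Matrix.matrix_eq_sum_single (U q)]
    refine Finset.sum_congr rfl fun i _ => Finset.sum_congr rfl fun j _ => ?_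
    rw [Matrix.smul_single, smul_eq_mul, mul_one]
  rw [← hM, hU1, MultilinearMap.map_sum, Matrix.sum_apply] at hne
  obtain ⟨c, _, hc⟩ := Finset.exists_ne_zero_of_sum_ne_zero hne
  rw [MultilinearMap.map_smul_univ M (fun q => U q (c q).1 (c q).2)
    (fun q => Matrix.single (c q).1 (c q).2 (1 : K)), Matrix.smul_apply, smul_eq_mul] at hc
  refine ⟨fun q => (c q).1, fun q => (c q).2, ?_⟩
  rw [← hM]
  exact right_ne_zero_of_mul hc

theorem walk1 {s : ℕ} (A B : ℕ → Fin s) (l : List ℕ) : ∀ x y : Fin s,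
    (l.map fun q => Matrix.single (A q) (B q) (1 : K)).prod x y ≠ 0 →
      (l.map fun q => Matrix.single (A q) (B q) (1 : K)).prod x y =
        uwt K (fun q => (A q : ℕ)) (fun q => (B q : ℕ)) l x ∧
      (x : ℕ) + (l.map fun q => (B q : ℕ)).sum = (y : ℕ) + (l.map fun q => (A q : ℕ)).sum := by
  induction l with
  | nil =>
    intro x y h
    rw [List.map_nil, List.prod_nil] at h ⊢
    have hxy : x = y := by
      by_contra hc
      exact h (Matrix.one_apply_ne hc)
    subst hxy
    rw [Matrix.one_apply_eq, uwt, List.map_nil, List.map_nil]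
    exact ⟨rfl, rfl⟩
  | cons q l ih =>
    intro x y h
    rw [List.map_cons, List.prod_cons, single_mul_entry] at h ⊢
    by_cases hx : x = A q
    · rw [if_pos hx] at h ⊢
      obtain ⟨h1, h2⟩ := ih (B q) y h
      refine ⟨?_, ?_⟩
      · rw [uwt, if_pos (by rw [hx]), h1]
      · rw [List.map_cons, List.sum_cons, List.map_cons, List.sum_cons, hx]
        omega
    · rw [if_neg hx] at h
      exact absurd rfl h

theorem walk2 {s : ℕ} (A B : ℕ → Fin s) (l : List ℕ) : ∀ x : Fin s,
    uwt K (fun q => (A q : ℕ)) (fun q => (B q : ℕ)) l x ≠ 0 →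
      ∃ y, (l.map fun q => Matrix.single (A q) (B q) (1 : K)).prod x y ≠ 0 := by
  induction l with
  | nil =>
    intro x _
    exact ⟨x, by rw [List.map_nil, List.prod_nil, Matrix.one_apply_eq]; exact one_ne_zero⟩
  | cons q l ih =>
    intro x h
    rw [uwt] at h
    by_cases hx : (A q : ℕ) = x
    · rw [if_pos hx] at h
      obtain ⟨y, hy⟩ := ih (B q) h
      refine ⟨y, ?_⟩
      rw [List.map_cons, List.prod_cons, single_mul_entry, if_pos (Fin.ext hx.symm)]
      exact hy
    · rw [if_neg hx] at h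
      exact absurd rfl h

theorem sum_full (σ : Equiv.Perm (Fin (r + 1))) (g : ℕ → ℕ) :
    ((fullList σ).map g).sum = ∑ q ∈ Finset.range (r + 1), g q := by
  rw [fullList, List.map_ofFn, List.sum_ofFn, Finset.sum_range]
  exact Equiv.sum_comp σ fun t : Fin (r + 1) => g t

end UCDataAux

open UCDataAux

theorem exists_CData {s : ℕ} (α : Equiv.Perm (Fin (r + 1)) → K)
    (U : Fin (r + 1) → Matrix (Fin s) (Fin s) K)
    (hne : ∀ c : K, mval α U ≠ c • (1 : Matrix (Fin s) (Fin s) K)) : CData α s := by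
  classical
  obtain ⟨V, i, j, hij, hV⟩ := exists_offdiag α U hne
  have hs : 2 ≤ s := by
    have h1 := i.2
    have h2 := j.2
    have h3 : (i : ℕ) ≠ j := fun h => hij (Fin.ext h)
    omega
  set o : Fin s := ⟨1, by omega⟩ with ho
  set z : Fin s := ⟨0, by omega⟩ with hz
  have hoz : o ≠ z := by
    rw [ho, hz, Ne, Fin.mk.injEq]
    omega
  obtain ⟨W, hW⟩ := exists_one_zero α V i j hij hV o z hoz
  obtain ⟨a, b, hab⟩ := exists_elementary_entry α W o z hW
  let A : ℕ → Fin s := fun q => if h : q < r + 1 then a ⟨q, h⟩ else z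
  let B : ℕ → Fin s := fun q => if h : q < r + 1 then b ⟨q, h⟩ else z
  have hA : ∀ q : Fin (r + 1), A q = a q := fun q => dif_pos q.2
  have hB : ∀ q : Fin (r + 1), B q = b q := fun q => dif_pos q.2
  have hword : ∀ σ : Equiv.Perm (Fin (r + 1)),
      (List.ofFn fun t => Matrix.single (a (σ t)) (b (σ t)) (1 : K)) =
        (fullList σ).map fun q => Matrix.single (A q) (B q) (1 : K) := by
    intro σ
    rw [fullList, List.map_ofFn]
    congr 1
    funext t
    simp only [Function.comp_apply]
    rw [hA, hB]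
  have hsum : mval α (fun q => Matrix.single (a q) (b q) (1 : K)) o z =
      ∑ σ : Equiv.Perm (Fin (r + 1)), α σ *
        ((fullList σ).map fun q => Matrix.single (A q) (B q) (1 : K)).prod o z := by
    rw [mval, Matrix.sum_apply]
    refine Finset.sum_congr rfl fun σ _ => ?_
    rw [Matrix.smul_apply, smul_eq_mul, hword σ]
  rw [hsum] at hab
  obtain ⟨σ₀, -, hσ₀⟩ := Finset.exists_ne_zero_of_sum_ne_zero hab
  obtain ⟨-, h1⟩ := walk1 A B (fullList σ₀) o z (right_ne_zero_of_mul hσ₀)
  rw [UCDataAux.sum_full, UCDataAux.sum_full] at h1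
  have ho1 : (o : ℕ) = 1 := rfl
  have hz0 : (z : ℕ) = 0 := rfl
  have key : ∀ σ : Equiv.Perm (Fin (r + 1)),
      ((fullList σ).map fun q => Matrix.single (A q) (B q) (1 : K)).prod o z =
        uwt K (fun q => (A q : ℕ)) (fun q => (B q : ℕ)) (fullList σ) o := by
    intro σ
    by_cases h : ((fullList σ).map fun q => Matrix.single (A q) (B q) (1 : K)).prod o z = 0
    · rw [h]
      by_contra hc
      obtain ⟨y, hy⟩ := walk2 A B (fullList σ) o (Ne.symm hc)
      obtain ⟨-, h2⟩ := walk1 A B (fullList σ) o y hy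
      rw [UCDataAux.sum_full, UCDataAux.sum_full] at h2
      have hyz : y = z := Fin.ext (by omega)
      rw [hyz] at hy
      exact hy h
    · exact (walk1 A B (fullList σ) o z h).1
  refine ⟨fun q => (A q : ℕ), fun q => (B q : ℕ), (o : ℕ), fun q => ⟨(A q).2, (B q).2⟩, o.2, ?_, ?_⟩
  · change (1 : ℕ) + ∑ q ∈ Finset.range (r + 1), (B q : ℕ) =
      0 + ∑ q ∈ Finset.range (r + 1), (A q : ℕ) at h1
    change ∑ q ∈ Finset.range (r + 1), (B q : ℕ) + 1 = ∑ q ∈ Finset.range (r + 1), (A q : ℕ)
    omega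
  · rw [Finset.sum_congr rfl fun σ _ => by rw [key σ]] at hab
    exact hab

end Pool.Agent.P5e96
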