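import Mathlib
import Pool.Agent.Lib.P5e96.UBData

/-!
# Splitting the words at the letter `0`
-/

open Finset Matrix

namespace Pool.Agent.P5e96

variable {K : Type*} [Field K] {r : ℕ}

theorem uwt_append (a b : ℕ → ℕ) (l₁ l₂ : List ℕ) (x : ℕ) :
    uwt K a b (l₁ ++ l₂) x = uwt K a b l₁ x * uwt K a b l₂ (pend b l₁ x) := by
  induction l₁ generalizing x with
  | nil => rw [List.nil_append, uwt, one_mul, pend]
  | cons q l ih =>
    rw [List.cons_append, uwt, uwt, pend]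
    by_cases h : a q = x
    · rw [if_pos h, if_pos h, ih]
    · rw [if_neg h, if_neg h, zero_mul]

theorem preL_subset (σ : Equiv.Perm (Fin (r + 1))) : (preL σ).toFinset ⊆ Finset.Icc 1 r := by
  intro q hq
  rw [List.mem_toFinset] at hq
  have h1 : q ∈ fullList σ := by
    rw [fullList_eq, List.mem_append]
    exact Or.inl hq
  have h2 : q ≠ 0 := by
    rintro rfl
    exact (zero_notMem σ).1 hq
  rw [fullList, List.mem_ofFn'] at h1
  obtain ⟨t, rfl⟩ := h1
  rw [Finset.mem_Icc]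
  exact ⟨Nat.one_le_iff_ne_zero.2 h2, Nat.lt_succ_iff.1 (σ t).2⟩

theorem goodU_iff_eq (S : Finset ℕ) (hS : S ⊆ Finset.Icc 1 r) (σ : Equiv.Perm (Fin (r + 1))) :
    goodU S (Finset.Icc 1 r \ S) σ ↔ S = (preL σ).toFinset := by
  constructor
  · intro h
    exact (goodU_toFinset S _ (Finset.union_sdiff_of_subset hS) σ h).1.symm
  · intro h
    refine ⟨fun q hq hq2 => ?_, fun q hq hq1 => ?_⟩
    · rw [Finset.mem_sdiff] at hq2
      exact hq2.2 (by rw [h, List.mem_toFinset]; exact hq)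
    · rw [h, List.mem_toFinset] at hq1
      have h1 := fullList_nodup σ
      rw [fullList_eq] at h1
      have h2 := (List.nodup_cons.1 (List.nodup_middle.1 h1)).2
      exact (List.disjoint_of_nodup_append h2) hq1 hq

theorem sum_split (f : Equiv.Perm (Fin (r + 1)) → K) :
    (∑ S ∈ (Finset.Icc 1 r).powerset, ∑ σ : Equiv.Perm (Fin (r + 1)),
      if goodU S (Finset.Icc 1 r \ S) σ then f σ else 0) = ∑ σ, f σ := by
  rw [Finset.sum_comm]
  refine Finset.sum_congr rfl fun σ _ => ?_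
  rw [Finset.sum_eq_single (preL σ).toFinset]
  · rw [if_pos ((goodU_iff_eq _ (preL_subset σ) σ).2 rfl)]
  · intro S hS hne
    rw [if_neg (fun h => hne ((goodU_iff_eq S (Finset.mem_powerset.1 hS) σ).1 h))]
  · intro h
    exact absurd (Finset.mem_powerset.2 (preL_subset σ)) h

/-- MODULE C3. -/
theorem exists_split {s : ℕ} (α : Equiv.Perm (Fin (r + 1)) → K) (a b : ℕ → ℕ) (i₀ : ℕ)
    (_hab : ∀ q, a q < s ∧ b q < s) (_hi : i₀ < s)
    (hne : (∑ σ : Equiv.Perm (Fin (r + 1)), α σ * uwt K a b (fullList σ) i₀) ≠ 0) :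
    ∃ S₁ S₂ : Finset ℕ, Disjoint S₁ S₂ ∧ S₁ ∪ S₂ = Finset.Icc 1 r ∧
      (∑ σ : Equiv.Perm (Fin (r + 1)), if goodU S₁ S₂ σ then
        α σ * (uwt K a b (preL σ) i₀ * uwt K a b (postL σ) (b 0)) else 0) ≠ 0 := by
  rw [← sum_split] at hne
  obtain ⟨S, hS, hSne⟩ := Finset.exists_ne_zero_of_sum_ne_zero hne
  have hS' := Finset.mem_powerset.1 hS
  have hun := Finset.union_sdiff_of_subset hS'
  refine ⟨S, Finset.Icc 1 r \ S, Finset.disjoint_sdiff, hun, ?_⟩
  have hfull : ∀ σ : Equiv.Perm (Fin (r + 1)), uwt K a b (fullList σ) i₀ =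
      uwt K a b (preL σ) i₀ *
        (if a 0 = pend b (preL σ) i₀ then uwt K a b (postL σ) (b 0) else 0) := by
    intro σ
    rw [fullList_eq, uwt_append, uwt]
  obtain ⟨σ₀, -, h₀⟩ := Finset.exists_ne_zero_of_sum_ne_zero hSne
  have hg₀ : goodU S (Finset.Icc 1 r \ S) σ₀ := by
    by_contra h
    rw [if_neg h] at h₀
    exact h₀ rfl
  rw [if_pos hg₀, hfull] at h₀
  have h1 := right_ne_zero_of_mul h₀
  have h2 := left_ne_zero_of_mul h1
  have h3 : a 0 = pend b (preL σ₀) i₀ := by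
    by_contra h
    rw [if_neg h] at h1
    exact h1 (mul_zero _)
  have hend : ∀ σ : Equiv.Perm (Fin (r + 1)), goodU S (Finset.Icc 1 r \ S) σ →
      uwt K a b (preL σ) i₀ ≠ 0 →
        ((pend b (preL σ) i₀ : ℕ) : ℤ) = i₀ + ∑ q ∈ S, ((b q : ℤ) - a q) := by
    intro σ hσ hx
    rw [uwt_pend a b _ _ hx, ← List.sum_toFinset _ (preL_nodup σ).1,
      (goodU_toFinset S _ hun σ hσ).1]
  have E := hend σ₀ hg₀ h2
  rw [← h3] at E
  convert hSne using 1
  refine Finset.sum_congr rfl fun σ _ => ?_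
  by_cases hσ : goodU S (Finset.Icc 1 r \ S) σ
  · rw [if_pos hσ, if_pos hσ, hfull]
    by_cases c : uwt K a b (preL σ) i₀ = 0
    · simp [c]
    · have p := hend σ hσ c
      rw [← E] at p
      rw [if_pos (by exact_mod_cast p.symm)]
  · rw [if_neg hσ, if_neg hσ]

end Pool.Agent.P5e96
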