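import Mathlib
import Pool.Agent.Lib.P5e96.UBDefs
import Pool.Agent.Lib.P5e96.BlockScaleSteps

/-!
# Hollow matrices are values of polynomials with block data
-/

open Finset MvPolynomial Matrix

namespace Pool.Agent.P5e96

variable {K : Type*} [Field K] {r : ℕ}

/-- The letters before and after the letter `0` in a good word. -/
theorem goodU_sets (S₁ S₂ : Finset ℕ) (hd : Disjoint S₁ S₂) (hu : S₁ ∪ S₂ = Finset.Icc 1 r)
    (σ : Equiv.Perm (Fin (r + 1))) (hσ : goodU S₁ S₂ σ) :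
    (∀ q, q ∈ preL σ ↔ q ∈ S₁) ∧ ∀ q, q ∈ postL σ ↔ q ∈ S₂ := by
  obtain ⟨h01, h02⟩ := zero_notMem σ
  have hnd := fullList_nodup σ
  rw [fullList_eq] at hnd
  have hdis : ∀ q, q ∈ preL σ → q ∈ postL σ → False := fun q h1 h2 =>
    List.disjoint_of_nodup_append hnd h1 (List.mem_cons_of_mem _ h2)
  have hlt : ∀ q, q ∈ fullList σ → q < r + 1 := by
    intro q hq
    rw [fullList, List.mem_ofFn'] at hq
    obtain ⟨t, rfl⟩ := hq
    exact (σ t).2
  have hall : ∀ q, 1 ≤ q → q < r + 1 → q ∈ preL σ ∨ q ∈ postL σ := by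
    intro q h1 h2
    have h3 := mem_fullList σ q h2
    rw [fullList_eq, List.mem_append, List.mem_cons] at h3
    rcases h3 with h3 | h3 | h3
    · exact Or.inl h3
    · omega
    · exact Or.inr h3
  have hmem : ∀ q, q ∈ S₁ ∪ S₂ ↔ 1 ≤ q ∧ q ≤ r := by
    intro q
    rw [hu, Finset.mem_Icc]
  have hpre : ∀ q, q ∈ preL σ → 1 ≤ q ∧ q ≤ r := by
    intro q hq
    have h1 := hlt q (by rw [fullList_eq]; exact List.mem_append_left _ hq)
    have h2 : q ≠ 0 := fun h => h01 (h ▸ hq)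
    omega
  have hpost : ∀ q, q ∈ postL σ → 1 ≤ q ∧ q ≤ r := by
    intro q hq
    have h1 := hlt q (by
      rw [fullList_eq]
      exact List.mem_append_right _ (List.mem_cons_of_mem _ hq))
    have h2 : q ≠ 0 := fun h => h02 (h ▸ hq)
    omega
  refine ⟨fun q => ⟨fun hq => ?_, fun hq => ?_⟩, fun q => ⟨fun hq => ?_, fun hq => ?_⟩⟩
  · have h1 := (hmem q).2 (hpre q hq)
    rw [Finset.mem_union] at h1
    exact h1.resolve_right (hσ.1 q hq)
  · have h1 := (hmem q).1 (Finset.mem_union_left _ hq)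
    rcases hall q h1.1 (by omega) with h2 | h2
    · exact h2
    · exact absurd hq (hσ.2 q h2)
  · have h1 := (hmem q).2 (hpost q hq)
    rw [Finset.mem_union] at h1
    exact h1.resolve_left (hσ.2 q hq)
  · have h1 := (hmem q).1 (Finset.mem_union_right _ hq)
    rcases hall q h1.1 (by omega) with h2 | h2
    · exact absurd hq (hσ.1 q h2)
    · exact h2

theorem totG_eq_sum (e : ℕ → ℕ) (l : List ℕ) (hl : l.Nodup) (S : Finset ℕ)
    (h : ∀ q, q ∈ l ↔ q ∈ S) : totG e l = ∑ q ∈ S, e q := by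
  have h1 : l.toFinset = S := by
    ext q
    rw [List.mem_toFinset, h]
  rw [totG, ← h1, List.sum_toFinset _ hl]

theorem goodU_totB (S₁ S₂ : Finset ℕ) (hd : Disjoint S₁ S₂) (hu : S₁ ∪ S₂ = Finset.Icc 1 r)
    (e : ℕ → ℕ) (σ : Equiv.Perm (Fin (r + 1))) (hσ : goodU S₁ S₂ σ) :
    totG e (preL σ) = ∑ q ∈ S₁, e q ∧ totG e (postL σ) = ∑ q ∈ S₂, e q := by
  obtain ⟨h1, h2⟩ := goodU_sets S₁ S₂ hd hu σ hσ
  have hnd := fullList_nodup σ
  rw [fullList_eq] at hnd
  exact ⟨totG_eq_sum e _ (List.Nodup.of_append_left hnd) S₁ h1,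
    totG_eq_sum e _ (List.nodup_cons.1 (List.Nodup.of_append_right hnd)).2 S₂ h2⟩

section

variable {ι : Type*} [DecidableEq ι] [Fintype ι]

/-- The coefficient polynomials of the coupling. -/
noncomputable def gamB (π : Equiv.Perm ι) (e : ℕ → ℕ) (α : Equiv.Perm (Fin (r + 1)) → K)
    (S₁ S₂ : Finset ℕ) (i j : ι) : MvPolynomial (ℕ × ι) K :=
  ∑ σ : Equiv.Perm (Fin (r + 1)), if goodU S₁ S₂ σ then
    monomial (expoG π e (preL σ) i + expoG π e (postL σ) j) (α σ) else 0

theorem sumB_apply (π : Equiv.Perm ι) (e : ℕ → ℕ) (S₁ S₂ : Finset ℕ) (E₁ E₂ : ℕ)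
    (hE : ∀ σ : Equiv.Perm (Fin (r + 1)), goodU S₁ S₂ σ →
      totG e (preL σ) = E₁ ∧ totG e (postL σ) = E₂)
    (α : Equiv.Perm (Fin (r + 1)) → K)
    (w : ℕ × ι → K) (X : Matrix ι ι K) (i j : ι) :
    (∑ σ : Equiv.Perm (Fin (r + 1)), if goodU S₁ S₂ σ then
      α σ • act (cmatG π e w) σ X else 0) i ((π ^ E₂) j) =
      eval w (gamB π e α S₁ S₂ i j) * X ((π ^ E₁) i) j := by
  rw [Matrix.sum_apply, gamB, map_sum, Finset.sum_mul]
  refine Finset.sum_congr rfl fun σ _ => ?_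
  by_cases h : goodU S₁ S₂ σ
  · rw [if_pos h, if_pos h]
    obtain ⟨hp1, hp2⟩ := hE σ h
    rw [Matrix.smul_apply, act_apply, Matrix.mul_apply,
      Finset.sum_eq_single ((π ^ E₁) i)]
    · rw [cmatG_prod, if_pos (by rw [hp1]), Matrix.mul_apply,
        Finset.sum_eq_single j]
      · rw [cmatG_prod, if_pos (by rw [hp2])]
        simp only [eval_monomial, one_mul, smul_eq_mul]
        rw [Finsupp.prod_add_index' (by simp) (by intros; rw [pow_add])]
        ring
      · intro b _ hb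
        rw [cmatG_prod, if_neg, mul_zero]
        rw [hp2]
        intro h2
        exact hb ((π ^ E₂).injective h2.symm)
      · intro h2
        exact absurd (mem_univ _) h2
    · intro b _ hb
      rw [cmatG_prod, if_neg, zero_mul]
      rw [hp1]
      exact hb
    · intro h2
      exact absurd (mem_univ _) h2
  · rw [if_neg h, if_neg h, map_zero, zero_mul]
    rfl

omit [Fintype ι] in
/-- The product of the weights along a path in one class. -/
theorem pwt_eq_uwt (w : ℕ × ι → K) (π : Equiv.Perm ι) (e : ℕ → ℕ) (a b : ℕ → ℕ) (s : ℕ) (v : ι)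
    (hv : ∀ x y, x < s → y < s → (π ^ x) v = (π ^ y) v → x = y)
    (hab : ∀ q, a q < s ∧ b q < s) (he : ∀ q, π ^ (e q + a q) = π ^ b q) (l : List ℕ)
    (hw : ∀ q ∈ l, ∀ x < s, w (q, (π ^ x) v) = if x = a q then 1 else 0) :
    ∀ x < s, pwt w π e l ((π ^ x) v) = uwt K a b l x := by
  induction l with
  | nil => intro x _; rfl
  | cons q l ih =>
    intro x hx
    have ih' := ih (fun q hq => hw q (List.mem_cons_of_mem _ hq))
    rw [pwt, uwt, hw q List.mem_cons_self x hx]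
    by_cases h : x = a q
    · rw [if_pos h, if_pos h.symm, one_mul, h, ← Equiv.Perm.mul_apply, ← pow_add, he,
        ih' _ (hab q).2]
    · rw [if_neg h, if_neg (fun h' => h h'.symm), zero_mul]

omit [Fintype ι] in
/-- The coefficient polynomials do not vanish. -/
theorem gamB_ne_zero (π : Equiv.Perm ι) (e : ℕ → ℕ) (s : ℕ)
    (hπ : ∀ v x y, x < s → y < s → (π ^ x) v = (π ^ y) v → x = y)
    (α : Equiv.Perm (Fin (r + 1)) → K) (S₁ S₂ : Finset ℕ) (hd : Disjoint S₁ S₂)
    (hu : S₁ ∪ S₂ = Finset.Icc 1 r) (a b : ℕ → ℕ) (hab : ∀ q, a q < s ∧ b q < s)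
    (he : ∀ q, π ^ (e q + a q) = π ^ b q) (i₀ y₀ : ℕ) (hi₀ : i₀ < s) (hy₀ : y₀ < s)
    (hne : (∑ σ : Equiv.Perm (Fin (r + 1)), if goodU S₁ S₂ σ then
      α σ * (uwt K a b (preL σ) i₀ * uwt K a b (postL σ) y₀) else 0) ≠ 0) (i j : ι) :
    gamB π e α S₁ S₂ i j ≠ 0 := by
  set v₁ : ι := (π ^ i₀).symm i with hv₁
  set v₂ : ι := (π ^ y₀).symm j with hv₂
  have hi : (π ^ i₀) v₁ = i := by rw [hv₁, Equiv.apply_symm_apply]
  have hj : (π ^ y₀) v₂ = j := by rw [hv₂, Equiv.apply_symm_apply]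
  set w : ℕ × ι → K := fun x => if (x.1 ∈ S₁ ∧ x.2 = (π ^ a x.1) v₁) ∨
    (x.1 ∈ S₂ ∧ x.2 = (π ^ a x.1) v₂) then 1 else 0 with hw
  have hw1 : ∀ q ∈ S₁, ∀ x < s, w (q, (π ^ x) v₁) = if x = a q then 1 else 0 := by
    intro q hq x hx
    have hq2 : q ∉ S₂ := Finset.disjoint_left.1 hd hq
    rw [hw]
    by_cases h : x = a q
    · rw [if_pos h]
      simp only
      rw [if_pos (Or.inl ⟨hq, by rw [h]⟩)]
    · rw [if_neg h]
      simp only
      rw [if_neg]
      rintro (⟨_, h2⟩ | ⟨h2, _⟩)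
      · exact h (hπ _ _ _ hx (hab q).1 h2)
      · exact hq2 h2
  have hw2 : ∀ q ∈ S₂, ∀ x < s, w (q, (π ^ x) v₂) = if x = a q then 1 else 0 := by
    intro q hq x hx
    have hq2 : q ∉ S₁ := Finset.disjoint_right.1 hd hq
    rw [hw]
    by_cases h : x = a q
    · rw [if_pos h]
      simp only
      rw [if_pos (Or.inr ⟨hq, by rw [h]⟩)]
    · rw [if_neg h]
      simp only
      rw [if_neg]
      rintro (⟨h2, _⟩ | ⟨_, h2⟩)
      · exact hq2 h2
      · exact h (hπ _ _ _ hx (hab q).1 h2)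
  intro h0
  apply hne
  have h1 : eval w (gamB π e α S₁ S₂ i j) = 0 := by rw [h0, map_zero]
  refine Eq.trans ?_ h1
  rw [gamB, map_sum]
  refine Finset.sum_congr rfl fun σ _ => ?_
  split_ifs with hg
  · obtain ⟨g1, g2⟩ := goodU_sets S₁ S₂ hd hu σ hg
    rw [← pwt_eq_uwt w π e a b s v₁ (hπ v₁) hab he (preL σ)
        (fun q hq => hw1 q ((g1 q).1 hq)) i₀ hi₀,
      ← pwt_eq_uwt w π e a b s v₂ (hπ v₂) hab he (postL σ)
        (fun q hq => hw2 q ((g2 q).1 hq)) y₀ hy₀, hi, hj, ← eval_expoG, ← eval_expoG]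
    simp only [eval_monomial, one_mul]
    rw [Finsupp.prod_add_index' (by simp) (by intros; rw [pow_add])]
  · rw [map_zero]

end

/-- Hollow matrices are values. -/
theorem value_hollow_bdata [Infinite K] {ι : Type*} [DecidableEq ι] [Fintype ι]
    (α : Equiv.Perm (Fin (r + 1)) → K) (s : ℕ) (hα : BData α s)
    {κ : Type*} (col : ι → κ) (hcol : ∀ i, s ≤ Set.ncard {j | col j = col i})
    (T : Matrix ι ι K) (hT : ∀ i j, col i = col j → T i j = 0) :
    ∃ A : Fin (r + 1) → Matrix ι ι K, mval α A = T := by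
  classical
  obtain ⟨S₁, S₂, a, b, i₀, y₀, hd, hu, hab, hi₀, hy₀, hne⟩ := hα
  have hcol' : ∀ i, s - 1 < (univ.filter fun j => col j = col i).card := by
    intro i
    have h1 := hcol i
    rw [Set.ncard_eq_toFinset_card'] at h1
    have h2 : (Set.toFinset {j | col j = col i}) = univ.filter fun j => col j = col i := by
      ext j
      simp
    rw [h2] at h1
    omega
  obtain ⟨π, hπ1, hπ2⟩ := exists_perm col (s - 1) hcol'
  have hπ : ∀ v x y, x < s → y < s → (π ^ x) v = (π ^ y) v → x = y := by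
    intro v x y hx hy h
    rcases lt_trichotomy x y with c | c | c
    · exfalso
      obtain ⟨d, rfl⟩ := Nat.exists_eq_add_of_lt c
      rw [show x + d + 1 = x + (d + 1) by ring, pow_add, Equiv.Perm.mul_apply] at h
      exact hπ2 v (d + 1) (by omega) (by omega) ((π ^ x).injective h).symm
    · exact c
    · exfalso
      obtain ⟨d, rfl⟩ := Nat.exists_eq_add_of_lt c
      rw [show y + d + 1 = y + (d + 1) by ring, pow_add, Equiv.Perm.mul_apply] at h
      exact hπ2 v (d + 1) (by omega) (by omega) ((π ^ y).injective h)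
  have hcolp : ∀ (x : ℕ) (v : ι), col ((π ^ x) v) = col v := by
    intro x
    induction x with
    | zero => intro v; simp
    | succ x ih => intro v; rw [pow_succ', Equiv.Perm.mul_apply, hπ1, ih]
  set N := orderOf π with hN
  have hN1 : 1 ≤ N := orderOf_pos π
  set e : ℕ → ℕ := fun q => N * s + b q - a q with he
  have heq : ∀ q, π ^ (e q + a q) = π ^ b q := by
    intro q
    have h1 := (hab q).1
    have h2 : s ≤ N * s := Nat.le_mul_of_pos_left s hN1
    have h3 : e q + a q = N * s + b q := by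
      rw [he]
      simp only
      omega
    rw [h3, pow_add, pow_mul, pow_orderOf_eq_one, one_pow, one_mul]
  have hP : (∏ i, ∏ j, gamB π e α S₁ S₂ i j) ≠ 0 :=
    Finset.prod_ne_zero_iff.2 fun i _ => Finset.prod_ne_zero_iff.2 fun j _ =>
      gamB_ne_zero π e s hπ α S₁ S₂ hd hu a b hab heq i₀ y₀ hi₀ hy₀ hne i j
  obtain ⟨w, hw⟩ := exists_eval_ne _ hP
  have hw1 : ∀ i j, eval w (gamB π e α S₁ S₂ i j) ≠ 0 := by
    intro i j
    rw [map_prod] at hw
    have h2 := Finset.prod_ne_zero_iff.1 hw i (mem_univ _)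
    rw [map_prod] at h2
    exact Finset.prod_ne_zero_iff.1 h2 j (mem_univ _)
  have hCb : ∀ q i j, col i ≠ col j → cmatG π e w q i j = 0 := fun q i j hij =>
    cmatG_block col π hπ1 e w q i j hij
  refine block_scale_steps col α (cmatG π e w) hCb S₁ S₂ hd (fun X hXh hX => ?_) 0 T ?_
  · ext c j
    by_cases haj : col c = col j
    · exact hXh c j haj
    · obtain ⟨i, rfl⟩ := (π ^ (∑ q ∈ S₁, e q)).surjective c
      have h5 := sumB_apply π e S₁ S₂ (∑ q ∈ S₁, e q) (∑ q ∈ S₂, e q)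
        (fun σ hσ => goodU_totB S₁ S₂ hd hu e σ hσ) α w X i j
      have h6 : (∑ σ : Equiv.Perm (Fin (r + 1)), if goodU S₁ S₂ σ then
        α σ • act (cmatG π e w) σ X else 0) = 0 := hX
      rw [h6, Matrix.zero_apply] at h5
      rw [Matrix.zero_apply]
      exact (mul_eq_zero.1 h5.symm).resolve_left (hw1 i j)
  · intro i j hij
    rw [mval_act, hT i j hij]
    have h1 : ∀ σ : Equiv.Perm (Fin (r + 1)), α σ • act (cmatG π e w) σ 0 = 0 := by
      intro σ
      rw [map_zero, smul_zero]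
    rw [Finset.sum_congr rfl fun σ _ => h1 σ, Finset.sum_const_zero, Matrix.zero_apply]

end Pool.Agent.P5e96
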