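import Mathlib
import Pool.Agent.Lib.P5e96.UTMain
import Pool.Agent.Lib.P5e96.UpperScale
import Pool.Agent.Lib.P5e96.SqZero

/-!
# Square-zero matrices
-/

open Finset MvPolynomial Matrix

namespace Pool.Agent.P5e96

variable {K : Type*} [Field K]

theorem rot_inj (N : ℕ) (v : Fin N) (a b : ℕ) (ha : a < N) (hb : b < N)
    (h : ((finRotate N) ^ a) v = ((finRotate N) ^ b) v) : a = b := by
  rcases lt_trichotomy a b with c | c | c
  · exfalso
    obtain ⟨d, rfl⟩ := Nat.exists_eq_add_of_lt c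
    rw [show a + d + 1 = a + (d + 1) by ring, pow_add, Equiv.Perm.mul_apply] at h
    exact rot_ne N (d + 1) v (by omega) (by omega) (((finRotate N) ^ a).injective h).symm
  · exact c
  · exfalso
    obtain ⟨d, rfl⟩ := Nat.exists_eq_add_of_lt c
    rw [show b + d + 1 = b + (d + 1) by ring, pow_add, Equiv.Perm.mul_apply] at h
    exact rot_ne N (d + 1) v (by omega) (by omega) (((finRotate N) ^ b).injective h)

/-- All matrices with only an upper right block are values. -/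
theorem value_upper_steps [Infinite K] {r c₁ c₂ : ℕ} (Q₁ Q₂ : List ℕ)
    (hQ : (Q₁ ++ 0 :: Q₂).Nodup) (hQr : ∀ q ∈ Q₁ ++ 0 :: Q₂, q < r + 1)
    (α : Equiv.Perm (Fin (r + 1)) → K) (y : ℕ → ℕ → K) (hy : PQ α (Q₁ ++ 0 :: Q₂) y ≠ 0)
    (h1 : Q₁.length < c₁) (h2 : Q₂.length < c₂) (T : Matrix (Fin c₁) (Fin c₂) K) :
    ∃ A : Fin (r + 1) → Matrix (Fin c₁ ⊕ Fin c₂) (Fin c₁ ⊕ Fin c₂) K,
      mval α A = Matrix.fromBlocks 0 T 0 0 := by
  set π : Equiv.Perm (Fin c₁ ⊕ Fin c₂) := Equiv.sumCongr (finRotate c₁) (finRotate c₂) with hπ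
  set e := eU (Q₁ ++ 0 :: Q₂) 1 with he
  set S₁ := Q₁.toFinset with hS₁
  set S₂ := Q₂.toFinset with hS₂
  have hdis : Disjoint S₁ S₂ := by
    rw [Finset.disjoint_left]
    intro q hq1 hq2
    rw [hS₁, List.mem_toFinset] at hq1
    rw [hS₂, List.mem_toFinset] at hq2
    exact (List.disjoint_of_nodup_append (List.nodup_cons.1 (List.nodup_middle.1 hQ)).2) hq1 hq2
  have hP : (∏ i : Fin c₁, ∏ j : Fin c₂, gamU π e α S₁ S₂ (Sum.inl i) (Sum.inr j)) ≠ 0 := by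
    refine Finset.prod_ne_zero_iff.2 fun i _ => Finset.prod_ne_zero_iff.2 fun j _ => ?_
    refine gamU_ne_zero π Q₁ Q₂ hQ hQr 1 α y hy _ _ ?_ ?_ ?_
    · intro a b ha hb h
      rw [hπ, (sumCongr_pow _ _ a).1, (sumCongr_pow _ _ b).1] at h
      exact rot_inj c₁ i a b (by omega) (by omega) (Sum.inl_injective h)
    · intro a b ha hb h
      rw [hπ, (sumCongr_pow _ _ a).2, (sumCongr_pow _ _ b).2] at h
      exact rot_inj c₂ j a b (by omega) (by omega) (Sum.inr_injective h)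
    · intro a b _ _ h
      rw [hπ, (sumCongr_pow _ _ a).1, (sumCongr_pow _ _ b).2] at h
      simp at h
  obtain ⟨w, hw⟩ := exists_eval_ne _ hP
  have hw1 : ∀ i j, eval w (gamU π e α S₁ S₂ (Sum.inl i) (Sum.inr j)) ≠ 0 := by
    intro i j
    rw [map_prod] at hw
    have h2 := Finset.prod_ne_zero_iff.1 hw i (mem_univ _)
    rw [map_prod] at h2
    exact Finset.prod_ne_zero_iff.1 h2 j (mem_univ _)
  have hCb : ∀ q (i j : Fin c₁ ⊕ Fin c₂), i.isLeft ≠ j.isLeft → cmatG π e w q i j = 0 :=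
    fun q i j hij => cmatG_block (fun x : Fin c₁ ⊕ Fin c₂ => x.isLeft) π
      (by rintro (v | v) <;> simp [hπ]) e w q i j hij
  refine block_scale_upper α (cmatG π e w) (fun q i j => ⟨hCb q _ _ (by simp),
    hCb q _ _ (by simp)⟩) S₁ S₂ hdis (fun X hX => ?_) T
  ext a j
  obtain ⟨i, hi⟩ : ∃ i : Fin c₁, (π ^ Q₁.length) (Sum.inl i) = Sum.inl a := by
    refine ⟨((finRotate c₁) ^ Q₁.length).symm a, ?_⟩
    rw [hπ, (sumCongr_pow _ _ _).1, Equiv.apply_symm_apply]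
  have h5 := sumU_apply π Q₁ Q₂ hQ hQr 1 α w (Matrix.fromBlocks 0 X 0 0) (Sum.inl i) (Sum.inr j)
  have h6 : (∑ σ : Equiv.Perm (Fin (r + 1)), if goodU Q₁.toFinset Q₂.toFinset σ then
    α σ • act (cmatG π (eU (Q₁ ++ 0 :: Q₂) 1) w) σ (Matrix.fromBlocks 0 X 0 0) else 0) = 0 := hX
  rw [h6, Matrix.zero_apply, hi, Matrix.fromBlocks_apply₁₂] at h5
  rw [Matrix.zero_apply]
  exact (mul_eq_zero.1 h5.symm).resolve_left (hw1 i j)

/-- The step letters around the letter `0`, with at most as many before as after it. -/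
theorem exists_mid' {r : ℕ} (α : Equiv.Perm (Fin (r + 1)) → K) (hα : α ≠ 0) (k : ℕ)
    (hk : NotUT α k) :
    ∃ (ρ : Equiv.Perm (Fin (r + 1))) (Q₁ Q₂ : List ℕ) (y : ℕ → ℕ → K),
      (Q₁ ++ 0 :: Q₂).Nodup ∧ (∀ q ∈ Q₁ ++ 0 :: Q₂, q < r + 1) ∧
      (2 * Q₁.length + 2 ≤ k ∨ Q₁.length = 0) ∧ 2 * Q₂.length + 1 ≤ k ∧
      PQ (fun τ => α (ρ * τ)) (Q₁ ++ 0 :: Q₂) y ≠ 0 := by
  obtain ⟨Q, y, hQ, hQr, hQk, hne⟩ : ∃ (Q : List ℕ) (y : ℕ → ℕ → K), Q.Nodup ∧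
      (∀ q ∈ Q, q < r + 1) ∧ Q.length + 1 ≤ k ∧ PQ α Q y ≠ 0 := by
    rcases hk with hk | ⟨U, hU, hne⟩
    · exact exists_PQ_of_degree α hα k (by omega)
    · exact exists_PQ α k U hU hne
  obtain ⟨ρ, Q₁, Q₂, y', h1, h2, h3, h4, h5⟩ := exists_PQ_mid α Q y hQ hQr hne
  exact ⟨ρ, Q₁, Q₂, y', h1, h2, by omega, by omega, h5⟩

/-- Every square-zero matrix is a value if `k ≤ n`. -/
theorem value_sq_zero_ut [Infinite K] {m : ℕ} (hm : 1 ≤ m) (α : Equiv.Perm (Fin m) → K)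
    (hα : α ≠ 0) (k : ℕ) (hk : NotUT α k) {n : ℕ} (hn2 : 2 ≤ n) (hn : k ≤ n)
    (T : Matrix (Fin n) (Fin n) K) (hT : T * T = 0) :
    ∃ A : Fin m → Matrix (Fin n) (Fin n) K, mval α A = T := by
  obtain ⟨r, rfl⟩ : ∃ r, m = r + 1 := ⟨m - 1, by omega⟩
  obtain ⟨ρ, Q₁, Q₂, y, h1, h2, h3, h4, h6⟩ := exists_mid' α hα k hk
  refine value_relabel α ρ T ?_
  obtain ⟨b, hb1, hb2⟩ := sq_zero_basis T hT
  refine value_of_toMatrix _ T b ?_
  obtain ⟨A, hA⟩ := value_upper_steps (c₁ := n / 2) (c₂ := (n + 1) / 2) Q₁ Q₂ h1 h2 _ y h6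
    (by omega) (by omega) (LinearMap.toMatrix b b (Matrix.toLin' T)).toBlocks₁₂
  refine ⟨A, hA.trans ?_⟩
  ext i j
  rcases j with j | j
  · have h7 : LinearMap.toMatrix b b (Matrix.toLin' T) i (Sum.inl j) = 0 := by
      rw [LinearMap.toMatrix_apply, Matrix.toLin'_apply, hb1, map_zero, Finsupp.zero_apply]
    rw [h7]
    rcases i with i | i <;> rfl
  · rcases i with i | i
    · rfl
    · rw [LinearMap.toMatrix_apply, Matrix.toLin'_apply, Matrix.fromBlocks_apply₂₂,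
        Matrix.zero_apply]
      have h8 := hb2 j
      generalize T *ᵥ b (Sum.inr j) = x at h8
      induction h8 using Submodule.span_induction with
      | mem x hx =>
        obtain ⟨l, rfl⟩ := hx
        simp
      | zero => simp
      | add x y _ _ hx hy => rw [map_add, Finsupp.add_apply, ← hx, ← hy, add_zero]
      | smul c x _ hx => rw [map_smul, Finsupp.smul_apply, ← hx, smul_zero]

end Pool.Agent.P5e96
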