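import Mathlib
import Pool.Agent.Lib.P5e96.UBValues
import Pool.Agent.Lib.P5e96.UTUpper

/-!
# A cyclic first diagonal block, for polynomials with matrix units data
-/

open Finset MvPolynomial Matrix

namespace Pool.Agent.P5e96

variable {K : Type*} [Field K] {r : ℕ}

/-- The entries of the value of the whole polynomial do not vanish. -/
theorem delB_ne_zero {ι : Type*} [DecidableEq ι] (π : Equiv.Perm ι) (e : ℕ → ℕ) (s : ℕ) (v : ι)
    (hπ : ∀ u x y, x < s → y < s → (π ^ x) u = (π ^ y) u → x = y)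
    (α : Equiv.Perm (Fin (r + 1)) → K) (a b : ℕ → ℕ) (hab : ∀ q, a q < s ∧ b q < s)
    (he : ∀ q, π ^ (e q + a q) = π ^ b q) (i₀ : ℕ) (hi₀ : i₀ < s)
    (hne : (∑ σ : Equiv.Perm (Fin (r + 1)), α σ * uwt K a b (fullList σ) i₀) ≠ 0) :
    delG π e α v ≠ 0 := by
  set v₁ : ι := (π ^ i₀).symm v with hv₁
  have hv : (π ^ i₀) v₁ = v := by rw [hv₁, Equiv.apply_symm_apply]
  set w : ℕ × ι → K := fun x => if x.2 = (π ^ a x.1) v₁ then 1 else 0 with hw
  have hw1 : ∀ q, ∀ x < s, w (q, (π ^ x) v₁) = if x = a q then 1 else 0 := by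
    intro q x hx
    rw [hw]
    by_cases h : x = a q
    · rw [if_pos h]
      simp only
      rw [if_pos (by rw [h])]
    · rw [if_neg h]
      simp only
      rw [if_neg (fun h2 => h (hπ _ _ _ hx (hab q).1 h2))]
  intro h0
  apply hne
  have h1 : eval w (delG π e α v) = 0 := by rw [h0, map_zero]
  refine Eq.trans ?_ h1
  rw [delG, map_sum]
  refine Finset.sum_congr rfl fun σ _ => ?_
  rw [← pwt_eq_uwt w π e a b s v₁ (hπ v₁) hab he (fullList σ) (fun q _ => hw1 q) i₀ hi₀, hv,
    ← eval_expoG]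
  simp only [eval_monomial, one_mul]

/-- All matrices with a suitable weighted cyclic shift as first diagonal block and zero as second
diagonal block are values. -/
theorem value_two_cdata [Infinite K] {p s : ℕ} (hs : 1 ≤ s) (hps : s + 1 ≤ p)
    (α : Equiv.Perm (Fin (r + 1)) → K) (a b : ℕ → ℕ) (hab : ∀ q, a q < s ∧ b q < s)
    (i₀ : ℕ) (hi₀ : i₀ < s)
    (hsum : (∑ q ∈ Finset.range (r + 1), b q) + 1 = ∑ q ∈ Finset.range (r + 1), a q)
    (hne : (∑ σ : Equiv.Perm (Fin (r + 1)), α σ * uwt K a b (fullList σ) i₀) ≠ 0)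
    (S₁ S₂ : Finset ℕ) (hd : Disjoint S₁ S₂) (hu : S₁ ∪ S₂ = Finset.Icc 1 r)
    (hne2 : (∑ σ : Equiv.Perm (Fin (r + 1)), if goodU S₁ S₂ σ then
      α σ * (uwt K a b (preL σ) i₀ * uwt K a b (postL σ) (b 0)) else 0) ≠ 0) :
    ∃ d : Fin p → K, (∀ i, d i ≠ 0) ∧ ∀ T : Matrix (Fin p ⊕ Fin s) (Fin p ⊕ Fin s) K,
      (∀ i j : Fin p, T (Sum.inl i) (Sum.inl j) = if (i : ℕ) = (j + 1) % p then d i else 0) →
      (∀ i j : Fin s, T (Sum.inr i) (Sum.inr j) = 0) →
      ∃ A : Fin (r + 1) → Matrix (Fin p ⊕ Fin s) (Fin p ⊕ Fin s) K, mval α A = T := by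
  set π : Equiv.Perm (Fin p ⊕ Fin s) := Equiv.sumCongr (finRotate p) (finRotate s) with hπdef
  have hπ : ∀ u x y, x < s → y < s → (π ^ x) u = (π ^ y) u → x = y := by
    intro u x y hx hy h
    rcases u with u | u
    · rw [hπdef, (sumCongr_pow _ _ x).1, (sumCongr_pow _ _ y).1] at h
      exact rot_inj p u x y (by omega) (by omega) (Sum.inl_injective h)
    · rw [hπdef, (sumCongr_pow _ _ x).2, (sumCongr_pow _ _ y).2] at h
      exact rot_inj s u x y (by omega) (by omega) (Sum.inr_injective h)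
  have hcol : ∀ v, (π v).isLeft = v.isLeft := by rintro (v | v) <;> simp [hπdef]
  set N := orderOf π with hN
  have hN1 : 1 ≤ N := orderOf_pos π
  set e : ℕ → ℕ := fun q => N * s + b q - a q with he
  have heab : ∀ q, e q + a q = N * s + b q := by
    intro q
    have h1 := (hab q).1
    have h2 : s ≤ N * s := Nat.le_mul_of_pos_left s hN1
    rw [he]
    simp only
    omega
  have heq : ∀ q, π ^ (e q + a q) = π ^ b q := by
    intro q
    rw [heab, pow_add, pow_mul, pow_orderOf_eq_one, one_pow, one_mul]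
  have htot : ∀ σ : Equiv.Perm (Fin (r + 1)), totG e (fullList σ) + 1 = N * ((r + 1) * s) := by
    intro σ
    have h1 : totG e (fullList σ) = ∑ q ∈ Finset.range (r + 1), e q := by
      refine totG_eq_sum e _ (fullList_nodup σ) _ fun q => ?_
      rw [Finset.mem_range]
      constructor
      · intro hq
        rw [fullList, List.mem_ofFn'] at hq
        obtain ⟨t, rfl⟩ := hq
        exact (σ t).2
      · exact mem_fullList σ q
    have h2 : (∑ q ∈ Finset.range (r + 1), e q) + ∑ q ∈ Finset.range (r + 1), a q =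
        (r + 1) * (N * s) + ∑ q ∈ Finset.range (r + 1), b q := by
      rw [← Finset.sum_add_distrib, Finset.sum_congr rfl fun q _ => heab q,
        Finset.sum_add_distrib, Finset.sum_const, Finset.card_range, smul_eq_mul]
    have h3 : N * ((r + 1) * s) = (r + 1) * (N * s) := by ring
    rw [h1, h3]
    omega
  have hinv : ∀ σ : Equiv.Perm (Fin (r + 1)), π * π ^ totG e (fullList σ) = 1 := by
    intro σ
    rw [← pow_succ', htot, pow_mul, pow_orderOf_eq_one, one_pow]
  have hP : (∏ i, ∏ j, gamB π e α S₁ S₂ i j) * ∏ v, delG π e α v ≠ 0 :=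
    mul_ne_zero (Finset.prod_ne_zero_iff.2 fun i _ => Finset.prod_ne_zero_iff.2 fun j _ =>
      gamB_ne_zero π e s hπ α S₁ S₂ hd hu a b hab heq i₀ (b 0) hi₀ (hab 0).2 hne2 i j)
      (Finset.prod_ne_zero_iff.2 fun v _ => delB_ne_zero π e s v hπ α a b hab heq i₀ hi₀ hne)
  obtain ⟨w, hw⟩ := exists_eval_ne _ hP
  rw [map_mul] at hw
  have hw1 : ∀ i j, eval w (gamB π e α S₁ S₂ i j) ≠ 0 := by
    intro i j
    have h1 := left_ne_zero_of_mul hw
    rw [map_prod] at h1
    have h2 := Finset.prod_ne_zero_iff.1 h1 i (mem_univ _)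
    rw [map_prod] at h2
    exact Finset.prod_ne_zero_iff.1 h2 j (mem_univ _)
  have hw2 : ∀ v, eval w (delG π e α v) ≠ 0 := by
    intro v
    have h1 := right_ne_zero_of_mul hw
    rw [map_prod] at h1
    exact Finset.prod_ne_zero_iff.1 h1 v (mem_univ _)
  refine ⟨fun i => eval w (delG π e α (Sum.inl i)), fun i => hw2 _, fun T hT1 hT2 => ?_⟩
  set C : ℕ → Matrix (Fin p ⊕ Fin s) (Fin p ⊕ Fin s) K := cmatG π e w with hC
  have hCb : ∀ q (i j : Fin p ⊕ Fin s), i.isLeft ≠ j.isLeft → C q i j = 0 := fun q i j hij =>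
    cmatG_block (fun x : Fin p ⊕ Fin s => x.isLeft) π hcol e w q i j hij
  set pr : Matrix (Fin p ⊕ Fin s) (Fin p ⊕ Fin s) K :=
    Matrix.diagonal fun i => if i.isLeft = true then 1 else 0 with hpr
  have hcomm : ∀ l : List ℕ, Commute pr (l.map C).prod := by
    intro l
    exact (prod_map_mul _ C (fun q => block_commute (fun x : Fin p ⊕ Fin s => x.isLeft) (C q)
      (hCb q) (fun c => if c = true then 1 else 0)) l).2
  refine block_scale_steps (fun x : Fin p ⊕ Fin s => x.isLeft) α C hCb S₁ S₂ hd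
    (fun X hXh hX => ?_) (pr * C 0) T ?_
  · ext c j
    by_cases haj : c.isLeft = j.isLeft
    · exact hXh c j haj
    · obtain ⟨i, rfl⟩ := (π ^ (∑ q ∈ S₁, e q)).surjective c
      have h5 := sumB_apply π e S₁ S₂ (∑ q ∈ S₁, e q) (∑ q ∈ S₂, e q)
        (fun σ hσ => goodU_totB S₁ S₂ hd hu e σ hσ) α w X i j
      have h6 : (∑ σ : Equiv.Perm (Fin (r + 1)), if goodU S₁ S₂ σ then
        α σ • act (cmatG π e w) σ X else 0) = 0 := hX
      rw [h6, Matrix.zero_apply] at h5
      rw [Matrix.zero_apply]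
      exact (mul_eq_zero.1 h5.symm).resolve_left (hw1 i j)
  · intro i j hij
    rw [mval_act]
    have h1 : ∀ σ : Equiv.Perm (Fin (r + 1)),
        act C σ (pr * C 0) = pr * act C σ (C 0) := by
      intro σ
      rw [act_apply, act_apply, mul_assoc, ← mul_assoc _ pr, ← (hcomm (preL σ)).eq,
        mul_assoc]
    have h2 : (∑ σ : Equiv.Perm (Fin (r + 1)), α σ • act C σ (pr * C 0)) =
        pr * ∑ σ : Equiv.Perm (Fin (r + 1)), α σ • act C σ (C 0) := by
      rw [Finset.mul_sum]
      refine Finset.sum_congr rfl fun σ _ => ?_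
      rw [h1, mul_smul_comm]
    rw [h2, hpr, Matrix.diagonal_mul]
    have h3 := sumD_apply π e α w 1 i j
    rw [← hC] at h3
    rw [h3]
    rcases i with i | i <;> rcases j with j | j
    · have h4 : ((i : ℕ) = (j + 1) % p) ↔
          (Sum.inl j : Fin p ⊕ Fin s) = (π ^ totG e (fullList (1 : Equiv.Perm (Fin (r + 1)))))
            (Sum.inl i) := by
        have h5 := hinv 1
        have h6 : (Sum.inl j : Fin p ⊕ Fin s) = (π ^ totG e (fullList (1 : Equiv.Perm (Fin (r + 1)))))
            (Sum.inl i) ↔ π (Sum.inl j) = Sum.inl i := by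
          constructor
          · intro h
            rw [h, ← Equiv.Perm.mul_apply, h5, Equiv.Perm.one_apply]
          · intro h
            apply π.injective
            rw [h, ← Equiv.Perm.mul_apply, h5, Equiv.Perm.one_apply]
        rw [h6, hπdef, Equiv.sumCongr_apply, Sum.map_inl, Sum.inl.injEq, Fin.ext_iff]
        have h7 := rot_pow p 1 j
        rw [pow_one] at h7
        rw [h7]
        exact eq_comm
      rw [if_pos (by rfl), one_mul, hT1]
      by_cases h5 : (i : ℕ) = (j + 1) % p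
      · rw [if_pos h5, if_pos (h4.1 h5)]
      · rw [if_neg h5, if_neg (fun h => h5 (h4.2 h))]
    · simp at hij
    · simp at hij
    · rw [if_neg (by simp), zero_mul, hT2]

end Pool.Agent.P5e96
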