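import Mathlib
import Pool.Agent.Lib.P5e96.UBData
import Pool.Agent.Lib.P5e96.UBDeg
import Pool.Agent.Lib.P5e96.UCSplit
import Pool.Agent.Lib.P5e96.UCValues
import Pool.Agent.Lib.P5e96.UTMain
import Pool.Agent.Lib.P5e96.AwayForm
import Pool.Agent.Lib.P5e96.UBCross
import Pool.Agent.Lib.P5e96.UCData

/-!
# Values of polynomials that are no identities of block upper triangular matrices
-/

open Finset Matrix

namespace Pool.Agent.P5e96

variable {K : Type*} [Field K]

/-- `α` is not an identity of the block upper triangular matrices with two diagonal blocks of size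
`s` (or has small degree). -/
def NotBlk {m : ℕ} (α : Equiv.Perm (Fin m) → K) (s : ℕ) : Prop :=
  m + 1 ≤ 4 * s ∨ ∃ U : Fin m → Matrix (Fin s ⊕ Fin s) (Fin s ⊕ Fin s) K,
    (∀ q i j, U q (Sum.inr i) (Sum.inl j) = 0) ∧ mval α U ≠ 0

/-- The hollow principle: every matrix whose diagonal blocks vanish is a value, if the classes have
at least `s` elements. -/
theorem value_hollow_ub [Infinite K] {ι : Type*} [DecidableEq ι] [Fintype ι] {m : ℕ}
    (hm : 1 ≤ m) (α : Equiv.Perm (Fin m) → K) (hα : α ≠ 0) (s : ℕ) (hs : NotBlk α s)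
    {κ : Type*} (col : ι → κ) (hcol : ∀ i, s ≤ Set.ncard {j | col j = col i})
    (T : Matrix ι ι K) (hT : ∀ i j, col i = col j → T i j = 0) :
    ∃ A : Fin m → Matrix ι ι K, mval α A = T := by
  obtain ⟨r, rfl⟩ : ∃ r, m = r + 1 := ⟨m - 1, by omega⟩
  obtain ⟨U, hU, hne⟩ : ∃ U : Fin (r + 1) → Matrix (Fin s ⊕ Fin s) (Fin s ⊕ Fin s) K,
      (∀ q i j, U q (Sum.inr i) (Sum.inl j) = 0) ∧ mval α U ≠ 0 := by
    rcases hs with hs | hs
    · exact exists_block_of_degree α hα s (by omega)
    · exact hs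
  obtain ⟨a, b, q₀, h1, h2, h3, h4⟩ := exists_cross α U hU hne
  obtain ⟨ρ, hρ⟩ := exists_BData_of_cross α a b q₀ h1 h2 h3 h4
  exact value_relabel α ρ T (value_hollow_bdata _ s hρ col hcol T hT)

/-- A matrix is a value as soon as it has vanishing diagonal blocks in some basis. -/
theorem value_of_basis_hollow_ub [Infinite K] {m : ℕ} (hm : 1 ≤ m)
    (α : Equiv.Perm (Fin m) → K) (hα : α ≠ 0) (s : ℕ) (hs : NotBlk α s)
    {n : ℕ} (T : Matrix (Fin n) (Fin n) K) {ι : Type*} [Fintype ι] [DecidableEq ι]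
    (b : Module.Basis ι K (Fin n → K)) {κ : Type*} (col : ι → κ)
    (hcol : ∀ i, s ≤ Set.ncard {j | col j = col i})
    (hT : ∀ i j, col i = col j → b.repr (T *ᵥ b j) i = 0) :
    ∃ A : Fin m → Matrix (Fin n) (Fin n) K, mval α A = T := by
  refine value_of_toMatrix α T b (value_hollow_ub hm α hα s hs col hcol _ fun i j hij => ?_)
  rw [LinearMap.toMatrix_apply, Matrix.toLin'_apply]
  exact hT i j hij

/-- Every balanced matrix of size at least `2 * s` is a value. -/
theorem value_of_bal_ub [Infinite K] {m : ℕ} (hm : 1 ≤ m)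
    (α : Equiv.Perm (Fin m) → K) (hα : α ≠ 0) (s : ℕ) (hs : NotBlk α s)
    {n : ℕ} (hn : 2 * s ≤ n)
    (T : Matrix (Fin n) (Fin n) K) (hT : Bal (Matrix.toLin' T)) :
    ∃ A : Fin m → Matrix (Fin n) (Fin n) K, mval α A = T := by
  classical
  obtain ⟨ι, hι, b, col, h1, h2, h3⟩ := hT
  have hcard : (univ.filter fun i => col i = true).card +
      (univ.filter fun i => col i = false).card = n := by
    have h4 : (univ.filter fun i => col i = false) = univ.filter fun i => ¬ col i = true := by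
      ext i
      simp
    rw [h4, Finset.card_filter_add_card_filter_not, Finset.card_univ,
      ← Module.finrank_eq_card_basis b, Module.finrank_fin_fun]
  refine value_of_basis_hollow_ub hm α hα s hs T b col ?_ ?_
  · intro i
    have h5 : Set.ncard {j | col j = col i} = (univ.filter fun j => col j = col i).card := by
      rw [Set.ncard_eq_toFinset_card']
      congr 1
      ext j
      simp
    rw [h5]
    cases col i <;> omega
  · intro i j hij
    have h6 := h1 j
    rw [Module.Basis.mem_span_image] at h6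
    by_contra h7
    exact h6 (Finsupp.mem_support_iff.2 h7) hij

/-- Every trace-zero matrix with a cyclic vector is a value if the polynomial has a non-scalar value
on the matrices of size `s` and `2 * s + 1 ≤ n`. -/
theorem value_of_cyclic_uc [Infinite K] {m : ℕ} (hm : 1 ≤ m) (α : Equiv.Perm (Fin m) → K)
    (s : ℕ) (U : Fin m → Matrix (Fin s) (Fin s) K)
    (hU : ∀ c : K, mval α U ≠ c • (1 : Matrix (Fin s) (Fin s) K)) {n : ℕ} (hn : 2 * s + 1 ≤ n)
    (T : Matrix (Fin n) (Fin n) K)
    (hT : T.trace = 0) (v : Fin n → K)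
    (hv : LinearIndependent K fun i : Fin n => (T ^ (i : ℕ)) *ᵥ v) :
    ∃ A : Fin m → Matrix (Fin n) (Fin n) K, mval α A = T := by
  obtain ⟨r, rfl⟩ : ∃ r, m = r + 1 := ⟨m - 1, by omega⟩
  obtain ⟨a, b, i₀, hab, hi, hsum, hne⟩ := exists_CData α U hU
  obtain ⟨S₁, S₂, hd, hu, hne2⟩ := exists_split α a b i₀ hab hi hne
  obtain ⟨d, hd0, hval⟩ := value_two_cdata (K := K) (p := n - s) (s := s) (by omega) (by omega)
    α a b hab i₀ hi hsum hne S₁ S₂ hd hu hne2
  obtain ⟨b', hb1, hb2⟩ := exists_completion (p := n - s)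
    (s := s) (by omega) (by omega) (by omega) T hT v hv d hd0
  refine value_of_toMatrix _ T b' (hval _ (fun i j => ?_) (fun i j => ?_))
  · rw [LinearMap.toMatrix_apply, Matrix.toLin'_apply]
    exact hb1 i j
  · rw [LinearMap.toMatrix_apply, Matrix.toLin'_apply]
    exact hb2 i j

/-- **Away from the nonzero scalar matrices.** -/
theorem value_away_ub [Infinite K] {m : ℕ} (hm : 1 ≤ m) (α : Equiv.Perm (Fin m) → K)
    (hα : α ≠ 0) (s : ℕ) (hs1 : 1 ≤ s) (hs : NotBlk α s) {n r : ℕ} (hr2 : 2 ≤ r)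
    (hr1 : 3 * s * r ≤ n) (hn2 : 6 * s + 4 ≤ n) (T : Matrix (Fin n) (Fin n) K)
    (hT : T.trace = 0)
    (hr : ∀ c : K, c ≠ 0 →
      (n + r - 1) / r ≤ (T - c • (1 : Matrix (Fin n) (Fin n) K)).rank + 1) :
    ∃ A : Fin m → Matrix (Fin n) (Fin n) K, mval α A = T := by
  obtain ⟨ι, _, _, col, b, h1, h2⟩ := away_form hs1 hr2 hr1 hn2 T hT hr
  exact value_of_basis_hollow_ub hm α hα s hs T b col h1 h2

end Pool.Agent.P5e96
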