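import Mathlib
import Pool.Agent.Lib.P5e96.UBData

/-!
# Block data with first vertex `0` and last vertex `s - 1`
-/

open Finset Matrix

namespace Pool.Agent.P5e96

variable {K : Type*} [Field K] {r : ℕ}

/-- Block data with first vertex `0` and last vertex `s - 1`: the letters of `S₁` lead from `0` to
`x₀`, the letters of `S₂` lead from `y₀` to `s - 1`. -/
def XData {K : Type*} [Field K] {r : ℕ} (α : Equiv.Perm (Fin (r + 1)) → K) (s : ℕ) : Prop :=
  ∃ (S₁ S₂ : Finset ℕ) (a b : ℕ → ℕ) (x₀ y₀ : ℕ), Disjoint S₁ S₂ ∧ S₁ ∪ S₂ = Finset.Icc 1 r ∧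
    (∀ q, a q < s ∧ b q < s) ∧ x₀ < s ∧ y₀ < s ∧ ∑ q ∈ S₁, b q = x₀ + ∑ q ∈ S₁, a q ∧
    (y₀ + ∑ q ∈ S₂, b q) + 1 = s + ∑ q ∈ S₂, a q ∧
    (∑ σ : Equiv.Perm (Fin (r + 1)), if goodU S₁ S₂ σ then
      α σ * (uwt K a b (preL σ) 0 * uwt K a b (postL σ) y₀) else 0) ≠ 0

/-- The data of a nonzero entry `(i, j)`. -/
theorem data_of_cross_entry {s : ℕ} (α : Equiv.Perm (Fin (r + 1)) → K)
    (a b : Fin (r + 1) → Fin s ⊕ Fin s) (q₀ : Fin (r + 1))
    (h1 : (a q₀).isLeft) (h2 : (b q₀).isRight)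
    (h3 : ∀ q, q ≠ q₀ → (a q).isLeft = (b q).isLeft) (i j : Fin s ⊕ Fin s)
    (hij : mval α (fun q => Matrix.single (a q) (b q) (1 : K)) i j ≠ 0) :
    i.isLeft = true ∧ j.isLeft = false ∧
      ∃ (S₁ S₂ : Finset ℕ) (A' B' : ℕ → ℕ) (x₀ y₀ : ℕ), Disjoint S₁ S₂ ∧
        S₁ ∪ S₂ = Finset.Icc 1 r ∧ (∀ q, A' q < s ∧ B' q < s) ∧ x₀ < s ∧ y₀ < s ∧
        (x₀ : ℤ) = bval i + ∑ q ∈ S₁, ((B' q : ℤ) - A' q) ∧
        (bval j : ℤ) = y₀ + ∑ q ∈ S₂, ((B' q : ℤ) - A' q) ∧
        (∑ σ : Equiv.Perm (Fin (r + 1)), if goodU S₁ S₂ σ then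
          α (Equiv.swap 0 q₀ * σ) * (uwt K A' B' (preL σ) (bval i) *
            uwt K A' B' (postL σ) y₀) else 0) ≠ 0 := by
  set ρ : Equiv.Perm (Fin (r + 1)) := Equiv.swap 0 q₀ with hρ
  let A : ℕ → Fin s ⊕ Fin s := fun q => if h : q < r + 1 then a (ρ ⟨q, h⟩) else i
  let B : ℕ → Fin s ⊕ Fin s := fun q => if h : q < r + 1 then b (ρ ⟨q, h⟩) else i
  have hA : ∀ q : Fin (r + 1), A q = a (ρ q) := fun q => dif_pos q.2
  have hB : ∀ q : Fin (r + 1), B q = b (ρ q) := fun q => dif_pos q.2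
  have hρ0 : ρ 0 = q₀ := by rw [hρ, Equiv.swap_apply_left]
  have hA0 : A 0 = a q₀ := by
    have h := hA 0
    rw [hρ0] at h
    exact h
  have hB0 : B 0 = b q₀ := by
    have h := hB 0
    rw [hρ0] at h
    exact h
  have hb : (b q₀).isLeft = false := by
    cases h : b q₀ with
    | inl x => rw [h] at h2; simp at h2
    | inr x => rfl
  have hAB : ∀ q, q ≠ 0 → (A q).isLeft = (B q).isLeft := by
    intro q hq
    simp only [A, B]
    split_ifs with h
    · apply h3
      intro h4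
      rw [← hρ0] at h4
      have h5 := congrArg Fin.val (ρ.injective h4)
      apply hq
      simpa using h5
    · rfl
  have hword : ∀ τ : Equiv.Perm (Fin (r + 1)),
      (List.ofFn fun t => Matrix.single (a ((ρ * τ) t)) (b ((ρ * τ) t)) (1 : K)) =
        (fullList τ).map fun q => Matrix.single (A q) (B q) (1 : K) := by
    intro τ
    rw [fullList, List.map_ofFn]
    congr 1
    funext t
    simp only [Function.comp_apply]
    rw [hA, hB, Equiv.Perm.mul_apply]
  have hsum : mval α (fun q => Matrix.single (a q) (b q) (1 : K)) i j =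
      ∑ τ : Equiv.Perm (Fin (r + 1)), α (ρ * τ) *
        ((fullList τ).map fun q => Matrix.single (A q) (B q) (1 : K)).prod i j := by
    rw [mval, Matrix.sum_apply, ← Equiv.sum_comp (Equiv.mulLeft ρ)]
    refine Finset.sum_congr rfl fun τ _ => ?_
    rw [Matrix.smul_apply, smul_eq_mul, Equiv.coe_mulLeft, ← hword τ]
  rw [hsum] at hij
  have hentry : ∀ τ : Equiv.Perm (Fin (r + 1)),
      ((fullList τ).map fun q => Matrix.single (A q) (B q) (1 : K)).prod i j =
        ((preL τ).map fun q => Matrix.single (A q) (B q) (1 : K)).prod i (A 0) *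
        ((postL τ).map fun q => Matrix.single (A q) (B q) (1 : K)).prod (B 0) j := by
    intro τ
    rw [fullList_eq, List.map_append, List.prod_append, List.map_cons, List.prod_cons,
      Matrix.mul_apply, Finset.sum_eq_single (A 0)]
    · rw [single_mul_entry_gen, if_pos rfl]
    · intro w _ hw
      rw [single_mul_entry_gen, if_neg hw, mul_zero]
    · intro h
      exact absurd (Finset.mem_univ _) h
  set S₁ : Finset ℕ := (Finset.Icc 1 r).filter fun q => (A q).isLeft = true with hS₁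
  set S₂ : Finset ℕ := (Finset.Icc 1 r).filter fun q => ¬ (A q).isLeft = true with hS₂
  have hdis : Disjoint S₁ S₂ := Finset.disjoint_filter_filter_not _ _ _
  have hun : S₁ ∪ S₂ = Finset.Icc 1 r := Finset.filter_union_filter_not_eq _ _
  have hpre : ∀ τ : Equiv.Perm (Fin (r + 1)), ∀ q ∈ preL τ, (A q).isLeft = (B q).isLeft :=
    fun τ q hq => hAB q (by rintro rfl; exact (zero_notMem τ).1 hq)
  have hpost : ∀ τ : Equiv.Perm (Fin (r + 1)), ∀ q ∈ postL τ, (A q).isLeft = (B q).isLeft :=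
    fun τ q hq => hAB q (by rintro rfl; exact (zero_notMem τ).2 hq)
  obtain ⟨σ₀, -, hσ₀⟩ := Finset.exists_ne_zero_of_sum_ne_zero hij
  have e₀ := right_ne_zero_of_mul hσ₀
  rw [hentry] at e₀
  have e1 := left_ne_zero_of_mul e₀
  have e2 := right_ne_zero_of_mul e₀
  have hi : i.isLeft = true := by
    rw [(prod_side A B (preL σ₀) i (A 0) (hpre σ₀) e1).1, hA0]
    exact h1
  have hj : j.isLeft = false := by
    rw [← (prod_side A B (postL σ₀) (B 0) j (hpost σ₀) e2).1, hB0]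
    exact hb
  have hgood : ∀ τ : Equiv.Perm (Fin (r + 1)),
      ((fullList τ).map fun q => Matrix.single (A q) (B q) (1 : K)).prod i j ≠ 0 →
        goodU S₁ S₂ τ := by
    intro τ hτ
    rw [hentry] at hτ
    have f1 := (prod_side A B (preL τ) i (A 0) (hpre τ) (left_ne_zero_of_mul hτ)).2
    have f2 := (prod_side A B (postL τ) (B 0) j (hpost τ) (right_ne_zero_of_mul hτ)).2
    refine ⟨fun q hq hq2 => ?_, fun q hq hq1 => ?_⟩
    · rw [hS₂, Finset.mem_filter] at hq2
      exact hq2.2 (by rw [f1 q hq]; exact hi)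
    · rw [hS₁, Finset.mem_filter] at hq1
      have h := f2 q hq
      rw [hq1.2, hB0, hb] at h
      cases h
  set A' : ℕ → ℕ := fun q => bval (A q) with hA'
  set B' : ℕ → ℕ := fun q => bval (B q) with hB'
  have g1 : ∀ τ : Equiv.Perm (Fin (r + 1)), goodU S₁ S₂ τ →
      ((preL τ).map fun q => Matrix.single (A q) (B q) (1 : K)).prod i (A 0) =
        uwt K A' B' (preL τ) (bval i) *
          if pend B' (preL τ) (bval i) = bval (A 0) then 1 else 0 := by
    intro τ hτ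
    refine prod_uwt A B (preL τ) i (A 0) (fun q hq => ?_) (by rw [hA0, hi]; exact h1)
    have h4 : q ∈ S₁ := by
      rw [← (goodU_toFinset S₁ S₂ hun τ hτ).1, List.mem_toFinset]
      exact hq
    rw [hS₁, Finset.mem_filter] at h4
    rw [← hpre τ q hq, h4.2, hi]
    exact ⟨rfl, rfl⟩
  have g2 : ∀ τ : Equiv.Perm (Fin (r + 1)), goodU S₁ S₂ τ →
      ((postL τ).map fun q => Matrix.single (A q) (B q) (1 : K)).prod (B 0) j =
        uwt K A' B' (postL τ) (bval (B 0)) *
          if pend B' (postL τ) (bval (B 0)) = bval j then 1 else 0 := by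
    intro τ hτ
    refine prod_uwt A B (postL τ) (B 0) j (fun q hq => ?_) (by rw [hB0, hj, hb])
    have h4 : q ∈ S₂ := by
      rw [← (goodU_toFinset S₁ S₂ hun τ hτ).2, List.mem_toFinset]
      exact hq
    rw [hS₂, Finset.mem_filter, Bool.not_eq_true] at h4
    rw [← hpost τ q hq, h4.2, hB0, hb]
    exact ⟨rfl, rfl⟩
  have hend : ∀ (l : List ℕ) (S : Finset ℕ) (x : ℕ), l.Nodup → l.toFinset = S →
      uwt K A' B' l x ≠ 0 → ((pend B' l x : ℕ) : ℤ) = x + ∑ q ∈ S, ((B' q : ℤ) - A' q) := by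
    intro l S x hl hS hx
    rw [uwt_pend A' B' l x hx, ← hS, List.sum_toFinset _ hl]
  have hg₀ : goodU S₁ S₂ σ₀ := hgood σ₀ (right_ne_zero_of_mul hσ₀)
  rw [g1 σ₀ hg₀] at e1
  rw [g2 σ₀ hg₀] at e2
  have E1 : (bval (A 0) : ℤ) = bval i + ∑ q ∈ S₁, ((B' q : ℤ) - A' q) := by
    rw [← hend (preL σ₀) S₁ (bval i) (preL_nodup σ₀).1
      (goodU_toFinset S₁ S₂ hun σ₀ hg₀).1 (left_ne_zero_of_mul e1)]
    have h := right_ne_zero_of_mul e1
    by_contra h4
    rw [if_neg (fun h5 => h4 (by rw [h5]))] at h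
    exact h rfl
  have E2 : (bval j : ℤ) = bval (B 0) + ∑ q ∈ S₂, ((B' q : ℤ) - A' q) := by
    rw [← hend (postL σ₀) S₂ (bval (B 0)) (preL_nodup σ₀).2
      (goodU_toFinset S₁ S₂ hun σ₀ hg₀).2 (left_ne_zero_of_mul e2)]
    have h := right_ne_zero_of_mul e2
    by_contra h4
    rw [if_neg (fun h5 => h4 (by rw [h5]))] at h
    exact h rfl
  refine ⟨hi, hj, S₁, S₂, A', B', bval (A 0), bval (B 0), hdis, hun,
    fun q => ⟨bval_lt _, bval_lt _⟩, bval_lt _, bval_lt _, E1, E2, ?_⟩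
  convert hij using 1
  refine Finset.sum_congr rfl fun τ _ => ?_
  by_cases hτ : goodU S₁ S₂ τ
  · rw [if_pos hτ, hentry, g1 τ hτ, g2 τ hτ]
    by_cases c1 : uwt K A' B' (preL τ) (bval i) = 0
    · simp [c1]
    · by_cases c2 : uwt K A' B' (postL τ) (bval (B 0)) = 0
      · simp [c2]
      · have p1 := hend (preL τ) S₁ (bval i) (preL_nodup τ).1
          (goodU_toFinset S₁ S₂ hun τ hτ).1 c1
        have p2 := hend (postL τ) S₂ (bval (B 0)) (preL_nodup τ).2
          (goodU_toFinset S₁ S₂ hun τ hτ).2 c2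
        rw [← E1] at p1
        rw [← E2] at p2
        rw [if_pos (by exact_mod_cast p1), if_pos (by exact_mod_cast p2), mul_one, mul_one]
  · rw [if_neg hτ]
    have h : ((fullList τ).map fun q => Matrix.single (A q) (B q) (1 : K)).prod i j = 0 := by
      by_contra h
      exact hτ (hgood τ h)
    rw [h, mul_zero]

/-- `mval` and a permutation of the coordinates. -/
theorem mval_single_perm {ι : Type*} [Fintype ι] [DecidableEq ι] {m : ℕ}
    (α : Equiv.Perm (Fin m) → K) (a b : Fin m → ι) (e : ι ≃ ι) (i j : ι) :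
    mval α (fun q => Matrix.single (e (a q)) (e (b q)) (1 : K)) (e i) (e j) =
      mval α (fun q => Matrix.single (a q) (b q) (1 : K)) i j := by
  let φ : Matrix ι ι K ≃ₐ[K] Matrix ι ι K := Matrix.reindexAlgEquiv K K e
  have hφ : ∀ p q : ι, φ (Matrix.single p q (1 : K)) = Matrix.single (e p) (e q) (1 : K) := by
    intro p q
    ext u v
    change Matrix.single p q (1 : K) (e.symm u) (e.symm v) = _
    rw [Matrix.single_apply, Matrix.single_apply]
    simp only [Equiv.eq_symm_apply]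
  have h1 : mval α (fun q => φ (Matrix.single (a q) (b q) (1 : K))) =
      φ (mval α (fun q => Matrix.single (a q) (b q) (1 : K))) := by
    rw [mval, mval, map_sum]
    refine Finset.sum_congr rfl fun σ _ => ?_
    rw [map_smul, map_list_prod, List.map_ofFn]
    rfl
  simp only [hφ] at h1
  rw [h1]
  change mval α (fun q => Matrix.single (a q) (b q) (1 : K)) (e.symm (e i)) (e.symm (e j)) = _
  rw [Equiv.symm_apply_apply, Equiv.symm_apply_apply]

/-- MODULE V1. -/
theorem exists_XData_of_cross {s : ℕ} (α : Equiv.Perm (Fin (r + 1)) → K)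
    (a b : Fin (r + 1) → Fin s ⊕ Fin s) (q₀ : Fin (r + 1))
    (h1 : (a q₀).isLeft) (h2 : (b q₀).isRight)
    (h3 : ∀ q, q ≠ q₀ → (a q).isLeft = (b q).isLeft)
    (hne : mval α (fun q => Matrix.single (a q) (b q) (1 : K)) ≠ 0) :
    ∃ ρ : Equiv.Perm (Fin (r + 1)), XData (fun τ => α (ρ * τ)) s := by
  obtain ⟨i, j, hij⟩ : ∃ i j, mval α (fun q => Matrix.single (a q) (b q) (1 : K)) i j ≠ 0 := by
    by_contra hc
    push Not at hc
    apply hne
    ext i j
    exact hc i j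
  obtain ⟨hi, hj, -⟩ := data_of_cross_entry α a b q₀ h1 h2 h3 i j hij
  obtain ⟨i, rfl⟩ : ∃ i' : Fin s, i = Sum.inl i' := by
    rcases i with i | i
    · exact ⟨i, rfl⟩
    · simp at hi
  obtain ⟨j, rfl⟩ : ∃ j' : Fin s, j = Sum.inr j' := by
    rcases j with j | j
    · simp at hj
    · exact ⟨j, rfl⟩
  have hs : 0 < s := Nat.pos_of_ne_zero (by rintro rfl; exact i.elim0)
  let z : Fin s := ⟨0, hs⟩
  let w : Fin s := ⟨s - 1, by omega⟩
  let e : Fin s ⊕ Fin s ≃ Fin s ⊕ Fin s := Equiv.sumCongr (Equiv.swap i z) (Equiv.swap j w)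
  have hL : ∀ x : Fin s ⊕ Fin s, (e x).isLeft = x.isLeft := by
    intro x
    rcases x with x | x <;> rfl
  have hR : ∀ x : Fin s ⊕ Fin s, (e x).isRight = x.isRight := by
    intro x
    rcases x with x | x <;> rfl
  have hei : e (Sum.inl i) = Sum.inl z := by
    change Sum.inl (Equiv.swap i z i) = _
    rw [Equiv.swap_apply_left]
  have hej : e (Sum.inr j) = Sum.inr w := by
    change Sum.inr (Equiv.swap j w j) = _
    rw [Equiv.swap_apply_left]
  rw [← mval_single_perm α a b e, hei, hej] at hij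
  obtain ⟨-, -, S₁, S₂, A', B', x₀, y₀, hd, hu, hAB, hx, hy, E1, E2, hsum⟩ :=
    data_of_cross_entry α (fun q => e (a q)) (fun q => e (b q)) q₀ (by rw [hL]; exact h1)
      (by rw [hR]; exact h2) (fun q hq => by rw [hL, hL]; exact h3 q hq) _ _ hij
  have hz : bval (Sum.inl z : Fin s ⊕ Fin s) = 0 := rfl
  have hw : bval (Sum.inr w : Fin s ⊕ Fin s) = s - 1 := rfl
  rw [hz] at E1 hsum
  rw [hw] at E2
  rw [Finset.sum_sub_distrib] at E1 E2
  refine ⟨Equiv.swap 0 q₀, S₁, S₂, A', B', x₀, y₀, hd, hu, hAB, hx, hy, ?_, ?_, hsum⟩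
  · have : (∑ q ∈ S₁, (B' q : ℤ)) = x₀ + ∑ q ∈ S₁, (A' q : ℤ) := by
      rw [E1]; push_cast; ring
    exact_mod_cast this
  · have : ((y₀ : ℤ) + ∑ q ∈ S₂, (B' q : ℤ)) + 1 = s + ∑ q ∈ S₂, (A' q : ℤ) := by
      have h4 : ((s - 1 : ℕ) : ℤ) = (s : ℤ) - 1 := by
        rw [Nat.cast_sub (by omega)]; rfl
      rw [h4] at E2
      linarith
    exact_mod_cast this

end Pool.Agent.P5e96
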