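import Mathlib
import Pool.Agent.Lib.P5e96.UBData

/-!
# The weight of a word which crosses from the first to the last window of a path
-/

open Finset MvPolynomial Matrix

namespace Pool.Agent.P5e96

variable {K : Type*} [Field K] {r : ℕ}

theorem pend_lt (b : ℕ → ℕ) (s : ℕ) (hb : ∀ q, b q < s) (l : List ℕ) (x : ℕ) (hx : x < s) :
    pend b l x < s := by
  induction l generalizing x with
  | nil => exact hx
  | cons q l ih => exact ih _ (hb q)

/-- The weight of a word inside a window with vertices `V 0, ..., V (s - 1)`. -/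
theorem pwt_window {ι : Type*} (w : ℕ × ι → K) (π : Equiv.Perm ι) (e a b : ℕ → ℕ) (s : ℕ)
    (hab : ∀ q, a q < s ∧ b q < s) (V : ℕ → ι) (G : Finset ℕ) (l₁ l₂ : List ℕ)
    (h1 : ∀ q ∈ l₁, q ∈ G → ∀ x < s, w (q, V x) = if a q = x then 1 else 0)
    (h2 : ∀ q ∈ l₁, q ∉ G → ∀ x < s, w (q, V x) = 0)
    (h3 : ∀ q ∈ l₁, (π ^ e q) (V (a q)) = V (b q)) (x : ℕ) (hx : x < s) :
    pwt w π e (l₁ ++ l₂) (V x) = if (∀ q ∈ l₁, q ∈ G) then
      uwt K a b l₁ x * pwt w π e l₂ (V (pend b l₁ x)) else 0 := by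
  induction l₁ generalizing x with
  | nil => simp [uwt, pend]
  | cons q l ih =>
    have ih' := ih (fun q hq => h1 q (List.mem_cons_of_mem _ hq))
      (fun q hq => h2 q (List.mem_cons_of_mem _ hq))
      (fun q hq => h3 q (List.mem_cons_of_mem _ hq))
    rw [List.cons_append, pwt, uwt, pend]
    by_cases hq : q ∈ G
    · rw [h1 q List.mem_cons_self hq x hx]
      by_cases hx' : a q = x
      · rw [if_pos hx', if_pos hx', one_mul, ← hx', h3 q List.mem_cons_self,
          ih' (b q) (hab q).2]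
        by_cases hl : ∀ q ∈ l, q ∈ G
        · rw [if_pos hl, if_pos]
          intro q' hq'
          rcases List.mem_cons.1 hq' with h | h
          · rw [h]
            exact hq
          · exact hl q' h
        · rw [if_neg hl, if_neg (fun h => hl (fun q' hq' => h q' (List.mem_cons_of_mem _ hq')))]
      · rw [if_neg hx', if_neg hx', zero_mul, zero_mul, ite_self]
    · rw [h2 q List.mem_cons_self hq x hx, zero_mul,
        if_neg (fun h => hq (h q List.mem_cons_self))]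

/-- MODULE V2. -/
theorem pwt_cross {ι : Type*} [DecidableEq ι] (π : Equiv.Perm ι) (e : ℕ → ℕ) (p s : ℕ)
    (hsp : 2 * s ≤ p) (v : ι)
    (hv : ∀ x y, x < p → y < p → (π ^ x) v = (π ^ y) v → x = y)
    (S₁ S₂ : Finset ℕ) (hd : Disjoint S₁ S₂) (hu : S₁ ∪ S₂ = Finset.Icc 1 r)
    (a b : ℕ → ℕ) (hab : ∀ q, a q < s ∧ b q < s)
    (he : ∀ q, q ≠ 0 → π ^ (e q + a q) = π ^ b q) (x₀ y₀ : ℕ) (hx₀ : x₀ < s) (hy₀ : y₀ < s)
    (he0 : π ^ (e 0 + x₀) = π ^ (p - s + y₀))
    (hsum : ∑ q ∈ S₁, b q = x₀ + ∑ q ∈ S₁, a q) (σ : Equiv.Perm (Fin (r + 1))) :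
    pwt (fun z : ℕ × ι => if (z.1 ∈ S₁ ∧ z.2 = (π ^ a z.1) v) ∨
        (z.1 ∈ S₂ ∧ z.2 = (π ^ (p - s + a z.1)) v) ∨ (z.1 = 0 ∧ z.2 = (π ^ x₀) v)
        then (1 : K) else 0) π e (fullList σ) v =
      if goodU S₁ S₂ σ then uwt K a b (preL σ) 0 * uwt K a b (postL σ) y₀ else 0 := by
  have hs : 0 < s := lt_of_le_of_lt (Nat.zero_le _) (hab 0).1
  have hmem : ∀ q, (q ∈ S₁ ∨ q ∈ S₂) ↔ 1 ≤ q ∧ q ≤ r := by
    intro q
    rw [← Finset.mem_union, hu, Finset.mem_Icc]
  have hdis : ∀ q, q ∈ S₁ → q ∈ S₂ → False := fun q h1 h2 =>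
    Finset.disjoint_left.1 hd h1 h2
  have h0S₁ : 0 ∉ S₁ := fun h => by
    have := (hmem 0).1 (Or.inl h)
    omega
  have h0S₂ : 0 ∉ S₂ := fun h => by
    have := (hmem 0).1 (Or.inr h)
    omega
  have hlt : ∀ q, q ∈ preL σ ∨ q ∈ postL σ → q ≠ 0 ∧ (q ∈ S₁ ∨ q ∈ S₂) := by
    intro q hq
    have h1 : q ∈ fullList σ := by
      rw [fullList_eq, List.mem_append, List.mem_cons]
      tauto
    have h2 : q ≠ 0 := by
      rintro rfl
      have := zero_notMem σ
      tauto
    rw [fullList, List.mem_ofFn'] at h1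
    obtain ⟨t, rfl⟩ := h1
    rw [hmem]
    exact ⟨h2, Nat.one_le_iff_ne_zero.2 h2, Nat.lt_succ_iff.1 (σ t).2⟩
  set w : ℕ × ι → K := fun z : ℕ × ι => if (z.1 ∈ S₁ ∧ z.2 = (π ^ a z.1) v) ∨
        (z.1 ∈ S₂ ∧ z.2 = (π ^ (p - s + a z.1)) v) ∨ (z.1 = 0 ∧ z.2 = (π ^ x₀) v)
        then (1 : K) else 0 with hw
  have W1 := pwt_window w π e a b s hab (fun x => (π ^ x) v) S₁ (preL σ) (0 :: postL σ)
    (by
      intro q hq hqS x hx
      obtain ⟨hq0, -⟩ := hlt q (Or.inl hq)
      have ha := (hab q).1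
      simp only [hw]
      refine if_congr ?_ rfl rfl
      constructor
      · rintro (⟨_, h⟩ | ⟨h, _⟩ | ⟨h, _⟩)
        · exact (hv x (a q) (by omega) (by omega) h).symm
        · exact (hdis q hqS h).elim
        · exact (hq0 h).elim
      · rintro rfl
        exact Or.inl ⟨hqS, rfl⟩)
    (by
      intro q hq hqS x hx
      obtain ⟨hq0, -⟩ := hlt q (Or.inl hq)
      have ha := (hab q).1
      simp only [hw]
      rw [if_neg]
      rintro (⟨h, _⟩ | ⟨_, h⟩ | ⟨h, _⟩)
      · exact hqS h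
      · have := hv x (p - s + a q) (by omega) (by omega) h
        omega
      · exact hq0 h)
    (by
      intro q hq
      obtain ⟨hq0, -⟩ := hlt q (Or.inl hq)
      show (π ^ e q) ((π ^ a q) v) = (π ^ b q) v
      rw [← Equiv.Perm.mul_apply, ← pow_add, he q hq0]) 0 hs
  have W2 := pwt_window w π e a b s hab (fun y => (π ^ (p - s + y)) v) S₂ (postL σ) []
    (by
      intro q hq hqS x hx
      obtain ⟨hq0, -⟩ := hlt q (Or.inr hq)
      have ha := (hab q).1
      simp only [hw]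
      refine if_congr ?_ rfl rfl
      constructor
      · rintro (⟨h, _⟩ | ⟨_, h⟩ | ⟨h, _⟩)
        · exact (hdis q h hqS).elim
        · have := hv (p - s + x) (p - s + a q) (by omega) (by omega) h
          omega
        · exact (hq0 h).elim
      · rintro rfl
        exact Or.inr (Or.inl ⟨hqS, rfl⟩))
    (by
      intro q hq hqS x hx
      obtain ⟨hq0, -⟩ := hlt q (Or.inr hq)
      have ha := (hab q).1
      simp only [hw]
      rw [if_neg]
      rintro (⟨_, h⟩ | ⟨h, _⟩ | ⟨h, _⟩)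
      · have := hv (p - s + x) (a q) (by omega) (by omega) h
        omega
      · exact hqS h
      · exact hq0 h)
    (by
      intro q hq
      obtain ⟨hq0, -⟩ := hlt q (Or.inr hq)
      show (π ^ e q) ((π ^ (p - s + a q)) v) = (π ^ (p - s + b q)) v
      rw [← Equiv.Perm.mul_apply, ← pow_add,
        show e q + (p - s + a q) = (p - s) + (e q + a q) by ring, pow_add, he q hq0,
        ← pow_add]) y₀ hy₀
  simp only [List.append_nil, pow_zero, Equiv.Perm.one_apply] at W1 W2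
  rw [fullList_eq, W1]
  set x₁ := pend b (preL σ) 0 with hx₁
  have hx₁s : x₁ < s := pend_lt b s (fun q => (hab q).2) _ _ hs
  have h0 : w (0, (π ^ x₁) v) = if x₁ = x₀ then 1 else 0 := by
    simp only [hw]
    refine if_congr ?_ rfl rfl
    constructor
    · rintro (⟨h, _⟩ | ⟨h, _⟩ | ⟨_, h⟩)
      · exact (h0S₁ h).elim
      · exact (h0S₂ h).elim
      · exact hv x₁ x₀ (by omega) (by omega) h
    · intro h
      rw [h]
      exact Or.inr (Or.inr ⟨trivial, rfl⟩)
  rw [pwt, h0]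
  by_cases hg : goodU S₁ S₂ σ
  · have g1 : ∀ q ∈ preL σ, q ∈ S₁ := by
      intro q hq
      have h1 := hg.1 q hq
      have h2 := (hlt q (Or.inl hq)).2
      tauto
    have g2 : ∀ q ∈ postL σ, q ∈ S₂ := by
      intro q hq
      have h1 := hg.2 q hq
      have h2 := (hlt q (Or.inr hq)).2
      tauto
    rw [if_pos hg, if_pos g1]
    by_cases c : uwt K a b (preL σ) 0 = 0
    · rw [c, zero_mul, zero_mul]
    · have h1 := uwt_pend a b _ _ c
      rw [← hx₁, ← List.sum_toFinset _ (preL_nodup σ).1, (goodU_toFinset S₁ S₂ hu σ hg).1,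
        Finset.sum_sub_distrib] at h1
      have h2 : (∑ q ∈ S₁, (b q : ℤ)) = x₀ + ∑ q ∈ S₁, (a q : ℤ) := by exact_mod_cast hsum
      have h3 : x₁ = x₀ := by
        rw [h2] at h1
        push_cast at h1
        have : (x₁ : ℤ) = x₀ := by rw [h1]; ring
        exact_mod_cast this
      rw [if_pos h3, one_mul, h3, ← Equiv.Perm.mul_apply, ← pow_add, he0, W2, if_pos g2, pwt,
        mul_one]
  · rw [if_neg hg]
    by_cases g1 : ∀ q ∈ preL σ, q ∈ S₁
    · rw [if_pos g1]
      have g2 : ¬ ∀ q ∈ postL σ, q ∈ S₂ := by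
        intro g2
        apply hg
        exact ⟨fun q hq h => hdis q (g1 q hq) h, fun q hq h => hdis q h (g2 q hq)⟩
      by_cases h3 : x₁ = x₀
      · rw [if_pos h3, one_mul, h3, ← Equiv.Perm.mul_apply, ← pow_add, he0, W2, if_neg g2,
          mul_zero]
      · rw [if_neg h3, zero_mul, mul_zero]
    · rw [if_neg g1]

end Pool.Agent.P5e96
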