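import Mathlib
import Pool.Agent.Lib.P5e96.UXData
import Pool.Agent.Lib.P5e96.UXPath
import Pool.Agent.Lib.P5e96.UBMain

/-!
# A cyclic first diagonal block, for polynomials with block data
-/

open Finset MvPolynomial Matrix

namespace Pool.Agent.P5e96

variable {K : Type*} [Field K] {r : ℕ}

/-- All matrices with a suitable weighted cyclic shift as first diagonal block and zero as second
diagonal block are values. -/
theorem value_two_xdata [Infinite K] {p s : ℕ} (hs : 1 ≤ s) (hps : 2 * s ≤ p)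
    (α : Equiv.Perm (Fin (r + 1)) → K) (hα : XData α s) :
    ∃ d : Fin p → K, (∀ i, d i ≠ 0) ∧ ∀ T : Matrix (Fin p ⊕ Fin s) (Fin p ⊕ Fin s) K,
      (∀ i j : Fin p, T (Sum.inl i) (Sum.inl j) = if (i : ℕ) = (j + 1) % p then d i else 0) →
      (∀ i j : Fin s, T (Sum.inr i) (Sum.inr j) = 0) →
      ∃ A : Fin (r + 1) → Matrix (Fin p ⊕ Fin s) (Fin p ⊕ Fin s) K, mval α A = T := by
  obtain ⟨S₁, S₂, a, b, x₀, y₀, hd, hu, hab, hx₀, hy₀, hsum1, hsum2, hne⟩ := hα
  set π : Equiv.Perm (Fin p ⊕ Fin s) := Equiv.sumCongr (finRotate p) (finRotate s) with hπdef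
  have hπ : ∀ u x y, x < s → y < s → (π ^ x) u = (π ^ y) u → x = y := by
    intro u x y hx hy h
    rcases u with u | u
    · rw [hπdef, (sumCongr_pow _ _ x).1, (sumCongr_pow _ _ y).1] at h
      exact rot_inj p u x y (by omega) (by omega) (Sum.inl_injective h)
    · rw [hπdef, (sumCongr_pow _ _ x).2, (sumCongr_pow _ _ y).2] at h
      exact rot_inj s u x y (by omega) (by omega) (Sum.inr_injective h)
  have hπ1 : ∀ (u : Fin p) x y, x < p → y < p →
      (π ^ x) (Sum.inl u) = (π ^ y) (Sum.inl u) → x = y := by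
    intro u x y hx hy h
    rw [hπdef, (sumCongr_pow _ _ x).1, (sumCongr_pow _ _ y).1] at h
    exact rot_inj p u x y hx hy (Sum.inl_injective h)
  have hcol : ∀ v, (π v).isLeft = v.isLeft := by rintro (v | v) <;> simp [hπdef]
  set N := orderOf π with hN
  have hN1 : 1 ≤ N := orderOf_pos π
  have hNs : s ≤ N * s := Nat.le_mul_of_pos_left s hN1
  set e : ℕ → ℕ := fun q => if q = 0 then N * s + (p - s + y₀) - x₀ else N * s + b q - a q with he
  have heab : ∀ q, q ≠ 0 → e q + a q = N * s + b q := by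
    intro q hq
    have h1 := (hab q).1
    rw [he]
    simp only
    rw [if_neg hq]
    omega
  have he00 : e 0 + x₀ = N * s + (p - s + y₀) := by
    rw [he]
    simp only [if_true]
    omega
  have heq : ∀ q, q ≠ 0 → π ^ (e q + a q) = π ^ b q := by
    intro q hq
    rw [heab q hq, pow_add, pow_mul, pow_orderOf_eq_one, one_pow, one_mul]
  have heq0 : π ^ (e 0 + x₀) = π ^ (p - s + y₀) := by
    rw [he00, pow_add, pow_mul, pow_orderOf_eq_one, one_pow, one_mul]
  -- the exponents for the polynomials of the coupling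
  set a' : ℕ → ℕ := fun q => if q = 0 then 0 else a q with ha'
  set b' : ℕ → ℕ := fun q => if q = 0 then 0 else b q with hb'
  have hS0 : ∀ S : Finset ℕ, (∀ q ∈ S, q ≠ 0) → ∑ q ∈ S, e q + ∑ q ∈ S, a q =
      S.card * (N * s) + ∑ q ∈ S, b q := by
    intro S hS
    rw [← Finset.sum_add_distrib, Finset.sum_congr rfl fun q hq => heab q (hS q hq),
      Finset.sum_add_distrib, Finset.sum_const, smul_eq_mul]
  have hz : ∀ q ∈ S₁ ∪ S₂, q ≠ 0 := by
    intro q hq
    rw [hu, Finset.mem_Icc] at hq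
    omega
  have htot : ∀ σ : Equiv.Perm (Fin (r + 1)),
      totG e (fullList σ) + 1 = N * ((S₁.card + 1 + S₂.card) * s) + p := by
    intro σ
    have h1 : totG e (fullList σ) = ∑ q ∈ insert 0 (S₁ ∪ S₂), e q := by
      refine totG_eq_sum e _ (fullList_nodup σ) _ fun q => ?_
      rw [hu, Finset.mem_insert, Finset.mem_Icc]
      constructor
      · intro hq
        rw [fullList, List.mem_ofFn'] at hq
        obtain ⟨t, rfl⟩ := hq
        have := (σ t).2
        change ((σ t : Fin (r + 1)) : ℕ) = 0 ∨ 1 ≤ ((σ t : Fin (r + 1)) : ℕ) ∧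
          ((σ t : Fin (r + 1)) : ℕ) ≤ r
        omega
      · intro hq
        exact mem_fullList σ q (by omega)
    have h0 : (0 : ℕ) ∉ S₁ ∪ S₂ := fun h => hz 0 h rfl
    rw [h1, Finset.sum_insert h0, Finset.sum_union hd]
    have h2 := hS0 S₁ fun q hq => hz q (Finset.mem_union_left _ hq)
    have h3 := hS0 S₂ fun q hq => hz q (Finset.mem_union_right _ hq)
    have h4 : N * ((S₁.card + 1 + S₂.card) * s) =
        S₁.card * (N * s) + N * s + S₂.card * (N * s) := by ring
    rw [h4]
    omega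
  have hab' : ∀ q, a' q < s ∧ b' q < s := by
    intro q
    rw [ha', hb']
    by_cases hq : q = 0
    · simp only [hq, if_true]
      omega
    · simp only [hq, if_false]
      exact hab q
  have hcongr : ∀ (l : List ℕ) (x : ℕ), (∀ q ∈ l, q ≠ 0) →
      uwt K a' b' l x = uwt K a b l x := by
    intro l
    induction l with
    | nil => intro x _; rfl
    | cons q l ih =>
      intro x hl
      have hq := hl q List.mem_cons_self
      rw [uwt, uwt, ha', hb']
      simp only [hq, if_false]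
      rw [← ha', ← hb', ih _ fun q hq => hl q (List.mem_cons_of_mem _ hq)]
  have hnz : ∀ σ : Equiv.Perm (Fin (r + 1)), (∀ q ∈ preL σ, q ≠ 0) ∧ ∀ q ∈ postL σ, q ≠ 0 := by
    intro σ
    obtain ⟨h01, h02⟩ := zero_notMem σ
    exact ⟨fun q hq h => h01 (h ▸ hq), fun q hq h => h02 (h ▸ hq)⟩
  have hne' : (∑ σ : Equiv.Perm (Fin (r + 1)), if goodU S₁ S₂ σ then
      α σ * (uwt K a' b' (preL σ) 0 * uwt K a' b' (postL σ) y₀) else 0) ≠ 0 := by
    have h1 : ∀ σ : Equiv.Perm (Fin (r + 1)), (if goodU S₁ S₂ σ then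
        α σ * (uwt K a' b' (preL σ) 0 * uwt K a' b' (postL σ) y₀) else 0) =
        if goodU S₁ S₂ σ then
        α σ * (uwt K a b (preL σ) 0 * uwt K a b (postL σ) y₀) else 0 := by
      intro σ
      rw [hcongr _ _ (hnz σ).1, hcongr _ _ (hnz σ).2]
    rw [Finset.sum_congr rfl fun σ _ => h1 σ]
    exact hne
  -- the exponents `e'` agree with `e` on the letters of the two sets
  set e' : ℕ → ℕ := fun q => if q = 0 then 0 else e q with he'
  have heq' : ∀ q, π ^ (e' q + a' q) = π ^ b' q := by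
    intro q
    rw [he', ha', hb']
    by_cases hq : q = 0
    · simp [hq]
    · simp only [hq, if_false]
      exact heq q hq
  have hexpo : ∀ (l : List ℕ) (v : Fin p ⊕ Fin s), (∀ q ∈ l, q ≠ 0) →
      expoG π e' l v = expoG π e l v := by
    intro l
    induction l with
    | nil => intro v _; rfl
    | cons q l ih =>
      intro v hl
      have hq := hl q List.mem_cons_self
      have hqe : e' q = e q := by
        rw [he']
        simp only [hq, if_false]
      rw [expoG, expoG, hqe, ih _ fun q hq => hl q (List.mem_cons_of_mem _ hq)]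
  have hgam : ∀ i j, gamB π e α S₁ S₂ i j ≠ 0 := by
    intro i j
    have h1 := gamB_ne_zero π e' s hπ α S₁ S₂ hd hu a' b' hab' heq' 0 y₀ (by omega) hy₀ hne' i j
    have h2 : gamB π e' α S₁ S₂ i j = gamB π e α S₁ S₂ i j := by
      rw [gamB, gamB]
      refine Finset.sum_congr rfl fun σ _ => ?_
      rw [hexpo _ _ (hnz σ).1, hexpo _ _ (hnz σ).2]
    rwa [h2] at h1
  have hdel : ∀ v : Fin p, delG π e α (Sum.inl v) ≠ 0 := by
    intro v h0
    apply hne
    set w : ℕ × (Fin p ⊕ Fin s) → K := fun z => if (z.1 ∈ S₁ ∧ z.2 = (π ^ a z.1) (Sum.inl v)) ∨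
      (z.1 ∈ S₂ ∧ z.2 = (π ^ (p - s + a z.1)) (Sum.inl v)) ∨
      (z.1 = 0 ∧ z.2 = (π ^ x₀) (Sum.inl v)) then (1 : K) else 0 with hw
    have h1 : eval w (delG π e α (Sum.inl v)) = 0 := by rw [h0, map_zero]
    refine Eq.trans ?_ h1
    rw [delG, map_sum]
    refine Finset.sum_congr rfl fun σ _ => ?_
    have h2 := pwt_cross (K := K) π e p s hps (Sum.inl v) (hπ1 v) S₁ S₂ hd hu a b hab heq x₀ y₀
      hx₀ hy₀ heq0 hsum1 σ
    rw [← hw, ← eval_expoG] at h2
    have h3 : eval w (monomial (expoG π e (fullList σ) (Sum.inl v)) (α σ)) = α σ *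
        eval w (monomial (expoG π e (fullList σ) (Sum.inl v)) (1 : K)) := by
      simp only [eval_monomial, one_mul]
    rw [h3, h2]
    split_ifs
    · rfl
    · rw [mul_zero]
  have hP : (∏ i, ∏ j, gamB π e α S₁ S₂ i j) * ∏ v : Fin p, delG π e α (Sum.inl v) ≠ 0 :=
    mul_ne_zero (Finset.prod_ne_zero_iff.2 fun i _ => Finset.prod_ne_zero_iff.2 fun j _ =>
      hgam i j) (Finset.prod_ne_zero_iff.2 fun v _ => hdel v)
  obtain ⟨w, hw⟩ := exists_eval_ne _ hP
  rw [map_mul] at hw
  have hw1 : ∀ i j, eval w (gamB π e α S₁ S₂ i j) ≠ 0 := by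
    intro i j
    have h1 := left_ne_zero_of_mul hw
    rw [map_prod] at h1
    have h2 := Finset.prod_ne_zero_iff.1 h1 i (mem_univ _)
    rw [map_prod] at h2
    exact Finset.prod_ne_zero_iff.1 h2 j (mem_univ _)
  have hw2 : ∀ v : Fin p, eval w (delG π e α (Sum.inl v)) ≠ 0 := by
    intro v
    have h1 := right_ne_zero_of_mul hw
    rw [map_prod] at h1
    exact Finset.prod_ne_zero_iff.1 h1 v (mem_univ _)
  refine ⟨fun i => eval w (delG π e α (Sum.inl i)), fun i => hw2 _, fun T hT1 hT2 => ?_⟩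
  set C : ℕ → Matrix (Fin p ⊕ Fin s) (Fin p ⊕ Fin s) K := cmatG π e w with hC
  have hCb : ∀ q (i j : Fin p ⊕ Fin s), i.isLeft ≠ j.isLeft → C q i j = 0 := fun q i j hij =>
    cmatG_block (fun x : Fin p ⊕ Fin s => x.isLeft) π hcol e w q i j hij
  set pr : Matrix (Fin p ⊕ Fin s) (Fin p ⊕ Fin s) K :=
    Matrix.diagonal fun i => if i.isLeft = true then 1 else 0 with hpr
  have hcomm : ∀ l : List ℕ, Commute pr (l.map C).prod := by
    intro l
    exact (prod_map_mul _ C (fun q => block_commute (fun x : Fin p ⊕ Fin s => x.isLeft) (C q)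
      (hCb q) (fun c => if c = true then 1 else 0)) l).2
  refine block_scale_steps (fun x : Fin p ⊕ Fin s => x.isLeft) α C hCb S₁ S₂ hd
    (fun X hXh hX => ?_) (pr * C 0) T ?_
  · ext c j
    by_cases haj : c.isLeft = j.isLeft
    · exact hXh c j haj
    · obtain ⟨i, rfl⟩ := (π ^ (∑ q ∈ S₁, e q)).surjective c
      have h5 := sumB_apply π e S₁ S₂ (∑ q ∈ S₁, e q) (∑ q ∈ S₂, e q)
        (fun σ hσ => goodU_totB S₁ S₂ hd hu e σ hσ) α w X i j
      have h6 : (∑ σ : Equiv.Perm (Fin (r + 1)), if goodU S₁ S₂ σ then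
        α σ • act (cmatG π e w) σ X else 0) = 0 := hX
      rw [h6, Matrix.zero_apply] at h5
      rw [Matrix.zero_apply]
      exact (mul_eq_zero.1 h5.symm).resolve_left (hw1 i j)
  · intro i j hij
    rw [mval_act]
    have h1 : ∀ σ : Equiv.Perm (Fin (r + 1)),
        act C σ (pr * C 0) = pr * act C σ (C 0) := by
      intro σ
      rw [act_apply, act_apply, mul_assoc, ← mul_assoc _ pr, ← (hcomm (preL σ)).eq,
        mul_assoc]
    have h2 : (∑ σ : Equiv.Perm (Fin (r + 1)), α σ • act C σ (pr * C 0)) =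
        pr * ∑ σ : Equiv.Perm (Fin (r + 1)), α σ • act C σ (C 0) := by
      rw [Finset.mul_sum]
      refine Finset.sum_congr rfl fun σ _ => ?_
      rw [h1, mul_smul_comm]
    rw [h2, hpr, Matrix.diagonal_mul]
    have h3 := sumD_apply π e α w 1 i j
    rw [← hC] at h3
    rw [h3]
    rcases i with i | i <;> rcases j with j | j
    · have hinv : (finRotate p) * (finRotate p) ^ totG e (fullList (1 : Equiv.Perm (Fin (r + 1)))) =
          1 := by
        rw [← pow_succ', htot 1]
        ext x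
        have h4 : (π ^ (N * ((S₁.card + 1 + S₂.card) * s) + p)) (Sum.inl x) = Sum.inl x := by
          rw [pow_add, pow_mul, pow_orderOf_eq_one, one_pow, one_mul, hπdef,
            (sumCongr_pow _ _ p).1, Sum.inl.injEq, Fin.ext_iff, rot_pow,
            Nat.add_mod_right, Nat.mod_eq_of_lt x.2]
        rw [hπdef, (sumCongr_pow _ _ _).1] at h4
        rw [Sum.inl_injective h4]
        rfl
      have h4 : ((i : ℕ) = (j + 1) % p) ↔
          (Sum.inl j : Fin p ⊕ Fin s) = (π ^ totG e (fullList (1 : Equiv.Perm (Fin (r + 1)))))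
            (Sum.inl i) := by
        rw [hπdef, (sumCongr_pow _ _ _).1, Sum.inl.injEq]
        have h6 : j = (finRotate p ^ totG e (fullList (1 : Equiv.Perm (Fin (r + 1))))) i ↔
            finRotate p j = i := by
          constructor
          · intro h
            rw [h, ← Equiv.Perm.mul_apply, hinv, Equiv.Perm.one_apply]
          · intro h
            apply (finRotate p).injective
            rw [h, ← Equiv.Perm.mul_apply, hinv, Equiv.Perm.one_apply]
        rw [h6, Fin.ext_iff]
        have h7 := rot_pow p 1 j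
        rw [pow_one] at h7
        rw [h7]
        exact eq_comm
      rw [if_pos (by rfl), one_mul, hT1]
      by_cases h5 : (i : ℕ) = (j + 1) % p
      · rw [if_pos h5, if_pos (h4.1 h5)]
      · rw [if_neg h5, if_neg (fun h => h5 (h4.2 h))]
    · simp at hij
    · simp at hij
    · rw [if_neg (by simp), zero_mul, hT2]

/-- Every trace-zero matrix with a cyclic vector is a value if `3 * s ≤ n` and the polynomial is no
identity of the block upper triangular matrices with blocks of size `s`. -/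
theorem value_of_cyclic_ub [Infinite K] {m : ℕ} (hm : 1 ≤ m) (α : Equiv.Perm (Fin m) → K)
    (hα : α ≠ 0) (s : ℕ) (hs : NotBlk α s) {n : ℕ} (hn : 3 * s ≤ n)
    (T : Matrix (Fin n) (Fin n) K)
    (hT : T.trace = 0) (v : Fin n → K)
    (hv : LinearIndependent K fun i : Fin n => (T ^ (i : ℕ)) *ᵥ v) :
    ∃ A : Fin m → Matrix (Fin n) (Fin n) K, mval α A = T := by
  obtain ⟨r, rfl⟩ : ∃ r, m = r + 1 := ⟨m - 1, by omega⟩
  obtain ⟨U, hU, hne⟩ : ∃ U : Fin (r + 1) → Matrix (Fin s ⊕ Fin s) (Fin s ⊕ Fin s) K,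
      (∀ q i j, U q (Sum.inr i) (Sum.inl j) = 0) ∧ mval α U ≠ 0 := by
    rcases hs with hs | hs
    · exact exists_block_of_degree α hα s (by omega)
    · exact hs
  obtain ⟨a, b, q₀, h1, h2, h3, h4⟩ := exists_cross α U hU hne
  obtain ⟨ρ, hρ⟩ := exists_XData_of_cross α a b q₀ h1 h2 h3 h4
  have hs1 : 1 ≤ s := by
    obtain ⟨S₁, S₂, a, b, x₀, y₀, _, _, _, hx₀, _⟩ := hρ
    omega
  refine value_relabel α ρ T ?_
  obtain ⟨d, hd0, hval⟩ := value_two_xdata (K := K) (p := n - s) (s := s) hs1 (by omega) _ hρ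
  obtain ⟨b', hb1, hb2⟩ := exists_completion (p := n - s)
    (s := s) (by omega) (by omega) (by omega) T hT v hv d hd0
  refine value_of_toMatrix _ T b' (hval _ (fun i j => ?_) (fun i j => ?_))
  · rw [LinearMap.toMatrix_apply, Matrix.toLin'_apply]
    exact hb1 i j
  · rw [LinearMap.toMatrix_apply, Matrix.toLin'_apply]
    exact hb2 i j

end Pool.Agent.P5e96
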